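import Mathlib

/-!
# Alternating functions on integer vectors and the interlacing lemma
-/

namespace Pool.Agent.Helper32.HG

open Finset
open scoped Classical

variable {L : ℕ} {M : Type*} [AddCommGroup M]

/-- alternating functions of integer vectors -/
structure Alt (A : (Fin L → ℤ) → M) : Prop where
  swap : ∀ (l : Fin L → ℤ) (i j : Fin L), i ≠ j → A (l ∘ Equiv.swap i j) = - A l
  rep : ∀ (l : Fin L → ℤ) (i j : Fin L), i ≠ j → l i = l j → A l = 0

/-- the condition at a place of the lower interlacing -/
def Low (l : Fin L → ℤ) (c : Fin L → ℕ) (i : Fin L) : Prop :=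
  ∀ j : Fin L, i.val + 1 = j.val → l j < l i - c i

/-- the swap involution on shift vectors -/
def swp (l : Fin L → ℤ) (k j : Fin L) (c : Fin L → ℕ) : Fin L → ℕ := fun x =>
  if x = k then (l k - (l j - c j)).toNat else if x = j then (l j - (l k - c k)).toNat else c x

theorem swp_sub (l : Fin L → ℤ) (hl : StrictAnti l) {k j : Fin L} (hkj : k.val + 1 = j.val)
    (c : Fin L → ℕ) (hb : l k - c k ≤ l j) :
    (fun i => l i - (swp l k j c i : ℤ)) = (fun i => l i - (c i : ℤ)) ∘ Equiv.swap k j := by
  have hkj' : k ≠ j := by
    intro h; rw [h] at hkj; omega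
  have hlt : l j < l k := hl (by rw [Fin.lt_def]; omega)
  funext x
  simp only [swp, Function.comp]
  by_cases h1 : x = k
  · subst h1
    rw [if_pos rfl, Equiv.swap_apply_left, Int.toNat_of_nonneg (by omega)]
    ring
  · by_cases h2 : x = j
    · subst h2
      rw [if_neg h1, if_pos rfl, Equiv.swap_apply_right, Int.toNat_of_nonneg (by omega)]
      ring
    · rw [if_neg h1, if_neg h2, Equiv.swap_apply_of_ne_of_ne h1 h2]

theorem il_step {A : (Fin L → ℤ) → M} (hA : Alt A) (l : Fin L → ℤ) (hl : StrictAnti l) (m : ℕ)
    (k : Fin L) :
    ∑ c ∈ (piAntidiag (univ : Finset (Fin L)) m).filter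
        (fun c => (∀ i : Fin L, i < k → Low l c i) ∧ ¬ Low l c k), A (fun i => l i - c i) = 0 := by
  classical
  by_cases hk : ∃ j : Fin L, k.val + 1 = j.val
  · obtain ⟨j, hkj⟩ := hk
    have hkj' : k ≠ j := by
      intro h; rw [h] at hkj; omega
    have hlt : l j < l k := hl (by rw [Fin.lt_def]; omega)
    have key : ∀ c ∈ (piAntidiag (univ : Finset (Fin L)) m).filter
        (fun c => (∀ i : Fin L, i < k → Low l c i) ∧ ¬ Low l c k), l k - c k ≤ l j := by
      intro c hc
      rw [mem_filter] at hc
      have h2 := hc.2.2
      by_contra h3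
      apply h2
      intro j' hj'
      have : j' = j := Fin.ext (by omega)
      subst this
      omega
    refine Finset.sum_involution (fun c _ => swp l k j c) ?_ ?_ ?_ ?_
    · intro c hc
      rw [swp_sub l hl hkj c (key c hc), hA.swap _ _ _ hkj']
      simp
    · intro c hc hne heq
      apply hne
      apply hA.rep _ k j hkj'
      have h1 := congrFun heq k
      simp only [swp, if_true] at h1
      have h2 := key c hc
      have h3 : ((l k - (l j - c j)).toNat : ℤ) = c k := by rw [h1]
      rw [Int.toNat_of_nonneg (by omega)] at h3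
      omega
    · intro c hc
      have hb := key c hc
      rw [mem_filter] at hc ⊢
      obtain ⟨hc1, hc2, hc3⟩ := hc
      refine ⟨?_, ?_, ?_⟩
      · rw [mem_piAntidiag] at hc1 ⊢
        refine ⟨?_, fun _ _ => mem_univ _⟩
        have e : (∑ i, (l i - (swp l k j c i : ℤ))) = ∑ i, (l i - (c i : ℤ)) := by
          have := swp_sub l hl hkj c hb
          have h5 : (∑ i, (l i - (swp l k j c i : ℤ))) =
              ∑ i, ((fun i => l i - (c i : ℤ)) ∘ Equiv.swap k j) i := by
            rw [← this]
          rw [h5]
          exact Equiv.sum_comp (Equiv.swap k j) (fun i => l i - (c i : ℤ))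
        rw [sum_sub_distrib, sum_sub_distrib] at e
        have e2 : ((∑ i, swp l k j c i : ℕ) : ℤ) = ((∑ i, c i : ℕ) : ℤ) := by
          push_cast
          linarith
        have e3 : (∑ i, swp l k j c i) = ∑ i, c i := by exact_mod_cast e2
        rw [e3]
        exact hc1.1
      · intro i hi
        have h6 := hc2 i hi
        intro j' hj'
        have h7 := h6 j' hj'
        have : swp l k j c i = c i := by
          simp only [swp]
          rw [if_neg (ne_of_lt hi), if_neg]
          intro h
          rw [h, Fin.lt_def] at hi
          omega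
        rw [this]
        exact h7
      · intro h
        have h8 := h j hkj
        simp only [swp, if_true] at h8
        rw [Int.toNat_of_nonneg (by omega)] at h8
        omega
    · intro c hc
      have hb := key c hc
      funext x
      simp only [swp]
      by_cases h1 : x = k
      · subst h1
        rw [if_pos rfl, if_neg (Ne.symm hkj'), if_pos trivial, Int.toNat_of_nonneg (by omega)]
        have : l x - (l j - (l j - (l x - (c x : ℤ)))) = c x := by ring
        rw [this]
        simp
      · by_cases h2 : x = j
        · subst h2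
          rw [if_neg h1, if_pos rfl, if_pos trivial, Int.toNat_of_nonneg (by omega)]
          have : l x - (l k - (l k - (l x - (c x : ℤ)))) = c x := by ring
          rw [this]
          simp
        · rw [if_neg h1, if_neg h2, if_neg h1, if_neg h2]
  · rw [filter_false_of_mem, sum_empty]
    intro c _ h
    apply h.2
    intro j hj
    exact absurd ⟨j, hj⟩ hk

/-- interlacing lemma, lower form -/
theorem il_minus {A : (Fin L → ℤ) → M} (hA : Alt A) (l : Fin L → ℤ) (hl : StrictAnti l) (m : ℕ) :
    ∑ c ∈ piAntidiag (univ : Finset (Fin L)) m, A (fun i => l i - c i) =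
    ∑ c ∈ (piAntidiag (univ : Finset (Fin L)) m).filter (fun c => ∀ i : Fin L, Low l c i),
      A (fun i => l i - c i) := by
  classical
  have main : ∀ k : ℕ, k ≤ L →
      ∑ c ∈ piAntidiag (univ : Finset (Fin L)) m, A (fun i => l i - c i) =
      ∑ c ∈ (piAntidiag (univ : Finset (Fin L)) m).filter
        (fun c => ∀ i : Fin L, i.val < k → Low l c i), A (fun i => l i - c i) := by
    intro k
    induction k with
    | zero =>
      intro _
      congr 1
      rw [filter_true_of_mem]
      intro c _ i hi
      omega
    | succ k ih =>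
      intro hk
      rw [ih (by omega)]
      have h := il_step hA l hl m ⟨k, by omega⟩
      rw [← sum_filter_add_sum_filter_not ((piAntidiag (univ : Finset (Fin L)) m).filter
        (fun c => ∀ i : Fin L, i.val < k → Low l c i)) (fun c => Low l c ⟨k, by omega⟩)]
      rw [filter_filter, filter_filter]
      have h2 : (piAntidiag (univ : Finset (Fin L)) m).filter
          (fun c => (∀ i : Fin L, i.val < k → Low l c i) ∧ ¬ Low l c ⟨k, by omega⟩) =
          (piAntidiag (univ : Finset (Fin L)) m).filter
          (fun c => (∀ i : Fin L, i < (⟨k, by omega⟩ : Fin L) → Low l c i) ∧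
            ¬ Low l c ⟨k, by omega⟩) := by
        rfl
      rw [h2, h, add_zero]
      congr 1
      apply filter_congr
      intro c _
      constructor
      · rintro ⟨h3, h4⟩ i hi
        by_cases h5 : i.val < k
        · exact h3 i h5
        · have : i = ⟨k, by omega⟩ := Fin.ext (by simp; omega)
          rw [this]
          exact h4
      · intro h3
        exact ⟨fun i hi => h3 i (by omega), h3 _ (by simp)⟩
  rw [main L le_rfl]
  congr 1
  apply filter_congr
  intro c _
  constructor
  · intro h i
    exact h i i.isLt
  · intro h i _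
    exact h i

/-- reflection of an alternating function -/
def refl (A : (Fin L → ℤ) → M) : (Fin L → ℤ) → M := fun l => A (fun i => - l (Fin.rev i))

theorem Alt.refl {A : (Fin L → ℤ) → M} (hA : Alt A) : Alt (refl A) := by
  constructor
  · intro l i j hij
    unfold HG.refl
    have : (fun x => - (l ∘ Equiv.swap i j) (Fin.rev x)) =
        (fun x => - l (Fin.rev x)) ∘ Equiv.swap (Fin.rev i) (Fin.rev j) := by
      funext x
      simp only [Function.comp]
      congr 2
      by_cases h1 : x = Fin.rev i
      · subst h1
        simp
      · by_cases h2 : x = Fin.rev j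
        · subst h2
          simp
        · rw [Equiv.swap_apply_of_ne_of_ne h1 h2, Equiv.swap_apply_of_ne_of_ne]
          · intro h; apply h1; rw [← h]; simp
          · intro h; apply h2; rw [← h]; simp
    rw [this]
    apply hA.swap
    intro h
    exact hij (Fin.rev_injective h)
  · intro l i j hij h
    unfold HG.refl
    apply hA.rep _ (Fin.rev i) (Fin.rev j)
    · intro h'
      exact hij (Fin.rev_injective h')
    · simp [h]

/-- the condition at a place of the upper interlacing -/
def Upp (l : Fin L → ℤ) (c : Fin L → ℕ) (i : Fin L) : Prop :=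
  ∀ j : Fin L, j.val + 1 = i.val → l i + c i < l j

/-- interlacing lemma, upper form -/
theorem il_plus {A : (Fin L → ℤ) → M} (hA : Alt A) (l : Fin L → ℤ) (hl : StrictAnti l) (m : ℕ) :
    ∑ c ∈ piAntidiag (univ : Finset (Fin L)) m, A (fun i => l i + c i) =
    ∑ c ∈ (piAntidiag (univ : Finset (Fin L)) m).filter (fun c => ∀ i : Fin L, Upp l c i),
      A (fun i => l i + c i) := by
  classical
  have hl' : StrictAnti (fun i => - l (Fin.rev i)) := by
    intro i j hij
    have := hl (Fin.rev_lt_rev.2 hij)
    simp only
    omega
  have h := il_minus hA.refl (fun i => - l (Fin.rev i)) hl' m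
  have e : ∀ c : Fin L → ℕ, refl A (fun i => - l (Fin.rev i) - (c i : ℤ)) =
      A (fun i => l i + ((c ∘ Fin.rev) i : ℤ)) := by
    intro c
    unfold HG.refl
    congr 1
    funext i
    simp
    ring
  simp only [e] at h
  have b1 : ∑ c ∈ piAntidiag (univ : Finset (Fin L)) m, A (fun i => l i + c i) =
      ∑ c ∈ piAntidiag (univ : Finset (Fin L)) m, A (fun i => l i + ((c ∘ Fin.rev) i : ℤ)) := by
    apply Finset.sum_bij' (fun c _ => c ∘ Fin.rev) (fun c _ => c ∘ Fin.rev)
    · intro c hc
      rw [mem_piAntidiag] at hc ⊢
      refine ⟨?_, fun _ _ => mem_univ _⟩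
      rw [← hc.1]
      exact Equiv.sum_comp Fin.revPerm c
    · intro c hc
      rw [mem_piAntidiag] at hc ⊢
      refine ⟨?_, fun _ _ => mem_univ _⟩
      rw [← hc.1]
      exact Equiv.sum_comp Fin.revPerm c
    · intro c _
      funext i; simp
    · intro c _
      funext i; simp
    · intro c _
      congr 1
      funext i; simp
  have b2 : ∑ c ∈ (piAntidiag (univ : Finset (Fin L)) m).filter (fun c => ∀ i : Fin L, Upp l c i),
        A (fun i => l i + c i) =
      ∑ c ∈ (piAntidiag (univ : Finset (Fin L)) m).filter
        (fun c => ∀ i : Fin L, Low (fun i => - l (Fin.rev i)) c i),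
        A (fun i => l i + ((c ∘ Fin.rev) i : ℤ)) := by
    apply Finset.sum_bij' (fun c _ => c ∘ Fin.rev) (fun c _ => c ∘ Fin.rev)
    · intro c hc
      rw [mem_filter, mem_piAntidiag] at hc ⊢
      refine ⟨⟨?_, fun _ _ => mem_univ _⟩, ?_⟩
      · rw [← hc.1.1]
        exact Equiv.sum_comp Fin.revPerm c
      · intro i j hij
        have := hc.2 (Fin.rev i) (Fin.rev j) (by simp only [Fin.val_rev]; omega)
        simp only [Function.comp]
        omega
    · intro c hc
      rw [mem_filter, mem_piAntidiag] at hc ⊢
      refine ⟨⟨?_, fun _ _ => mem_univ _⟩, ?_⟩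
      · rw [← hc.1.1]
        exact Equiv.sum_comp Fin.revPerm c
      · intro i j hij
        have := hc.2 (Fin.rev i) (Fin.rev j) (by simp only [Fin.val_rev]; omega)
        simp only [Function.comp, Fin.rev_rev] at this ⊢
        omega
    · intro c _
      funext i; simp
    · intro c _
      funext i; simp
    · intro c _
      congr 1
      funext i; simp
  rw [b1, h, b2]

/-- the staircase -/
def stair (L : ℕ) : Fin L → ℤ := fun j => ((Fin.rev j : Fin L) : ℕ)

theorem stair_strictAnti : StrictAnti (stair L) := by
  intro i j hij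
  unfold stair
  have := Fin.rev_lt_rev.2 hij
  rw [Fin.lt_def] at this
  exact_mod_cast this

end Pool.Agent.Helper32.HG
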