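import Mathlib
import Pool.Agent.Helper32.HG.Alt

/-!
# Complete homogeneous polynomials and Jacobi-Trudi determinants
-/

namespace Pool.Agent.Helper32.HG

open Finset MvPolynomial
open scoped Classical

/-- the complete homogeneous symmetric polynomial: the sum of all monomials of degree `k` -/
noncomputable def hk (n : ℕ) (K : Type*) [CommRing K] (k : ℕ) : MvPolynomial (Fin n) K :=
  ∑ e ∈ piAntidiag (univ : Finset (Fin n)) k, monomial (Finsupp.equivFunOnFinite.symm e) (1 : K)

/-- the same with integer index, zero for a negative index -/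
noncomputable def hz (n : ℕ) (K : Type*) [CommRing K] (k : ℤ) : MvPolynomial (Fin n) K :=
  if 0 ≤ k then hk n K k.toNat else 0

variable {n : ℕ} {K : Type*} [CommRing K]

theorem coeff_hk (k : ℕ) (f : Fin n →₀ ℕ) :
    coeff f (hk n K k) = if ∑ i, f i = k then 1 else 0 := by
  unfold hk
  rw [coeff_sum]
  simp only [coeff_monomial]
  by_cases h : ∑ i, f i = k
  · rw [if_pos h, sum_eq_single (fun i => f i)]
    · rw [if_pos]
      ext i; simp
    · intro e _ he
      rw [if_neg]
      intro h'
      apply he
      funext i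
      rw [← h']
      simp
    · intro h'
      exfalso
      apply h'
      rw [mem_piAntidiag]
      exact ⟨h, fun _ _ => mem_univ _⟩
  · rw [if_neg h]
    apply sum_eq_zero
    intro e he
    rw [if_neg]
    intro h'
    apply h
    rw [← h']
    rw [mem_piAntidiag] at he
    simpa using he.1

theorem coeff_hz (k : ℤ) (f : Fin n →₀ ℕ) :
    coeff f (hz n K k) = if ((∑ i, f i : ℕ) : ℤ) = k then 1 else 0 := by
  unfold hz
  by_cases h : 0 ≤ k
  · rw [if_pos h, coeff_hk]
    congr 1
    apply propext
    omega
  · rw [if_neg h, coeff_zero, if_neg]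
    omega

theorem hz_neg {k : ℤ} (h : k < 0) : hz n K k = 0 := by
  unfold hz
  rw [if_neg (by omega)]

theorem hz_zero : hz n K 0 = 1 := by
  ext f
  rw [coeff_hz, coeff_one]
  congr 1
  apply propext
  constructor
  · intro h
    have h1 : ∑ i, f i = 0 := by exact_mod_cast h
    rw [sum_eq_zero_iff] at h1
    ext i
    simp [h1 i (mem_univ _)]
  · intro h
    rw [← h]
    simp

/-- put a variable equal to zero -/
noncomputable def rho (v : Fin n) : MvPolynomial (Fin n) K →ₐ[K] MvPolynomial (Fin n) K :=
  aeval (fun i => if i = v then 0 else X i)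

theorem rho_monomial (v : Fin n) (s : Fin n →₀ ℕ) (a : K) :
    rho v (monomial s a) = if s v = 0 then monomial s a else 0 := by
  unfold rho
  rw [aeval_monomial, MvPolynomial.algebraMap_eq]
  by_cases h : s v = 0
  · rw [if_pos h, monomial_eq]
    congr 1
    apply Finsupp.prod_congr
    intro i hi
    have : i ≠ v := by
      intro h'
      rw [h', Finsupp.mem_support_iff] at hi
      exact hi h
    rw [if_neg this]
  · rw [if_neg h]
    have : (s.prod fun i k => (if i = v then (0 : MvPolynomial (Fin n) K) else X i) ^ k) = 0 := by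
      unfold Finsupp.prod
      apply prod_eq_zero (Finsupp.mem_support_iff.2 h)
      simp only [if_true]
      exact zero_pow h
    rw [this, mul_zero]

theorem coeff_rho (v : Fin n) (p : MvPolynomial (Fin n) K) (f : Fin n →₀ ℕ) :
    coeff f (rho v p) = if f v = 0 then coeff f p else 0 := by
  induction p using MvPolynomial.induction_on' with
  | monomial s a =>
    rw [rho_monomial]
    by_cases h : s v = 0
    · rw [if_pos h, coeff_monomial]
      by_cases h2 : s = f
      · subst h2
        simp [h]
      · rw [if_neg h2]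
        simp
    · rw [if_neg h, coeff_zero, coeff_monomial]
      by_cases h2 : s = f
      · subst h2
        rw [if_neg h]
      · rw [if_neg h2]
        simp
  | add p q hp hq =>
    rw [map_add, coeff_add, coeff_add, hp, hq]
    by_cases h : f v = 0
    · simp [h]
    · simp [h]

theorem coeff_X_pow_mul_rho (v : Fin n) (p : MvPolynomial (Fin n) K) (f : Fin n →₀ ℕ) (c : ℕ) :
    coeff f (X v ^ c * rho v p) = if f v = c then coeff (f.erase v) p else 0 := by
  rw [X_pow_eq_monomial, coeff_monomial_mul']
  by_cases h : f v = c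
  · rw [if_pos h, if_pos, one_mul, coeff_rho, if_pos]
    · congr 1
      ext i
      by_cases hi : i = v
      · subst hi
        simp [h]
      · simp [hi, Finsupp.single_apply, Ne.symm hi]
    · simp [h]
    · rw [Finsupp.single_le_iff]
      omega
  · rw [if_neg h]
    by_cases h2 : Finsupp.single v c ≤ f
    · rw [if_pos h2, one_mul, coeff_rho, if_neg]
      rw [Finsupp.single_le_iff] at h2
      simp
      omega
    · rw [if_neg h2]

theorem hz_split (v : Fin n) (k : ℤ) (D : ℕ) (hD : k ≤ D) :
    hz n K k = ∑ c ∈ range (D + 1), X v ^ c * rho v (hz n K (k - c)) := by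
  ext f
  rw [coeff_sum]
  simp only [coeff_X_pow_mul_rho]
  by_cases h : f v < D + 1
  · rw [sum_eq_single (f v)]
    · rw [if_pos rfl, coeff_hz, coeff_hz]
      have e : (∑ i, f i) = f v + ∑ i, (f.erase v) i := by
        rw [← add_sum_erase univ _ (mem_univ v)]
        congr 1
        rw [← add_sum_erase univ (fun i => (f.erase v) i) (mem_univ v)]
        simp only [Finsupp.erase_same, zero_add]
        apply sum_congr rfl
        intro i hi
        rw [Finsupp.erase_ne (ne_of_mem_erase hi)]
      rw [e]
      congr 1
      apply propext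
      push_cast
      constructor
      · intro h; linarith
      · intro h; linarith
    · intro c _ hc
      rw [if_neg (Ne.symm hc)]
    · intro h'
      exact absurd (mem_range.2 h) h'
  · rw [coeff_hz, if_neg, sum_eq_zero]
    · intro c hc
      rw [if_neg]
      rw [mem_range] at hc
      omega
    · have : f v ≤ ∑ i, f i := single_le_sum (fun _ _ => Nat.zero_le _) (mem_univ v)
      intro h'
      have h2 : ((f v : ℕ) : ℤ) ≤ ((∑ i, f i : ℕ) : ℤ) := by exact_mod_cast this
      omega

/-- the Jacobi-Trudi determinant of a vector of integers -/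
noncomputable def Sd (n : ℕ) (K : Type*) [CommRing K] {L : ℕ} (l : Fin L → ℤ) :
    MvPolynomial (Fin n) K :=
  Matrix.det (Matrix.of fun i j : Fin L => hz n K (l i - stair L j))

variable {L : ℕ}

theorem Sd_perm (l : Fin L → ℤ) (σ : Equiv.Perm (Fin L)) :
    Sd n K (l ∘ σ) = ((Equiv.Perm.sign σ : ℤ) : MvPolynomial (Fin n) K) * Sd n K l := by
  unfold Sd
  have := Matrix.det_permute σ (Matrix.of fun i j : Fin L => hz n K (l i - stair L j))
  rw [← this]
  rfl

theorem alt_Sd : Alt (fun l : Fin L → ℤ => Sd n K l) := by
  constructor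
  · intro l i j hij
    rw [Sd_perm, Equiv.Perm.sign_swap hij]
    simp
  · intro l i j hij h
    unfold Sd
    apply Matrix.det_zero_of_row_eq hij
    funext x
    simp [h]

theorem Sd_neg (l : Fin L → ℤ) (i : Fin L) (h : l i < 0) : Sd n K l = 0 := by
  unfold Sd
  apply Matrix.det_eq_zero_of_row_eq_zero i
  intro j
  apply hz_neg
  have : 0 ≤ stair L j := by unfold stair; positivity
  omega

theorem Sd_split (v : Fin n) (l : Fin L → ℤ) (D : ℕ) (hD : ∀ i, l i ≤ D) :
    Sd n K l = ∑ c ∈ Fintype.piFinset (fun _ : Fin L => range (D + 1)),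
      X v ^ (∑ i, c i) * rho v (Sd n K (fun i => l i - c i)) := by
  have h1 : (Matrix.of fun i j : Fin L => hz n K (l i - stair L j)) =
      fun i => ∑ c ∈ range (D + 1), fun j =>
        X v ^ c * rho v (hz n K (l i - c - stair L j)) := by
    funext i j
    rw [Finset.sum_apply]
    have : 0 ≤ stair L j := by unfold stair; positivity
    have h2 := hD i
    rw [Matrix.of_apply, hz_split v (l i - stair L j) D (by omega)]
    apply sum_congr rfl
    intro c _
    congr 3
    ring
  have h3 := (Matrix.detRowAlternating (R := MvPolynomial (Fin n) K) (n := Fin L)).toMultilinearMap.map_sum_finset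
    (fun (i : Fin L) (c : ℕ) => fun j : Fin L => X v ^ c * rho v (hz n K (l i - c - stair L j)))
    (fun _ => range (D + 1))
  have h4 : Sd n K l = (Matrix.detRowAlternating (R := MvPolynomial (Fin n) K) (n := Fin L)).toMultilinearMap
      (fun i => ∑ c ∈ range (D + 1), fun j => X v ^ c * rho v (hz n K (l i - c - stair L j))) := by
    rw [← h1]
    rfl
  rw [h4, h3]
  apply sum_congr rfl
  intro c _
  have h5 := (Matrix.detRowAlternating (R := MvPolynomial (Fin n) K) (n := Fin L)).toMultilinearMap.map_smul_univ
    (fun i => (X v : MvPolynomial (Fin n) K) ^ c i)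
    (fun i => fun j : Fin L => rho v (hz n K (l i - c i - stair L j)))
  have h6 : (fun i : Fin L => fun j : Fin L => (X v : MvPolynomial (Fin n) K) ^ c i * rho v (hz n K (l i - c i - stair L j)))
      = fun i => ((X v : MvPolynomial (Fin n) K) ^ c i) • fun j : Fin L => rho v (hz n K (l i - c i - stair L j)) := by
    funext i j
    rfl
  rw [h6, h5, smul_eq_mul, prod_pow_eq_pow_sum]
  congr 1
  unfold Sd
  rw [AlgHom.map_det]
  rfl

/-- the coefficients of a Jacobi-Trudi determinant, one variable at a time -/
theorem coeff_Sd_rec (v : Fin n) (l : Fin L → ℤ) (e : Fin n →₀ ℕ) :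
    coeff e (Sd n K l) = ∑ c ∈ piAntidiag (univ : Finset (Fin L)) (e v),
      coeff (e.erase v) (Sd n K (fun i => l i - c i)) := by
  obtain ⟨D, hD⟩ : ∃ D : ℕ, (∀ i, l i ≤ D) ∧ e v ≤ D := by
    refine ⟨(∑ i, (l i).toNat) + e v, ?_, by omega⟩
    intro i
    have h1 : (l i).toNat ≤ ∑ i, (l i).toNat :=
      single_le_sum (f := fun i => (l i).toNat) (fun _ _ => Nat.zero_le _) (mem_univ i)
    have h2 : l i ≤ (l i).toNat := Int.self_le_toNat _
    have h3 : ((l i).toNat : ℤ) ≤ ((∑ i, (l i).toNat : ℕ) : ℤ) := by exact_mod_cast h1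
    push_cast at h3 ⊢
    omega
  rw [Sd_split v l D hD.1, coeff_sum]
  simp only [coeff_X_pow_mul_rho]
  rw [← sum_filter]
  apply sum_congr
  · ext c
    rw [mem_filter, Fintype.mem_piFinset, mem_piAntidiag]
    constructor
    · rintro ⟨_, h⟩
      exact ⟨h.symm, fun _ _ => mem_univ _⟩
    · rintro ⟨h, _⟩
      refine ⟨?_, h.symm⟩
      intro i
      rw [mem_range]
      have h7 : c i ≤ univ.sum c := single_le_sum (fun _ _ => Nat.zero_le _) (mem_univ i)
      omega
  · intro c _
    rfl

end Pool.Agent.Helper32.HG
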