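import Mathlib
import Pool.Agent.Helper32.HG.Sch

/-!
# The scalar product on the ring of power sums
-/

namespace Pool.Agent.Helper32.HG

open Finset MvPolynomial
open scoped Classical

/-- weight of a vector of multiplicities -/
def wtd {n : ℕ} (d : Fin n →₀ ℕ) : ℕ := ∑ i, (i.val + 1) * d i

/-- the exponent vector of a function -/
noncomputable def ex {n : ℕ} (d : Fin n → ℕ) : Fin n →₀ ℕ := Finsupp.equivFunOnFinite.symm d

variable {n : ℕ} {K : Type*} [Field K] [CharZero K]

/-- the value of the scalar product on a power product -/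
noncomputable def wgt (ω : ℕ → K) (d : Fin n →₀ ℕ) : K :=
  ∏ i, ((((i.val + 1 : ℕ) : K)) ^ (d i) * ((d i).factorial : K) / (ω (i.val + 1)) ^ (d i))

/-- the modified complete function in the ring of power sums -/
noncomputable def gh (n : ℕ) (ω : ℕ → K) (k : ℕ) : MvPolynomial (Fin n) K :=
  ∑ d ∈ (Fintype.piFinset (fun _ : Fin n => range (k + 1))).filter (fun d => wtd (ex d) = k),
    monomial (ex d) (wgt ω (ex d))⁻¹

/-- the map from the ring of power sums to polynomials in the variables -/
noncomputable def Psi (n : ℕ) (K : Type*) [Field K] :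
    MvPolynomial (Fin n) K →ₐ[K] MvPolynomial (Fin n) K :=
  aeval (fun i : Fin n => ∑ v : Fin n, X v ^ (i.val + 1))

/-- the bilinear form on the ring of power sums -/
noncomputable def Bf (ω : ℕ → K) (f g : MvPolynomial (Fin n) K) : K :=
  ∑ d ∈ f.support, coeff d f * coeff d g * wgt ω d

/-! ### weights -/

theorem ex_apply (d : Fin n → ℕ) (i : Fin n) : ex d i = d i := rfl

theorem ex_coe (d : Fin n →₀ ℕ) : ex (fun i => d i) = d := by
  ext i
  rfl

theorem wtd_zero : wtd (0 : Fin n →₀ ℕ) = 0 := by
  simp [wtd]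

theorem wtd_add (d d' : Fin n →₀ ℕ) : wtd (d + d') = wtd d + wtd d' := by
  unfold wtd
  rw [← sum_add_distrib]
  apply sum_congr rfl
  intro i _
  rw [Finsupp.add_apply, mul_add]

theorem wtd_single (i : Fin n) : wtd (Finsupp.single i 1) = i.val + 1 := by
  unfold wtd
  rw [sum_eq_single i]
  · simp
  · intro j _ hj
    simp [Ne.symm hj]
  · intro h
    exact absurd (mem_univ i) h

theorem le_wtd (d : Fin n →₀ ℕ) (i : Fin n) : (i.val + 1) * d i ≤ wtd d :=
  single_le_sum (f := fun i : Fin n => (i.val + 1) * d i) (fun _ _ => Nat.zero_le _) (mem_univ i)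

theorem le_wtd' (d : Fin n →₀ ℕ) (i : Fin n) : d i ≤ wtd d := by
  have := le_wtd d i
  have h2 : d i ≤ (i.val + 1) * d i := Nat.le_mul_of_pos_left _ (Nat.succ_pos _)
  omega

theorem wtd_eq_zero {d : Fin n →₀ ℕ} (h : wtd d = 0) : d = 0 := by
  ext i
  have := le_wtd' d i
  simp
  omega

theorem wgt_zero (ω : ℕ → K) : wgt ω (0 : Fin n →₀ ℕ) = 1 := by
  simp [wgt]

theorem wgt_ne {ω : ℕ → K} (hω : ∀ j, 0 < j → ω j ≠ 0) (d : Fin n →₀ ℕ) : wgt ω d ≠ 0 := by
  unfold wgt
  rw [prod_ne_zero_iff]
  intro i _
  apply div_ne_zero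
  · apply mul_ne_zero
    · exact pow_ne_zero _ (Nat.cast_ne_zero.2 (Nat.succ_ne_zero _))
    · exact Nat.cast_ne_zero.2 (Nat.factorial_ne_zero _)
  · exact pow_ne_zero _ (hω _ (Nat.succ_pos _))

theorem wgt_add_single (ω : ℕ → K) (d : Fin n →₀ ℕ) (i : Fin n) :
    wgt ω (d + Finsupp.single i 1) =
      wgt ω d * (((i.val + 1 : ℕ) : K) * ((d i : K) + 1) / ω (i.val + 1)) := by
  unfold wgt
  rw [← mul_prod_erase univ _ (mem_univ i), ← mul_prod_erase univ (fun i : Fin n =>
    ((((i.val + 1 : ℕ) : K)) ^ (d i) * ((d i).factorial : K) / (ω (i.val + 1)) ^ (d i)))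
    (mem_univ i)]
  have h1 : ∏ x ∈ univ.erase i,
      ((((x.val + 1 : ℕ) : K)) ^ ((d + Finsupp.single i 1 : Fin n →₀ ℕ) x) *
      ((((d + Finsupp.single i 1 : Fin n →₀ ℕ) x)).factorial : K) /
        (ω (x.val + 1)) ^ ((d + Finsupp.single i 1 : Fin n →₀ ℕ) x)) =
      ∏ x ∈ univ.erase i,
        ((((x.val + 1 : ℕ) : K)) ^ (d x) * ((d x).factorial : K) / (ω (x.val + 1)) ^ (d x)) := by
    apply prod_congr rfl
    intro j hj
    have : (d + Finsupp.single i 1 : Fin n →₀ ℕ) j = d j := by
      rw [Finsupp.add_apply, Finsupp.single_eq_of_ne (ne_of_mem_erase hj), add_zero]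
    rw [this]
  rw [h1]
  have h2 : (d + Finsupp.single i 1 : Fin n →₀ ℕ) i = d i + 1 := by simp
  generalize ∏ x ∈ univ.erase i,
        ((((x.val + 1 : ℕ) : K)) ^ (d x) * ((d x).factorial : K) / (ω (x.val + 1)) ^ (d x)) = R
  rw [h2, Nat.factorial_succ]
  push_cast
  ring

theorem coeff_gh (ω : ℕ → K) (k : ℕ) (d : Fin n →₀ ℕ) :
    coeff d (gh n ω k) = if wtd d = k then (wgt ω d)⁻¹ else 0 := by
  unfold gh
  rw [coeff_sum]
  simp only [coeff_monomial]
  by_cases h : wtd d = k
  · rw [if_pos h, sum_eq_single (fun i => d i)]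
    · rw [if_pos (ex_coe d), ex_coe]
    · intro e _ he
      rw [if_neg]
      intro h'
      apply he
      funext i
      rw [← h']
      rfl
    · intro h'
      exfalso
      apply h'
      rw [mem_filter, Fintype.mem_piFinset, ex_coe]
      refine ⟨fun i => ?_, h⟩
      rw [mem_range]
      have := le_wtd' d i
      omega
  · rw [if_neg h]
    apply sum_eq_zero
    intro e he
    rw [if_neg]
    intro h'
    apply h
    rw [← h']
    exact (mem_filter.1 he).2

theorem gh_zero (ω : ℕ → K) : gh n ω 0 = 1 := by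
  ext d
  rw [coeff_gh, coeff_one]
  by_cases h : d = 0
  · subst h
    rw [if_pos wtd_zero, if_pos rfl, wgt_zero, inv_one]
  · rw [if_neg (fun h' => h (wtd_eq_zero h')), if_neg (Ne.symm h)]

theorem pderiv_gh {ω : ℕ → K} (hω : ∀ j, 0 < j → ω j ≠ 0) (i : Fin n) (k : ℕ) :
    C (((i.val + 1 : ℕ) : K) / ω (i.val + 1)) * pderiv i (gh n ω k) =
      if i.val + 1 ≤ k then gh n ω (k - (i.val + 1)) else 0 := by
  ext d
  rw [coeff_C_mul, coeff_pderiv, coeff_gh, wtd_add, wtd_single, wgt_add_single]
  have hi : ((i.val + 1 : ℕ) : K) ≠ 0 := Nat.cast_ne_zero.2 (Nat.succ_ne_zero _)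
  have hd : (d i : K) + 1 ≠ 0 := by exact_mod_cast Nat.succ_ne_zero (d i)
  have hw := hω (i.val + 1) (Nat.succ_pos _)
  by_cases h : i.val + 1 ≤ k
  · rw [if_pos h, coeff_gh]
    by_cases h2 : wtd d = k - (i.val + 1)
    · rw [if_pos h2, if_pos (by omega)]
      rw [mul_inv, inv_div]
      field_simp
    · rw [if_neg h2, if_neg (by omega)]
      simp
  · rw [if_neg h, if_neg (by omega)]
    simp

theorem pderiv_prod_univ (i : Fin n) (g : Fin n → MvPolynomial (Fin n) K) (s : Finset (Fin n)) :
    pderiv i (∏ v ∈ s, g v) = ∑ v ∈ s, pderiv i (g v) * ∏ w ∈ s.erase v, g w := by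
  induction s using Finset.induction_on with
  | empty => simp
  | insert a s ha ih =>
    rw [prod_insert ha, pderiv_mul, ih, sum_insert ha, erase_insert ha, mul_sum]
    congr 1
    apply sum_congr rfl
    intro v hv
    have hav : a ≠ v := fun h => ha (h ▸ hv)
    rw [erase_insert_of_ne hav, prod_insert (fun h => ha (mem_of_mem_erase h))]
    ring

/-! ### the bilinear form -/

theorem Bf_eq_sum (ω : ℕ → K) (f g : MvPolynomial (Fin n) K) (s : Finset (Fin n →₀ ℕ))
    (hs : f.support ⊆ s) : Bf ω f g = ∑ d ∈ s, coeff d f * coeff d g * wgt ω d := by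
  unfold Bf
  apply sum_subset hs
  intro d _ hd
  rw [notMem_support_iff.1 hd]
  ring

theorem Bf_add_left (ω : ℕ → K) (f f' g : MvPolynomial (Fin n) K) :
    Bf ω (f + f') g = Bf ω f g + Bf ω f' g := by
  rw [Bf_eq_sum ω (f + f') g (f.support ∪ f'.support) support_add,
    Bf_eq_sum ω f g (f.support ∪ f'.support) subset_union_left,
    Bf_eq_sum ω f' g (f.support ∪ f'.support) subset_union_right, ← sum_add_distrib]
  apply sum_congr rfl
  intro d _
  rw [coeff_add]
  ring

theorem Bf_monomial_left (ω : ℕ → K) (d : Fin n →₀ ℕ) (a : K) (g : MvPolynomial (Fin n) K) :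
    Bf ω (monomial d a) g = a * coeff d g * wgt ω d := by
  rw [Bf_eq_sum ω (monomial d a) g {d} support_monomial_subset, sum_singleton, coeff_monomial,
    if_pos rfl]

theorem Bf_sum_right {ι : Type*} (ω : ℕ → K) (f : MvPolynomial (Fin n) K) (s : Finset ι)
    (g : ι → MvPolynomial (Fin n) K) : Bf ω f (∑ v ∈ s, g v) = ∑ v ∈ s, Bf ω f (g v) := by
  unfold Bf
  rw [sum_comm]
  apply sum_congr rfl
  intro d _
  rw [coeff_sum, mul_sum, sum_mul]

theorem Bf_C_mul_right (ω : ℕ → K) (f g : MvPolynomial (Fin n) K) (a : K) :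
    Bf ω f (C a * g) = a * Bf ω f g := by
  unfold Bf
  rw [mul_sum]
  apply sum_congr rfl
  intro d _
  rw [coeff_C_mul]
  ring

theorem Bf_zero_right (ω : ℕ → K) (f : MvPolynomial (Fin n) K) : Bf ω f 0 = 0 := by
  unfold Bf
  apply sum_eq_zero
  intro d _
  rw [coeff_zero]
  ring

theorem Bf_mul_X (ω : ℕ → K) (f g : MvPolynomial (Fin n) K) (i : Fin n) :
    Bf ω (f * X i) g = Bf ω f (C (((i.val + 1 : ℕ) : K) / ω (i.val + 1)) * pderiv i g) := by
  induction f using MvPolynomial.induction_on' with
  | monomial d a =>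
    have h1 : (monomial d a : MvPolynomial (Fin n) K) * X i =
        monomial (d + Finsupp.single i 1) a := by
      rw [X, monomial_mul, mul_one]
    rw [h1, Bf_monomial_left, Bf_monomial_left, wgt_add_single, coeff_C_mul, coeff_pderiv]
    ring
  | add p q hp hq =>
    rw [add_mul, Bf_add_left, Bf_add_left, hp, hq]

/-- P1: duality -/
theorem coeff_Psi (ω : ℕ → K) (hω : ∀ j, 0 < j → ω j ≠ 0) (e : Fin n → ℕ)
    (f : MvPolynomial (Fin n) K) :
    coeff (ex e) (Psi n K f) = Bf ω f (∏ v, gh n ω (e v)) := by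
  induction f using MvPolynomial.induction_on generalizing e with
  | C a =>
    have h1 : Psi n K (C a) = C a := by
      unfold Psi
      rw [aeval_C, algebraMap_eq]
    rw [h1, C_apply, Bf_monomial_left, wgt_zero, mul_one, coeff_monomial]
    have h2 : coeff 0 (∏ v, gh n ω (e v)) = if e = 0 then 1 else 0 := by
      rw [← constantCoeff_eq, map_prod]
      simp only [constantCoeff_eq, coeff_gh, wtd_zero, wgt_zero, inv_one]
      by_cases he : e = 0
      · subst he
        simp
      · rw [if_neg he]
        obtain ⟨v, hv⟩ := Function.ne_iff.1 he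
        exact prod_eq_zero (mem_univ v) (if_neg (Ne.symm hv))
    rw [h2]
    have h3 : (0 = ex e) ↔ e = 0 := by
      constructor
      · intro h
        funext v
        rw [← ex_apply e v, ← h]
        rfl
      · rintro rfl
        ext v
        rfl
    by_cases he : e = 0
    · rw [if_pos (h3.2 he), if_pos he, mul_one]
    · rw [if_neg (fun h => he (h3.1 h)), if_neg he, mul_zero]
  | add p q hp hq =>
    rw [map_add, coeff_add, Bf_add_left, hp, hq]
  | mul_X p i hp =>
    have h1 : Psi n K (p * X i) = ∑ v : Fin n, Psi n K p * X v ^ (i.val + 1) := by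
      rw [map_mul, ← mul_sum]
      congr 1
      unfold Psi
      rw [aeval_X]
    rw [h1, Bf_mul_X, pderiv_prod_univ, mul_sum, Bf_sum_right, coeff_sum]
    apply sum_congr rfl
    intro v _
    rw [← mul_assoc, pderiv_gh hω, X_pow_eq_monomial, coeff_mul_monomial']
    by_cases h : i.val + 1 ≤ e v
    · rw [if_pos, if_pos h, mul_one]
      · have h2 : ex e - Finsupp.single v (i.val + 1) =
            ex (Function.update e v (e v - (i.val + 1))) := by
          ext w
          rw [Finsupp.tsub_apply, ex_apply, ex_apply]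
          by_cases hw : w = v
          · subst hw
            simp
          · rw [Function.update_of_ne hw, Finsupp.single_eq_of_ne hw, tsub_zero]
        rw [h2, hp]
        congr 1
        rw [← mul_prod_erase univ _ (mem_univ v), Function.update_self]
        congr 1
        apply prod_congr rfl
        intro w hw
        rw [Function.update_of_ne (ne_of_mem_erase hw)]
      · rw [Finsupp.single_le_iff]
        exact h
    · rw [if_neg, if_neg h, zero_mul, Bf_zero_right]
      rw [Finsupp.single_le_iff]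
      exact h

/-! ### the recursion -/

theorem gh_rec {ω : ℕ → K} (hω : ∀ j, 0 < j → ω j ≠ 0) (k : ℕ) :
    (k : MvPolynomial (Fin n) K) * gh n ω k =
      ∑ i : Fin n, C (ω (i.val + 1)) * X i *
        (if i.val + 1 ≤ k then gh n ω (k - (i.val + 1)) else 0) := by
  have h1 : ∀ i : Fin n, C (ω (i.val + 1)) * X i *
        (if i.val + 1 ≤ k then gh n ω (k - (i.val + 1)) else 0) =
      ((i.val + 1 : ℕ) : MvPolynomial (Fin n) K) * (X i * pderiv i (gh n ω k)) := by
    intro i
    have hw := hω (i.val + 1) (Nat.succ_pos _)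
    rw [← pderiv_gh hω]
    have : (C (ω (i.val + 1)) : MvPolynomial (Fin n) K) *
        C (((i.val + 1 : ℕ) : K) / ω (i.val + 1)) = ((i.val + 1 : ℕ) : MvPolynomial (Fin n) K) := by
      rw [← C_mul, mul_div_cancel₀ _ hw, map_natCast]
    rw [← this]
    ring
  rw [sum_congr rfl fun i _ => h1 i]
  have h2 : ∀ f : MvPolynomial (Fin n) K, ∀ d : Fin n →₀ ℕ, ∀ i : Fin n,
      coeff d (X i * pderiv i f) = d i * coeff d f := by
    intro f d i
    induction f using MvPolynomial.induction_on' with
    | monomial m a =>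
      rw [X_mul_pderiv_monomial, coeff_smul, coeff_monomial]
      by_cases hm : m = d
      · subst hm
        simp
      · simp [hm]
    | add p q hp hq => rw [map_add, mul_add, coeff_add, hp, hq, coeff_add]; ring
  ext d
  have h3 : ∀ (m : ℕ) (f : MvPolynomial (Fin n) K), coeff d ((m : MvPolynomial (Fin n) K) * f) =
      (m : K) * coeff d f := by
    intro m f
    rw [← map_natCast (C : K →+* MvPolynomial (Fin n) K), coeff_C_mul]
  rw [h3, coeff_sum]
  simp only [h3, h2]
  rw [coeff_gh]
  by_cases h : wtd d = k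
  · rw [if_pos h]
    have h4 : (k : K) = ∑ i : Fin n, ((i.val + 1 : ℕ) : K) * (d i : K) := by
      rw [← h]
      unfold wtd
      push_cast
      rfl
    rw [h4, sum_mul]
    apply sum_congr rfl
    intro i _
    ring
  · rw [if_neg h]
    simp

/-- the recursion with omega equal to one, solved for the variable -/
theorem X_eq_gh (i : Fin n) :
    (X i : MvPolynomial (Fin n) K) = ((i.val + 1 : ℕ) : MvPolynomial (Fin n) K) *
      gh n (fun _ => (1 : K)) (i.val + 1) -
      ∑ j ∈ univ.filter (fun j : Fin n => j < i), X j * gh n (fun _ => (1 : K)) (i.val - j.val) := by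
  rw [gh_rec (fun _ _ => one_ne_zero)]
  simp only [map_one, one_mul]
  rw [eq_sub_iff_add_eq, ← add_sum_erase univ _ (mem_univ i)]
  congr 1
  · rw [if_pos le_rfl, Nat.sub_self, gh_zero, mul_one]
  · rw [sum_filter]
    have h0 : ∑ a : Fin n, (if a < i then X a * gh n (fun _ => (1 : K)) (i.val - a.val) else 0) =
        ∑ a ∈ univ.erase i,
          (if a < i then X a * gh n (fun _ => (1 : K)) (i.val - a.val) else 0) := by
      rw [← add_sum_erase univ _ (mem_univ i), if_neg (lt_irrefl i), zero_add]
    rw [h0]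
    apply sum_congr rfl
    intro j hj
    have hne : j ≠ i := ne_of_mem_erase hj
    by_cases h : j < i
    · rw [if_pos h, if_pos (by have := Fin.lt_def.1 h; omega)]
      congr 2
      omega
    · rw [if_neg h, if_neg, mul_zero]
      have : i.val < j.val := Fin.lt_def.1 (lt_of_le_of_ne (not_lt.1 h) (Ne.symm hne))
      omega

theorem alg_aux {R ι : Type*} [CommRing R] (s : Finset ι) (P M c g : R) (x h : ι → R) :
    P * ((c * g - ∑ j ∈ s, x j * h j) * M) =
      c * ((g * P) * M) - ∑ j ∈ s, (h j * P) * (x j * M) := by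
  rw [sub_mul, mul_sub, sum_mul, mul_sum]
  congr 1
  · ring
  · apply sum_congr rfl
    intro j _
    ring

/-- the span of the products of complete functions -/
noncomputable def spn (n : ℕ) (K : Type*) [Field K] : Submodule K (MvPolynomial (Fin n) K) :=
  Submodule.span K ((fun e : Fin n → ℕ => ∏ v, gh n (fun _ => (1 : K)) (e v)) ''
    (↑(piAntidiag (univ : Finset (Fin n)) n) : Set (Fin n → ℕ)))

theorem mem_spn (N : ℕ) : ∀ (d : Fin n →₀ ℕ) (e : Fin n → ℕ), wtd d = N →
    (∑ v, e v) + wtd d = n →
    (∏ v, gh n (fun _ => (1 : K)) (e v)) * monomial d 1 ∈ spn n K := by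
  induction N using Nat.strong_induction_on with
  | _ N ih =>
  intro d e hd he
  by_cases h0 : d = 0
  · subst h0
    rw [wtd_zero, add_zero] at he
    have : (monomial 0 1 : MvPolynomial (Fin n) K) = 1 := rfl
    rw [this, mul_one]
    apply Submodule.subset_span
    refine ⟨e, ?_, rfl⟩
    rw [mem_coe, mem_piAntidiag]
    exact ⟨he, fun _ _ => mem_univ _⟩
  · obtain ⟨i, hi⟩ : ∃ i, d i ≠ 0 := by
      by_contra hcon
      push Not at hcon
      exact h0 (Finsupp.ext hcon)
    obtain ⟨d', rfl⟩ : ∃ d', d = d' + Finsupp.single i 1 :=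
      ⟨d - Finsupp.single i 1, by
        rw [tsub_add_cancel_of_le]
        rw [Finsupp.single_le_iff]
        omega⟩
    rw [wtd_add, wtd_single] at hd he
    -- an empty slot
    obtain ⟨v, hv⟩ : ∃ v, e v = 0 := by
      by_contra hcon
      push Not at hcon
      have h1 : ∑ v : Fin n, 1 ≤ ∑ v, e v :=
        sum_le_sum fun v _ => Nat.one_le_iff_ne_zero.2 (hcon v)
      rw [sum_const, card_univ, Fintype.card_fin, smul_eq_mul, mul_one] at h1
      omega
    have hupd : ∀ m : ℕ, (∏ w, gh n (fun _ => (1 : K)) (Function.update e v m w)) =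
        gh n (fun _ => (1 : K)) m * ∏ w, gh n (fun _ => (1 : K)) (e w) := by
      intro m
      rw [← mul_prod_erase univ _ (mem_univ v), Function.update_self,
        ← mul_prod_erase univ (fun w => gh n (fun _ => (1 : K)) (e w)) (mem_univ v), hv, gh_zero,
        one_mul]
      congr 1
      apply prod_congr rfl
      intro w hw
      rw [Function.update_of_ne (ne_of_mem_erase hw)]
    have hsum : ∀ m : ℕ, ∑ w, Function.update e v m w = m + ∑ w, e w := by
      intro m
      rw [← add_sum_erase univ _ (mem_univ v), Function.update_self,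
        ← add_sum_erase univ (fun w => e w) (mem_univ v), hv, zero_add]
      congr 1
      apply sum_congr rfl
      intro w hw
      rw [Function.update_of_ne (ne_of_mem_erase hw)]
    have hmon : (monomial (d' + Finsupp.single i 1) 1 : MvPolynomial (Fin n) K) =
        X i * monomial d' 1 := by
      rw [X, monomial_mul, mul_one, add_comm]
    rw [hmon, X_eq_gh (K := K) i]
    have hrw : (∏ v, gh n (fun _ => (1 : K)) (e v)) *
        ((((i.val + 1 : ℕ) : MvPolynomial (Fin n) K) * gh n (fun _ => (1 : K)) (i.val + 1) -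
          ∑ j ∈ univ.filter (fun j : Fin n => j < i),
            X j * gh n (fun _ => (1 : K)) (i.val - j.val)) * monomial d' 1) =
        ((i.val + 1 : ℕ) : K) • ((∏ w, gh n (fun _ => (1 : K)) (Function.update e v (i.val + 1) w)) *
          monomial d' 1) -
        ∑ j ∈ univ.filter (fun j : Fin n => j < i),
          (∏ w, gh n (fun _ => (1 : K)) (Function.update e v (i.val - j.val) w)) *
            monomial (d' + Finsupp.single j 1) 1 := by
      have hmon' : ∀ j : Fin n, (monomial (d' + Finsupp.single j 1) 1 : MvPolynomial (Fin n) K) =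
          X j * monomial d' 1 := by
        intro j
        rw [X, monomial_mul, mul_one, add_comm]
      simp only [hupd, hmon']
      rw [smul_eq_C_mul, map_natCast]
      exact alg_aux _ _ _ _ _ _ _
    rw [hrw]
    apply Submodule.sub_mem
    · apply Submodule.smul_mem
      refine ih (wtd d') (by omega) d' _ rfl ?_
      rw [hsum]
      omega
    · apply Submodule.sum_mem
      intro j hj
      have hji : j.val < i.val := Fin.lt_def.1 (mem_filter.1 hj).2
      refine ih (wtd (d' + Finsupp.single j 1)) ?_ _ _ rfl ?_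
      · rw [wtd_add, wtd_single]
        omega
      · rw [hsum, wtd_add, wtd_single]
        omega

theorem map_gh (k : ℕ) (K : Type*) [Field K] [CharZero K] :
    MvPolynomial.map (algebraMap ℚ K) (gh n (fun _ => (1 : ℚ)) k) = gh n (fun _ => (1 : K)) k := by
  ext d
  rw [coeff_map, coeff_gh, coeff_gh, apply_ite (algebraMap ℚ K), map_zero, map_inv₀]
  have : algebraMap ℚ K (wgt (fun _ => (1 : ℚ)) d) = wgt (fun _ => (1 : K)) d := by
    unfold wgt
    rw [map_prod]
    apply prod_congr rfl
    intro i _
    simp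
  rw [this]

/-- P2: rational inversion -/
theorem coeff_rat (d : Fin n →₀ ℕ) (hd : wtd d = n) : ∃ ρ : (Fin n → ℕ) → ℚ,
    ∀ (K : Type) [Field K] [CharZero K] (f : MvPolynomial (Fin n) K),
      (∀ d' ∈ f.support, wtd d' = n) →
      coeff d f = ∑ e ∈ piAntidiag (univ : Finset (Fin n)) n,
        (ρ e : K) * coeff (ex e) (Psi n K f) := by
  have h1 := mem_spn (K := ℚ) n d (fun _ => 0) hd (by simp [hd])
  simp only [gh_zero, prod_const_one, one_mul] at h1
  unfold spn at h1
  rw [Submodule.mem_span_image_finset_iff_exists_fun'] at h1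
  obtain ⟨c, hc⟩ := h1
  refine ⟨fun e => c e / wgt (fun _ => (1 : ℚ)) d, ?_⟩
  intro K _ _ f _
  have hne : wgt (fun _ => (1 : K)) d ≠ 0 := wgt_ne (fun _ _ => one_ne_zero) d
  have hw : algebraMap ℚ K (wgt (fun _ => (1 : ℚ)) d) = wgt (fun _ => (1 : K)) d := by
    unfold wgt
    rw [map_prod]
    apply prod_congr rfl
    intro i _
    simp
  have h2 := congrArg (MvPolynomial.map (algebraMap ℚ K)) hc
  rw [map_sum, map_monomial, map_one] at h2
  have h3 : Bf (fun _ => (1 : K)) f (monomial d 1) = coeff d f * wgt (fun _ => (1 : K)) d := by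
    rw [Bf_eq_sum _ f _ (insert d f.support) (subset_insert _ _)]
    rw [sum_eq_single d]
    · rw [coeff_monomial, if_pos rfl, mul_one]
    · intro d' _ hd'
      rw [coeff_monomial, if_neg (Ne.symm hd')]
      ring
    · intro h
      exact absurd (mem_insert_self _ _) h
  have h4 : coeff d f = Bf (fun _ => (1 : K)) f (monomial d 1) / wgt (fun _ => (1 : K)) d := by
    rw [h3, mul_div_cancel_right₀ _ hne]
  rw [h4, ← h2, Bf_sum_right, sum_div]
  apply sum_congr rfl
  intro e _
  rw [smul_eq_C_mul, map_mul, map_C, Bf_C_mul_right, map_prod,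
    coeff_Psi (fun _ => (1 : K)) (fun _ _ => one_ne_zero)]
  simp only [map_gh]
  rw [← hw, Rat.cast_div]
  simp only [eq_ratCast]
  ring

/-- the function with generating series `H(x) H(q x)` -/
noncomputable def gz (n : ℕ) {K : Type*} [Field K] (q : K) (k : ℤ) : MvPolynomial (Fin n) K :=
  ∑ a ∈ Finset.Icc (0 : ℤ) k, (q ^ (k - a)) • (hz n K a * hz n K (k - a))

/-! ### the complete functions and their power series -/

/-- the power sum without the constant term -/
noncomputable def pw (n : ℕ) (K : Type*) [Field K] (a : ℕ) : MvPolynomial (Fin n) K :=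
  if a = 0 then 0 else ∑ v : Fin n, X v ^ a

theorem coeff_X_pow_mul_hk (v : Fin n) (a b : ℕ) (f : Fin n →₀ ℕ) :
    coeff f (X v ^ a * hk n K b) = if a ≤ f v ∧ ∑ i, f i = a + b then 1 else 0 := by
  rw [X_pow_eq_monomial, coeff_monomial_mul', one_mul]
  by_cases h : a ≤ f v
  · rw [if_pos (Finsupp.single_le_iff.2 h), coeff_hk]
    have h1 : ∑ i, f i = a + ∑ i, (f - Finsupp.single v a : Fin n →₀ ℕ) i := by
      rw [← add_sum_erase univ _ (mem_univ v),
        ← add_sum_erase univ (fun i => (f - Finsupp.single v a : Fin n →₀ ℕ) i) (mem_univ v),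
        ← add_assoc]
      congr 1
      · rw [Finsupp.tsub_apply, Finsupp.single_eq_same]
        omega
      · apply sum_congr rfl
        intro i hi
        rw [Finsupp.tsub_apply, Finsupp.single_eq_of_ne (ne_of_mem_erase hi), tsub_zero]
    congr 1
    apply propext
    constructor
    · intro h2
      exact ⟨h, by omega⟩
    · rintro ⟨_, h2⟩
      omega
  · rw [if_neg (fun h' => h (Finsupp.single_le_iff.1 h')), if_neg]
    exact fun h' => h h'.1

theorem hk_rec (k : ℕ) : (k : MvPolynomial (Fin n) K) * hk n K k =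
    ∑ p ∈ antidiagonal k, pw n K p.1 * hk n K p.2 := by
  ext f
  have h3 : coeff f ((k : MvPolynomial (Fin n) K) * hk n K k) = (k : K) * coeff f (hk n K k) := by
    rw [← map_natCast (C : K →+* MvPolynomial (Fin n) K), coeff_C_mul]
  rw [h3, coeff_hk, coeff_sum]
  have h1 : ∀ p ∈ antidiagonal k, coeff f (pw n K p.1 * hk n K p.2) =
      if ∑ i, f i = k then ∑ v : Fin n, (if 1 ≤ p.1 ∧ p.1 ≤ f v then (1 : K) else 0) else 0 := by
    intro p hp
    rw [HasAntidiagonal.mem_antidiagonal] at hp
    unfold pw
    by_cases h0 : p.1 = 0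
    · rw [if_pos h0, zero_mul, coeff_zero, h0]
      simp
    · rw [if_neg h0, sum_mul, coeff_sum]
      simp only [coeff_X_pow_mul_hk, hp]
      by_cases hf : ∑ i, f i = k
      · rw [if_pos hf]
        apply sum_congr rfl
        intro v _
        congr 1
        apply propext
        constructor
        · rintro ⟨h5, _⟩
          exact ⟨by omega, h5⟩
        · rintro ⟨_, h5⟩
          exact ⟨h5, hf⟩
      · rw [if_neg hf]
        apply sum_eq_zero
        intro v _
        rw [if_neg]
        exact fun h => hf h.2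
  rw [sum_congr rfl h1]
  by_cases hf : ∑ i, f i = k
  · simp only [if_pos hf]
    rw [mul_one, sum_comm]
    have h2 : ∀ v : Fin n, ∑ p ∈ antidiagonal k, (if 1 ≤ p.1 ∧ p.1 ≤ f v then (1 : K) else 0) =
        (f v : K) := by
      intro v
      have hle : f v ≤ k := by
        rw [← hf]
        exact single_le_sum (f := fun i => f i) (fun _ _ => Nat.zero_le _) (mem_univ v)
      rw [Finset.Nat.sum_antidiagonal_eq_sum_range_succ
        (fun a _ => if 1 ≤ a ∧ a ≤ f v then (1 : K) else 0) k, ← sum_filter, sum_const,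
        nsmul_eq_mul, mul_one]
      have h6 : (range k.succ).filter (fun a => 1 ≤ a ∧ a ≤ f v) = Finset.Icc 1 (f v) := by
        ext a
        rw [mem_filter, mem_range, Finset.mem_Icc]
        omega
      rw [h6, Nat.card_Icc]
      congr 1
    rw [sum_congr rfl fun v _ => h2 v, ← Nat.cast_sum, hf]
  · simp only [if_neg hf]
    rw [mul_zero, sum_const_zero]

/-- the Euler operator on power series -/
noncomputable def eul {R : Type*} [CommRing R] (F : PowerSeries R) : PowerSeries R :=
  PowerSeries.mk fun k => (k : R) * PowerSeries.coeff k F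

theorem eul_mul {R : Type*} [CommRing R] (F G : PowerSeries R) :
    eul (F * G) = eul F * G + F * eul G := by
  ext k
  unfold eul
  rw [map_add, PowerSeries.coeff_mk, PowerSeries.coeff_mul, PowerSeries.coeff_mul,
    PowerSeries.coeff_mul, mul_sum, ← sum_add_distrib]
  apply sum_congr rfl
  intro p hp
  rw [HasAntidiagonal.mem_antidiagonal] at hp
  rw [PowerSeries.coeff_mk, PowerSeries.coeff_mk, ← hp]
  push_cast
  ring

/-- the product of the two series -/
noncomputable def gG (n : ℕ) {K : Type*} [Field K] (q : K) :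
    PowerSeries (MvPolynomial (Fin n) K) :=
  PowerSeries.mk (fun k => hk n K k) * PowerSeries.mk (fun k => C (q ^ k) * hk n K k)

theorem gG_rec (q : K) (k : ℕ) :
    (k : MvPolynomial (Fin n) K) * PowerSeries.coeff k (gG n q) =
      ∑ p ∈ antidiagonal k, (C (1 + q ^ p.1) * pw n K p.1) * PowerSeries.coeff p.2 (gG n q) := by
  have h1 : eul (PowerSeries.mk (fun k => hk n K k)) =
      PowerSeries.mk (fun a => pw n K a) * PowerSeries.mk (fun k => hk n K k) := by
    ext1 k
    unfold eul
    rw [PowerSeries.coeff_mk, PowerSeries.coeff_mk, hk_rec, PowerSeries.coeff_mul]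
    simp only [PowerSeries.coeff_mk]
  have h2 : eul (PowerSeries.mk (fun k => C (q ^ k) * hk n K k)) =
      PowerSeries.mk (fun a => C (q ^ a) * pw n K a) *
        PowerSeries.mk (fun k => C (q ^ k) * hk n K k) := by
    ext1 k
    unfold eul
    rw [PowerSeries.coeff_mk, PowerSeries.coeff_mk, mul_left_comm, hk_rec, PowerSeries.coeff_mul,
      mul_sum]
    simp only [PowerSeries.coeff_mk]
    apply sum_congr rfl
    intro p hp
    rw [HasAntidiagonal.mem_antidiagonal] at hp
    rw [← hp, pow_add, C_mul]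
    ring
  have h3 : eul (gG n q) = PowerSeries.mk (fun a => C (1 + q ^ a) * pw n K a) * gG n q := by
    unfold gG
    rw [eul_mul, h1, h2]
    have h4 : PowerSeries.mk (fun a => C (1 + q ^ a) * pw n K a) =
        PowerSeries.mk (fun a => pw n K a) + PowerSeries.mk (fun a => C (q ^ a) * pw n K a) := by
      ext1 k
      rw [map_add, PowerSeries.coeff_mk, PowerSeries.coeff_mk, PowerSeries.coeff_mk, C_add, C_1]
      ring
    rw [h4]
    ring
  have h5 := congrArg (PowerSeries.coeff k) h3
  unfold eul at h5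
  rw [PowerSeries.coeff_mk, PowerSeries.coeff_mul] at h5
  simpa only [PowerSeries.coeff_mk] using h5

theorem gz_eq_coeff (q : K) (k : ℕ) : gz n q (k : ℤ) = PowerSeries.coeff k (gG n q) := by
  unfold gz gG
  rw [PowerSeries.coeff_mul]
  simp only [PowerSeries.coeff_mk]
  refine sum_nbij' (fun a => (a.toNat, ((k : ℤ) - a).toNat)) (fun p => (p.1 : ℤ)) ?_ ?_ ?_ ?_ ?_
  · intro a ha
    rw [Finset.mem_Icc] at ha
    rw [HasAntidiagonal.mem_antidiagonal]
    dsimp only
    omega
  · intro p hp
    rw [HasAntidiagonal.mem_antidiagonal] at hp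
    rw [Finset.mem_Icc]
    omega
  · intro a ha
    rw [Finset.mem_Icc] at ha
    exact Int.toNat_of_nonneg ha.1
  · intro p hp
    rw [HasAntidiagonal.mem_antidiagonal] at hp
    apply Prod.ext
    · simp
    · dsimp only
      omega
  · intro a ha
    rw [Finset.mem_Icc] at ha
    obtain ⟨b, rfl⟩ := Int.eq_ofNat_of_zero_le ha.1
    obtain ⟨c, hc⟩ := Int.eq_ofNat_of_zero_le (sub_nonneg.2 ha.2)
    dsimp only
    rw [hc, zpow_natCast, Int.toNat_natCast, Int.toNat_natCast, smul_eq_C_mul]
    unfold hz
    rw [if_pos (Int.natCast_nonneg _), if_pos (Int.natCast_nonneg _), Int.toNat_natCast,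
      Int.toNat_natCast]
    ring

/-- P3: the modified complete function at `t = q ^ 2` -/
theorem Psi_gh (q : K) (hq : ∀ j : ℕ, 0 < j → 1 + q ^ j ≠ 0) (k : ℕ) (hk : k ≤ n) :
    Psi n K (gh n (fun j => 1 + q ^ j) k) = gz n q k := by
  rw [gz_eq_coeff]
  induction k using Nat.strong_induction_on with
  | _ k ih =>
  by_cases h0 : k = 0
  · subst h0
    rw [gh_zero, map_one]
    unfold gG
    rw [PowerSeries.coeff_mul, Finset.Nat.antidiagonal_zero, sum_singleton, PowerSeries.coeff_mk,
      PowerSeries.coeff_mk, pow_zero, C_1, one_mul]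
    have h1 : Pool.Agent.Helper32.HG.hk n K 0 = 1 := by
      have := hz_zero (n := n) (K := K)
      unfold hz at this
      simpa using this
    rw [h1, mul_one]
  · have hk0 : (k : MvPolynomial (Fin n) K) ≠ 0 := Nat.cast_ne_zero.2 h0
    apply mul_left_cancel₀ hk0
    have e1 : (k : MvPolynomial (Fin n) K) * Psi n K (gh n (fun j => 1 + q ^ j) k) =
        Psi n K ((k : MvPolynomial (Fin n) K) * gh n (fun j => 1 + q ^ j) k) := by
      rw [map_mul, map_natCast]
    rw [e1, gh_rec hq, map_sum, gG_rec]
    rw [Finset.Nat.sum_antidiagonal_eq_sum_range_succ (fun a b => (C (1 + q ^ a) * pw n K a) *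
      PowerSeries.coeff b (gG n q)) k, sum_range_succ']
    have e2 : pw n K 0 = 0 := by
      unfold pw
      rw [if_pos rfl]
    rw [e2, mul_zero, zero_mul, add_zero]
    have e3 : ∀ i : Fin n, Psi n K (C (1 + q ^ (i.val + 1)) * X i *
        (if i.val + 1 ≤ k then gh n (fun j => 1 + q ^ j) (k - (i.val + 1)) else 0)) =
        (fun a : ℕ => if a < k then C (1 + q ^ (a + 1)) * pw n K (a + 1) *
          PowerSeries.coeff (k - (a + 1)) (gG n q) else 0) i.val := by
      intro i
      dsimp only
      by_cases h : i.val + 1 ≤ k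
      · rw [if_pos h, if_pos (by omega), map_mul, map_mul, ih _ (by omega) (by omega)]
        congr 2
        · unfold Psi
          rw [aeval_C, algebraMap_eq]
        · unfold Psi pw
          rw [aeval_X, if_neg (Nat.succ_ne_zero _)]
      · rw [if_neg h, if_neg (by omega), mul_zero, map_zero]
    rw [sum_congr rfl fun i _ => e3 i, Fin.sum_univ_eq_sum_range (fun a : ℕ =>
      if a < k then C (1 + q ^ (a + 1)) * pw n K (a + 1) *
          PowerSeries.coeff (k - (a + 1)) (gG n q) else 0) n]
    rw [← sum_filter]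
    apply sum_congr
    · ext a
      rw [mem_filter, mem_range, mem_range]
      omega
    · intro a _
      rfl

end Pool.Agent.Helper32.HG
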