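import Mathlib
import Pool.Agent.Helper32.HG.Sch

/-!
# Triangularity of the Jacobi-Trudi determinants
-/

namespace Pool.Agent.Helper32.HG

open Finset MvPolynomial
open scoped Classical

variable {n L : ℕ} {K : Type*} [CommRing K]

theorem stair_eq (i : Fin L) : stair L i = (L : ℤ) - 1 - i.val := by
  unfold stair
  rw [Fin.val_rev]
  have := i.isLt
  omega

theorem stair_le {l : Fin L → ℤ} (hl : StrictAnti l) (h0 : ∀ i, 0 ≤ l i) (i : Fin L) :
    stair L i ≤ l i := by
  have main : ∀ k : ℕ, ∀ i : Fin L, i.val + 1 + k = L → (k : ℤ) ≤ l i := by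
    intro k
    induction k with
    | zero => intro i _; exact_mod_cast h0 i
    | succ k ih =>
      intro i hi
      have h1 := ih ⟨i.val + 1, by omega⟩ (by simp; omega)
      have h2 : l ⟨i.val + 1, by omega⟩ < l i := hl (by rw [Fin.lt_def]; simp)
      push_cast
      omega
  rw [stair_eq]
  have := main (L - 1 - i.val) i (by have := i.isLt; omega)
  have h3 := i.isLt
  omega

theorem le_stair {l : Fin L → ℤ} (hl : StrictAnti l) (h0 : ∀ i, l i ≤ (L : ℤ) - 1) (i : Fin L) :
    l i ≤ stair L i := by
  have main : ∀ k : ℕ, ∀ i : Fin L, i.val = k → l i ≤ (L : ℤ) - 1 - k := by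
    intro k
    induction k with
    | zero => intro i _; have := h0 i; push_cast; omega
    | succ k ih =>
      intro i hi
      have hlt := i.isLt
      have h1 := ih ⟨k, by omega⟩ rfl
      have h2 : l i < l ⟨k, by omega⟩ := hl (by rw [Fin.lt_def]; simp; omega)
      push_cast
      omega
  rw [stair_eq]
  exact main i.val i rfl

theorem supp_zero {l : Fin L → ℤ} (hl : StrictAnti l) (h : coeff 0 (Sd n K l) ≠ 0) :
    l = stair L := by
  have key : ∀ i, ∃ j, l i = stair L j := by
    intro i
    by_contra hc
    push Not at hc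
    apply h
    have e : coeff 0 (Sd n K l) = constantCoeff (Sd n K l) := rfl
    rw [e]
    unfold Sd
    rw [RingHom.map_det]
    apply Matrix.det_eq_zero_of_row_eq_zero i
    intro j
    rw [RingHom.mapMatrix_apply, Matrix.map_apply, Matrix.of_apply, constantCoeff_eq, coeff_hz,
      if_neg]
    have := hc j
    simp
    omega
  have h1 : ∀ i, 0 ≤ l i := by
    intro i
    obtain ⟨j, hj⟩ := key i
    rw [hj]
    unfold stair
    positivity
  have h2 : ∀ i, l i ≤ (L : ℤ) - 1 := by
    intro i
    obtain ⟨j, hj⟩ := key i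
    rw [hj, stair_eq]
    omega
  funext i
  exact le_antisymm (le_stair hl h2 i) (stair_le hl h1 i)

theorem alt_coeff (e : Fin n →₀ ℕ) : Alt (fun l : Fin L → ℤ => coeff e (Sd n K l)) := by
  have h := alt_Sd (n := n) (K := K) (L := L)
  constructor
  · intro l i j hij
    have := h.swap l i j hij
    show coeff e (Sd n K (l ∘ Equiv.swap i j)) = - coeff e (Sd n K l)
    rw [← coeff_neg]
    exact congrArg (coeff e) this
  · intro l i j hij h2
    have := h.rep l i j hij h2
    show coeff e (Sd n K l) = 0
    rw [← coeff_zero (R := K) e]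
    exact congrArg (coeff e) this

theorem low_strictAnti {l : Fin L → ℤ} (hl : StrictAnti l) {c : Fin L → ℕ}
    (hc : ∀ i, Low l c i) : StrictAnti (fun i => l i - (c i : ℤ)) := by
  intro i j hij
  simp only
  have hlt := i.isLt
  have hlt' := j.isLt
  rw [Fin.lt_def] at hij
  have h1 := hc i ⟨i.val + 1, by omega⟩ rfl
  have h2 : l j ≤ l ⟨i.val + 1, by omega⟩ := hl.antitone (by rw [Fin.le_def]; simp; omega)
  have h3 : (0 : ℤ) ≤ c j := by positivity
  omega

/-- removing one variable -/
theorem coeff_step (v : Fin n) {l : Fin L → ℤ} (hl : StrictAnti l) (e : Fin n →₀ ℕ)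
    (h : coeff e (Sd n K l) ≠ 0) :
    ∃ c : Fin L → ℕ, (∀ i, Low l c i) ∧ ∑ i, c i = e v ∧
      coeff (e.erase v) (Sd n K (fun i => l i - c i)) ≠ 0 := by
  rw [coeff_Sd_rec v, il_minus (alt_coeff (e.erase v)) l hl (e v)] at h
  obtain ⟨c, hc, hne⟩ := exists_ne_zero_of_sum_ne_zero h
  rw [mem_filter, mem_piAntidiag] at hc
  exact ⟨c, hc.2, hc.1.1, hne⟩

theorem supp_card (T : Finset (Fin n)) : ∀ (e : Fin n →₀ ℕ), (∀ v, v ∉ T → e v = 0) →
    ∀ l : Fin L → ℤ, StrictAnti l → coeff e (Sd n K l) ≠ 0 →
    (∀ i : Fin L, T.card ≤ i.val → l i = stair L i) ∧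
      ∑ i, (l i - stair L i) = ((∑ v, e v : ℕ) : ℤ) := by
  induction T using Finset.induction_on with
  | empty =>
    intro e he l hl h
    have e0 : e = 0 := by
      ext v
      simpa using he v (by simp)
    subst e0
    have := supp_zero hl h
    subst this
    simp
  | insert v T hv ih =>
    intro e he l hl h
    obtain ⟨c, hc, hs, hne⟩ := coeff_step v hl e h
    have hl' := low_strictAnti hl hc
    have h1 := ih (e.erase v) (by
      intro w hw
      by_cases hwv : w = v
      · subst hwv; simp
      · rw [Finsupp.erase_ne hwv]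
        apply he
        rw [mem_insert]
        push Not
        exact ⟨hwv, hw⟩) _ hl' hne
    constructor
    · intro i hi
      rw [card_insert_of_notMem hv] at hi
      have hlt := i.isLt
      have h2 := h1.1 i (by omega)
      have h3 := h1.1 ⟨i.val - 1, by omega⟩ (by simp; omega)
      have h4 := hc ⟨i.val - 1, by omega⟩ i (by simp; omega)
      rw [stair_eq] at h2 h3 ⊢
      have h5 : (0 : ℤ) ≤ c i := by positivity
      have h6 : ((i.val - 1 : ℕ) : ℤ) = (i.val : ℤ) - 1 := by omega
      rw [h6] at h3
      omega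
    · have h2 := h1.2
      have e1 : ∑ i, (l i - (c i : ℤ) - stair L i) = ∑ i, (l i - stair L i) - ∑ i, (c i : ℤ) := by
        rw [← sum_sub_distrib]
        apply sum_congr rfl
        intro i _
        ring
      rw [e1] at h2
      have e2 : (∑ w, e w) = e v + ∑ w, (e.erase v) w := by
        rw [← add_sum_erase univ _ (mem_univ v)]
        congr 1
        rw [← add_sum_erase univ (fun i => (e.erase v) i) (mem_univ v)]
        simp only [Finsupp.erase_same, zero_add]
        apply sum_congr rfl
        intro i hi
        rw [Finsupp.erase_ne (ne_of_mem_erase hi)]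
      rw [e2]
      have e3 : (∑ i, (c i : ℤ)) = ((e v : ℕ) : ℤ) := by exact_mod_cast hs
      push_cast at h2 ⊢
      linarith

theorem supp_restrict (U : Finset (Fin n)) : ∀ (e : Fin n →₀ ℕ) (l : Fin L → ℤ), StrictAnti l →
    coeff e (Sd n K l) ≠ 0 → ∃ (e' : Fin n →₀ ℕ) (l' : Fin L → ℤ), StrictAnti l' ∧
      (∀ i, l' i ≤ l i) ∧ (∀ v ∈ U, e' v = 0) ∧ (∀ v, v ∉ U → e' v = e v) ∧
      coeff e' (Sd n K l') ≠ 0 := by
  induction U using Finset.induction_on with
  | empty =>
    intro e l hl h
    exact ⟨e, l, hl, fun _ => le_rfl, by simp, fun _ _ => rfl, h⟩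
  | insert v U hv ih =>
    intro e l hl h
    obtain ⟨e', l', h1, h2, h3, h4, h5⟩ := ih e l hl h
    obtain ⟨c, hc, _, hne⟩ := coeff_step v h1 e' h5
    refine ⟨e'.erase v, _, low_strictAnti h1 hc, ?_, ?_, ?_, hne⟩
    · intro i
      have := h2 i
      have h6 : (0 : ℤ) ≤ c i := by positivity
      omega
    · intro w hw
      by_cases hwv : w = v
      · subst hwv; simp
      · rw [Finsupp.erase_ne hwv]
        exact h3 w (mem_of_mem_insert_of_ne hw hwv)
    · intro w hw
      rw [mem_insert] at hw
      push Not at hw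
      rw [Finsupp.erase_ne hw.1]
      exact h4 w hw.2

/-- triangularity of the Jacobi-Trudi determinants -/
theorem supp_dom (T : Finset (Fin n)) (e : Fin n →₀ ℕ) (l : Fin L → ℤ) (hl : StrictAnti l)
    (h : coeff e (Sd n K l) ≠ 0) :
    ((∑ v ∈ T, e v : ℕ) : ℤ) ≤ ∑ i : Fin L with i.val < T.card, (l i - stair L i) := by
  obtain ⟨e', l', h1, h2, h3, h4, h5⟩ := supp_restrict Tᶜ e l hl h
  obtain ⟨h6, h7⟩ := supp_card T e' (fun v hv => h3 v (by simpa using hv)) l' h1 h5
  have e1 : ∑ v ∈ T, e v = ∑ v, e' v := by
    rw [← sum_add_sum_compl T (fun v => e' v)]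
    have : ∑ i ∈ Tᶜ, e' i = 0 := sum_eq_zero h3
    rw [this, add_zero]
    apply sum_congr rfl
    intro v hv
    rw [h4 v (by simpa using hv)]
  rw [e1, ← h7]
  rw [← sum_filter_add_sum_filter_not univ (fun i : Fin L => i.val < T.card)]
  have e2 : ∑ i : Fin L with ¬ i.val < T.card, (l' i - stair L i) = 0 := by
    apply sum_eq_zero
    intro i hi
    rw [mem_filter] at hi
    rw [h6 i (by omega)]
    ring
  rw [e2, add_zero]
  apply sum_le_sum
  intro i _
  have := h2 i
  omega

/-- the diagonal coefficient -/
theorem coeff_diag (k : ℕ) (hkn : k ≤ n) (hkL : k ≤ L) : ∀ (e : Fin n →₀ ℕ) (l : Fin L → ℤ),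
    StrictAnti l → (∀ i : Fin L, k ≤ i.val → l i = stair L i) →
    (∀ (v : Fin n) (i : Fin L), v.val = i.val → v.val < k → l i = stair L i + (e v : ℤ)) →
    (∀ v : Fin n, k ≤ v.val → e v = 0) → coeff e (Sd n K l) = 1 := by
  induction k with
  | zero =>
    intro e l hl h1 h2 h3
    have e0 : e = 0 := by
      ext v; exact h3 v (by omega)
    have l0 : l = stair L := by
      funext i; exact h1 i (by omega)
    subst e0 l0
    have e1 : coeff 0 (Sd n K (stair L)) = constantCoeff (Sd n K (stair L)) := rfl
    rw [e1]
    unfold Sd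
    rw [RingHom.map_det]
    have : (constantCoeff : MvPolynomial (Fin n) K →+* K).mapMatrix
        (Matrix.of fun i j : Fin L => hz n K (stair L i - stair L j)) = 1 := by
      ext i j
      rw [RingHom.mapMatrix_apply, Matrix.map_apply, Matrix.of_apply, constantCoeff_eq, coeff_hz,
        Matrix.one_apply]
      congr 1
      apply propext
      rw [stair_eq, stair_eq]
      constructor
      · intro h
        apply Fin.ext
        simp at h
        omega
      · rintro rfl
        simp
    rw [this, Matrix.det_one]
  | succ k ih =>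
    intro e l hl h1 h2 h3
    have hv : k < n := by omega
    have hi : k < L := by omega
    rw [coeff_Sd_rec ⟨k, hv⟩, il_minus (alt_coeff _) l hl]
    have hek := h2 ⟨k, hv⟩ ⟨k, hi⟩ rfl (by simp)
    set a := e ⟨k, hv⟩ with ha
    have hlow : ∀ i, Low l (Pi.single (⟨k, hi⟩ : Fin L) a) i := by
      intro i j hij
      by_cases h : i = ⟨k, hi⟩
      · subst h
        rw [Pi.single_eq_same, h1 j (by simp at hij; omega), hek, stair_eq, stair_eq]
        simp only at hij ⊢
        omega
      · rw [Pi.single_eq_of_ne h]
        have : l j < l i := hl (by rw [Fin.lt_def]; omega)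
        push_cast
        omega
    rw [sum_eq_single (Pi.single (⟨k, hi⟩ : Fin L) a)]
    · apply ih (by omega) (by omega)
      · exact low_strictAnti hl hlow
      · intro i hi'
        by_cases h : i = ⟨k, hi⟩
        · subst h
          rw [Pi.single_eq_same, hek]
          ring
        · rw [Pi.single_eq_of_ne h, h1 i]
          · push_cast; ring
          · have : i.val ≠ k := by
              intro h'
              apply h
              exact Fin.ext h'
            omega
      · intro v i hvi hvk
        have h4 : i ≠ ⟨k, hi⟩ := by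
          intro h'
          rw [h'] at hvi
          simp at hvi
          omega
        have h5 : v ≠ ⟨k, hv⟩ := by
          intro h'
          rw [h'] at hvk
          simp at hvk
        rw [Pi.single_eq_of_ne h4, Finsupp.erase_ne h5, h2 v i hvi (by omega)]
        push_cast; ring
      · intro v hvk
        by_cases h5 : v = ⟨k, hv⟩
        · subst h5; simp
        · rw [Finsupp.erase_ne h5]
          apply h3
          have : v.val ≠ k := by
            intro h'
            apply h5
            exact Fin.ext h'
          omega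
    · intro c hc hne
      rw [mem_filter, mem_piAntidiag] at hc
      by_contra h
      apply hne
      have h6 := supp_card (univ.filter fun v : Fin n => v.val < k) (e.erase ⟨k, hv⟩) (by
        intro v hv'
        rw [mem_filter] at hv'
        push Not at hv'
        have h7 := hv' (mem_univ _)
        by_cases h5 : v = ⟨k, hv⟩
        · subst h5; simp
        · rw [Finsupp.erase_ne h5]
          apply h3
          have : v.val ≠ k := by
            intro h'
            apply h5
            exact Fin.ext h'
          omega) _ (low_strictAnti hl hc.2) h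
      have hcard : (univ.filter fun v : Fin n => v.val < k).card = k := by
        have : (univ.filter fun v : Fin n => v.val < k) = Finset.Iio (⟨k, hv⟩ : Fin n) := by
          ext v
          simp [Fin.lt_def]
        rw [this, Fin.card_Iio]
      rw [hcard] at h6
      have h8 := h6.1 ⟨k, hi⟩ le_rfl
      rw [hek] at h8
      have h9 : (c ⟨k, hi⟩ : ℤ) = a := by omega
      have h10 : c ⟨k, hi⟩ = a := by exact_mod_cast h9
      funext i
      by_cases h : i = ⟨k, hi⟩
      · subst h
        rw [Pi.single_eq_same, h10]
      · rw [Pi.single_eq_of_ne h]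
        have hs := hc.1.1
        rw [← add_sum_erase univ c (mem_univ (⟨k, hi⟩ : Fin L)), h10] at hs
        have h11 : ∑ x ∈ univ.erase (⟨k, hi⟩ : Fin L), c x = 0 := by omega
        rw [sum_eq_zero_iff] at h11
        exact h11 i (mem_erase.2 ⟨h, mem_univ _⟩)
    · intro h
      exfalso
      apply h
      rw [mem_filter, mem_piAntidiag]
      refine ⟨⟨?_, fun _ _ => mem_univ _⟩, hlow⟩
      rw [sum_eq_single (⟨k, hi⟩ : Fin L)]
      · rw [Pi.single_eq_same]
      · intro b _ hb
        rw [Pi.single_eq_of_ne hb]
      · intro h; exact absurd (mem_univ _) h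

end Pool.Agent.Helper32.HG
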