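import Mathlib
import Pool.Agent.Helper32.HG.Kos

/-!
# Stability of the Jacobi-Trudi determinants
-/

namespace Pool.Agent.Helper32.HG

open Finset MvPolynomial
open scoped Classical

variable {n L : ℕ} {K : Type*} [CommRing K]

/-- the Jacobi-Trudi determinant of size `L` of a sequence of parts -/
noncomputable def SL (n : ℕ) (K : Type*) [CommRing K] (L : ℕ) (a : ℕ → ℕ) :
    MvPolynomial (Fin n) K :=
  Sd n K (fun i : Fin L => (a i.val : ℤ) + stair L i)

theorem SL_succ (a : ℕ → ℕ) (h : a L = 0) : SL n K (L + 1) a = SL n K L a := by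
  unfold SL Sd
  rw [Matrix.det_succ_row _ (Fin.last L), sum_eq_single (Fin.last L)]
  · have e1 : (-1 : MvPolynomial (Fin n) K) ^ ((Fin.last L : ℕ) + (Fin.last L : ℕ)) = 1 := by
      rw [← two_mul, pow_mul]
      simp
    have e2 : (Matrix.of fun i j : Fin (L + 1) => hz n K ((a i.val : ℤ) + stair (L + 1) i -
        stair (L + 1) j)) (Fin.last L) (Fin.last L) = 1 := by
      rw [Matrix.of_apply, Fin.val_last, h]
      have : ((0 : ℕ) : ℤ) + stair (L + 1) (Fin.last L) - stair (L + 1) (Fin.last L) = 0 := by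
        push_cast; ring
      rw [this, hz_zero]
    rw [e1, e2, one_mul, one_mul]
    congr 1
    apply Matrix.ext
    intro i j
    rw [Matrix.submatrix_apply, Matrix.of_apply, Matrix.of_apply, Fin.succAbove_last]
    congr 1
    show (a (Fin.castSucc i).val : ℤ) + stair (L + 1) (Fin.castSucc i) -
      stair (L + 1) (Fin.castSucc j) = (a i.val : ℤ) + stair L i - stair L j
    rw [stair_eq, stair_eq, stair_eq, stair_eq]
    simp
    ring
  · intro j _ hj
    rw [Matrix.of_apply, hz_neg, mul_zero, zero_mul]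
    have hj2 : j.val ≠ L := by
      intro h'
      apply hj
      exact Fin.ext h'
    have hj3 := j.isLt
    show (a (Fin.last L).val : ℤ) + stair (L + 1) (Fin.last L) - stair (L + 1) j < 0
    rw [Fin.val_last, h, stair_eq, stair_eq, Fin.val_last]
    push_cast
    omega
  · intro h'
    exact absurd (mem_univ _) h'

theorem SL_le (a : ℕ → ℕ) {N : ℕ} (hN : L ≤ N) (h : ∀ j, L ≤ j → a j = 0) :
    SL n K N a = SL n K L a := by
  induction N, hN using Nat.le_induction with
  | base => rfl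
  | succ N hN ih => rw [SL_succ a (h N hN), ih]

/-- the Schur polynomial of a vector with `n` parts, by the Jacobi-Trudi determinant -/
noncomputable def schur (n : ℕ) (K : Type*) [CommRing K] (μ : Fin n → ℕ) :
    MvPolynomial (Fin n) K :=
  Matrix.det (Matrix.of fun i j : Fin n => hz n K ((μ i : ℤ) - (i.val : ℤ) + (j.val : ℤ)))

/-- the vector with `n` parts of a sequence -/
def tr (n : ℕ) (a : ℕ → ℕ) : Fin n → ℕ := fun i => a i.val

theorem schur_eq (μ : Fin n → ℕ) : schur n K μ = Sd n K (fun i => (μ i : ℤ) + stair n i) := by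
  unfold schur Sd
  congr 1
  apply Matrix.ext
  intro i j
  rw [Matrix.of_apply, Matrix.of_apply]
  congr 1
  show (μ i : ℤ) - (i.val : ℤ) + (j.val : ℤ) = (μ i : ℤ) + stair n i - stair n j
  rw [stair_eq, stair_eq]
  ring

theorem schur_tr (a : ℕ → ℕ) : schur n K (tr n a) = SL n K n a := by
  rw [schur_eq]
  rfl

/-- the sequence of parts of a strictly decreasing vector -/
def pt (l : Fin L → ℤ) : ℕ → ℕ := fun j =>
  if h : j < L then (l ⟨j, h⟩ - stair L ⟨j, h⟩).toNat else 0

theorem pt_eq {l : Fin L → ℤ} (hl : StrictAnti l) (h0 : ∀ i, 0 ≤ l i) (i : Fin L) :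
    ((pt l i.val : ℕ) : ℤ) = l i - stair L i := by
  unfold pt
  rw [dif_pos i.isLt]
  have h1 := stair_le hl h0 i
  have h2 : (0 : ℤ) ≤ l i - stair L i := by omega
  exact Int.toNat_of_nonneg h2

theorem Sd_eq_SL {l : Fin L → ℤ} (hl : StrictAnti l) (h0 : ∀ i, 0 ≤ l i) :
    Sd n K l = SL n K L (pt l) := by
  unfold SL
  congr 1
  funext i
  rw [pt_eq hl h0]
  ring

theorem pt_antitone {l : Fin L → ℤ} (hl : StrictAnti l) (h0 : ∀ i, 0 ≤ l i) :
    Antitone (pt l) := by
  apply antitone_nat_of_succ_le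
  intro j
  by_cases h : j + 1 < L
  · have h1 := pt_eq hl h0 ⟨j, by omega⟩
    have h2 := pt_eq hl h0 ⟨j + 1, h⟩
    have h3 : l ⟨j + 1, h⟩ < l ⟨j, by omega⟩ := hl (by rw [Fin.lt_def]; simp)
    rw [stair_eq] at h1 h2
    push_cast at h2
    simp only at h1
    omega
  · unfold pt
    rw [dif_neg h]
    exact Nat.zero_le _

theorem pt_zero (l : Fin L → ℤ) {j : ℕ} (h : L ≤ j) : pt l j = 0 := by
  unfold pt
  rw [dif_neg (by omega)]

theorem sum_pt {l : Fin L → ℤ} (hl : StrictAnti l) (h0 : ∀ i, 0 ≤ l i) :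
    ((∑ j ∈ range L, pt l j : ℕ) : ℤ) = ∑ i, (l i - stair L i) := by
  rw [← Fin.sum_univ_eq_sum_range]
  push_cast
  apply sum_congr rfl
  intro i _
  exact pt_eq hl h0 i

/-- an antitone sequence with sum `n` vanishes from the place `n` on -/
theorem anti_zero {a : ℕ → ℕ} (ha : Antitone a) {N : ℕ} (hs : ∑ j ∈ range N, a j = n)
    (hz : ∀ j, N ≤ j → a j = 0) (j : ℕ) (hj : n ≤ j) : a j = 0 := by
  by_contra h
  have h1 : 1 ≤ a j := by omega
  have h2 : j < N := by
    by_contra h'
    exact h (hz j (by omega))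
  have h3 : ∑ i ∈ range (j + 1), 1 ≤ ∑ i ∈ range (j + 1), a i := by
    apply sum_le_sum
    intro i hi
    rw [mem_range] at hi
    exact le_trans h1 (ha (by omega))
  have h4 : ∑ i ∈ range (j + 1), a i ≤ ∑ i ∈ range N, a i := by
    apply sum_le_sum_of_subset
    intro i hi
    rw [mem_range] at hi ⊢
    omega
  simp at h3
  omega

theorem sum_range_stab {a : ℕ → ℕ} {N N' : ℕ} (h : ∀ j, N ≤ j → a j = 0)
    (h' : ∀ j, N' ≤ j → a j = 0) : ∑ j ∈ range N, a j = ∑ j ∈ range N', a j := by
  have key : ∀ N N' : ℕ, N ≤ N' → (∀ j, N ≤ j → a j = 0) →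
      ∑ j ∈ range N, a j = ∑ j ∈ range N', a j := by
    intro N N' hNN h
    apply sum_subset
    · intro i hi
      rw [mem_range] at hi ⊢
      omega
    · intro i _ hi
      rw [mem_range] at hi
      exact h i (by omega)
  rcases le_total N N' with h1 | h1
  · exact key N N' h1 h
  · exact (key N' N h1 h').symm

/-- a Jacobi-Trudi determinant of any size is a Schur polynomial in `n` variables -/
theorem Sd_eq_schur {l : Fin L → ℤ} (hl : StrictAnti l) (h0 : ∀ i, 0 ≤ l i)
    (hs : ∑ i, (l i - stair L i) = (n : ℤ)) :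
    Sd n K l = schur n K (tr n (pt l)) ∧ Antitone (tr n (pt l)) ∧ ∑ i, tr n (pt l) i = n := by
  have hsum : ∑ j ∈ range L, pt l j = n := by
    have := sum_pt hl h0
    rw [hs] at this
    exact_mod_cast this
  have hz := anti_zero (pt_antitone hl h0) hsum (fun j hj => pt_zero l hj)
  refine ⟨?_, ?_, ?_⟩
  · rw [schur_tr, Sd_eq_SL hl h0]
    rw [← SL_le (L := L) (N := max L n) (pt l) (le_max_left _ _) (fun j hj => pt_zero l hj),
      ← SL_le (L := n) (N := max L n) (pt l) (le_max_right _ _) hz]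
  · intro i j hij
    exact pt_antitone hl h0 hij
  · have : ∑ i : Fin n, tr n (pt l) i = ∑ j ∈ range n, pt l j :=
      Fin.sum_univ_eq_sum_range (pt l) n
    rw [this, sum_range_stab (N' := L) (fun j hj => hz j hj) (fun j hj => pt_zero l hj), hsum]

end Pool.Agent.Helper32.HG
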