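import Mathlib
import Pool.Agent.Helper32.HG.Stab
import Pool.Agent.Helper32.HG.Pow

/-!
# Symmetric polynomials: monomial and Schur expansions
-/

namespace Pool.Agent.Helper32.HG

open Finset MvPolynomial
open scoped Classical

variable {n : ℕ} {K : Type*} [CommRing K]

theorem ex_inj {d e : Fin n → ℕ} (h : ex d = ex e) : d = e := by
  funext i
  rw [← ex_apply d i, h, ex_apply]

theorem ext_ex {f g : MvPolynomial (Fin n) K} (h : ∀ e : Fin n → ℕ, coeff (ex e) f =
    coeff (ex e) g) : f = g := by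
  ext s
  rw [← ex_coe s]
  exact h _

/-- the partitions of `n`, as weakly decreasing vectors with `n` parts -/
noncomputable def parts (n : ℕ) : Finset (Fin n → ℕ) :=
  (piAntidiag (univ : Finset (Fin n)) n).filter (fun μ => Antitone μ)

theorem mem_parts (μ : Fin n → ℕ) : μ ∈ parts n ↔ Antitone μ ∧ ∑ i, μ i = n := by
  unfold parts
  rw [mem_filter, mem_piAntidiag]
  constructor
  · rintro ⟨⟨h1, _⟩, h2⟩
    exact ⟨h2, h1⟩
  · rintro ⟨h1, h2⟩
    exact ⟨⟨h2, fun _ _ => mem_univ _⟩, h1⟩

/-- the monomial symmetric polynomial -/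
noncomputable def msym (n : ℕ) (K : Type*) [CommRing K] (μ : Fin n → ℕ) :
    MvPolynomial (Fin n) K :=
  ∑ e ∈ univ.image (fun σ : Equiv.Perm (Fin n) => μ ∘ σ), monomial (ex e) (1 : K)

/-- dominance order -/
def DomLe (μ ν : Fin n → ℕ) : Prop :=
  ∀ k : ℕ, ∑ i : Fin n with i.val < k, μ i ≤ ∑ i : Fin n with i.val < k, ν i

theorem coeff_msym (μ e : Fin n → ℕ) :
    coeff (ex e) (msym n K μ) = if ∃ σ : Equiv.Perm (Fin n), e = μ ∘ σ then 1 else 0 := by
  unfold msym
  rw [coeff_sum]
  simp only [coeff_monomial]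
  by_cases h : ∃ σ : Equiv.Perm (Fin n), e = μ ∘ σ
  · rw [if_pos h, sum_eq_single e]
    · rw [if_pos rfl]
    · intro d _ hd
      rw [if_neg]
      intro h'
      exact hd (ex_inj h')
    · intro h'
      exfalso
      apply h'
      obtain ⟨σ, hσ⟩ := h
      rw [mem_image]
      exact ⟨σ, mem_univ _, hσ.symm⟩
  · rw [if_neg h]
    apply sum_eq_zero
    intro d hd
    rw [if_neg]
    intro h'
    apply h
    rw [mem_image] at hd
    obtain ⟨σ, _, hσ⟩ := hd
    exact ⟨σ, by rw [hσ, ex_inj h']⟩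

theorem DomLe.refl (μ : Fin n → ℕ) : DomLe μ μ := fun _ => le_rfl

theorem DomLe.trans {μ ν κ : Fin n → ℕ} (h : DomLe μ ν) (h' : DomLe ν κ) : DomLe μ κ :=
  fun k => le_trans (h k) (h' k)

theorem eq_of_partial {μ ν : Fin n → ℕ} (h : ∀ k : ℕ, k ≤ n →
    ∑ i : Fin n with i.val < k, μ i = ∑ i : Fin n with i.val < k, ν i) : μ = ν := by
  funext x
  have e : ∀ f : Fin n → ℕ, ∑ i : Fin n with i.val < x.val + 1, f i =
      (∑ i : Fin n with i.val < x.val, f i) + f x := by
    intro f
    have : (univ.filter fun i : Fin n => i.val < x.val + 1) =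
        insert x (univ.filter fun i : Fin n => i.val < x.val) := by
      ext i
      rw [mem_insert, mem_filter, mem_filter]
      constructor
      · rintro ⟨_, h⟩
        by_cases h1 : i = x
        · exact Or.inl h1
        · right
          refine ⟨mem_univ _, ?_⟩
          have : i.val ≠ x.val := fun h' => h1 (Fin.ext h')
          omega
      · rintro (h | h)
        · rw [h]
          exact ⟨mem_univ _, by omega⟩
        · exact ⟨mem_univ _, by omega⟩
    rw [this, sum_insert, add_comm]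
    rw [mem_filter]
    intro h
    omega
  have h1 := h x.val (by have := x.isLt; omega)
  have h2 := h (x.val + 1) (by have := x.isLt; omega)
  rw [e, e, h1] at h2
  omega

/-- a statistic which is strictly increasing in the dominance order -/
def stat (μ : Fin n → ℕ) : ℕ := ∑ k ∈ range (n + 1), ∑ i : Fin n with i.val < k, μ i

theorem stat_le {μ ν : Fin n → ℕ} (h : DomLe μ ν) : stat μ ≤ stat ν :=
  sum_le_sum (fun k _ => h k)

theorem eq_of_stat {μ ν : Fin n → ℕ} (h : DomLe μ ν) (h' : stat ν ≤ stat μ) : μ = ν := by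
  apply eq_of_partial
  intro k hk
  have h1 : stat μ = stat ν := le_antisymm (stat_le h) h'
  unfold stat at h1
  rw [sum_eq_sum_iff_of_le (fun k _ => h k)] at h1
  exact h1 k (mem_range.2 (by omega))

theorem DomLe.antisymm {μ ν : Fin n → ℕ} (h : DomLe μ ν) (h' : DomLe ν μ) : μ = ν :=
  eq_of_stat h (stat_le h')

theorem stat_lt {μ ν : Fin n → ℕ} (h : DomLe μ ν) (hne : μ ≠ ν) : stat μ < stat ν := by
  by_contra h'
  exact hne (eq_of_stat h (by omega))

theorem sort_exists (e : Fin n → ℕ) : ∃ σ : Equiv.Perm (Fin n), Antitone (e ∘ σ) := by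
  have hm := Tuple.monotone_sort (fun i => - (e i : ℤ))
  refine ⟨Tuple.sort (fun i => - (e i : ℤ)), ?_⟩
  intro i j hij
  have h2 := hm hij
  simp only [Function.comp] at h2 ⊢
  omega

theorem sort_unique {μ ν : Fin n → ℕ} (hμ : Antitone μ) (hν : Antitone ν)
    {σ : Equiv.Perm (Fin n)} (h : μ = ν ∘ σ) : μ = ν := by
  have h1 : ν ∘ σ = ν ∘ (1 : Equiv.Perm (Fin n)) := by
    apply Tuple.unique_antitone
    · rw [← h]; exact hμ
    · exact hν
  rw [h, h1]
  rfl

theorem coeff_symm {f : MvPolynomial (Fin n) K} (hf : f.IsSymmetric) (e : Fin n → ℕ)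
    (σ : Equiv.Perm (Fin n)) : coeff (ex (e ∘ σ)) f = coeff (ex e) f := by
  have h1 := coeff_rename_mapDomain (R := K) σ σ.injective f (ex (e ∘ σ))
  rw [hf σ] at h1
  rw [← h1]
  congr 1
  ext i
  rw [ex_apply]
  have : i = σ (σ.symm i) := by simp
  rw [this, Finsupp.mapDomain_apply σ.injective, ex_apply]
  simp

/-- expansion of a symmetric polynomial in the monomial ones -/
theorem sym_expand {f : MvPolynomial (Fin n) K} (hf : f.IsSymmetric)
    (hh : ∀ e : Fin n → ℕ, coeff (ex e) f ≠ 0 → ∑ i, e i = n) :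
    f = ∑ ν ∈ parts n, coeff (ex ν) f • msym n K ν := by
  apply ext_ex
  intro e
  rw [coeff_sum]
  simp only [coeff_smul, coeff_msym, smul_eq_mul]
  obtain ⟨σ, hσ⟩ := sort_exists e
  have hσ2 : e = (e ∘ σ) ∘ (σ⁻¹ : Equiv.Perm (Fin n)) := by
    funext i
    simp [Function.comp]
  by_cases hs : ∑ i, e i = n
  · rw [sum_eq_single (e ∘ σ)]
    · rw [if_pos ⟨_, hσ2⟩, mul_one, coeff_symm hf]
    · intro ν hν hne
      rw [if_neg, mul_zero]
      rintro ⟨τ, hτ⟩
      apply hne
      rw [mem_parts] at hν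
      symm
      apply sort_unique hσ hν.1 (σ := τ * σ)
      rw [hτ]
      rfl
    · intro h
      exfalso
      apply h
      rw [mem_parts]
      exact ⟨hσ, (Equiv.sum_comp σ e).trans hs⟩
  · have h0 : coeff (ex e) f = 0 := by
      by_contra h
      exact hs (hh e h)
    rw [h0]
    symm
    apply sum_eq_zero
    intro ν hν
    rw [if_neg, mul_zero]
    rintro ⟨τ, hτ⟩
    apply hs
    rw [mem_parts] at hν
    rw [hτ]
    exact (Equiv.sum_comp τ ν).trans hν.2

theorem hz_symm (k : ℤ) : (hz n K k).IsSymmetric := by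
  intro σ
  apply ext_ex
  intro e
  have h1 := coeff_rename_mapDomain (R := K) σ σ.injective (hz n K k) (ex (e ∘ σ))
  have h2 : (ex (e ∘ σ)).mapDomain σ = ex e := by
    ext i
    rw [ex_apply]
    have : i = σ (σ.symm i) := by simp
    rw [this, Finsupp.mapDomain_apply σ.injective, ex_apply]
    simp
  rw [h2] at h1
  rw [h1, coeff_hz, coeff_hz]
  have e3 : (∑ i, ex (e ∘ σ) i) = ∑ i, ex e i := by
    simp only [ex_apply]
    exact Equiv.sum_comp σ e
  rw [e3]

theorem Sd_symm {L : ℕ} (l : Fin L → ℤ) : (Sd n K l).IsSymmetric := by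
  intro σ
  unfold Sd
  rw [AlgHom.map_det]
  congr 1
  apply Matrix.ext
  intro i j
  rw [AlgHom.mapMatrix_apply, Matrix.map_apply, Matrix.of_apply]
  exact hz_symm _ σ

theorem schur_symm (μ : Fin n → ℕ) : (schur n K μ).IsSymmetric := by
  rw [schur_eq]
  exact Sd_symm _

theorem anti_stair {μ : Fin n → ℕ} (h : Antitone μ) :
    StrictAnti (fun i => (μ i : ℤ) + stair n i) := by
  intro i j hij
  have h1 := h hij.le
  have h2 : stair n j < stair n i := stair_strictAnti hij
  show (μ j : ℤ) + stair n j < (μ i : ℤ) + stair n i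
  omega

/-- the support of a Schur polynomial -/
theorem schur_supp {μ : Fin n → ℕ} (h : Antitone μ) (e : Fin n → ℕ)
    (he : coeff (ex e) (schur n K μ) ≠ 0) :
    (∀ T : Finset (Fin n), ∑ v ∈ T, e v ≤ ∑ i : Fin n with i.val < T.card, μ i) ∧
      ∑ i, e i = ∑ i, μ i := by
  rw [schur_eq] at he
  constructor
  · intro T
    have h1 := supp_dom T (ex e) _ (anti_stair h) he
    simp only [ex_apply, add_sub_cancel_right] at h1
    exact_mod_cast h1
  · have h1 := (supp_card univ (ex e) (fun v hv => absurd (mem_univ v) hv) _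
      (anti_stair h) he).2
    simp only [ex_apply, add_sub_cancel_right] at h1
    exact_mod_cast h1.symm

theorem schur_diag {μ : Fin n → ℕ} (h : Antitone μ) : coeff (ex μ) (schur n K μ) = 1 := by
  rw [schur_eq]
  apply coeff_diag n le_rfl le_rfl (ex μ) _ (anti_stair h)
  · intro i hi
    have := i.isLt
    omega
  · intro v i hvi _
    have : v = i := Fin.ext hvi
    subst this
    rw [ex_apply]
    ring
  · intro v hv
    have := v.isLt
    omega

theorem card_lt (k : ℕ) (hk : k ≤ n) : (univ.filter fun i : Fin n => i.val < k).card = k := by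
  by_cases h : k = n
  · subst h
    rw [filter_true_of_mem]
    · simp
    · intro i _
      exact i.isLt
  · have : (univ.filter fun v : Fin n => v.val < k) = Finset.Iio (⟨k, by omega⟩ : Fin n) := by
      ext v
      simp [Fin.lt_def]
    rw [this, Fin.card_Iio]

theorem domLe_of_supp {μ : Fin n → ℕ} (h : Antitone μ) (e : Fin n → ℕ)
    (he : coeff (ex e) (schur n K μ) ≠ 0) : DomLe e μ := by
  obtain ⟨h1, h2⟩ := schur_supp h e he
  intro k
  by_cases hk : k ≤ n
  · have := h1 (univ.filter fun i : Fin n => i.val < k)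
    rw [card_lt k hk] at this
    exact this
  · have e1 : (univ.filter fun i : Fin n => i.val < k) = univ := by
      rw [filter_true_of_mem]
      intro i _
      have := i.isLt
      omega
    rw [e1, h2]

/-- sums of a rearrangement are bounded by the initial sums -/
theorem top_sum {μ : Fin n → ℕ} (h : Antitone μ) (σ : Equiv.Perm (Fin n)) (T : Finset (Fin n)) :
    ∑ v ∈ T, (μ ∘ σ) v ≤ ∑ i : Fin n with i.val < T.card, μ i := by
  apply (schur_supp (K := ℚ) h (μ ∘ σ) _).1
  rw [coeff_symm (schur_symm μ), schur_diag h]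
  exact one_ne_zero

/-- linear independence of the Schur polynomials -/
theorem schur_indep (a : (Fin n → ℕ) → K) (h : ∑ μ ∈ parts n, a μ • schur n K μ = 0) :
    ∀ μ ∈ parts n, a μ = 0 := by
  by_contra hc
  push Not at hc
  obtain ⟨μ0, h0, h0'⟩ := hc
  obtain ⟨μ, hμ, hmax⟩ := Finset.exists_max_image ((parts n).filter (fun μ => a μ ≠ 0)) stat
    ⟨μ0, mem_filter.2 ⟨h0, h0'⟩⟩
  rw [mem_filter] at hμ
  apply hμ.2
  have h1 := congrArg (coeff (ex μ)) h
  rw [coeff_sum, coeff_zero, sum_eq_single μ] at h1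
  · rw [coeff_smul, schur_diag ((mem_parts μ).1 hμ.1).1, smul_eq_mul, mul_one] at h1
    exact h1
  · intro ν hν hne
    rw [coeff_smul, smul_eq_mul]
    by_cases h2 : a ν = 0
    · rw [h2, zero_mul]
    · by_cases h3 : coeff (ex μ) (schur n K ν) = 0
      · rw [h3, mul_zero]
      · exfalso
        apply hne
        have h4 := domLe_of_supp ((mem_parts ν).1 hν).1 μ h3
        exact (eq_of_stat h4 (hmax ν (mem_filter.2 ⟨hν, h2⟩))).symm
  · intro h2
    exact absurd hμ.1 h2

/-- a combination of Schur polynomials below `lam` -/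
theorem schur_comb (lam : Fin n → ℕ) (hlam : lam ∈ parts n) (C : (Fin n → ℕ) → K)
    (hC : ∀ μ ∈ parts n, C μ ≠ 0 → DomLe μ lam) :
    ∑ μ ∈ parts n, C μ • schur n K μ = C lam • msym n K lam +
      ∑ ν ∈ (parts n).filter (fun ν => DomLe ν lam ∧ ν ≠ lam),
        coeff (ex ν) (∑ μ ∈ parts n, C μ • schur n K μ) • msym n K ν := by
  set f := ∑ μ ∈ parts n, C μ • schur n K μ with hf
  have hsym : f.IsSymmetric := by
    intro σ
    rw [hf, map_sum]
    apply sum_congr rfl
    intro μ _
    rw [map_smul, schur_symm μ σ]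
  have hcoef : ∀ e : Fin n → ℕ, coeff (ex e) f ≠ 0 → ∃ μ ∈ parts n, C μ ≠ 0 ∧
      coeff (ex e) (schur n K μ) ≠ 0 := by
    intro e he
    rw [hf, coeff_sum] at he
    obtain ⟨μ, hμ, hne⟩ := exists_ne_zero_of_sum_ne_zero he
    rw [coeff_smul, smul_eq_mul] at hne
    exact ⟨μ, hμ, left_ne_zero_of_mul hne, right_ne_zero_of_mul hne⟩
  have hh : ∀ e : Fin n → ℕ, coeff (ex e) f ≠ 0 → ∑ i, e i = n := by
    intro e he
    obtain ⟨μ, hμ, _, h2⟩ := hcoef e he
    rw [(schur_supp ((mem_parts μ).1 hμ).1 e h2).2]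
    exact ((mem_parts μ).1 hμ).2
  have hl : coeff (ex lam) f = C lam := by
    rw [hf, coeff_sum, sum_eq_single lam]
    · rw [coeff_smul, schur_diag ((mem_parts lam).1 hlam).1, smul_eq_mul, mul_one]
    · intro ν hν hne
      rw [coeff_smul, smul_eq_mul]
      by_cases h2 : C ν = 0
      · rw [h2, zero_mul]
      · by_cases h3 : coeff (ex lam) (schur n K ν) = 0
        · rw [h3, mul_zero]
        · exfalso
          apply hne
          have h4 := domLe_of_supp ((mem_parts ν).1 hν).1 lam h3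
          exact DomLe.antisymm (hC ν hν h2) h4
    · intro h2
      exact absurd hlam h2
  nth_rewrite 1 [sym_expand hsym hh]
  rw [← add_sum_erase _ _ hlam, hl]
  congr 1
  symm
  apply sum_subset
  · intro ν hν
    rw [mem_filter] at hν
    exact mem_erase.2 ⟨hν.2.2, hν.1⟩
  · intro ν hν hν'
    rw [mem_erase] at hν
    by_cases h2 : coeff (ex ν) f = 0
    · rw [h2, zero_smul]
    · exfalso
      apply hν'
      obtain ⟨μ, hμ, h3, h4⟩ := hcoef ν h2
      rw [mem_filter]
      exact ⟨hν.2, (domLe_of_supp ((mem_parts μ).1 hμ).1 ν h4).trans (hC μ hμ h3), hν.1⟩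

end Pool.Agent.Helper32.HG
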