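import Mathlib
import Pool.Agent.Helper32.HG.Sym

/-!
# Identification of a polynomial by triangularity and orthogonality
-/

namespace Pool.Agent.Helper32.HG

open Finset MvPolynomial
open scoped Classical

variable {n : ℕ} {K : Type} [Field K] [CharZero K]

/-- homogeneity of weight `n` in the ring of power sums -/
def WtN (n : ℕ) {K : Type*} [Field K] (f : MvPolynomial (Fin n) K) : Prop :=
  ∀ d : Fin n →₀ ℕ, coeff d f ≠ 0 → wtd d = n

theorem WtN.add {f g : MvPolynomial (Fin n) K} (hf : WtN n f) (hg : WtN n g) : WtN n (f + g) := by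
  intro d hd
  rw [coeff_add] at hd
  by_cases h : coeff d f = 0
  · apply hg
    intro h'
    rw [h, h', add_zero] at hd
    exact hd rfl
  · exact hf d h

theorem WtN.smul {f : MvPolynomial (Fin n) K} (hf : WtN n f) (a : K) : WtN n (a • f) := by
  intro d hd
  rw [coeff_smul, smul_eq_mul] at hd
  exact hf d (right_ne_zero_of_mul hd)

theorem WtN.zero : WtN n (0 : MvPolynomial (Fin n) K) := by
  intro d hd
  rw [coeff_zero] at hd
  exact absurd rfl hd

theorem WtN.sum {ι : Type*} (s : Finset ι) (f : ι → MvPolynomial (Fin n) K)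
    (h : ∀ i ∈ s, WtN n (f i)) : WtN n (∑ i ∈ s, f i) := by
  induction s using Finset.induction_on with
  | empty => simpa using WtN.zero
  | insert a s ha ih =>
    rw [sum_insert ha]
    exact (h a (mem_insert_self _ _)).add (ih (fun i hi => h i (mem_insert_of_mem hi)))

theorem bf_eq_sum (ω : ℕ → K) {f : MvPolynomial (Fin n) K} {S : Finset (Fin n →₀ ℕ)}
    (h : f.support ⊆ S) (g : MvPolynomial (Fin n) K) :
    Bf ω f g = ∑ d ∈ S, coeff d f * coeff d g * wgt ω d := by
  unfold Bf
  apply sum_subset h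
  intro d _ hd
  rw [notMem_support_iff] at hd
  rw [hd, zero_mul, zero_mul]

theorem bf_symm (ω : ℕ → K) (f g : MvPolynomial (Fin n) K) : Bf ω f g = Bf ω g f := by
  rw [bf_eq_sum ω (subset_union_left : f.support ⊆ f.support ∪ g.support),
    bf_eq_sum ω (subset_union_right : g.support ⊆ f.support ∪ g.support)]
  apply sum_congr rfl
  intro d _
  ring

theorem bf_add_right (ω : ℕ → K) (f g h : MvPolynomial (Fin n) K) :
    Bf ω f (g + h) = Bf ω f g + Bf ω f h := by
  unfold Bf
  rw [← sum_add_distrib]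
  apply sum_congr rfl
  intro d _
  rw [coeff_add]
  ring

theorem bf_smul_right (ω : ℕ → K) (a : K) (f g : MvPolynomial (Fin n) K) :
    Bf ω f (a • g) = a * Bf ω f g := by
  unfold Bf
  rw [mul_sum]
  apply sum_congr rfl
  intro d _
  rw [coeff_smul, smul_eq_mul]
  ring

theorem bf_zero_right (ω : ℕ → K) (f : MvPolynomial (Fin n) K) : Bf ω f 0 = 0 := by
  unfold Bf
  apply sum_eq_zero
  intro d _
  rw [coeff_zero]
  ring

theorem bf_sum_right (ω : ℕ → K) {ι : Type*} (s : Finset ι) (f : MvPolynomial (Fin n) K)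
    (g : ι → MvPolynomial (Fin n) K) : Bf ω f (∑ i ∈ s, g i) = ∑ i ∈ s, Bf ω f (g i) := by
  induction s using Finset.induction_on with
  | empty => simp [bf_zero_right]
  | insert a s ha ih => rw [sum_insert ha, sum_insert ha, bf_add_right, ih]

theorem bf_add_left (ω : ℕ → K) (f g h : MvPolynomial (Fin n) K) :
    Bf ω (f + g) h = Bf ω f h + Bf ω g h := by
  rw [bf_symm, bf_add_right, bf_symm ω h f, bf_symm ω h g]

theorem bf_smul_left (ω : ℕ → K) (a : K) (f g : MvPolynomial (Fin n) K) :
    Bf ω (a • f) g = a * Bf ω f g := by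
  rw [bf_symm, bf_smul_right, bf_symm]

theorem bf_sum_left (ω : ℕ → K) {ι : Type*} (s : Finset ι) (f : ι → MvPolynomial (Fin n) K)
    (g : MvPolynomial (Fin n) K) : Bf ω (∑ i ∈ s, f i) g = ∑ i ∈ s, Bf ω (f i) g := by
  rw [bf_symm, bf_sum_right]
  apply sum_congr rfl
  intro i _
  rw [bf_symm]

/-- injectivity of the map to polynomials in the variables, in weight `n` -/
theorem Psi_inj {f : MvPolynomial (Fin n) K} (hf : WtN n f) (h : Psi n K f = 0) : f = 0 := by
  ext d
  rw [coeff_zero]
  by_contra hd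
  apply hd
  obtain ⟨ρ, hρ⟩ := coeff_rat d (hf d hd)
  rw [hρ K f (fun d' hd' => hf d' (mem_support_iff.1 hd')), h]
  simp

/-- the partitions strictly below `lam` -/
noncomputable def below (n : ℕ) (lam : Fin n → ℕ) : Finset (Fin n → ℕ) :=
  (parts n).filter (fun ν => DomLe ν lam ∧ ν ≠ lam)

theorem mem_below {lam ν : Fin n → ℕ} : ν ∈ below n lam ↔
    ν ∈ parts n ∧ DomLe ν lam ∧ ν ≠ lam := by
  unfold below
  rw [mem_filter]

/-- identification by orthogonality -/
theorem ident (ω : ℕ → K)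
    (han : ∀ f : MvPolynomial (Fin n) K, WtN n f → Bf ω f f = 0 → f = 0)
    (lam : Fin n → ℕ) (g : (Fin n → ℕ) → MvPolynomial (Fin n) K)
    (hg : ∀ ν ∈ below n lam, WtN n (g ν) ∧ Psi n K (g ν) = msym n K ν)
    (f p : MvPolynomial (Fin n) K) (hf : WtN n f) (hp : WtN n p)
    (C : K) (c u : (Fin n → ℕ) → K)
    (hf2 : Psi n K f = C • msym n K lam + ∑ ν ∈ below n lam, c ν • msym n K ν)
    (hp2 : Psi n K p = msym n K lam + ∑ ν ∈ below n lam, u ν • msym n K ν)
    (hf3 : ∀ ν ∈ below n lam, Bf ω (g ν) f = 0)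
    (hp3 : ∀ ν ∈ below n lam, Bf ω (g ν) p = 0) :
    Psi n K f = C • Psi n K p := by
  set D := f + (-C) • p with hD
  have hDw : WtN n D := hf.add (hp.smul _)
  have hDpsi : Psi n K D = ∑ ν ∈ below n lam, (c ν - C * u ν) • msym n K ν := by
    rw [hD, map_add, map_smul, hf2, hp2, smul_add, smul_sum]
    have : ∑ ν ∈ below n lam, (c ν - C * u ν) • msym n K ν =
        ∑ ν ∈ below n lam, c ν • msym n K ν +
          ∑ ν ∈ below n lam, (-C) • u ν • msym n K ν := by
      rw [← sum_add_distrib]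
      apply sum_congr rfl
      intro ν _
      rw [sub_smul, smul_smul, neg_mul, neg_smul, sub_eq_add_neg]
    rw [this, neg_smul]
    abel
  set E := ∑ ν ∈ below n lam, (c ν - C * u ν) • g ν with hE
  have hEw : WtN n E := by
    apply WtN.sum
    intro ν hν
    exact ((hg ν hν).1).smul _
  have hEpsi : Psi n K E = ∑ ν ∈ below n lam, (c ν - C * u ν) • msym n K ν := by
    rw [hE, map_sum]
    apply sum_congr rfl
    intro ν hν
    rw [map_smul, (hg ν hν).2]
  have hDE : D = E := by
    have h1 : WtN n (D + (-1 : K) • E) := hDw.add (hEw.smul _)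
    have h2 : Psi n K (D + (-1 : K) • E) = 0 := by
      rw [map_add, map_smul, hDpsi, hEpsi]
      simp
    have h3 := Psi_inj h1 h2
    rw [neg_smul, one_smul, ← sub_eq_add_neg, sub_eq_zero] at h3
    exact h3
  have hB : ∀ ν ∈ below n lam, Bf ω (g ν) D = 0 := by
    intro ν hν
    rw [hD, bf_add_right, bf_smul_right, hf3 ν hν, hp3 ν hν]
    ring
  have hDD : Bf ω D D = 0 := by
    have h1 : Bf ω E D = 0 := by
      rw [hE, bf_sum_left]
      apply sum_eq_zero
      intro ν hν
      rw [bf_smul_left, hB ν hν, mul_zero]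
    rwa [← hDE] at h1
  have h0 := han D hDw hDD
  have h1 : Psi n K D = 0 := by rw [h0, map_zero]
  rw [hD, map_add, map_smul, neg_smul, ← sub_eq_add_neg, sub_eq_zero] at h1
  exact h1

end Pool.Agent.Helper32.HG
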