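import Mathlib
import Pool.Agent.Helper32.HG.Ident

/-!
# The form at `t = q ^ 2` over `ℚ(q)` is anisotropic
-/

namespace Pool.Agent.Helper32.HG

open Finset MvPolynomial
open scoped Classical

theorem exists_embedding : ∃ φ : RatFunc ℚ →+* ℝ, 0 < φ RatFunc.X := by
  obtain ⟨x0, hx0, htr⟩ : ∃ x0 : ℝ, 0 < x0 ∧ Transcendental ℚ x0 := by
    have h1 : Transcendental ℤ (liouvilleNumber ((2 : ℕ) : ℝ)) :=
      transcendental_liouvilleNumber (m := 2) le_rfl
    have h2 : Transcendental ℚ (liouvilleNumber ((2 : ℕ) : ℝ)) := by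
      intro h
      exact h1 ((IsFractionRing.isAlgebraic_iff ℤ ℚ ℝ).2 h)
    by_cases h3 : 0 < liouvilleNumber ((2 : ℕ) : ℝ)
    · exact ⟨_, h3, h2⟩
    · refine ⟨- liouvilleNumber ((2 : ℕ) : ℝ), ?_, ?_⟩
      · rcases lt_or_eq_of_le (not_lt.1 h3) with h4 | h4
        · linarith
        · exfalso
          rw [h4] at h2
          exact h2 (isAlgebraic_zero)
      · intro h
        apply h2
        have := h.neg
        rwa [neg_neg] at this
  have hinj : Function.Injective ((Polynomial.aeval (R := ℚ) x0).toRingHom) :=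
    transcendental_iff_injective.1 htr
  refine ⟨IsFractionRing.lift (A := Polynomial ℚ) (K := RatFunc ℚ)
    (g := (Polynomial.aeval (R := ℚ) x0).toRingHom) hinj, ?_⟩
  have h5 : IsFractionRing.lift (A := Polynomial ℚ) (K := RatFunc ℚ)
    (g := (Polynomial.aeval (R := ℚ) x0).toRingHom) hinj RatFunc.X = x0 := by
    rw [← RatFunc.algebraMap_X, IsFractionRing.lift_algebraMap]
    exact Polynomial.aeval_X x0
  rw [h5]
  exact hx0

theorem aniso {n : ℕ} (f : MvPolynomial (Fin n) (RatFunc ℚ))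
    (h : Bf (fun j => 1 + (RatFunc.X : RatFunc ℚ) ^ j) f f = 0) : f = 0 := by
  obtain ⟨φ, hφ⟩ := exists_embedding
  have h1 := congrArg φ h
  unfold Bf at h1
  rw [map_sum, map_zero] at h1
  have hpos : ∀ d : Fin n →₀ ℕ, 0 < φ (wgt (fun j => 1 + (RatFunc.X : RatFunc ℚ) ^ j) d) := by
    intro d
    unfold wgt
    rw [map_prod]
    apply prod_pos
    intro i _
    rw [map_div₀, map_mul, map_pow, map_natCast, map_natCast, map_pow, map_add, map_one, map_pow]
    positivity
  have h2 : ∀ d ∈ f.support, φ (coeff d f * coeff d f *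
      wgt (fun j => 1 + (RatFunc.X : RatFunc ℚ) ^ j) d) = 0 := by
    rw [← sum_eq_zero_iff_of_nonneg]
    · exact h1
    · intro d _
      rw [map_mul, map_mul]
      exact mul_nonneg (mul_self_nonneg _) (hpos d).le
  by_contra hf
  obtain ⟨d, hd⟩ := support_nonempty.2 hf
  have h3 := h2 d hd
  rw [map_mul, map_mul] at h3
  have h4 : φ (coeff d f) = 0 := by
    rcases mul_eq_zero.1 h3 with h5 | h5
    · exact mul_self_eq_zero.1 h5
    · exact absurd h5 (ne_of_gt (hpos d))
  rw [mem_support_iff] at hd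
  exact hd ((map_eq_zero φ).1 h4)

end Pool.Agent.Helper32.HG
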