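import Mathlib
import Pool.Agent.Helper32.HG.Alt

/-!
# Sums of an alternating function over balanced vectors
-/

namespace Pool.Agent.Helper32.HG

open Finset
open scoped Classical

variable {r : ℕ}

/-- the balanced vector -/
def bal (σ : ℤ) (u : Fin r → ℤ) : Fin (r + r) → ℤ :=
  Fin.append u (fun i => σ - u (Fin.rev i))

theorem bal_castAdd (σ : ℤ) (u : Fin r → ℤ) (i : Fin r) : bal σ u (Fin.castAdd r i) = u i := by
  simp [bal]

theorem bal_natAdd (σ : ℤ) (u : Fin r → ℤ) (i : Fin r) :
    bal σ u (Fin.natAdd r i) = σ - u (Fin.rev i) := by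
  simp only [bal, Fin.append_right]

theorem castAdd_ne_natAdd (i j : Fin r) : Fin.castAdd r i ≠ Fin.natAdd r j := by
  intro h
  have := congrArg Fin.val h
  simp at this
  have h2 := i.isLt
  omega

/-- reflection of one coordinate -/
def flp (σ : ℤ) (a : Fin r) (u : Fin r → ℤ) : Fin r → ℤ := Function.update u a (σ - u a)

theorem bal_flp (σ : ℤ) (a : Fin r) (u : Fin r → ℤ) :
    bal σ (flp σ a u) =
      bal σ u ∘ Equiv.swap (Fin.castAdd r a) (Fin.natAdd r (Fin.rev a)) := by
  funext x
  simp only [Function.comp]
  refine Fin.addCases (fun i => ?_) (fun i => ?_) x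
  · rw [bal_castAdd]
    by_cases h : i = a
    · subst h
      rw [Equiv.swap_apply_left, bal_natAdd, Fin.rev_rev]
      simp [flp]
    · rw [Equiv.swap_apply_of_ne_of_ne, bal_castAdd]
      · simp [flp, h]
      · intro h'
        exact h (Fin.castAdd_injective r r h')
      · exact castAdd_ne_natAdd _ _
  · rw [bal_natAdd]
    by_cases h : i = Fin.rev a
    · subst h
      rw [Equiv.swap_apply_right, bal_castAdd, Fin.rev_rev]
      simp [flp]
    · rw [Equiv.swap_apply_of_ne_of_ne, bal_natAdd]
      · have : Fin.rev i ≠ a := by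
          intro h'
          apply h
          rw [← h', Fin.rev_rev]
        simp [flp, this]
      · exact (castAdd_ne_natAdd _ _).symm
      · intro h'
        exact h (Fin.natAdd_injective r r h')

theorem bal_swap (σ : ℤ) (a b : Fin r) (u : Fin r → ℤ) :
    bal σ (u ∘ Equiv.swap a b) =
      (bal σ u ∘ Equiv.swap (Fin.castAdd r a) (Fin.castAdd r b)) ∘
        Equiv.swap (Fin.natAdd r (Fin.rev a)) (Fin.natAdd r (Fin.rev b)) := by
  funext x
  simp only [Function.comp]
  refine Fin.addCases (fun i => ?_) (fun i => ?_) x
  · rw [Equiv.swap_apply_of_ne_of_ne (castAdd_ne_natAdd _ _) (castAdd_ne_natAdd _ _), bal_castAdd]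
    simp only [Function.comp]
    by_cases h1 : i = a
    · subst h1
      rw [Equiv.swap_apply_left, Equiv.swap_apply_left, bal_castAdd]
    · by_cases h2 : i = b
      · subst h2
        rw [Equiv.swap_apply_right, Equiv.swap_apply_right, bal_castAdd]
      · rw [Equiv.swap_apply_of_ne_of_ne h1 h2, Equiv.swap_apply_of_ne_of_ne, bal_castAdd]
        · intro h'
          exact h1 (Fin.castAdd_injective r r h')
        · intro h'
          exact h2 (Fin.castAdd_injective r r h')
  · rw [bal_natAdd]
    simp only [Function.comp]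
    by_cases h1 : i = Fin.rev a
    · subst h1
      rw [Fin.rev_rev, Equiv.swap_apply_left, Equiv.swap_apply_left,
        Equiv.swap_apply_of_ne_of_ne (castAdd_ne_natAdd _ _).symm (castAdd_ne_natAdd _ _).symm,
        bal_natAdd, Fin.rev_rev]
    · by_cases h2 : i = Fin.rev b
      · subst h2
        rw [Fin.rev_rev, Equiv.swap_apply_right, Equiv.swap_apply_right,
          Equiv.swap_apply_of_ne_of_ne (castAdd_ne_natAdd _ _).symm (castAdd_ne_natAdd _ _).symm,
          bal_natAdd, Fin.rev_rev]
      · have h3 : Fin.rev i ≠ a := by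
          intro h'
          apply h1
          rw [← h', Fin.rev_rev]
        have h4 : Fin.rev i ≠ b := by
          intro h'
          apply h2
          rw [← h', Fin.rev_rev]
        have k1 : Equiv.swap (Fin.natAdd r (Fin.rev a)) (Fin.natAdd r (Fin.rev b))
            (Fin.natAdd r i) = Fin.natAdd r i := by
          apply Equiv.swap_apply_of_ne_of_ne
          · intro h'
            exact h1 (Fin.natAdd_injective r r h')
          · intro h'
            exact h2 (Fin.natAdd_injective r r h')
        rw [Equiv.swap_apply_of_ne_of_ne h3 h4, k1,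
          Equiv.swap_apply_of_ne_of_ne (castAdd_ne_natAdd _ _).symm (castAdd_ne_natAdd _ _).symm,
          bal_natAdd]

variable {K : Type*} [CommRing K] {M : Type*} [AddCommGroup M] [Module K M]
  {T : (Fin (r + r) → ℤ) → M}

theorem T_flp (hT : Alt T) (σ : ℤ) (a : Fin r) (u : Fin r → ℤ) :
    T (bal σ (flp σ a u)) = - T (bal σ u) := by
  rw [bal_flp]
  exact hT.swap _ _ _ (castAdd_ne_natAdd _ _)

theorem T_swap (hT : Alt T) (σ : ℤ) (a b : Fin r) (hab : a ≠ b) (u : Fin r → ℤ) :
    T (bal σ (u ∘ Equiv.swap a b)) = T (bal σ u) := by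
  rw [bal_swap, hT.swap, hT.swap, neg_neg]
  · intro h'
    exact hab (Fin.castAdd_injective r r h')
  · intro h'
    exact hab (Fin.rev_injective (Fin.natAdd_injective r r h'))

theorem T_mid (hT : Alt T) (σ : ℤ) (a : Fin r) (u : Fin r → ℤ) (h : 2 * u a = σ) :
    T (bal σ u) = 0 := by
  apply hT.rep _ _ _ (castAdd_ne_natAdd a (Fin.rev a))
  rw [bal_castAdd, bal_natAdd, Fin.rev_rev]
  omega

theorem T_perm (hT : Alt T) (σ : ℤ) (π : Equiv.Perm (Fin r)) (u : Fin r → ℤ) :
    T (bal σ (u ∘ π)) = T (bal σ u) := by
  induction π using Equiv.Perm.swap_induction_on generalizing u with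
  | one => rfl
  | swap_mul f x y hxy ih =>
    have : u ∘ (Equiv.swap x y * f : Equiv.Perm (Fin r)) = (u ∘ Equiv.swap x y) ∘ f := rfl
    rw [this, ih, T_swap hT σ x y hxy]

/-- the folding of the sum, one coordinate at a time -/
theorem bal_flips (hT : Alt T) (w : ℤ → K) (σ N : ℤ) (A : Finset (Fin r)) :
    ∑ u ∈ Fintype.piFinset (fun _ : Fin r => Finset.Icc (-N) (σ + N)),
      (∏ i, w (σ - u i)) • T (bal σ u) =
    ∑ u ∈ (Fintype.piFinset (fun _ : Fin r => Finset.Icc (-N) (σ + N))).filter
      (fun u => ∀ i ∈ A, σ < 2 * u i),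
      (∏ i, (if i ∈ A then w (σ - u i) - w (u i) else w (σ - u i))) • T (bal σ u) := by
  induction A using Finset.induction_on with
  | empty => simp
  | insert a A ha ih =>
    rw [ih]
    set V := Fintype.piFinset (fun _ : Fin r => Finset.Icc (-N) (σ + N)) with hV
    set g : (Fin r → ℤ) → M := fun u =>
      (∏ i, (if i ∈ A then w (σ - u i) - w (u i) else w (σ - u i))) • T (bal σ u) with hg
    have e1 : ∑ u ∈ V.filter (fun u => ∀ i ∈ A, σ < 2 * u i), g u =
        ∑ u ∈ (V.filter (fun u => ∀ i ∈ A, σ < 2 * u i)).filter (fun u => σ < 2 * u a), g u +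
        ∑ u ∈ (V.filter (fun u => ∀ i ∈ A, σ < 2 * u i)).filter (fun u => ¬ σ < 2 * u a), g u :=
      (sum_filter_add_sum_filter_not _ _ _).symm
    have e2 : ∑ u ∈ (V.filter (fun u => ∀ i ∈ A, σ < 2 * u i)).filter (fun u => ¬ σ < 2 * u a),
        g u = ∑ u ∈ (V.filter (fun u => ∀ i ∈ A, σ < 2 * u i)).filter (fun u => 2 * u a < σ),
        g u := by
      symm
      apply sum_subset
      · intro u hu
        rw [mem_filter] at hu ⊢
        exact ⟨hu.1, by omega⟩
      · intro u hu hu'
        rw [mem_filter] at hu hu'
        rw [hg]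
        show (∏ i, (if i ∈ A then w (σ - u i) - w (u i) else w (σ - u i))) • T (bal σ u) = 0
        rw [T_mid hT σ a u, smul_zero]
        have h1 : ¬ 2 * u a < σ := fun h => hu' ⟨hu.1, h⟩
        omega
    have e3 : ∑ u ∈ (V.filter (fun u => ∀ i ∈ A, σ < 2 * u i)).filter (fun u => 2 * u a < σ),
        g u = ∑ u ∈ (V.filter (fun u => ∀ i ∈ A, σ < 2 * u i)).filter (fun u => σ < 2 * u a),
        g (flp σ a u) := by
      have inv : ∀ u : Fin r → ℤ, flp σ a (flp σ a u) = u := by
        intro u
        unfold flp
        simp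
      have mem : ∀ u : Fin r → ℤ, u ∈ V.filter (fun u => ∀ i ∈ A, σ < 2 * u i) →
          flp σ a u ∈ V.filter (fun u => ∀ i ∈ A, σ < 2 * u i) := by
        intro u hu
        rw [mem_filter, hV, Fintype.mem_piFinset] at hu ⊢
        constructor
        · intro i
          have h1 := hu.1 i
          unfold flp
          rw [mem_Icc] at h1 ⊢
          by_cases h : i = a
          · subst h
            rw [Function.update_self]
            omega
          · rw [Function.update_of_ne h]
            exact h1
        · intro i hi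
          have h : i ≠ a := by
            intro h'
            rw [h'] at hi
            exact ha hi
          unfold flp
          rw [Function.update_of_ne h]
          exact hu.2 i hi
      apply sum_bij' (fun u _ => flp σ a u) (fun u _ => flp σ a u)
      · intro u hu
        rw [mem_filter] at hu ⊢
        refine ⟨mem u hu.1, ?_⟩
        unfold flp
        rw [Function.update_self]
        omega
      · intro u hu
        rw [mem_filter] at hu ⊢
        refine ⟨mem u hu.1, ?_⟩
        unfold flp
        rw [Function.update_self]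
        omega
      · intro u _
        exact inv u
      · intro u _
        exact inv u
      · intro u _
        rw [inv]
    rw [e1, e2, e3, ← sum_add_distrib]
    apply sum_congr
    · ext u
      rw [mem_filter, mem_filter, mem_filter]
      constructor
      · rintro ⟨⟨h1, h2⟩, h3⟩
        refine ⟨h1, ?_⟩
        intro i hi
        rw [mem_insert] at hi
        rcases hi with hi | hi
        · rw [hi]; exact h3
        · exact h2 i hi
      · rintro ⟨h1, h2⟩
        exact ⟨⟨h1, fun i hi => h2 i (mem_insert_of_mem hi)⟩, h2 a (mem_insert_self _ _)⟩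
    · intro u _
      rw [hg]
      show (∏ i, (if i ∈ A then w (σ - u i) - w (u i) else w (σ - u i))) • T (bal σ u) +
        (∏ i, (if i ∈ A then w (σ - flp σ a u i) - w (flp σ a u i) else w (σ - flp σ a u i))) •
          T (bal σ (flp σ a u)) = _
      rw [T_flp hT, smul_neg, ← sub_eq_add_neg, ← sub_smul]
      congr 1
      rw [← mul_prod_erase univ _ (mem_univ a), ← mul_prod_erase univ _ (mem_univ a),
        ← mul_prod_erase univ _ (mem_univ a)]
      have f1 : ∏ x ∈ univ.erase a, (if x ∈ A then w (σ - flp σ a u x) - w (flp σ a u x)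
          else w (σ - flp σ a u x)) =
          ∏ x ∈ univ.erase a, (if x ∈ A then w (σ - u x) - w (u x) else w (σ - u x)) := by
        apply prod_congr rfl
        intro x hx
        unfold flp
        rw [Function.update_of_ne (ne_of_mem_erase hx)]
      have f2 : ∏ x ∈ univ.erase a, (if x ∈ insert a A then w (σ - u x) - w (u x)
          else w (σ - u x)) =
          ∏ x ∈ univ.erase a, (if x ∈ A then w (σ - u x) - w (u x) else w (σ - u x)) := by
        apply prod_congr rfl
        intro x hx
        simp only [mem_insert, ne_of_mem_erase hx, false_or]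
      rw [f1, f2, if_neg ha, if_neg ha, if_pos (mem_insert_self _ _)]
      have f3 : flp σ a u a = σ - u a := by
        unfold flp
        rw [Function.update_self]
      rw [f3, sub_sub_cancel]
      ring

/-- sorting a symmetric function that vanishes on repetitions -/
theorem sum_sort (V : Finset ℤ) (W : (Fin r → ℤ) → M)
    (hW : ∀ (π : Equiv.Perm (Fin r)) (u : Fin r → ℤ), W (u ∘ π) = W u)
    (hW2 : ∀ (u : Fin r → ℤ) (i j : Fin r), i ≠ j → u i = u j → W u = 0) :
    ∑ u ∈ Fintype.piFinset (fun _ : Fin r => V), W u =
    (r.factorial : K) • ∑ u ∈ (Fintype.piFinset (fun _ : Fin r => V)).filter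
      (fun u => StrictAnti u), W u := by
  have h1 : ∀ u : Fin r → ℤ, W u = ∑ π : Equiv.Perm (Fin r), if StrictAnti (u ∘ π) then W (u ∘ π)
      else 0 := by
    intro u
    by_cases hu : Function.Injective u
    · obtain ⟨π0, hπ0⟩ : ∃ π0 : Equiv.Perm (Fin r), StrictAnti (u ∘ π0) := by
        have hm := Tuple.monotone_sort (fun i => - u i)
        refine ⟨Tuple.sort (fun i => - u i), ?_⟩
        intro i j hij
        have h2 := hm hij.le
        simp only [Function.comp] at h2 ⊢
        have h3 : u ((Tuple.sort fun i => - u i) j) ≠ u ((Tuple.sort fun i => - u i) i) := by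
          intro h4
          have := hu h4
          have := (Tuple.sort fun i => - u i).injective this
          exact absurd this (ne_of_gt hij)
        omega
      rw [sum_eq_single π0]
      · rw [if_pos hπ0, hW]
      · intro π _ hπ
        rw [if_neg]
        intro h
        apply hπ
        have huniq : ∀ (π₁ π₂ : Equiv.Perm (Fin r)), StrictAnti (u ∘ π₁) → StrictAnti (u ∘ π₂) →
            π₁ = π₂ := by
          intro π₁ π₂ k1 k2
          have k3 : StrictMono (π₂⁻¹ * π₁ : Equiv.Perm (Fin r)) := by
            intro i j hij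
            have k4 := k1 hij
            have k5 : (u ∘ π₂) ((π₂⁻¹ * π₁ : Equiv.Perm (Fin r)) j) <
                (u ∘ π₂) ((π₂⁻¹ * π₁ : Equiv.Perm (Fin r)) i) := by
              simpa [Function.comp] using k4
            exact (StrictAnti.lt_iff_gt k2).1 k5
          have k6 : (π₂⁻¹ * π₁ : Equiv.Perm (Fin r)) = 1 := by
            have := Subsingleton.elim
              (StrictMono.orderIsoOfSurjective (π₂⁻¹ * π₁ : Equiv.Perm (Fin r)) k3
                (π₂⁻¹ * π₁ : Equiv.Perm (Fin r)).surjective) (OrderIso.refl (Fin r))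
            ext x
            have h5 := congrArg (fun f => (f x : Fin r)) this
            simp only [StrictMono.coe_orderIsoOfSurjective, OrderIso.refl_apply] at h5
            rw [h5]
            rfl
          rw [inv_mul_eq_one] at k6
          exact k6.symm
        exact huniq _ _ h hπ0
      · intro h; exact absurd (mem_univ _) h
    · have h2 : ∃ i j, u i = u j ∧ i ≠ j := by
        unfold Function.Injective at hu
        push Not at hu
        obtain ⟨i, j, h3, h4⟩ := hu
        exact ⟨i, j, h3, h4⟩
      obtain ⟨i, j, h3, h4⟩ := h2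
      rw [hW2 u i j h4 h3]
      symm
      apply sum_eq_zero
      intro π _
      rw [hW, hW2 u i j h4 h3]
      simp
  have h2 : ∑ u ∈ Fintype.piFinset (fun _ : Fin r => V), W u =
      ∑ π : Equiv.Perm (Fin r), ∑ u ∈ Fintype.piFinset (fun _ : Fin r => V),
        if StrictAnti (u ∘ π) then W (u ∘ π) else 0 := by
    rw [sum_comm]
    apply sum_congr rfl
    intro u _
    exact h1 u
  rw [h2]
  have h3 : ∀ π : Equiv.Perm (Fin r), ∑ u ∈ Fintype.piFinset (fun _ : Fin r => V),
        (if StrictAnti (u ∘ π) then W (u ∘ π) else 0) =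
        ∑ u ∈ (Fintype.piFinset (fun _ : Fin r => V)).filter (fun u => StrictAnti u), W u := by
    intro π
    rw [sum_filter]
    apply sum_bij' (fun u _ => u ∘ π) (fun u _ => u ∘ π.symm)
    · intro u hu
      rw [Fintype.mem_piFinset] at hu ⊢
      intro i
      exact hu _
    · intro u hu
      rw [Fintype.mem_piFinset] at hu ⊢
      intro i
      exact hu _
    · intro u _
      funext i; simp
    · intro u _
      funext i; simp
    · intro u _
      rfl
  rw [sum_congr rfl (fun π _ => h3 π), sum_const, card_univ, Fintype.card_perm, Fintype.card_fin,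
    Nat.cast_smul_eq_nsmul]

/-- the folded and sorted sum -/
theorem bal_fold (hT : Alt T) (w : ℤ → K) (σ N : ℤ) :
    ∑ u ∈ Fintype.piFinset (fun _ : Fin r => Finset.Icc (-N) (σ + N)),
      (∏ i, w (σ - u i)) • T (bal σ u) =
    (r.factorial : K) • ∑ u ∈ (Fintype.piFinset (fun _ : Fin r => Finset.Icc (-N) (σ + N))).filter
      (fun u => StrictAnti u ∧ ∀ i, σ < 2 * u i), (∏ i, (w (σ - u i) - w (u i))) •
        T (bal σ u) := by
  rw [bal_flips hT w σ N univ]
  simp only [mem_univ, if_true, true_imp_iff]
  have h1 := sum_sort (K := K) (Finset.Icc (-N) (σ + N)) (fun u : Fin r → ℤ =>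
    if ∀ i, σ < 2 * u i then (∏ i, (w (σ - u i) - w (u i))) • T (bal σ u) else 0) (by
      intro π u
      have e1 : (∀ i, σ < 2 * (u ∘ π) i) ↔ ∀ i, σ < 2 * u i := by
        constructor
        · intro h i
          have := h (π.symm i)
          simpa using this
        · intro h i
          exact h _
      simp only [e1, T_perm hT]
      have e2 : ∏ i, (w (σ - (u ∘ π) i) - w ((u ∘ π) i)) = ∏ i, (w (σ - u i) - w (u i)) :=
        Equiv.prod_comp π (fun i => w (σ - u i) - w (u i))
      rw [e2]) (by
      intro u i j hij h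
      have : T (bal σ u) = 0 := by
        apply hT.rep _ (Fin.castAdd r i) (Fin.castAdd r j)
        · intro h'
          exact hij (Fin.castAdd_injective r r h')
        · rw [bal_castAdd, bal_castAdd, h]
      simp [this])
  rw [← sum_filter, ← sum_filter, filter_filter] at h1
  rw [h1]

end Pool.Agent.Helper32.HG
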