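import Mathlib
import Pool.Agent.Helper32.HG.Bal

/-!
# Sums of an alternating function over balanced vectors with variable sums
-/

namespace Pool.Agent.Helper32.HG

open Finset
open scoped Classical

variable {r : ℕ}

/-- the balanced vector with variable sums -/
def balf (s u : Fin r → ℤ) : Fin (r + r) → ℤ :=
  Fin.append u (fun i => s (Fin.rev i) - u (Fin.rev i))

/-- the folded index set: x = 2 u + δ -/
noncomputable def Xset (r j : ℕ) (σ : ℤ) : Finset (Fin r → ℤ) :=
  (Fintype.piFinset (fun _ : Fin r =>
    (Finset.Icc (0 : ℤ) (2 * σ + 3)).filter (fun x => x / 2 ≤ σ + x % 2))).filter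
      (fun x => StrictAnti x ∧ ∑ i, x i % 2 = (j : ℤ) ∧ ∀ i, σ + x i % 2 < 2 * (x i / 2))

theorem balf_castAdd (s u : Fin r → ℤ) (i : Fin r) : balf s u (Fin.castAdd r i) = u i := by
  simp [balf]

theorem balf_natAdd (s u : Fin r → ℤ) (i : Fin r) :
    balf s u (Fin.natAdd r i) = s (Fin.rev i) - u (Fin.rev i) := by
  simp only [balf, Fin.append_right]

/-- reflection of one coordinate -/
def flpf (s : Fin r → ℤ) (a : Fin r) (u : Fin r → ℤ) : Fin r → ℤ :=
  Function.update u a (s a - u a)

theorem balf_flp (s : Fin r → ℤ) (a : Fin r) (u : Fin r → ℤ) :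
    balf s (flpf s a u) =
      balf s u ∘ Equiv.swap (Fin.castAdd r a) (Fin.natAdd r (Fin.rev a)) := by
  funext x
  simp only [Function.comp]
  refine Fin.addCases (fun i => ?_) (fun i => ?_) x
  · rw [balf_castAdd]
    by_cases h : i = a
    · subst h
      rw [Equiv.swap_apply_left, balf_natAdd, Fin.rev_rev]
      simp [flpf]
    · rw [Equiv.swap_apply_of_ne_of_ne, balf_castAdd]
      · simp [flpf, h]
      · intro h'
        exact h (Fin.castAdd_injective r r h')
      · exact castAdd_ne_natAdd _ _
  · rw [balf_natAdd]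
    by_cases h : i = Fin.rev a
    · subst h
      rw [Equiv.swap_apply_right, balf_castAdd, Fin.rev_rev]
      simp [flpf]
    · rw [Equiv.swap_apply_of_ne_of_ne, balf_natAdd]
      · have : Fin.rev i ≠ a := by
          intro h'
          apply h
          rw [← h', Fin.rev_rev]
        simp [flpf, this]
      · exact (castAdd_ne_natAdd _ _).symm
      · intro h'
        exact h (Fin.natAdd_injective r r h')

theorem balf_swap (s : Fin r → ℤ) (a b : Fin r) (u : Fin r → ℤ) :
    balf (s ∘ Equiv.swap a b) (u ∘ Equiv.swap a b) =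
      (balf s u ∘ Equiv.swap (Fin.castAdd r a) (Fin.castAdd r b)) ∘
        Equiv.swap (Fin.natAdd r (Fin.rev a)) (Fin.natAdd r (Fin.rev b)) := by
  funext x
  simp only [Function.comp]
  refine Fin.addCases (fun i => ?_) (fun i => ?_) x
  · rw [Equiv.swap_apply_of_ne_of_ne (castAdd_ne_natAdd _ _) (castAdd_ne_natAdd _ _),
      balf_castAdd]
    simp only [Function.comp]
    by_cases h1 : i = a
    · subst h1
      rw [Equiv.swap_apply_left, Equiv.swap_apply_left, balf_castAdd]
    · by_cases h2 : i = b
      · subst h2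
        rw [Equiv.swap_apply_right, Equiv.swap_apply_right, balf_castAdd]
      · rw [Equiv.swap_apply_of_ne_of_ne h1 h2, Equiv.swap_apply_of_ne_of_ne, balf_castAdd]
        · intro h'
          exact h1 (Fin.castAdd_injective r r h')
        · intro h'
          exact h2 (Fin.castAdd_injective r r h')
  · rw [balf_natAdd]
    simp only [Function.comp]
    by_cases h1 : i = Fin.rev a
    · subst h1
      rw [Fin.rev_rev, Equiv.swap_apply_left, Equiv.swap_apply_left,
        Equiv.swap_apply_of_ne_of_ne (castAdd_ne_natAdd _ _).symm (castAdd_ne_natAdd _ _).symm,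
        balf_natAdd, Fin.rev_rev]
    · by_cases h2 : i = Fin.rev b
      · subst h2
        rw [Fin.rev_rev, Equiv.swap_apply_right, Equiv.swap_apply_right,
          Equiv.swap_apply_of_ne_of_ne (castAdd_ne_natAdd _ _).symm (castAdd_ne_natAdd _ _).symm,
          balf_natAdd, Fin.rev_rev]
      · have h3 : Fin.rev i ≠ a := by
          intro h'
          apply h1
          rw [← h', Fin.rev_rev]
        have h4 : Fin.rev i ≠ b := by
          intro h'
          apply h2
          rw [← h', Fin.rev_rev]
        have k1 : Equiv.swap (Fin.natAdd r (Fin.rev a)) (Fin.natAdd r (Fin.rev b))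
            (Fin.natAdd r i) = Fin.natAdd r i := by
          apply Equiv.swap_apply_of_ne_of_ne
          · intro h'
            exact h1 (Fin.natAdd_injective r r h')
          · intro h'
            exact h2 (Fin.natAdd_injective r r h')
        rw [Equiv.swap_apply_of_ne_of_ne h3 h4, k1,
          Equiv.swap_apply_of_ne_of_ne (castAdd_ne_natAdd _ _).symm (castAdd_ne_natAdd _ _).symm,
          balf_natAdd]

section

variable {K : Type*} [CommRing K] {M : Type*} [AddCommGroup M] [Module K M]
  {T : (Fin (r + r) → ℤ) → M}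

theorem Tf_flp (hT : Alt T) (s : Fin r → ℤ) (a : Fin r) (u : Fin r → ℤ) :
    T (balf s (flpf s a u)) = - T (balf s u) := by
  rw [balf_flp]
  exact hT.swap _ _ _ (castAdd_ne_natAdd _ _)

theorem Tf_swap (hT : Alt T) (s : Fin r → ℤ) (a b : Fin r) (hab : a ≠ b) (u : Fin r → ℤ) :
    T (balf (s ∘ Equiv.swap a b) (u ∘ Equiv.swap a b)) = T (balf s u) := by
  rw [balf_swap, hT.swap, hT.swap, neg_neg]
  · intro h'
    exact hab (Fin.castAdd_injective r r h')
  · intro h'
    exact hab (Fin.rev_injective (Fin.natAdd_injective r r h'))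

theorem Tf_mid (hT : Alt T) (s : Fin r → ℤ) (a : Fin r) (u : Fin r → ℤ) (h : 2 * u a = s a) :
    T (balf s u) = 0 := by
  apply hT.rep _ _ _ (castAdd_ne_natAdd a (Fin.rev a))
  rw [balf_castAdd, balf_natAdd, Fin.rev_rev]
  omega

theorem Tf_perm (hT : Alt T) (π : Equiv.Perm (Fin r)) (s u : Fin r → ℤ) :
    T (balf (s ∘ π) (u ∘ π)) = T (balf s u) := by
  induction π using Equiv.Perm.swap_induction_on generalizing u s with
  | one => rfl
  | swap_mul f x y hxy ih =>
    have h1 : u ∘ (Equiv.swap x y * f : Equiv.Perm (Fin r)) = (u ∘ Equiv.swap x y) ∘ f := rfl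
    have h2 : s ∘ (Equiv.swap x y * f : Equiv.Perm (Fin r)) = (s ∘ Equiv.swap x y) ∘ f := rfl
    rw [h1, h2, ih, Tf_swap hT s x y hxy]

/-- the folding of the sum, one coordinate at a time -/
theorem balf_flips (hT : Alt T) (w : ℤ → K) (s : Fin r → ℤ) (A : Finset (Fin r)) :
    ∑ u ∈ Fintype.piFinset (fun i : Fin r => Finset.Icc (0 : ℤ) (s i)),
      (∏ i, w (s i - u i)) • T (balf s u) =
    ∑ u ∈ (Fintype.piFinset (fun i : Fin r => Finset.Icc (0 : ℤ) (s i))).filter
      (fun u => ∀ i ∈ A, s i < 2 * u i),
      (∏ i, (if i ∈ A then w (s i - u i) - w (u i) else w (s i - u i))) • T (balf s u) := by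
  induction A using Finset.induction_on with
  | empty => simp
  | insert a A ha ih =>
    rw [ih]
    set V := Fintype.piFinset (fun i : Fin r => Finset.Icc (0 : ℤ) (s i)) with hV
    set g : (Fin r → ℤ) → M := fun u =>
      (∏ i, (if i ∈ A then w (s i - u i) - w (u i) else w (s i - u i))) • T (balf s u) with hg
    have e1 : ∑ u ∈ V.filter (fun u => ∀ i ∈ A, s i < 2 * u i), g u =
        ∑ u ∈ (V.filter (fun u => ∀ i ∈ A, s i < 2 * u i)).filter
          (fun u => s a < 2 * u a), g u +
        ∑ u ∈ (V.filter (fun u => ∀ i ∈ A, s i < 2 * u i)).filter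
          (fun u => ¬ s a < 2 * u a), g u :=
      (sum_filter_add_sum_filter_not _ _ _).symm
    have e2 : ∑ u ∈ (V.filter (fun u => ∀ i ∈ A, s i < 2 * u i)).filter
          (fun u => ¬ s a < 2 * u a), g u =
        ∑ u ∈ (V.filter (fun u => ∀ i ∈ A, s i < 2 * u i)).filter
          (fun u => 2 * u a < s a), g u := by
      symm
      apply sum_subset
      · intro u hu
        rw [mem_filter] at hu ⊢
        exact ⟨hu.1, by omega⟩
      · intro u hu hu'
        rw [mem_filter] at hu hu'
        rw [hg]
        show (∏ i, (if i ∈ A then w (s i - u i) - w (u i) else w (s i - u i))) •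
          T (balf s u) = 0
        rw [Tf_mid hT s a u, smul_zero]
        have h1 : ¬ 2 * u a < s a := fun h => hu' ⟨hu.1, h⟩
        omega
    have e3 : ∑ u ∈ (V.filter (fun u => ∀ i ∈ A, s i < 2 * u i)).filter
          (fun u => 2 * u a < s a), g u =
        ∑ u ∈ (V.filter (fun u => ∀ i ∈ A, s i < 2 * u i)).filter (fun u => s a < 2 * u a),
        g (flpf s a u) := by
      have inv : ∀ u : Fin r → ℤ, flpf s a (flpf s a u) = u := by
        intro u
        unfold flpf
        simp
      have mem : ∀ u : Fin r → ℤ, u ∈ V.filter (fun u => ∀ i ∈ A, s i < 2 * u i) →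
          flpf s a u ∈ V.filter (fun u => ∀ i ∈ A, s i < 2 * u i) := by
        intro u hu
        rw [mem_filter, hV, Fintype.mem_piFinset] at hu ⊢
        constructor
        · intro i
          have h1 := hu.1 i
          unfold flpf
          rw [mem_Icc] at h1 ⊢
          by_cases h : i = a
          · subst h
            rw [Function.update_self]
            omega
          · rw [Function.update_of_ne h]
            exact h1
        · intro i hi
          have h : i ≠ a := by
            intro h'
            rw [h'] at hi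
            exact ha hi
          unfold flpf
          rw [Function.update_of_ne h]
          exact hu.2 i hi
      apply sum_bij' (fun u _ => flpf s a u) (fun u _ => flpf s a u)
      · intro u hu
        rw [mem_filter] at hu ⊢
        refine ⟨mem u hu.1, ?_⟩
        unfold flpf
        rw [Function.update_self]
        omega
      · intro u hu
        rw [mem_filter] at hu ⊢
        refine ⟨mem u hu.1, ?_⟩
        unfold flpf
        rw [Function.update_self]
        omega
      · intro u _
        exact inv u
      · intro u _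
        exact inv u
      · intro u _
        rw [inv]
    rw [e1, e2, e3, ← sum_add_distrib]
    apply sum_congr
    · ext u
      rw [mem_filter, mem_filter, mem_filter]
      constructor
      · rintro ⟨⟨h1, h2⟩, h3⟩
        refine ⟨h1, ?_⟩
        intro i hi
        rw [mem_insert] at hi
        rcases hi with hi | hi
        · rw [hi]; exact h3
        · exact h2 i hi
      · rintro ⟨h1, h2⟩
        exact ⟨⟨h1, fun i hi => h2 i (mem_insert_of_mem hi)⟩, h2 a (mem_insert_self _ _)⟩
    · intro u _
      rw [hg]
      show (∏ i, (if i ∈ A then w (s i - u i) - w (u i) else w (s i - u i))) • T (balf s u) +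
        (∏ i, (if i ∈ A then w (s i - flpf s a u i) - w (flpf s a u i)
          else w (s i - flpf s a u i))) • T (balf s (flpf s a u)) = _
      rw [Tf_flp hT, smul_neg, ← sub_eq_add_neg, ← sub_smul]
      congr 1
      rw [← mul_prod_erase univ _ (mem_univ a), ← mul_prod_erase univ _ (mem_univ a),
        ← mul_prod_erase univ _ (mem_univ a)]
      have f1 : ∏ x ∈ univ.erase a, (if x ∈ A then w (s x - flpf s a u x) - w (flpf s a u x)
          else w (s x - flpf s a u x)) =
          ∏ x ∈ univ.erase a, (if x ∈ A then w (s x - u x) - w (u x) else w (s x - u x)) := by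
        apply prod_congr rfl
        intro x hx
        unfold flpf
        rw [Function.update_of_ne (ne_of_mem_erase hx)]
      have f2 : ∏ x ∈ univ.erase a, (if x ∈ insert a A then w (s x - u x) - w (u x)
          else w (s x - u x)) =
          ∏ x ∈ univ.erase a, (if x ∈ A then w (s x - u x) - w (u x) else w (s x - u x)) := by
        apply prod_congr rfl
        intro x hx
        simp only [mem_insert, ne_of_mem_erase hx, false_or]
      rw [f1, f2, if_neg ha, if_neg ha, if_pos (mem_insert_self _ _)]
      have f3 : flpf s a u a = s a - u a := by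
        unfold flpf
        rw [Function.update_self]
      rw [f3, sub_sub_cancel]
      ring

/-- the folded and sorted sum -/
theorem balf_fold (hT : Alt T) (w : ℤ → K) (σ : ℤ) (j : ℕ) :
    ∑ δ ∈ (Fintype.piFinset (fun _ : Fin r => Finset.Icc (0 : ℤ) 1)).filter
        (fun δ => ∑ i, δ i = (j : ℤ)),
      ∑ u ∈ Fintype.piFinset (fun i : Fin r => Finset.Icc (0 : ℤ) (σ + δ i)),
        (∏ i, w (σ + δ i - u i)) • T (balf (fun i => σ + δ i) u) =
    (r.factorial : K) • ∑ x ∈ Xset r j σ,
      (∏ i, (w (σ + x i % 2 - x i / 2) - w (x i / 2))) •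
        T (balf (fun i => σ + x i % 2) (fun i => x i / 2)) := by
  have h1 : ∀ δ : Fin r → ℤ,
      ∑ u ∈ Fintype.piFinset (fun i : Fin r => Finset.Icc (0 : ℤ) (σ + δ i)),
        (∏ i, w (σ + δ i - u i)) • T (balf (fun i => σ + δ i) u) =
      ∑ u ∈ (Fintype.piFinset (fun i : Fin r => Finset.Icc (0 : ℤ) (σ + δ i))).filter
        (fun u => ∀ i, σ + δ i < 2 * u i),
        (∏ i, (w (σ + δ i - u i) - w (u i))) • T (balf (fun i => σ + δ i) u) := by
    intro δ
    have := balf_flips hT w (fun i => σ + δ i) univ
    simp only [mem_univ, if_true, true_imp_iff] at this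
    exact this
  rw [sum_congr rfl fun δ _ => h1 δ, sum_sigma']
  have h2 := sum_sort (K := K) ((Finset.Icc (0 : ℤ) (2 * σ + 3)).filter
      (fun x => x / 2 ≤ σ + x % 2)) (fun x : Fin r → ℤ =>
    if ∑ i, x i % 2 = (j : ℤ) ∧ ∀ i, σ + x i % 2 < 2 * (x i / 2) then
      (∏ i, (w (σ + x i % 2 - x i / 2) - w (x i / 2))) •
        T (balf (fun i => σ + x i % 2) (fun i => x i / 2)) else 0) (by
      intro π x
      have e1 : (∀ i, σ + (x ∘ π) i % 2 < 2 * ((x ∘ π) i / 2)) ↔
          ∀ i, σ + x i % 2 < 2 * (x i / 2) := by
        constructor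
        · intro h i
          have := h (π.symm i)
          simpa using this
        · intro h i
          exact h _
      have e0 : ∑ i, (x ∘ π) i % 2 = ∑ i, x i % 2 := Equiv.sum_comp π (fun i => x i % 2)
      have e2 : ∏ i, (w (σ + (x ∘ π) i % 2 - (x ∘ π) i / 2) - w ((x ∘ π) i / 2)) =
          ∏ i, (w (σ + x i % 2 - x i / 2) - w (x i / 2)) :=
        Equiv.prod_comp π (fun i => w (σ + x i % 2 - x i / 2) - w (x i / 2))
      have e3 : T (balf (fun i => σ + (x ∘ π) i % 2) (fun i => (x ∘ π) i / 2)) =
          T (balf (fun i => σ + x i % 2) (fun i => x i / 2)) :=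
        Tf_perm hT π (fun i => σ + x i % 2) (fun i => x i / 2)
      simp only [e0, e1, e2, e3]) (by
      intro x i k hik h
      have : T (balf (fun i => σ + x i % 2) (fun i => x i / 2)) = 0 := by
        apply hT.rep _ (Fin.castAdd r i) (Fin.castAdd r k)
        · intro h'
          exact hik (Fin.castAdd_injective r r h')
        · rw [balf_castAdd, balf_castAdd, h]
      simp [this])
  rw [← sum_filter, ← sum_filter, filter_filter] at h2
  unfold Xset
  rw [← h2]
  refine sum_bij' (fun y _ => fun i => 2 * y.2 i + y.1 i)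
    (fun x _ => ⟨fun i => x i % 2, fun i => x i / 2⟩) ?_ ?_ ?_ ?_ ?_
  · rintro ⟨δ, u⟩ h
    rw [mem_sigma, mem_filter, mem_filter, Fintype.mem_piFinset, Fintype.mem_piFinset] at h
    obtain ⟨⟨h3, h4⟩, h5, h6⟩ := h
    simp only at h3 h4 h5 h6
    have k1 : ∀ i, (2 * u i + δ i) / 2 = u i := by
      intro i
      have := h3 i
      rw [mem_Icc] at this
      omega
    have k2 : ∀ i, (2 * u i + δ i) % 2 = δ i := by
      intro i
      have := h3 i
      rw [mem_Icc] at this
      omega
    rw [mem_filter, Fintype.mem_piFinset]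
    refine ⟨?_, ?_, ?_⟩
    · intro i
      rw [mem_filter, mem_Icc]
      have a1 := h3 i
      have a2 := h5 i
      simp only [mem_Icc] at a1 a2
      have a3 := k1 i
      have a4 := k2 i
      simp only
      omega
    · simp only [k2]
      exact h4
    · intro i
      simp only [k2, k1]
      exact h6 i
  · intro x h
    rw [mem_filter, Fintype.mem_piFinset] at h
    obtain ⟨h3, h4, h5⟩ := h
    rw [mem_sigma, mem_filter, mem_filter, Fintype.mem_piFinset, Fintype.mem_piFinset]
    refine ⟨⟨?_, h4⟩, ?_, h5⟩
    · intro i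
      simp only [mem_Icc]
      omega
    · intro i
      have a1 := h3 i
      rw [mem_filter, mem_Icc] at a1
      simp only [mem_Icc]
      omega
  · rintro ⟨δ, u⟩ h
    rw [mem_sigma, mem_filter, mem_filter, Fintype.mem_piFinset, Fintype.mem_piFinset] at h
    obtain ⟨⟨h3, h4⟩, h5, h6⟩ := h
    simp only at h3 h4 h5 h6
    have k1 : ∀ i, (2 * u i + δ i) / 2 = u i := by
      intro i
      have := h3 i
      rw [mem_Icc] at this
      omega
    have k2 : ∀ i, (2 * u i + δ i) % 2 = δ i := by
      intro i
      have := h3 i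
      rw [mem_Icc] at this
      omega
    simp only [k1, k2]
  · intro x _
    funext i
    simp only
    omega
  · rintro ⟨δ, u⟩ h
    rw [mem_sigma, mem_filter, mem_filter, Fintype.mem_piFinset, Fintype.mem_piFinset] at h
    obtain ⟨⟨h3, h4⟩, h5, h6⟩ := h
    simp only at h3 h4 h5 h6
    have k1 : ∀ i, (2 * u i + δ i) / 2 = u i := by
      intro i
      have := h3 i
      rw [mem_Icc] at this
      omega
    have k2 : ∀ i, (2 * u i + δ i) % 2 = δ i := by
      intro i
      have := h3 i
      rw [mem_Icc] at this
      omega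
    simp only [k1, k2]

end

end Pool.Agent.Helper32.HG
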