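import Mathlib
import Pool.Agent.Helper32.HG.Kos
import Pool.Agent.Helper32.HG.Bal
import Pool.Agent.Helper32.HG.Pow

/-!
# Expansion of the balanced sums into products of modified complete functions
-/

namespace Pool.Agent.Helper32.HG

open Finset MvPolynomial
open scoped Classical

variable {n r L : ℕ} {K : Type*} [Field K]

theorem gz_sum (q : K) (hq : q ≠ 0) (σ N β β' : ℤ) (h : -N ≤ β) (h' : -N ≤ β') :
    ∑ u ∈ Finset.Icc (-N) (σ + N), (q ^ (σ - u)) • (hz n K (u - β) * hz n K (σ - u - β')) =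
    (q ^ β') • gz n q (σ - β - β') := by
  unfold gz
  rw [smul_sum]
  have h1 : ∑ u ∈ Finset.Icc (-N) (σ + N),
      (q ^ (σ - u)) • (hz n K (u - β) * hz n K (σ - u - β')) =
      ∑ u ∈ Finset.Icc β (σ - β'),
        (q ^ (σ - u)) • (hz n K (u - β) * hz n K (σ - u - β')) := by
    symm
    apply sum_subset
    · intro u hu
      rw [mem_Icc] at hu ⊢
      omega
    · intro u hu hu'
      rw [mem_Icc] at hu hu'
      by_cases h2 : u < β
      · rw [hz_neg (k := u - β) (by omega), zero_mul, smul_zero]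
      · rw [hz_neg (k := σ - u - β') (by omega), mul_zero, smul_zero]
  rw [h1]
  apply sum_bij' (fun u _ => u - β) (fun a _ => a + β)
  · intro u hu
    rw [mem_Icc] at hu ⊢
    omega
  · intro a ha
    rw [mem_Icc] at ha ⊢
    omega
  · intro u _
    ring
  · intro a _
    ring
  · intro u _
    have e1 : β' + (σ - β - β' - (u - β)) = σ - u := by ring
    have e2 : σ - β - β' - (u - β) = σ - u - β' := by ring
    rw [smul_smul, ← zpow_add₀ hq, e1, e2]

/-- the product attached to a vector -/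
noncomputable def Phi (n : ℕ) {r : ℕ} {K : Type*} [Field K] (q : K) (σ : ℤ)
    (β : Fin (r + r) → ℤ) : MvPolynomial (Fin n) K :=
  ∏ i : Fin r, (q ^ (β (Fin.natAdd r (Fin.rev i)))) •
    gz n q (σ - β (Fin.castAdd r i) - β (Fin.natAdd r (Fin.rev i)))

theorem Sd_expand (l : Fin L → ℤ) :
    Sd n K l = ∑ τ : Equiv.Perm (Fin L), ((Equiv.Perm.sign τ : ℤ)) •
      ∏ x, hz n K (l x - stair L (τ x)) := by
  unfold Sd
  rw [← Matrix.det_transpose, Matrix.det_apply]
  apply sum_congr rfl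
  intro τ _
  rw [Units.smul_def]
  rfl

theorem F_gamma (q : K) (hq : q ≠ 0) (σ N ε : ℤ) (γ : Fin (r + r) → ℕ)
    (hγ : ∀ x, ε * (γ x : ℤ) ≤ N) :
    ∑ u ∈ Fintype.piFinset (fun _ : Fin r => Finset.Icc (-N) (σ + N)),
      (∏ i, q ^ (σ - u i)) • Sd n K (fun x => bal σ u x + ε * (γ x : ℤ)) =
    ∑ τ : Equiv.Perm (Fin (r + r)), ((Equiv.Perm.sign τ : ℤ)) •
      Phi n q σ (fun x => stair (r + r) (τ x) - ε * (γ x : ℤ)) := by
  have h1 : ∀ u : Fin r → ℤ, (∏ i, q ^ (σ - u i)) • Sd n K (fun x => bal σ u x + ε * (γ x : ℤ)) =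
      ∑ τ : Equiv.Perm (Fin (r + r)), ((Equiv.Perm.sign τ : ℤ)) •
        ∏ i, (q ^ (σ - u i)) •
        (hz n K (u i - (stair (r + r) (τ (Fin.castAdd r i)) - ε * (γ (Fin.castAdd r i) : ℤ))) *
        hz n K (σ - u i - (stair (r + r) (τ (Fin.natAdd r (Fin.rev i))) -
          ε * (γ (Fin.natAdd r (Fin.rev i)) : ℤ)))) := by
    intro u
    rw [Sd_expand, smul_sum]
    apply sum_congr rfl
    intro τ _
    rw [smul_comm]
    congr 1
    rw [Fin.prod_univ_add]
    have e1 : ∏ i : Fin r, hz n K (bal σ u (Fin.natAdd r i) + ε * (γ (Fin.natAdd r i) : ℤ) -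
        stair (r + r) (τ (Fin.natAdd r i))) =
        ∏ i : Fin r, hz n K (σ - u i - (stair (r + r) (τ (Fin.natAdd r (Fin.rev i))) -
          ε * (γ (Fin.natAdd r (Fin.rev i)) : ℤ))) := by
      rw [← Equiv.prod_comp Fin.revPerm]
      apply prod_congr rfl
      intro i _
      rw [Fin.revPerm_apply, bal_natAdd, Fin.rev_rev]
      congr 1
      ring
    rw [e1]
    simp only [Algebra.smul_def]
    rw [map_prod, prod_mul_distrib, prod_mul_distrib]
    congr 2
    apply prod_congr rfl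
    intro i _
    rw [bal_castAdd]
    congr 1
    ring
  rw [sum_congr rfl (fun u _ => h1 u), sum_comm]
  apply sum_congr rfl
  intro τ _
  rw [← smul_sum]
  congr 1
  unfold Phi
  rw [← prod_univ_sum (fun _ : Fin r => Finset.Icc (-N) (σ + N)) (fun i (v : ℤ) =>
    (q ^ (σ - v)) •
        (hz n K (v - (stair (r + r) (τ (Fin.castAdd r i)) - ε * (γ (Fin.castAdd r i) : ℤ))) *
        hz n K (σ - v - (stair (r + r) (τ (Fin.natAdd r (Fin.rev i))) -
          ε * (γ (Fin.natAdd r (Fin.rev i)) : ℤ)))))]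
  apply prod_congr rfl
  intro i _
  have hs : ∀ x, 0 ≤ stair (r + r) x := by
    intro x
    unfold stair
    positivity
  apply gz_sum q hq
  · have := hs (τ (Fin.castAdd r i))
    have := hγ (Fin.castAdd r i)
    omega
  · have := hs (τ (Fin.natAdd r (Fin.rev i)))
    have := hγ (Fin.natAdd r (Fin.rev i))
    omega

theorem alt_of_swap {M : Type*} [AddCommGroup M] {A : (Fin L → ℤ) → M}
    (h2 : ∀ x : M, x = -x → x = 0)
    (h : ∀ (l : Fin L → ℤ) (i j : Fin L), i ≠ j → A (l ∘ Equiv.swap i j) = - A l) : Alt A := by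
  refine ⟨h, ?_⟩
  intro l i j hij hl
  apply h2
  have e : l ∘ Equiv.swap i j = l := by
    funext x
    simp only [Function.comp]
    by_cases h3 : x = i
    · subst h3
      rw [Equiv.swap_apply_left, hl]
    · by_cases h4 : x = j
      · subst h4
        rw [Equiv.swap_apply_right, hl]
      · rw [Equiv.swap_apply_of_ne_of_ne h3 h4]
  have := h l i j hij
  rw [e] at this
  exact this

theorem two_tors [CharZero K] (x : MvPolynomial (Fin n) K) (h : x = -x) : x = 0 := by
  have h1 : (2 : K) • x = 0 := by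
    rw [two_smul]
    nth_rewrite 1 [h]
    simp
  rcases smul_eq_zero.1 h1 with h2 | h2
  · exact absurd h2 two_ne_zero
  · exact h2

/-- the sum over all vectors of shifts -/
noncomputable def Tg (n : ℕ) (K : Type*) [Field K] {L : ℕ} (ε : ℤ) (m : ℕ) (l : Fin L → ℤ) :
    MvPolynomial (Fin n) K :=
  ∑ γ ∈ piAntidiag (univ : Finset (Fin L)) m, Sd n K (fun x => l x + ε * (γ x : ℤ))

theorem sum_piAntidiag_comp {M : Type*} [AddCommGroup M] (m : ℕ) (π : Equiv.Perm (Fin L))
    (f : (Fin L → ℕ) → M) :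
    ∑ γ ∈ piAntidiag (univ : Finset (Fin L)) m, f γ =
    ∑ γ ∈ piAntidiag (univ : Finset (Fin L)) m, f (γ ∘ π) := by
  symm
  apply sum_bij' (fun γ _ => γ ∘ π) (fun γ _ => γ ∘ π.symm)
  · intro c hc
    rw [mem_piAntidiag] at hc ⊢
    refine ⟨?_, fun _ _ => mem_univ _⟩
    rw [← hc.1]
    exact Equiv.sum_comp π c
  · intro c hc
    rw [mem_piAntidiag] at hc ⊢
    refine ⟨?_, fun _ _ => mem_univ _⟩
    rw [← hc.1]
    exact Equiv.sum_comp π.symm c
  · intro c _
    funext i; simp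
  · intro c _
    funext i; simp
  · intro c _
    rfl

theorem alt_Tg [CharZero K] (ε : ℤ) (m : ℕ) : Alt (fun l : Fin L → ℤ => Tg n K ε m l) := by
  apply alt_of_swap two_tors
  intro l i j hij
  show Tg n K ε m (l ∘ Equiv.swap i j) = - Tg n K ε m l
  unfold Tg
  rw [sum_piAntidiag_comp m (Equiv.swap i j), ← sum_neg_distrib]
  apply sum_congr rfl
  intro γ _
  have := alt_Sd.swap (A := fun l : Fin L → ℤ => Sd n K l) (fun x => l x + ε * (γ x : ℤ)) i j hij
  rw [← this]
  rfl

/-- the alternating sum of products -/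
noncomputable def Ag (n : ℕ) {r : ℕ} {K : Type*} [Field K] (q : K) (σ : ℤ)
    (β : Fin (r + r) → ℤ) : MvPolynomial (Fin n) K :=
  ∑ τ : Equiv.Perm (Fin (r + r)), ((Equiv.Perm.sign τ : ℤ)) • Phi n q σ (β ∘ τ)

theorem alt_Ag [CharZero K] (q : K) (σ : ℤ) : Alt (fun β : Fin (r + r) → ℤ => Ag n q σ β) := by
  apply alt_of_swap two_tors
  intro β i j hij
  show Ag n q σ (β ∘ Equiv.swap i j) = - Ag n q σ β
  unfold Ag
  rw [← Equiv.sum_comp (Equiv.mulLeft (Equiv.swap i j)), ← sum_neg_distrib]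
  apply sum_congr rfl
  intro τ _
  rw [Equiv.coe_mulLeft, Equiv.Perm.sign_mul, Equiv.Perm.sign_swap hij]
  have e : (β ∘ Equiv.swap i j) ∘ (Equiv.swap i j * τ : Equiv.Perm (Fin (r + r))) = β ∘ τ := by
    funext x
    simp [Function.comp]
  rw [e]
  simp

theorem F_total [CharZero K] (q : K) (hq : q ≠ 0) (σ ε : ℤ) (hε : ε = 1 ∨ ε = -1) (m : ℕ) :
    ∑ u ∈ Fintype.piFinset (fun _ : Fin r => Finset.Icc (-(m : ℤ)) (σ + m)),
      (∏ i, q ^ (σ - u i)) • Tg n K ε m (bal σ u) =
    ∑ γ ∈ piAntidiag (univ : Finset (Fin (r + r))) m,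
      Ag n q σ (fun x => stair (r + r) x - ε * (γ x : ℤ)) := by
  unfold Tg Ag
  simp only [smul_sum]
  rw [sum_comm, sum_comm (s := piAntidiag (univ : Finset (Fin (r + r))) m)
    (t := (univ : Finset (Equiv.Perm (Fin (r + r)))))]
  have h1 : ∀ γ ∈ piAntidiag (univ : Finset (Fin (r + r))) m,
      ∑ u ∈ Fintype.piFinset (fun _ : Fin r => Finset.Icc (-(m : ℤ)) (σ + m)),
      (∏ i, q ^ (σ - u i)) • Sd n K (fun x => bal σ u x + ε * (γ x : ℤ)) =
    ∑ τ : Equiv.Perm (Fin (r + r)), ((Equiv.Perm.sign τ : ℤ)) •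
      Phi n q σ (fun x => stair (r + r) (τ x) - ε * (γ x : ℤ)) := by
    intro γ hγ
    apply F_gamma q hq
    intro x
    rw [mem_piAntidiag] at hγ
    have h2 : γ x ≤ m := by
      rw [← hγ.1]
      exact single_le_sum (fun _ _ => Nat.zero_le _) (mem_univ x)
    rcases hε with rfl | rfl
    · omega
    · omega
  rw [sum_congr rfl h1, sum_comm]
  apply sum_congr rfl
  intro τ _
  rw [sum_piAntidiag_comp m τ]
  rfl

theorem F_plus [CharZero K] (q : K) (hq : q ≠ 0) (σ : ℤ) (m : ℕ) (hr : r + r - 1 < r + r) :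
    ∑ u ∈ Fintype.piFinset (fun _ : Fin r => Finset.Icc (-(m : ℤ)) (σ + m)),
      (∏ i, q ^ (σ - u i)) • Tg n K 1 m (bal σ u) =
    Ag n q σ (fun x => stair (r + r) x -
      ((Pi.single (⟨r + r - 1, hr⟩ : Fin (r + r)) m : Fin (r + r) → ℕ) x : ℤ)) := by
  rw [F_total q hq σ 1 (Or.inl rfl) m]
  simp only [one_mul]
  rw [il_minus (alt_Ag q σ) (stair (r + r)) stair_strictAnti m]
  apply sum_eq_single_of_mem
  · rw [mem_filter, mem_piAntidiag]
    refine ⟨⟨?_, fun _ _ => mem_univ _⟩, ?_⟩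
    · rw [sum_eq_single (⟨r + r - 1, hr⟩ : Fin (r + r))]
      · rw [Pi.single_eq_same]
      · intro b _ hb
        rw [Pi.single_eq_of_ne hb]
      · intro h; exact absurd (mem_univ _) h
    · intro i j hij
      have h1 : i ≠ ⟨r + r - 1, hr⟩ := by
        intro h
        rw [h] at hij
        have := j.isLt
        simp at hij
        omega
      rw [Pi.single_eq_of_ne h1, stair_eq, stair_eq]
      push_cast
      omega
  · intro γ hγ hne
    exfalso
    apply hne
    rw [mem_filter, mem_piAntidiag] at hγ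
    have h0 : ∀ i : Fin (r + r), i ≠ ⟨r + r - 1, hr⟩ → γ i = 0 := by
      intro i hi
      have h2 : i.val ≠ r + r - 1 := by
        intro h
        apply hi
        exact Fin.ext h
      have h3 := i.isLt
      have h4 := hγ.2 i ⟨i.val + 1, by omega⟩ rfl
      rw [stair_eq, stair_eq] at h4
      push_cast at h4
      omega
    funext i
    by_cases h : i = ⟨r + r - 1, hr⟩
    · subst h
      rw [Pi.single_eq_same, ← hγ.1.1, sum_eq_single (⟨r + r - 1, hr⟩ : Fin (r + r))]
      · intro b _ hb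
        exact h0 b hb
      · intro h; exact absurd (mem_univ _) h
    · rw [Pi.single_eq_of_ne h]
      exact h0 i h

theorem F_minus [CharZero K] (q : K) (hq : q ≠ 0) (σ : ℤ) (m : ℕ) (hr : 0 < r + r) :
    ∑ u ∈ Fintype.piFinset (fun _ : Fin r => Finset.Icc (-(m : ℤ)) (σ + m)),
      (∏ i, q ^ (σ - u i)) • Tg n K (-1) m (bal σ u) =
    Ag n q σ (fun x => stair (r + r) x +
      ((Pi.single (⟨0, hr⟩ : Fin (r + r)) m : Fin (r + r) → ℕ) x : ℤ)) := by
  rw [F_total q hq σ (-1) (Or.inr rfl) m]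
  have e : ∀ γ : Fin (r + r) → ℕ, (fun x => stair (r + r) x - -1 * (γ x : ℤ)) =
      fun x => stair (r + r) x + (γ x : ℤ) := by
    intro γ
    funext x
    ring
  simp only [e]
  rw [il_plus (alt_Ag q σ) (stair (r + r)) stair_strictAnti m]
  apply sum_eq_single_of_mem
  · rw [mem_filter, mem_piAntidiag]
    refine ⟨⟨?_, fun _ _ => mem_univ _⟩, ?_⟩
    · rw [sum_eq_single (⟨0, hr⟩ : Fin (r + r))]
      · rw [Pi.single_eq_same]
      · intro b _ hb
        rw [Pi.single_eq_of_ne hb]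
      · intro h; exact absurd (mem_univ _) h
    · intro i j hij
      have h1 : i ≠ ⟨0, hr⟩ := by
        intro h
        rw [h] at hij
        simp at hij
      rw [Pi.single_eq_of_ne h1, stair_eq, stair_eq]
      push_cast
      omega
  · intro γ hγ hne
    exfalso
    apply hne
    rw [mem_filter, mem_piAntidiag] at hγ
    have h0 : ∀ i : Fin (r + r), i ≠ ⟨0, hr⟩ → γ i = 0 := by
      intro i hi
      have h2 : i.val ≠ 0 := by
        intro h
        apply hi
        exact Fin.ext h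
      have h3 := i.isLt
      have h4 := hγ.2 i ⟨i.val - 1, by omega⟩ (by simp; omega)
      rw [stair_eq, stair_eq] at h4
      push_cast at h4
      omega
    funext i
    by_cases h : i = ⟨0, hr⟩
    · subst h
      rw [Pi.single_eq_same, ← hγ.1.1, sum_eq_single (⟨0, hr⟩ : Fin (r + r))]
      · intro b _ hb
        exact h0 b hb
      · intro h; exact absurd (mem_univ _) h
    · rw [Pi.single_eq_of_ne h]
      exact h0 i h

end Pool.Agent.Helper32.HG
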