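import Mathlib
import Pool.Agent.Helper32.HG.Sym
import Pool.Agent.Helper32.HG.Gex

/-!
# Schur expansion of the folded sum
-/

namespace Pool.Agent.Helper32.HG

open Finset MvPolynomial
open scoped Classical

/-- the data of a partition with `r` parts which are equal up to one -/
structure Dat (n r c m i0 : ℕ) (ε : ℤ) : Prop where
  r1 : 1 ≤ r
  c1 : 1 ≤ c
  hn : (n : ℤ) = r * c + ε * m
  cas : (ε = 1 ∧ i0 = 0) ∨ (ε = -1 ∧ i0 + 1 = r ∧ m < c ∧ 1 ≤ m ∧ 2 ≤ r)

/-- the sequence of parts -/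
def sq (r c m i0 : ℕ) (ε : ℤ) : ℕ → ℕ := fun i =>
  if i < r then (if i = i0 then ((c : ℤ) + ε * m).toNat else c) else 0

variable {n r c m i0 : ℕ} {ε : ℤ}

theorem Dat.i0r (h : Dat n r c m i0 ε) : i0 < r := by
  rcases h.cas with ⟨_, h2⟩ | ⟨_, h2, _⟩
  · have := h.r1
    omega
  · omega

theorem Dat.pos (h : Dat n r c m i0 ε) : 1 ≤ (c : ℤ) + ε * m := by
  rcases h.cas with ⟨h1, _⟩ | ⟨h1, _, h3, _⟩
  · rw [h1]
    have := h.c1
    omega
  · rw [h1]
    omega

theorem sq_eq (h : Dat n r c m i0 ε) (i : ℕ) (hi : i < r) :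
    ((sq r c m i0 ε i : ℕ) : ℤ) = (c : ℤ) + if i = i0 then ε * m else 0 := by
  unfold sq
  rw [if_pos hi]
  by_cases h2 : i = i0
  · rw [if_pos h2, if_pos h2]
    have := h.pos
    exact Int.toNat_of_nonneg (by omega)
  · rw [if_neg h2, if_neg h2]
    ring

theorem sq_pos (h : Dat n r c m i0 ε) (i : ℕ) (hi : i < r) : 1 ≤ sq r c m i0 ε i := by
  have h1 := sq_eq h i hi
  have h2 := h.pos
  have h3 := h.c1
  by_cases h4 : i = i0
  · rw [if_pos h4] at h1
    omega
  · rw [if_neg h4] at h1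
    omega

theorem sq_zero (i : ℕ) (hi : r ≤ i) : sq r c m i0 ε i = 0 := by
  unfold sq
  rw [if_neg (by omega)]

theorem sq_anti (h : Dat n r c m i0 ε) : Antitone (sq r c m i0 ε) := by
  apply antitone_nat_of_succ_le
  intro i
  by_cases hi : i + 1 < r
  · have h1 := sq_eq h i (by omega)
    have h2 := sq_eq h (i + 1) hi
    rcases h.cas with ⟨h3, h4⟩ | ⟨h3, h4, h5, _⟩
    · rw [h3, h4] at h1 h2
      rw [if_neg (by omega)] at h2
      by_cases h6 : i = 0
      · rw [if_pos h6] at h1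
        rw [h3, h4]
        omega
      · rw [if_neg h6] at h1
        rw [h3, h4]
        omega
    · rw [if_neg (by omega)] at h1
      rw [h3] at h1 h2
      rw [h3]
      by_cases h6 : i + 1 = i0
      · rw [if_pos h6] at h2
        omega
      · rw [if_neg h6] at h2
        omega
  · rw [sq_zero (i + 1) (by omega)]
    exact Nat.zero_le _

theorem sum_sq (h : Dat n r c m i0 ε) (k : ℕ) (hk : k ≤ r) :
    ((∑ i ∈ range k, sq r c m i0 ε i : ℕ) : ℤ) = k * c + if i0 < k then ε * m else 0 := by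
  push_cast
  rw [sum_congr rfl (fun i hi => sq_eq h i (lt_of_lt_of_le (mem_range.1 hi) hk)),
    sum_add_distrib, sum_const, card_range, sum_ite_eq', nsmul_eq_mul]
  simp only [mem_range]

theorem sum_sq_all (h : Dat n r c m i0 ε) (k : ℕ) (hk : r ≤ k) :
    ∑ i ∈ range k, sq r c m i0 ε i = n := by
  have h1 : ∑ i ∈ range k, sq r c m i0 ε i = ∑ i ∈ range r, sq r c m i0 ε i := by
    symm
    apply sum_subset
    · intro i hi
      rw [mem_range] at hi ⊢
      omega
    · intro i _ hi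
      rw [mem_range] at hi
      exact sq_zero i (by omega)
  rw [h1]
  have h2 := sum_sq h r le_rfl
  rw [if_pos h.i0r, ← h.hn] at h2
  exact_mod_cast h2

theorem Dat.rn (h : Dat n r c m i0 ε) : r ≤ n := by
  have h1 := sum_sq_all h r le_rfl
  rw [← h1]
  have h2 : ∑ i ∈ range r, 1 ≤ ∑ i ∈ range r, sq r c m i0 ε i := by
    apply sum_le_sum
    intro i hi
    exact sq_pos h i (mem_range.1 hi)
  simpa using h2

theorem lam_parts (h : Dat n r c m i0 ε) : tr n (sq r c m i0 ε) ∈ parts n := by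
  rw [mem_parts]
  constructor
  · intro i j hij
    exact sq_anti h hij
  · have : ∑ i : Fin n, tr n (sq r c m i0 ε) i = ∑ j ∈ range n, sq r c m i0 ε j :=
      Fin.sum_univ_eq_sum_range (sq r c m i0 ε) n
    rw [this, sum_sq_all h n h.rn]

theorem sum_fin_lt (N : ℕ) (a : ℕ → ℕ) (k : ℕ) (hk : k ≤ N) :
    ∑ i : Fin N with i.val < k, a i.val = ∑ j ∈ range k, a j := by
  rw [sum_filter, Fin.sum_univ_eq_sum_range (fun j => if j < k then a j else 0) N, ← sum_filter]
  apply sum_congr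
  · ext j
    rw [mem_filter, mem_range, mem_range]
    omega
  · intro _ _
    rfl

theorem pair_sum {M : Type*} [AddCommMonoid M] (f : Fin (r + r) → M) :
    ∑ x, f x = ∑ i : Fin r, (f (Fin.castAdd r i) + f (Fin.natAdd r (Fin.rev i))) := by
  rw [Fin.sum_univ_add, sum_add_distrib]
  congr 1
  exact (Equiv.sum_comp Fin.revPerm (fun i => f (Fin.natAdd r i))).symm

theorem stair_cast (i : Fin r) : stair (r + r) (Fin.castAdd r i) = 2 * (r : ℤ) - 1 - i.val := by
  rw [stair_eq, Fin.val_castAdd]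
  push_cast
  ring

theorem stair_nat (i : Fin r) : stair (r + r) (Fin.natAdd r (Fin.rev i)) = i.val := by
  rw [stair_eq, Fin.val_natAdd, Fin.val_rev]
  have := i.isLt
  omega

theorem bal_nat_rev (σ : ℤ) (u : Fin r → ℤ) (i : Fin r) :
    bal σ u (Fin.natAdd r (Fin.rev i)) = σ - u i := by
  rw [bal_natAdd, Fin.rev_rev]

theorem bal_anti {σ : ℤ} {u : Fin r → ℤ} (hu : StrictAnti u) (h : ∀ i, σ < 2 * u i) :
    StrictAnti (bal σ u) := by
  intro x y
  refine Fin.addCases (fun i => ?_) (fun i => ?_) x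
  · refine Fin.addCases (fun j => ?_) (fun j => ?_) y
    · intro hxy
      rw [bal_castAdd, bal_castAdd]
      apply hu
      rw [Fin.lt_def] at hxy ⊢
      simpa using hxy
    · intro _
      rw [bal_castAdd, bal_natAdd]
      have h1 := h i
      have h2 := h (Fin.rev j)
      omega
  · refine Fin.addCases (fun j => ?_) (fun j => ?_) y
    · intro hxy
      exfalso
      rw [Fin.lt_def] at hxy
      simp at hxy
      have := j.isLt
      omega
    · intro hxy
      rw [bal_natAdd, bal_natAdd]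
      have h3 : i < j := by
        rw [Fin.lt_def] at hxy ⊢
        simpa using hxy
      have := hu (Fin.rev_lt_rev.2 h3)
      omega

theorem upp_strictAnti {L : ℕ} {l : Fin L → ℤ} (hl : StrictAnti l) {c : Fin L → ℕ}
    (hc : ∀ i, Upp l c i) : StrictAnti (fun i => l i + (c i : ℤ)) := by
  intro i j hij
  have hlt := i.isLt
  have hlt' := j.isLt
  rw [Fin.lt_def] at hij
  have h1 := hc j ⟨j.val - 1, by omega⟩ (by simp; omega)
  have h2 : l ⟨j.val - 1, by omega⟩ ≤ l i := hl.antitone (by rw [Fin.le_def]; simp; omega)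
  have h3 : (0 : ℤ) ≤ c i := by positivity
  show l j + (c j : ℤ) < l i + (c i : ℤ)
  omega

/-- the interlacing condition -/
def IL {L : ℕ} (ε : ℤ) (l : Fin L → ℤ) (γ : Fin L → ℕ) : Prop :=
  (ε = 1 ∧ ∀ i, Upp l γ i) ∨ (ε = -1 ∧ ∀ i, Low l γ i)

theorem IL.anti {L : ℕ} {l : Fin L → ℤ} {γ : Fin L → ℕ} (h : IL ε l γ) (hl : StrictAnti l) :
    StrictAnti (fun x => l x + ε * (γ x : ℤ)) := by
  rcases h with ⟨h1, h2⟩ | ⟨h1, h2⟩
  · rw [h1]
    simp only [one_mul]
    exact upp_strictAnti hl h2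
  · rw [h1]
    simp only [neg_mul, one_mul, ← sub_eq_add_neg]
    exact low_strictAnti hl h2

variable {K : Type*} [Field K] [CharZero K]

theorem Tg_il {L : ℕ} (hε : ε = 1 ∨ ε = -1) (l : Fin L → ℤ) (hl : StrictAnti l) :
    Tg n K ε m l = ∑ γ ∈ (piAntidiag (univ : Finset (Fin L)) m).filter (fun γ => IL ε l γ),
      Sd n K (fun x => l x + ε * (γ x : ℤ)) := by
  unfold Tg
  rcases hε with rfl | rfl
  · simp only [one_mul]
    rw [il_plus (alt_Sd (n := n) (K := K)) l hl m]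
    apply sum_congr
    · apply filter_congr
      intro γ _
      unfold IL
      constructor
      · intro h
        exact Or.inl ⟨rfl, h⟩
      · rintro (h | h)
        · exact h.2
        · exact absurd h.1 (by norm_num)
    · intro _ _
      rfl
  · simp only [neg_mul, one_mul, ← sub_eq_add_neg]
    rw [il_minus (alt_Sd (n := n) (K := K)) l hl m]
    apply sum_congr
    · apply filter_congr
      intro γ _
      unfold IL
      constructor
      · intro h
        exact Or.inr ⟨rfl, h⟩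
      · rintro (h | h)
        · exact absurd h.1 (by norm_num)
        · exact h.2
    · intro _ _
      rfl

/-- the shifted balanced vector -/
def lp {r : ℕ} (σ ε : ℤ) (p : (Fin r → ℤ) × (Fin (r + r) → ℕ)) : Fin (r + r) → ℤ :=
  fun x => bal σ p.1 x + ε * (p.2 x : ℤ)

/-- the folded index set -/
noncomputable def Uset (r m : ℕ) (σ : ℤ) : Finset (Fin r → ℤ) :=
  (Fintype.piFinset (fun _ : Fin r => Finset.Icc (-(m : ℤ)) (σ + m))).filter
      (fun u => StrictAnti u ∧ ∀ i, σ < 2 * u i)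

/-- the index set of the Schur expansion -/
noncomputable def Dset (r m : ℕ) (σ ε : ℤ) : Finset ((Fin r → ℤ) × (Fin (r + r) → ℕ)) :=
  (Uset r m σ ×ˢ piAntidiag (univ : Finset (Fin (r + r))) m).filter
    (fun p => IL ε (bal σ p.1) p.2 ∧ ∀ x, 0 ≤ lp σ ε p x)

theorem mem_Uset {σ : ℤ} {u : Fin r → ℤ} : u ∈ Uset r m σ ↔
    (∀ i, -(m : ℤ) ≤ u i ∧ u i ≤ σ + m) ∧ StrictAnti u ∧ ∀ i, σ < 2 * u i := by
  unfold Uset
  rw [mem_filter, Fintype.mem_piFinset]
  simp only [mem_Icc]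

theorem mem_Dset {σ : ℤ} {p : (Fin r → ℤ) × (Fin (r + r) → ℕ)} : p ∈ Dset r m σ ε ↔
    (p.1 ∈ Uset r m σ ∧ ∑ x, p.2 x = m) ∧ IL ε (bal σ p.1) p.2 ∧ ∀ x, 0 ≤ lp σ ε p x := by
  unfold Dset
  rw [mem_filter, mem_product, mem_piAntidiag]
  constructor
  · rintro ⟨⟨h1, h2, _⟩, h3⟩
    exact ⟨⟨h1, h2⟩, h3⟩
  · rintro ⟨⟨h1, h2⟩, h3⟩
    exact ⟨⟨h1, h2, fun _ _ => mem_univ _⟩, h3⟩

theorem lp_anti {σ : ℤ} {p : (Fin r → ℤ) × (Fin (r + r) → ℕ)} (hp : p ∈ Dset r m σ ε) :
    StrictAnti (lp σ ε p) := by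
  rw [mem_Dset] at hp
  have h1 := mem_Uset.1 hp.1.1
  exact hp.2.1.anti (bal_anti h1.2.1 h1.2.2)

theorem lp_sum (h : Dat n r c m i0 ε) {p : (Fin r → ℤ) × (Fin (r + r) → ℕ)}
    (hp : ∑ x, p.2 x = m) :
    ∑ x, (lp ((c : ℤ) + 2 * r - 1) ε p x - stair (r + r) x) = (n : ℤ) := by
  rw [pair_sum]
  have h1 : ∀ i : Fin r, (lp ((c : ℤ) + 2 * r - 1) ε p (Fin.castAdd r i) -
      stair (r + r) (Fin.castAdd r i)) + (lp ((c : ℤ) + 2 * r - 1) ε p
      (Fin.natAdd r (Fin.rev i)) - stair (r + r) (Fin.natAdd r (Fin.rev i))) =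
      (c : ℤ) + ε * ((p.2 (Fin.castAdd r i) : ℤ) + (p.2 (Fin.natAdd r (Fin.rev i)) : ℤ)) := by
    intro i
    unfold lp
    rw [bal_castAdd, bal_nat_rev, stair_cast, stair_nat]
    ring
  rw [sum_congr rfl (fun i _ => h1 i), sum_add_distrib, ← mul_sum,
    ← pair_sum (fun x => (p.2 x : ℤ)), sum_const, card_univ, Fintype.card_fin, nsmul_eq_mul, h.hn]
  have h2 : (∑ x, (p.2 x : ℤ)) = m := by exact_mod_cast hp
  rw [h2]

theorem lp_schur (h : Dat n r c m i0 ε) {p : (Fin r → ℤ) × (Fin (r + r) → ℕ)}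
    (hp : p ∈ Dset r m ((c : ℤ) + 2 * r - 1) ε) :
    Sd n K (lp ((c : ℤ) + 2 * r - 1) ε p) =
      schur n K (tr n (pt (lp ((c : ℤ) + 2 * r - 1) ε p))) ∧
    tr n (pt (lp ((c : ℤ) + 2 * r - 1) ε p)) ∈ parts n := by
  have h1 := Sd_eq_schur (n := n) (K := K) (lp_anti hp) (mem_Dset.1 hp).2.2
    (lp_sum h (mem_Dset.1 hp).1.2)
  refine ⟨h1.1, ?_⟩
  rw [mem_parts]
  exact h1.2

/-- the coefficients of the folded sum -/
noncomputable def Cc (n : ℕ) {K : Type*} [Field K] (r m : ℕ) (σ ε : ℤ) (w : ℤ → K)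
    (μ : Fin n → ℕ) : K :=
  ∑ p ∈ (Dset r m σ ε).filter (fun p => tr n (pt (lp σ ε p)) = μ),
    ∏ i, (w (σ - p.1 i) - w (p.1 i))

theorem F0_eq (h : Dat n r c m i0 ε) (hε : ε = 1 ∨ ε = -1) (w : ℤ → K) :
    ∑ u ∈ Uset r m ((c : ℤ) + 2 * r - 1),
      (∏ i, (w ((c : ℤ) + 2 * r - 1 - u i) - w (u i))) • Tg n K ε m
        (bal ((c : ℤ) + 2 * r - 1) u) =
    ∑ μ ∈ parts n, Cc n r m ((c : ℤ) + 2 * r - 1) ε w μ • schur n K μ := by
  have h1 : ∑ u ∈ Uset r m ((c : ℤ) + 2 * r - 1),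
      (∏ i, (w ((c : ℤ) + 2 * r - 1 - u i) - w (u i))) • Tg n K ε m
        (bal ((c : ℤ) + 2 * r - 1) u) =
      ∑ p ∈ Dset r m ((c : ℤ) + 2 * r - 1) ε,
        (∏ i, (w ((c : ℤ) + 2 * r - 1 - p.1 i) - w (p.1 i))) •
          Sd n K (lp ((c : ℤ) + 2 * r - 1) ε p) := by
    have h2 : ∀ u ∈ Uset r m ((c : ℤ) + 2 * r - 1),
        (∏ i, (w ((c : ℤ) + 2 * r - 1 - u i) - w (u i))) • Tg n K ε m
        (bal ((c : ℤ) + 2 * r - 1) u) =
        ∑ γ ∈ piAntidiag (univ : Finset (Fin (r + r))) m,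
          if IL ε (bal ((c : ℤ) + 2 * r - 1) u) γ ∧ ∀ x, 0 ≤ lp ((c : ℤ) + 2 * r - 1) ε (u, γ) x
          then (∏ i, (w ((c : ℤ) + 2 * r - 1 - u i) - w (u i))) •
            Sd n K (lp ((c : ℤ) + 2 * r - 1) ε (u, γ)) else 0 := by
      intro u hu
      have hu2 := mem_Uset.1 hu
      rw [Tg_il hε _ (bal_anti hu2.2.1 hu2.2.2), sum_filter, smul_sum]
      apply sum_congr rfl
      intro γ _
      by_cases h3 : IL ε (bal ((c : ℤ) + 2 * r - 1) u) γ
      · rw [if_pos h3]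
        by_cases h4 : ∀ x, 0 ≤ lp ((c : ℤ) + 2 * r - 1) ε (u, γ) x
        · rw [if_pos ⟨h3, h4⟩]
          rfl
        · rw [if_neg (fun h => h4 h.2)]
          push Not at h4
          obtain ⟨x, hx⟩ := h4
          have : Sd n K (fun x => bal ((c : ℤ) + 2 * r - 1) u x + ε * (γ x : ℤ)) = 0 :=
            Sd_neg _ x hx
          rw [this, smul_zero]
      · rw [if_neg h3, if_neg (fun h => h3 h.1), smul_zero]
    rw [sum_congr rfl h2, ← sum_product' (Uset r m ((c : ℤ) + 2 * r - 1))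
      (piAntidiag (univ : Finset (Fin (r + r))) m) (fun u γ =>
      if IL ε (bal ((c : ℤ) + 2 * r - 1) u) γ ∧ ∀ x, 0 ≤ lp ((c : ℤ) + 2 * r - 1) ε (u, γ) x
          then (∏ i, (w ((c : ℤ) + 2 * r - 1 - u i) - w (u i))) •
            Sd n K (lp ((c : ℤ) + 2 * r - 1) ε (u, γ)) else 0)]
    unfold Dset
    rw [sum_filter]
  rw [h1]
  have h5 : ∀ p ∈ Dset r m ((c : ℤ) + 2 * r - 1) ε,
      (∏ i, (w ((c : ℤ) + 2 * r - 1 - p.1 i) - w (p.1 i))) •
          Sd n K (lp ((c : ℤ) + 2 * r - 1) ε p) =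
      (∏ i, (w ((c : ℤ) + 2 * r - 1 - p.1 i) - w (p.1 i))) •
          schur n K (tr n (pt (lp ((c : ℤ) + 2 * r - 1) ε p))) := by
    intro p hp
    rw [(lp_schur h hp).1]
  rw [sum_congr rfl h5, ← sum_fiberwise_of_maps_to
    (g := fun p => tr n (pt (lp ((c : ℤ) + 2 * r - 1) ε p))) (t := parts n)
    (fun p hp => (lp_schur (K := K) h hp).2)]
  apply sum_congr rfl
  intro μ _
  unfold Cc
  rw [sum_smul]
  apply sum_congr rfl
  intro p hp
  rw [(mem_filter.1 hp).2]

/-- dominance for the terms of the Schur expansion -/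
theorem lp_dom (h : Dat n r c m i0 ε) {p : (Fin r → ℤ) × (Fin (r + r) → ℕ)}
    (hp : p ∈ Dset r m ((c : ℤ) + 2 * r - 1) ε) :
    DomLe (tr n (pt (lp ((c : ℤ) + 2 * r - 1) ε p))) (tr n (sq r c m i0 ε)) := by
  set σ : ℤ := (c : ℤ) + 2 * r - 1 with hσ
  have hanti := lp_anti hp
  have h0 := (mem_Dset.1 hp).2.2
  have hm := (mem_Dset.1 hp).1.2
  have hpar := (mem_parts _).1 (lp_schur (K := ℚ) h hp).2
  have hrn := h.rn
  intro k
  by_cases hk : r ≤ k
  · have h1 : ∑ i : Fin n with i.val < k, tr n (pt (lp σ ε p)) i ≤ n := by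
      have h2 := sum_le_sum_of_subset (f := tr n (pt (lp σ ε p)))
        (filter_subset (fun i : Fin n => i.val < k) univ)
      rw [hpar.2] at h2
      exact h2
    have h2 : ∑ i : Fin n with i.val < k, tr n (sq r c m i0 ε) i = n := by
      by_cases hkn : k ≤ n
      · have := sum_fin_lt n (sq r c m i0 ε) k hkn
        rw [sum_sq_all h k hk] at this
        exact this
      · rw [filter_true_of_mem]
        · exact ((mem_parts _).1 (lam_parts h)).2
        · intro i _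
          have := i.isLt
          omega
    rw [h2]
    exact h1
  · have hkr : k < r := by omega
    have e1 : ∑ i : Fin n with i.val < k, tr n (pt (lp σ ε p)) i =
        ∑ j ∈ range k, pt (lp σ ε p) j := sum_fin_lt n (pt (lp σ ε p)) k (by omega)
    have e2 : ∑ i : Fin n with i.val < k, tr n (sq r c m i0 ε) i =
        ∑ j ∈ range k, sq r c m i0 ε j := sum_fin_lt n (sq r c m i0 ε) k (by omega)
    rw [e1, e2]
    have h3 : ((∑ j ∈ range k, pt (lp σ ε p) j : ℕ) : ℤ) ≤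
        ((∑ j ∈ range k, sq r c m i0 ε j : ℕ) : ℤ) := by
      rw [sum_sq h k hkr.le, ← sum_fin_lt r (pt (lp σ ε p)) k hkr.le]
      push_cast
      have h4 : ∀ i : Fin r, ((pt (lp σ ε p) i.val : ℕ) : ℤ) ≤
          (c : ℤ) + ε * ((p.2 (Fin.castAdd r i) : ℤ) + (p.2 (Fin.natAdd r (Fin.rev i)) : ℤ)) := by
        intro i
        have h5 := pt_eq hanti h0 (Fin.castAdd r i)
        rw [Fin.val_castAdd, stair_cast] at h5
        have h6 := stair_le hanti h0 (Fin.natAdd r (Fin.rev i))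
        rw [stair_nat] at h6
        have h7 : lp σ ε p (Fin.castAdd r i) = p.1 i + ε * (p.2 (Fin.castAdd r i) : ℤ) := by
          unfold lp
          rw [bal_castAdd]
        have h8 : lp σ ε p (Fin.natAdd r (Fin.rev i)) =
            σ - p.1 i + ε * (p.2 (Fin.natAdd r (Fin.rev i)) : ℤ) := by
          unfold lp
          rw [bal_nat_rev]
        rw [h7] at h5
        rw [h8] at h6
        rw [h5, mul_add]
        rw [hσ] at h6
        linarith
      refine le_trans (sum_le_sum (fun i _ => h4 i)) ?_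
      rw [sum_add_distrib, sum_const, card_lt k hkr.le, nsmul_eq_mul, ← mul_sum]
      have h9 : (0 : ℤ) ≤ ∑ i : Fin r with i.val < k, ((p.2 (Fin.castAdd r i) : ℤ) +
          (p.2 (Fin.natAdd r (Fin.rev i)) : ℤ)) := by
        apply sum_nonneg
        intro i _
        positivity
      have h10 : ∑ i : Fin r with i.val < k, ((p.2 (Fin.castAdd r i) : ℤ) +
          (p.2 (Fin.natAdd r (Fin.rev i)) : ℤ)) ≤ m := by
        have h11 : (∑ x, (p.2 x : ℤ)) = m := by exact_mod_cast hm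
        rw [← h11, pair_sum]
        apply sum_le_sum_of_subset_of_nonneg (filter_subset _ _)
        intro i _ _
        positivity
      rcases h.cas with ⟨h12, h13⟩ | ⟨h12, h13, _⟩
      · rw [h12, h13]
        by_cases h14 : 0 < k
        · rw [if_pos h14]
          linarith
        · have h15 : k = 0 := by omega
          subst h15
          simp
      · rw [h12, if_neg (by omega)]
        linarith
    exact_mod_cast h3

theorem Cc_dom (h : Dat n r c m i0 ε) (w : ℤ → K) (μ : Fin n → ℕ)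
    (hμ : Cc n r m ((c : ℤ) + 2 * r - 1) ε w μ ≠ 0) : DomLe μ (tr n (sq r c m i0 ε)) := by
  unfold Cc at hμ
  obtain ⟨p, hp, _⟩ := exists_ne_zero_of_sum_ne_zero hμ
  rw [mem_filter] at hp
  rw [← hp.2]
  exact lp_dom h hp.1

end Pool.Agent.Helper32.HG
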