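import Mathlib
import Pool.Agent.Helper32.HG.Cmu

/-!
# The normalising product over the cells
-/

namespace Pool.Agent.Helper32.HG

open Finset
open scoped Classical

variable {n r c m i0 : ℕ} {ε : ℤ}

/-- the leg length of the cell `(i, j)` -/
noncomputable def leg (lam : Fin n → ℕ) (i : Fin n) (j : ℕ) : ℕ :=
  (univ.filter (fun i' : Fin n => i < i' ∧ j < lam i')).card

/-- the normalising product over the cells -/
noncomputable def cpr {K : Type*} [Field K] (q t : K) (lam : Fin n → ℕ) : K :=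
  ∏ i : Fin n, ∏ j ∈ range (lam i), (1 - q ^ (lam i - j - 1) * t ^ (leg lam i j + 1))

/-- the leading coefficient -/
noncomputable def Cl (r c m i0 : ℕ) (ε : ℤ) {K : Type*} [Field K] (q : K) : K :=
  ∑ j ∈ (range (m + 1)).filter (fun j => ε = 1 ∨ j + m ≤ c),
    ∏ i : Fin r, (q ^ ((i.val : ℤ) - if i.val = i0 then ε * j else 0) -
      q ^ ((c : ℤ) + 2 * r - 1 - i.val + if i.val = i0 then ε * j else 0))

/-- the cells of a partition -/
noncomputable def cells (lam : Fin n → ℕ) : Finset (Σ _ : Fin n, ℕ) :=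
  univ.sigma (fun i => range (lam i))

/-- the exponent of a cell -/
noncomputable def Nc (lam : Fin n → ℕ) (x : Σ _ : Fin n, ℕ) : ℕ :=
  (lam x.1 - x.2 - 1) + 2 * (leg lam x.1 x.2 + 1)

theorem cpr_eq {K : Type*} [Field K] (q : K) (lam : Fin n → ℕ) :
    cpr q (q ^ 2) lam = ∏ x ∈ cells lam, (1 - q ^ Nc lam x) := by
  unfold cpr cells
  rw [prod_sigma]
  apply prod_congr rfl
  intro i _
  apply prod_congr rfl
  intro j _
  unfold Nc
  rw [← pow_mul, ← pow_add]

theorem card_cells {lam : Fin n → ℕ} (h : ∑ i, lam i = n) : (cells lam).card = n := by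
  unfold cells
  rw [card_sigma]
  simp only [card_range]
  exact h

theorem mem_cells {lam : Fin n → ℕ} {x : Σ _ : Fin n, ℕ} : x ∈ cells lam ↔ x.2 < lam x.1 := by
  unfold cells
  rw [mem_sigma, mem_range]
  exact ⟨fun h => h.2, fun h => ⟨mem_univ _, h⟩⟩

theorem prod_split {K : Type*} [Field K] (q : K) {α : Type*} (C S : Finset α) (hS : S ⊆ C)
    (N : α → ℕ) : ∃ R : Polynomial ℕ, ∏ x ∈ C, (1 - q ^ N x) =
      (∏ x ∈ S, (1 - q ^ N x)) * ((1 - q) ^ (C.card - S.card) * Polynomial.aeval q R) := by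
  refine ⟨∏ x ∈ C \ S, ∑ k ∈ range (N x), (Polynomial.X : Polynomial ℕ) ^ k, ?_⟩
  rw [← prod_sdiff hS, mul_comm]
  congr 1
  have h1 : ∀ x ∈ C \ S, 1 - q ^ N x = (1 - q) *
      Polynomial.aeval q (∑ k ∈ range (N x), (Polynomial.X : Polynomial ℕ) ^ k) := by
    intro x _
    rw [map_sum]
    simp only [map_pow, Polynomial.aeval_X]
    rw [mul_neg_geom_sum]
  rw [prod_congr rfl h1, prod_mul_distrib, prod_const, card_sdiff_of_subset hS, map_prod]

theorem card_between (a b : ℕ) (hab : a ≤ b) (hb : b ≤ n) :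
    (univ.filter (fun x : Fin n => a ≤ x.val ∧ x.val < b)).card = b - a := by
  have h1 := card_lt (n := n) b hb
  have h2 := card_lt (n := n) a (by omega)
  have h3 : (univ.filter (fun x : Fin n => x.val < b)) =
      (univ.filter (fun x : Fin n => x.val < a)) ∪
        (univ.filter (fun x : Fin n => a ≤ x.val ∧ x.val < b)) := by
    ext x
    rw [mem_union, mem_filter, mem_filter, mem_filter]
    constructor
    · rintro ⟨_, h⟩
      by_cases h4 : x.val < a
      · exact Or.inl ⟨mem_univ _, h4⟩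
      · exact Or.inr ⟨mem_univ _, by omega, h⟩
    · rintro (⟨_, h⟩ | ⟨_, h⟩)
      · exact ⟨mem_univ _, by omega⟩
      · exact ⟨mem_univ _, h.2⟩
  have h4 : Disjoint (univ.filter (fun x : Fin n => x.val < a))
      (univ.filter (fun x : Fin n => a ≤ x.val ∧ x.val < b)) := by
    rw [Finset.disjoint_left]
    intro x hx hx'
    rw [mem_filter] at hx hx'
    omega
  rw [h3, card_union_of_disjoint h4, h2] at h1
  omega

theorem leg_zero (h : Dat n r c m i0 ε) (i : Fin n) (hi : i.val < r) :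
    leg (tr n (sq r c m i0 ε)) i 0 = r - 1 - i.val := by
  unfold leg
  have h1 : (univ.filter (fun i' : Fin n => i < i' ∧ 0 < tr n (sq r c m i0 ε) i')) =
      univ.filter (fun x : Fin n => i.val + 1 ≤ x.val ∧ x.val < r) := by
    apply filter_congr
    intro x _
    rw [Fin.lt_def]
    constructor
    · rintro ⟨h2, h3⟩
      refine ⟨by omega, ?_⟩
      by_contra h4
      have : sq r c m i0 ε x.val = 0 := sq_zero x.val (by omega)
      have h5 : 0 < sq r c m i0 ε x.val := h3
      omega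
    · rintro ⟨h2, h3⟩
      exact ⟨by omega, sq_pos h x.val h3⟩
  rw [h1, card_between (i.val + 1) r (by omega) h.rn]
  omega

theorem Nc_zero (h : Dat n r c m i0 ε) (i : Fin n) (hi : i.val < r) :
    Nc (tr n (sq r c m i0 ε)) ⟨i, 0⟩ = sq r c m i0 ε i.val - 1 + 2 * (r - i.val) := by
  unfold Nc
  rw [leg_zero h i hi]
  show sq r c m i0 ε i.val - 0 - 1 + 2 * (r - 1 - i.val + 1) = _
  omega

/-- the extra special cell -/
theorem extra (h : Dat n r c m i0 ε) (hm : 1 ≤ m) : ∃ x : Σ _ : Fin n, ℕ,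
    x ∈ cells (tr n (sq r c m i0 ε)) ∧ 1 ≤ x.2 ∧ Nc (tr n (sq r c m i0 ε)) x = m + 1 := by
  have hrn := h.rn
  have hc := h.c1
  have hr := h.r1
  rcases h.cas with ⟨h1, h2⟩ | ⟨h1, h2, h3, h4, h5⟩
  · subst h1
    subst h2
    refine ⟨⟨⟨0, by omega⟩, c⟩, ?_, hc, ?_⟩
    · rw [mem_cells]
      show c < sq r c m 0 1 0
      have := sq_eq h 0 (by omega)
      rw [if_pos rfl] at this
      omega
    · unfold Nc
      have h3 : leg (tr n (sq r c m 0 1)) ⟨0, by omega⟩ c = 0 := by
        unfold leg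
        rw [card_eq_zero, filter_eq_empty_iff]
        rintro x _ ⟨h4, h5⟩
        rw [Fin.lt_def] at h4
        have h6 : c < sq r c m 0 1 x.val := h5
        by_cases h7 : x.val < r
        · have := sq_eq h x.val h7
          rw [if_neg (by simp at h4; omega)] at this
          omega
        · rw [sq_zero x.val (by omega)] at h6
          omega
      show (sq r c m 0 1 0 - c - 1) + 2 * (leg (tr n (sq r c m 0 1)) ⟨0, by omega⟩ c + 1) = m + 1
      rw [h3]
      have := sq_eq h 0 (by omega)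
      rw [if_pos rfl] at this
      omega
  · subst h1
    refine ⟨⟨⟨r - 2, by omega⟩, c - m⟩, ?_, by show 1 ≤ c - m; omega, ?_⟩
    · rw [mem_cells]
      show c - m < sq r c m i0 (-1) (r - 2)
      have := sq_eq h (r - 2) (by omega)
      rw [if_neg (by omega)] at this
      omega
    · unfold Nc
      have h6 : leg (tr n (sq r c m i0 (-1))) ⟨r - 2, by omega⟩ (c - m) = 0 := by
        unfold leg
        rw [card_eq_zero, filter_eq_empty_iff]
        rintro x _ ⟨h7, h8⟩
        rw [Fin.lt_def] at h7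
        have h9 : c - m < sq r c m i0 (-1) x.val := h8
        simp only at h7
        by_cases h10 : x.val < r
        · have := sq_eq h x.val h10
          rw [if_pos (by omega)] at this
          omega
        · rw [sq_zero x.val (by omega)] at h9
          omega
      show (sq r c m i0 (-1) (r - 2) - (c - m) - 1) +
        2 * (leg (tr n (sq r c m i0 (-1))) ⟨r - 2, by omega⟩ (c - m) + 1) = m + 1
      rw [h6]
      have := sq_eq h (r - 2) (by omega)
      rw [if_neg (by omega)] at this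
      omega

variable {K : Type*} [Field K]

theorem prod_zpow (q : K) (hq : q ≠ 0) {α : Type*} (s : Finset α) (f : α → ℤ) :
    ∏ i ∈ s, q ^ f i = q ^ (∑ i ∈ s, f i) := by
  induction s using Finset.induction_on with
  | empty => simp
  | insert a s ha ih => rw [prod_insert ha, sum_insert ha, zpow_add₀ hq, ih]

/-- the sum over the exceptional factor -/
theorem S_eq (h : Dat n r c m i0 ε) (q : K) (hq : q ≠ 0) :
    (1 - q) * ∑ j ∈ (range (m + 1)).filter (fun j => ε = 1 ∨ j + m ≤ c),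
      (q ^ ((i0 : ℤ) - ε * j) - q ^ ((c : ℤ) + 2 * r - 1 - i0 + ε * j)) =
    q ^ ((i0 : ℤ) - if ε = 1 then (m : ℤ) else 0) *
      (1 - q ^ (sq r c m i0 ε i0 - 1 + 2 * (r - i0))) * (1 - q ^ (m + 1)) := by
  have hr := h.r1
  have hc := h.c1
  rcases h.cas with ⟨h1, h2⟩ | ⟨h1, h2, h3, h4, h5⟩
  · subst h1
    subst h2
    have e0 := sq_eq h 0 (by omega)
    rw [if_pos rfl] at e0
    have hfil : (range (m + 1)).filter (fun j => (1 : ℤ) = 1 ∨ j + m ≤ c) = range (m + 1) := by
      rw [filter_true_of_mem]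
      intro j _
      exact Or.inl rfl
    rw [hfil, if_pos rfl, sum_sub_distrib]
    have e1 : ∑ j ∈ range (m + 1), q ^ (((0 : ℕ) : ℤ) - 1 * j) =
        q ^ (-(m : ℤ)) * ∑ j ∈ range (m + 1), q ^ j := by
      rw [mul_sum, ← sum_range_reflect]
      apply sum_congr rfl
      intro j hj
      rw [mem_range] at hj
      rw [← zpow_natCast, ← zpow_add₀ hq]
      congr 1
      omega
    have e2 : ∑ j ∈ range (m + 1), q ^ ((c : ℤ) + 2 * r - 1 - ((0 : ℕ) : ℤ) + 1 * j) =
        q ^ ((c : ℤ) + 2 * r - 1) * ∑ j ∈ range (m + 1), q ^ j := by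
      rw [mul_sum]
      apply sum_congr rfl
      intro j _
      rw [← zpow_natCast, ← zpow_add₀ hq]
      congr 1
      push_cast
      ring
    have e3 : q ^ ((c : ℤ) + 2 * r - 1) = q ^ (-(m : ℤ)) *
        q ^ (sq r c m 0 1 0 - 1 + 2 * (r - 0)) := by
      rw [← zpow_natCast, ← zpow_add₀ hq]
      congr 1
      omega
    have e4 : ((0 : ℕ) : ℤ) - (m : ℤ) = -(m : ℤ) := by simp
    rw [e1, e2, e3, e4]
    have e5 : (1 - q) * ∑ j ∈ range (m + 1), q ^ j = 1 - q ^ (m + 1) := mul_neg_geom_sum q (m + 1)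
    linear_combination (q ^ (-(m : ℤ)) - q ^ (-(m : ℤ)) *
        q ^ (sq r c m 0 1 0 - 1 + 2 * (r - 0))) * e5
  · subst h1
    have e0 := sq_eq h i0 h.i0r
    rw [if_pos rfl] at e0
    obtain ⟨M, hM, hM2⟩ : ∃ M : ℕ, M = min m (c - m) ∧
        ((M + 1 = m + 1 ∧ c + 1 - M = c - m + 1) ∨ (M + 1 = c - m + 1 ∧ c + 1 - M = m + 1)) := by
      refine ⟨min m (c - m), rfl, ?_⟩
      rcases le_total m (c - m) with h6 | h6
      · left
        rw [min_eq_left h6]
        omega
      · right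
        rw [min_eq_right h6]
        omega
    have hfil : (range (m + 1)).filter (fun j => (-1 : ℤ) = 1 ∨ j + m ≤ c) = range (M + 1) := by
      ext j
      rw [mem_filter, mem_range, mem_range]
      constructor
      · rintro ⟨h6, h7 | h7⟩
        · omega
        · omega
      · intro h6
        exact ⟨by omega, Or.inr (by omega)⟩
    rw [hfil, if_neg (by norm_num), sum_sub_distrib]
    have e1 : ∑ j ∈ range (M + 1), q ^ ((i0 : ℤ) - -1 * j) =
        q ^ (i0 : ℤ) * ∑ j ∈ range (M + 1), q ^ j := by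
      rw [mul_sum]
      apply sum_congr rfl
      intro j _
      rw [← zpow_natCast q j, ← zpow_add₀ hq]
      congr 1
      ring
    have e2 : ∑ j ∈ range (M + 1), q ^ ((c : ℤ) + 2 * r - 1 - (i0 : ℤ) + -1 * j) =
        q ^ (i0 : ℤ) * q ^ (c + 1 - M) * ∑ j ∈ range (M + 1), q ^ j := by
      rw [mul_sum, ← sum_range_reflect]
      apply sum_congr rfl
      intro j hj
      rw [mem_range] at hj
      rw [← zpow_natCast q j, ← zpow_natCast q (c + 1 - M), ← zpow_add₀ hq, ← zpow_add₀ hq]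
      congr 1
      omega
    rw [e1, e2]
    have e5 : (1 - q) * ∑ j ∈ range (M + 1), q ^ j = 1 - q ^ (M + 1) := mul_neg_geom_sum q (M + 1)
    have e6 : sq r c m i0 (-1) i0 - 1 + 2 * (r - i0) = c - m + 1 := by omega
    rw [e6, sub_zero]
    rcases hM2 with ⟨h6, h7⟩ | ⟨h6, h7⟩
    · rw [h7]
      rw [h6] at e5 ⊢
      linear_combination (q ^ (i0 : ℤ) - q ^ (i0 : ℤ) * q ^ (c - m + 1)) * e5
    · rw [h7]
      rw [h6] at e5 ⊢
      linear_combination (q ^ (i0 : ℤ) - q ^ (i0 : ℤ) * q ^ (m + 1)) * e5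

/-- the leading coefficient as a product -/
theorem Cl_prod (h : Dat n r c m i0 ε) (q : K) (hq : q ≠ 0) :
    (1 - q) * Cl r c m i0 ε q =
      q ^ ((∑ i : Fin r, (i.val : ℤ)) - if ε = 1 then (m : ℤ) else 0) *
      (∏ i : Fin r, (1 - q ^ (sq r c m i0 ε i.val - 1 + 2 * (r - i.val)))) *
        (1 - q ^ (m + 1)) := by
  have hi0 := h.i0r
  set s : Fin r := ⟨i0, hi0⟩ with hs
  have h1 : Cl r c m i0 ε q = (∏ i ∈ univ.erase s, (q ^ (i.val : ℤ) -
      q ^ ((c : ℤ) + 2 * r - 1 - i.val))) *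
      ∑ j ∈ (range (m + 1)).filter (fun j => ε = 1 ∨ j + m ≤ c),
      (q ^ ((i0 : ℤ) - ε * j) - q ^ ((c : ℤ) + 2 * r - 1 - i0 + ε * j)) := by
    unfold Cl
    rw [mul_sum]
    apply sum_congr rfl
    intro j _
    rw [← mul_prod_erase univ _ (mem_univ s), mul_comm]
    congr 1
    · apply prod_congr rfl
      intro i hi
      have h2 : ¬ i.val = i0 := by
        intro h3
        exact (ne_of_mem_erase hi) (Fin.ext h3)
      rw [if_neg h2, sub_zero, add_zero]
    · have h2 : s.val = i0 := rfl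
      rw [if_pos h2]
  have h2 : ∏ i ∈ univ.erase s, (q ^ (i.val : ℤ) - q ^ ((c : ℤ) + 2 * r - 1 - i.val)) =
      q ^ (∑ i ∈ univ.erase s, (i.val : ℤ)) *
        ∏ i ∈ univ.erase s, (1 - q ^ (sq r c m i0 ε i.val - 1 + 2 * (r - i.val))) := by
    rw [← prod_zpow q hq, ← prod_mul_distrib]
    apply prod_congr rfl
    intro i hi
    have h3 : ¬ i.val = i0 := by
      intro h3
      exact (ne_of_mem_erase hi) (Fin.ext h3)
    have h4 := sq_eq h i.val i.isLt
    rw [if_neg h3] at h4
    have h5 := h.c1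
    have h6 := i.isLt
    rw [mul_sub, mul_one, ← zpow_natCast q (sq r c m i0 ε i.val - 1 + 2 * (r - i.val)),
      ← zpow_add₀ hq]
    congr 2
    omega
  have h3 := S_eq h q hq
  rw [h1, h2]
  have h4 : (∑ i : Fin r, (i.val : ℤ)) - (if ε = 1 then (m : ℤ) else 0) =
      (∑ i ∈ univ.erase s, (i.val : ℤ)) + ((i0 : ℤ) - if ε = 1 then (m : ℤ) else 0) := by
    rw [← add_sum_erase univ (fun i : Fin r => (i.val : ℤ)) (mem_univ s)]
    ring
  have h5 : ∏ i : Fin r, (1 - q ^ (sq r c m i0 ε i.val - 1 + 2 * (r - i.val))) =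
      (1 - q ^ (sq r c m i0 ε i0 - 1 + 2 * (r - i0))) *
      ∏ i ∈ univ.erase s, (1 - q ^ (sq r c m i0 ε i.val - 1 + 2 * (r - i.val))) :=
    (mul_prod_erase univ _ (mem_univ s)).symm
  rw [h4, zpow_add₀ hq, h5]
  linear_combination (q ^ (∑ i ∈ univ.erase s, (i.val : ℤ)) *
        ∏ i ∈ univ.erase s, (1 - q ^ (sq r c m i0 ε i.val - 1 + 2 * (r - i.val)))) * h3

theorem Cl_ne (h : Dat n r c m i0 ε) {K : Type*} [Field K] [CharZero K] (q : K) (hq : q ≠ 0)
    (hq1 : ∀ j : ℕ, 0 < j → 1 - q ^ j ≠ 0) : Cl r c m i0 ε q ≠ 0 := by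
  intro h0
  have h1 := Cl_prod h q hq
  rw [h0, mul_zero] at h1
  have h2 : q ^ ((∑ i : Fin r, (i.val : ℤ)) - if ε = 1 then (m : ℤ) else 0) *
      (∏ i : Fin r, (1 - q ^ (sq r c m i0 ε i.val - 1 + 2 * (r - i.val)))) *
        (1 - q ^ (m + 1)) ≠ 0 := by
    apply mul_ne_zero
    · apply mul_ne_zero
      · exact zpow_ne_zero _ hq
      · rw [prod_ne_zero_iff]
        intro i _
        apply hq1
        have := i.isLt
        omega
    · exact hq1 _ (Nat.succ_pos _)
  exact h2 h1.symm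

theorem cell (h : Dat n r c m i0 ε) {K : Type*} [Field K] [CharZero K] (q : K) (hq : q ≠ 0)
    (hq1 : ∀ j : ℕ, 0 < j → 1 - q ^ j ≠ 0) : ∃ R : Polynomial ℕ,
    cpr q (q ^ 2) (tr n (sq r c m i0 ε)) =
      (1 - q) ^ (n - r) * q ^ (-((∑ i : Fin r, (i.val : ℤ)) - if ε = 1 then (m : ℤ) else 0)) *
        Polynomial.aeval q R * Cl r c m i0 ε q := by
  have hrn := h.rn
  set lam := tr n (sq r c m i0 ε) with hlam
  set A := ∏ i : Fin r, (1 - q ^ (sq r c m i0 ε i.val - 1 + 2 * (r - i.val))) with hA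
  set E : ℤ := (∑ i : Fin r, (i.val : ℤ)) - if ε = 1 then (m : ℤ) else 0 with hE
  have hCl := Cl_prod h q hq
  rw [← hA, ← hE] at hCl
  have hcard := card_cells ((mem_parts _).1 (lam_parts h)).2
  rw [← hlam] at hcard
  -- the first column
  set emb : Fin r → Σ _ : Fin n, ℕ := fun i => ⟨⟨i.val, lt_of_lt_of_le i.isLt hrn⟩, 0⟩ with hemb
  have hinj : Function.Injective emb := by
    intro i j hij
    have h1 := congrArg (fun x : Σ _ : Fin n, ℕ => x.1.val) hij
    exact Fin.ext h1
  set S0 : Finset (Σ _ : Fin n, ℕ) := univ.image emb with hS0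
  have hS0card : S0.card = r := by
    rw [hS0, card_image_of_injective _ hinj, card_univ, Fintype.card_fin]
  have hS0prod : ∏ x ∈ S0, (1 - q ^ Nc lam x) = A := by
    rw [hS0, prod_image (fun i _ j _ hij => hinj hij)]
    apply prod_congr rfl
    intro i _
    rw [hlam]
    show 1 - q ^ Nc (tr n (sq r c m i0 ε)) ⟨⟨i.val, lt_of_lt_of_le i.isLt hrn⟩, 0⟩ = _
    rw [Nc_zero h _ i.isLt]
  have hS0sub : S0 ⊆ cells lam := by
    intro x hx
    rw [hS0, mem_image] at hx
    obtain ⟨i, _, rfl⟩ := hx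
    rw [mem_cells]
    exact sq_pos h i.val i.isLt
  have hqE : q ^ (-E) * q ^ E = 1 := by
    rw [← zpow_add₀ hq, neg_add_cancel, zpow_zero]
  by_cases hm : m = 0
  · obtain ⟨R, hR⟩ := prod_split q (cells lam) S0 hS0sub (Nc lam)
    refine ⟨R, ?_⟩
    rw [cpr_eq, hR, hS0prod, hcard, hS0card]
    have h1 : A = q ^ (-E) * Cl r c m i0 ε q := by
      have h2 : (1 - q) ≠ 0 := by
        have := hq1 1 one_pos
        rwa [pow_one] at this
      have h3 : (1 - q) * Cl r c m i0 ε q = (1 - q) * (q ^ E * A) := by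
        rw [hCl, hm, zero_add, pow_one]
        ring
      have h4 := mul_left_cancel₀ h2 h3
      rw [h4]
      linear_combination (-A) * hqE
    rw [h1]
    ring
  · obtain ⟨y, hy1, hy2, hy3⟩ := extra h (by omega)
    rw [← hlam] at hy1 hy3
    have hyS0 : y ∉ S0 := by
      intro hy
      rw [hS0, mem_image] at hy
      obtain ⟨i, _, hi⟩ := hy
      rw [← hi] at hy2
      exact absurd hy2 (by simp [hemb])
    have hsub : insert y S0 ⊆ cells lam := by
      intro x hx
      rw [mem_insert] at hx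
      rcases hx with rfl | hx
      · exact hy1
      · exact hS0sub hx
    obtain ⟨R, hR⟩ := prod_split q (cells lam) (insert y S0) hsub (Nc lam)
    refine ⟨R, ?_⟩
    have hcard2 : (insert y S0).card = r + 1 := by
      rw [card_insert_of_notMem hyS0, hS0card]
    have hrn2 : r + 1 ≤ n := by
      have h5 := card_le_card hsub
      rw [hcard2, hcard] at h5
      exact h5
    rw [cpr_eq, hR, prod_insert hyS0, hS0prod, hcard, hcard2, hy3]
    have h1 : (1 - q ^ (m + 1)) * A = (1 - q) * (q ^ (-E) * Cl r c m i0 ε q) := by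
      have h3 : (1 - q) * (q ^ (-E) * Cl r c m i0 ε q) =
          q ^ (-E) * ((1 - q) * Cl r c m i0 ε q) := by ring
      rw [h3, hCl]
      linear_combination (-(A * (1 - q ^ (m + 1)))) * hqE
    have h2 : (1 - q) ^ (n - r) = (1 - q) * (1 - q) ^ (n - (r + 1)) := by
      rw [← pow_succ']
      congr 1
      omega
    rw [h1, h2]
    ring

end Pool.Agent.Helper32.HG
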