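import Mathlib
import Pool.Agent.Helper32.HG.Cell

/-!
# The leading coefficient of the folded sum
-/

namespace Pool.Agent.Helper32.HG

open Finset MvPolynomial
open scoped Classical

variable {n r c m i0 : ℕ} {ε : ℤ}

/-- the vectors of the leading fiber -/
def uj (r c i0 : ℕ) (ε : ℤ) (j : ℕ) : Fin r → ℤ := fun i =>
  (c : ℤ) + 2 * r - 1 - i.val + if i.val = i0 then ε * j else 0

/-- the shifts of the leading fiber -/
def gj (r m i0 : ℕ) (j : ℕ) : Fin (r + r) → ℕ := fun x =>
  if x.val = i0 then m - j else if x.val + i0 + 1 = r + r then j else 0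

theorem gj_cast (hi0 : i0 < r) (j : ℕ) (i : Fin r) : gj r m i0 j (Fin.castAdd r i) =
    if i.val = i0 then m - j else 0 := by
  unfold gj
  rw [Fin.val_castAdd]
  have := i.isLt
  by_cases h1 : i.val = i0
  · rw [if_pos h1, if_pos h1]
  · rw [if_neg h1, if_neg h1, if_neg (by omega)]

theorem gj_nat (hi0 : i0 < r) (j : ℕ) (i : Fin r) : gj r m i0 j (Fin.natAdd r (Fin.rev i)) =
    if i.val = i0 then j else 0 := by
  unfold gj
  rw [Fin.val_natAdd, Fin.val_rev]
  have := i.isLt
  rw [if_neg (by omega)]
  by_cases h1 : i.val = i0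
  · rw [if_pos h1, if_pos (by omega)]
  · rw [if_neg h1, if_neg (by omega)]

theorem split_fun {M : Type*} {f g : Fin (r + r) → M}
    (h1 : ∀ i : Fin r, f (Fin.castAdd r i) = g (Fin.castAdd r i))
    (h2 : ∀ i : Fin r, f (Fin.natAdd r (Fin.rev i)) = g (Fin.natAdd r (Fin.rev i))) : f = g := by
  funext x
  refine Fin.addCases (fun i => ?_) (fun i => ?_) x
  · exact h1 i
  · have := h2 (Fin.rev i)
    rw [Fin.rev_rev] at this
    exact this

theorem sq_nat (i : Fin r) : sq r c m i0 ε (Fin.natAdd r (Fin.rev i)).val = 0 := by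
  apply sq_zero
  rw [Fin.val_natAdd]
  omega

theorem lp_uj (h : Dat n r c m i0 ε) (j : ℕ) (hj : j ≤ m) :
    lp ((c : ℤ) + 2 * r - 1) ε (uj r c i0 ε j, gj r m i0 j) =
      fun x => (sq r c m i0 ε x.val : ℤ) + stair (r + r) x := by
  apply split_fun
  · intro i
    show bal ((c : ℤ) + 2 * r - 1) (uj r c i0 ε j) (Fin.castAdd r i) +
      ε * (gj r m i0 j (Fin.castAdd r i) : ℤ) =
      (sq r c m i0 ε (Fin.castAdd r i).val : ℤ) + stair (r + r) (Fin.castAdd r i)
    rw [bal_castAdd, gj_cast h.i0r, stair_cast, Fin.val_castAdd, sq_eq h i.val i.isLt]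
    unfold uj
    by_cases h1 : i.val = i0
    · rw [if_pos h1, if_pos h1, if_pos h1]
      push_cast [hj]
      ring
    · rw [if_neg h1, if_neg h1, if_neg h1]
      push_cast
      ring
  · intro i
    show bal ((c : ℤ) + 2 * r - 1) (uj r c i0 ε j) (Fin.natAdd r (Fin.rev i)) +
      ε * (gj r m i0 j (Fin.natAdd r (Fin.rev i)) : ℤ) =
      (sq r c m i0 ε (Fin.natAdd r (Fin.rev i)).val : ℤ) + stair (r + r) (Fin.natAdd r (Fin.rev i))
    rw [bal_nat_rev, gj_nat h.i0r, stair_nat, sq_nat]
    unfold uj
    by_cases h1 : i.val = i0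
    · rw [if_pos h1, if_pos h1]
      push_cast
      ring
    · rw [if_neg h1, if_neg h1]
      push_cast
      ring

theorem sq_stair_anti (h : Dat n r c m i0 ε) :
    StrictAnti (fun x : Fin (r + r) => (sq r c m i0 ε x.val : ℤ) + stair (r + r) x) := by
  intro x y hxy
  have h1 := sq_anti h (show x.val ≤ y.val from hxy.le)
  have h2 : stair (r + r) y < stair (r + r) x := stair_strictAnti hxy
  show (sq r c m i0 ε y.val : ℤ) + stair (r + r) y < (sq r c m i0 ε x.val : ℤ) + stair (r + r) x
  omega

theorem pt_sq (h : Dat n r c m i0 ε) :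
    pt (fun x : Fin (r + r) => (sq r c m i0 ε x.val : ℤ) + stair (r + r) x) = sq r c m i0 ε := by
  funext j
  unfold pt
  by_cases hj : j < r + r
  · rw [dif_pos hj]
    simp
  · rw [dif_neg hj, sq_zero j (by omega)]

theorem fib_mem (h : Dat n r c m i0 ε) (j : ℕ) (hj : j ≤ m) (hj2 : ε = 1 ∨ j + m ≤ c) :
    ((uj r c i0 ε j, gj r m i0 j) : (Fin r → ℤ) × (Fin (r + r) → ℕ)) ∈
      Dset r m ((c : ℤ) + 2 * r - 1) ε := by
  have hlp := lp_uj h j hj
  have hc1 := h.c1
  have hi0 := h.i0r
  rw [mem_Dset]
  refine ⟨⟨?_, ?_⟩, ?_, ?_⟩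
  · show uj r c i0 ε j ∈ Uset r m ((c : ℤ) + 2 * r - 1)
    rw [mem_Uset]
    refine ⟨?_, ?_, ?_⟩
    · intro i
      have hi := i.isLt
      unfold uj
      rcases h.cas with ⟨h1, h2⟩ | ⟨h1, h2, h3, h4, h5⟩
      · by_cases h6 : i.val = i0
        · rw [if_pos h6, h1]
          omega
        · rw [if_neg h6]
          omega
      · by_cases h6 : i.val = i0
        · rw [if_pos h6, h1]
          omega
        · rw [if_neg h6]
          omega
    · intro i i' hii
      rw [Fin.lt_def] at hii
      have hi := i.isLt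
      have hi' := i'.isLt
      show uj r c i0 ε j i' < uj r c i0 ε j i
      unfold uj
      rcases h.cas with ⟨h1, h2⟩ | ⟨h1, h2, h3, h4, h5⟩
      · rw [if_neg (show ¬ i'.val = i0 by omega)]
        by_cases h6 : i.val = i0
        · rw [if_pos h6, h1]
          omega
        · rw [if_neg h6]
          omega
      · rw [if_neg (show ¬ i.val = i0 by omega)]
        by_cases h6 : i'.val = i0
        · rw [if_pos h6, h1]
          omega
        · rw [if_neg h6]
          omega
    · intro i
      have hi := i.isLt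
      unfold uj
      rcases h.cas with ⟨h1, h2⟩ | ⟨h1, h2, h3, h4, h5⟩
      · by_cases h6 : i.val = i0
        · rw [if_pos h6, h1]
          omega
        · rw [if_neg h6]
          omega
      · have h7 : j + m ≤ c := by
          rcases hj2 with h8 | h8
          · omega
          · exact h8
        by_cases h6 : i.val = i0
        · rw [if_pos h6, h1]
          omega
        · rw [if_neg h6]
          omega
  · show ∑ x, gj r m i0 j x = m
    rw [pair_sum]
    have h1 : ∀ i : Fin r, gj r m i0 j (Fin.castAdd r i) +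
        gj r m i0 j (Fin.natAdd r (Fin.rev i)) = if i = (⟨i0, hi0⟩ : Fin r) then m else 0 := by
      intro i
      rw [gj_cast hi0, gj_nat hi0]
      by_cases h6 : i.val = i0
      · rw [if_pos h6, if_pos h6, if_pos (Fin.ext h6)]
        omega
      · rw [if_neg h6, if_neg h6, if_neg (fun h => h6 (by rw [h]))]
    rw [sum_congr rfl (fun i _ => h1 i)]
    simp
  · show IL ε (bal ((c : ℤ) + 2 * r - 1) (uj r c i0 ε j)) (gj r m i0 j)
    have hb : ∀ x, bal ((c : ℤ) + 2 * r - 1) (uj r c i0 ε j) x + ε * (gj r m i0 j x : ℤ) =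
        (sq r c m i0 ε x.val : ℤ) + stair (r + r) x := by
      intro x
      exact congrFun hlp x
    rcases h.cas with ⟨h1, h2⟩ | ⟨h1, h2, h3, h4, h5⟩
    · subst h1
      refine Or.inl ⟨rfl, ?_⟩
      intro x y hxy
      have e1 := hb x
      have e2 := hb y
      rw [one_mul] at e1 e2
      rw [e1]
      have e3 : bal ((c : ℤ) + 2 * r - 1) (uj r c i0 1 j) y =
          (sq r c m i0 1 y.val : ℤ) + stair (r + r) y - gj r m i0 j y := by
        linarith
      rw [e3, stair_eq, stair_eq]
      have hx := x.isLt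
      have hy := y.isLt
      have k1 : (gj r m i0 j y : ℤ) ≤ (sq r c m i0 1 y.val : ℤ) - (sq r c m i0 1 x.val : ℤ) := by
        by_cases h6 : y.val = i0
        · have k2 : gj r m i0 j y = m - j := by
            unfold gj
            rw [if_pos h6]
          have k3 := sq_eq h y.val (by omega)
          rw [if_pos h6, one_mul] at k3
          have k4 : (sq r c m i0 1 x.val : ℤ) ≤ c := by
            by_cases h7 : x.val < r
            · have k5 := sq_eq h x.val h7
              rw [if_neg (by omega)] at k5
              omega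
            · rw [sq_zero x.val (by omega)]
              omega
          rw [k2, k3]
          omega
        · have k2 : gj r m i0 j y = 0 := by
            unfold gj
            rw [if_neg h6, if_neg (by omega)]
          rw [k2]
          have := sq_anti h (show y.val ≤ x.val by omega)
          omega
      push_cast
      omega
    · subst h1
      refine Or.inr ⟨rfl, ?_⟩
      intro x y hxy
      have e1 := hb x
      have e2 := hb y
      have e3 : bal ((c : ℤ) + 2 * r - 1) (uj r c i0 (-1) j) y =
          (sq r c m i0 (-1) y.val : ℤ) + stair (r + r) y + gj r m i0 j y := by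
        linarith
      have e4 : bal ((c : ℤ) + 2 * r - 1) (uj r c i0 (-1) j) x - gj r m i0 j x =
          (sq r c m i0 (-1) x.val : ℤ) + stair (r + r) x := by
        linarith
      rw [e3, e4, stair_eq, stair_eq]
      have hx := x.isLt
      have hy := y.isLt
      have k1 : (gj r m i0 j y : ℤ) ≤
          (sq r c m i0 (-1) x.val : ℤ) - (sq r c m i0 (-1) y.val : ℤ) := by
        by_cases h6 : y.val = i0
        · have k2 : gj r m i0 j y = m - j := by
            unfold gj
            rw [if_pos h6]
          have k3 := sq_eq h y.val (by omega)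
          rw [if_pos h6] at k3
          have k5 := sq_eq h x.val (by omega)
          rw [if_neg (by omega)] at k5
          rw [k2, k3, k5]
          omega
        · by_cases h7 : y.val + i0 + 1 = r + r
          · have k2 : gj r m i0 j y = j := by
              unfold gj
              rw [if_neg h6, if_pos h7]
            have k3 := sq_eq h x.val (by omega)
            rw [if_pos (show x.val = i0 by omega)] at k3
            rw [k2, k3, sq_zero y.val (by omega)]
            have h8 : j + m ≤ c := by
              rcases hj2 with h8 | h8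
              · omega
              · exact h8
            push_cast
            omega
          · have k2 : gj r m i0 j y = 0 := by
              unfold gj
              rw [if_neg h6, if_neg h7]
            rw [k2]
            have := sq_anti h (show x.val ≤ y.val by omega)
            omega
      push_cast
      omega
  · intro x
    rw [hlp]
    have : 0 ≤ stair (r + r) x := by
      unfold stair
      positivity
    positivity

theorem fib_surj (h : Dat n r c m i0 ε) {p : (Fin r → ℤ) × (Fin (r + r) → ℕ)}
    (hp : p ∈ Dset r m ((c : ℤ) + 2 * r - 1) ε)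
    (ht : tr n (pt (lp ((c : ℤ) + 2 * r - 1) ε p)) = tr n (sq r c m i0 ε)) :
    ∃ j, j ≤ m ∧ (ε = 1 ∨ j + m ≤ c) ∧ p = (uj r c i0 ε j, gj r m i0 j) := by
  set σ : ℤ := (c : ℤ) + 2 * r - 1 with hσ
  have hanti := lp_anti hp
  have h0 := (mem_Dset.1 hp).2.2
  have hm := (mem_Dset.1 hp).1.2
  have hsum : ∑ j ∈ range (r + r), pt (lp σ ε p) j = n := by
    have h1 := sum_pt hanti h0
    rw [lp_sum h hm] at h1
    exact_mod_cast h1
  have hz := anti_zero (pt_antitone hanti h0) hsum (fun j hj => pt_zero (lp σ ε p) hj)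
  have hpt : pt (lp σ ε p) = sq r c m i0 ε := by
    funext j
    by_cases hj : j < n
    · exact congrFun ht ⟨j, hj⟩
    · rw [hz j (by omega), sq_zero j (by have := h.rn; omega)]
  have hlp : ∀ x, lp σ ε p x = (sq r c m i0 ε x.val : ℤ) + stair (r + r) x := by
    intro x
    have h1 := pt_eq hanti h0 x
    rw [hpt] at h1
    linarith
  have hε : ε = 1 ∨ ε = -1 := by
    rcases h.cas with h1 | h1
    · exact Or.inl h1.1
    · exact Or.inr h1.1
  have hu : ∀ i : Fin r, p.1 i = σ - i.val + ε * (p.2 (Fin.natAdd r (Fin.rev i)) : ℤ) := by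
    intro i
    have h1 := hlp (Fin.natAdd r (Fin.rev i))
    unfold lp at h1
    rw [bal_nat_rev, stair_nat, sq_nat] at h1
    push_cast at h1
    linarith
  have hg : ∀ i : Fin r, (p.2 (Fin.castAdd r i) : ℤ) + (p.2 (Fin.natAdd r (Fin.rev i)) : ℤ) =
      if i.val = i0 then (m : ℤ) else 0 := by
    intro i
    have h1 := hlp (Fin.castAdd r i)
    unfold lp at h1
    rw [bal_castAdd, stair_cast, Fin.val_castAdd, sq_eq h i.val i.isLt, hu i, hσ] at h1
    by_cases h2 : i.val = i0
    · rw [if_pos h2] at h1 ⊢
      rcases hε with h3 | h3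
      · rw [h3] at h1
        linarith
      · rw [h3] at h1
        linarith
    · rw [if_neg h2] at h1 ⊢
      rcases hε with h3 | h3
      · rw [h3] at h1
        linarith
      · rw [h3] at h1
        linarith
  have hi0 := h.i0r
  set j := p.2 (Fin.natAdd r (Fin.rev ⟨i0, hi0⟩)) with hj
  have hgi := hg ⟨i0, hi0⟩
  rw [if_pos rfl, ← hj] at hgi
  have hjm : j ≤ m := by omega
  have hg0 : ∀ i : Fin r, i.val ≠ i0 → p.2 (Fin.castAdd r i) = 0 ∧
      p.2 (Fin.natAdd r (Fin.rev i)) = 0 := by
    intro i hi
    have h1 := hg i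
    rw [if_neg hi] at h1
    constructor
    · omega
    · omega
  have hp1 : p.1 = uj r c i0 ε j := by
    funext i
    rw [hu i]
    unfold uj
    by_cases h2 : i.val = i0
    · have h3 : i = ⟨i0, hi0⟩ := Fin.ext h2
      rw [if_pos h2, h3]
    · rw [if_neg h2, (hg0 i h2).2]
      push_cast
      ring
  have hp2 : p.2 = gj r m i0 j := by
    apply split_fun
    · intro i
      rw [gj_cast hi0]
      by_cases h2 : i.val = i0
      · have h3 : i = ⟨i0, hi0⟩ := Fin.ext h2
        rw [if_pos h2, h3]
        omega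
      · rw [if_neg h2, (hg0 i h2).1]
    · intro i
      rw [gj_nat hi0]
      by_cases h2 : i.val = i0
      · have h3 : i = ⟨i0, hi0⟩ := Fin.ext h2
        rw [if_pos h2, h3]
      · rw [if_neg h2, (hg0 i h2).2]
  refine ⟨j, hjm, ?_, ?_⟩
  · rcases h.cas with ⟨h1, _⟩ | ⟨h1, h2, h3, h4, h5⟩
    · exact Or.inl h1
    · right
      have hIL := (mem_Dset.1 hp).2.1
      rcases hIL with ⟨h6, _⟩ | ⟨_, h7⟩
      · rw [h1] at h6
        exact absurd h6 (by norm_num)
      · have hx : i0 < r + r := by omega
        have hy : i0 + 1 < r + r := by omega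
        have h8 := h7 ⟨i0, hx⟩ ⟨i0 + 1, hy⟩ rfl
        have e1 := hlp ⟨i0, hx⟩
        have e2 := hlp ⟨i0 + 1, hy⟩
        unfold lp at e1 e2
        rw [h1, stair_eq] at e1 e2
        have e3 : p.2 ⟨i0 + 1, hy⟩ = j := by
          rw [hp2]
          unfold gj
          rw [if_neg (by simp), if_pos (by simp; omega)]
        rw [e3] at e2
        have e4 := sq_eq h i0 hi0
        rw [if_pos rfl, h1] at e4
        have e5 : sq r c m i0 (-1) (i0 + 1) = 0 := sq_zero _ (by omega)
        simp only at e1 e2
        rw [e5] at e2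
        rw [e4] at e1
        push_cast at e1 e2 h8
        omega
  · rw [← hp1, ← hp2]

variable {K : Type*} [Field K] [CharZero K]

/-- the leading coefficient of the folded sum -/
theorem Cc_lam (h : Dat n r c m i0 ε) (q : K) :
    Cc n r m ((c : ℤ) + 2 * r - 1) ε (fun k => q ^ k) (tr n (sq r c m i0 ε)) =
      Cl r c m i0 ε q := by
  unfold Cc Cl
  symm
  have hi0 := h.i0r
  apply sum_bij (fun j _ => ((uj r c i0 ε j, gj r m i0 j) : (Fin r → ℤ) × (Fin (r + r) → ℕ)))
  · intro j hj
    rw [mem_filter, mem_range] at hj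
    rw [mem_filter]
    refine ⟨fib_mem h j (by omega) hj.2, ?_⟩
    rw [lp_uj h j (by omega), pt_sq h]
  · intro j hj j' hj' heq
    have h1 := congrArg (fun p : (Fin r → ℤ) × (Fin (r + r) → ℕ) =>
      p.2 (Fin.natAdd r (Fin.rev ⟨i0, hi0⟩))) heq
    simp only [gj_nat hi0, if_true] at h1
    exact h1
  · intro p hp
    rw [mem_filter] at hp
    obtain ⟨j, h1, h2, h3⟩ := fib_surj h hp.1 hp.2
    refine ⟨j, ?_, h3.symm⟩
    rw [mem_filter, mem_range]
    exact ⟨by omega, h2⟩
  · intro j _
    apply prod_congr rfl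
    intro i _
    unfold uj
    congr 2
    ring

end Pool.Agent.Helper32.HG
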