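import Mathlib
import Pool.Agent.Helper32.HG.Ident
import Pool.Agent.Helper32.HG.Gex

/-!
# Schur expansions and lifts to the ring of power sums
-/

namespace Pool.Agent.Helper32.HG

open Finset MvPolynomial
open scoped Classical

section ring

variable {n : ℕ} {K : Type*} [CommRing K]

/-- homogeneous symmetric polynomials of degree `n` -/
def SymH (n : ℕ) {K : Type*} [CommRing K] (f : MvPolynomial (Fin n) K) : Prop :=
  f.IsSymmetric ∧ ∀ e : Fin n → ℕ, coeff (ex e) f ≠ 0 → ∑ i, e i = n

theorem SymH.add {f g : MvPolynomial (Fin n) K} (hf : SymH n f) (hg : SymH n g) :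
    SymH n (f + g) := by
  constructor
  · intro σ
    rw [map_add, hf.1 σ, hg.1 σ]
  · intro e he
    rw [coeff_add] at he
    by_cases h : coeff (ex e) f = 0
    · apply hg.2
      intro h'
      rw [h, h', add_zero] at he
      exact he rfl
    · exact hf.2 e h

theorem SymH.smul {f : MvPolynomial (Fin n) K} (hf : SymH n f) (a : K) : SymH n (a • f) := by
  constructor
  · intro σ
    rw [map_smul, hf.1 σ]
  · intro e he
    rw [coeff_smul, smul_eq_mul] at he
    apply hf.2
    intro h
    rw [h, mul_zero] at he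
    exact he rfl

theorem SymH.zero : SymH n (0 : MvPolynomial (Fin n) K) := by
  constructor
  · intro σ
    rw [map_zero]
  · intro e he
    rw [coeff_zero] at he
    exact absurd rfl he

theorem SymH.sum {ι : Type*} (s : Finset ι) (f : ι → MvPolynomial (Fin n) K)
    (h : ∀ i ∈ s, SymH n (f i)) : SymH n (∑ i ∈ s, f i) := by
  induction s using Finset.induction_on with
  | empty => simpa using SymH.zero
  | insert a s ha ih =>
    rw [sum_insert ha]
    exact (h a (mem_insert_self _ _)).add (ih (fun i hi => h i (mem_insert_of_mem hi)))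

theorem symH_schur {μ : Fin n → ℕ} (hμ : μ ∈ parts n) : SymH n (schur n K μ) := by
  refine ⟨schur_symm μ, ?_⟩
  intro e he
  rw [(schur_supp ((mem_parts μ).1 hμ).1 e he).2]
  exact ((mem_parts μ).1 hμ).2

theorem symH_msym {μ : Fin n → ℕ} (hμ : μ ∈ parts n) : SymH n (msym n K μ) := by
  constructor
  · intro σ
    apply ext_ex
    intro e
    have h1 := coeff_rename_mapDomain (R := K) σ σ.injective (msym n K μ) (ex (e ∘ σ))
    have h2 : (ex (e ∘ σ)).mapDomain σ = ex e := by
      ext i
      rw [ex_apply]
      have : i = σ (σ.symm i) := by simp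
      rw [this, Finsupp.mapDomain_apply σ.injective, ex_apply]
      simp
    rw [h2] at h1
    rw [h1, coeff_msym, coeff_msym]
    have h3 : (∃ τ : Equiv.Perm (Fin n), e ∘ σ = μ ∘ τ) ↔ ∃ τ : Equiv.Perm (Fin n), e = μ ∘ τ := by
      constructor
      · rintro ⟨τ, hτ⟩
        refine ⟨τ * σ⁻¹, ?_⟩
        funext i
        have := congrFun hτ (σ.symm i)
        simpa [Function.comp] using this
      · rintro ⟨τ, hτ⟩
        refine ⟨τ * σ, ?_⟩
        rw [hτ]
        rfl
    simp only [h3]
  · intro e he
    rw [coeff_msym] at he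
    by_cases h : ∃ σ : Equiv.Perm (Fin n), e = μ ∘ σ
    · obtain ⟨σ, hσ⟩ := h
      rw [hσ]
      exact (Equiv.sum_comp σ μ).trans ((mem_parts μ).1 hμ).2
    · rw [if_neg h] at he
      exact absurd rfl he

/-- a symmetric polynomial is determined by its coefficients at partitions -/
theorem SymH.ext {f g : MvPolynomial (Fin n) K} (hf : SymH n f) (hg : SymH n g)
    (h : ∀ ν ∈ parts n, coeff (ex ν) f = coeff (ex ν) g) : f = g := by
  rw [sym_expand hf.1 hf.2, sym_expand hg.1 hg.2]
  apply sum_congr rfl
  intro ν hν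
  rw [h ν hν]

/-- the Schur polynomials span -/
theorem sch_span (N : ℕ) : ∀ f : MvPolynomial (Fin n) K, SymH n f →
    (∀ ν ∈ parts n, coeff (ex ν) f ≠ 0 → stat ν < N) →
    ∃ a : (Fin n → ℕ) → K, f = ∑ μ ∈ parts n, a μ • schur n K μ := by
  induction N with
  | zero =>
    intro f hf h
    refine ⟨fun _ => 0, ?_⟩
    apply hf.ext
    · apply SymH.sum
      intro i hi
      exact (symH_schur hi).smul _
    · intro ν hν
      have h1 : coeff (ex ν) f = 0 := by
        by_contra h2
        have := h ν hν h2
        omega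
      rw [h1]
      simp
  | succ N ih =>
    intro f hf h
    set S := ∑ μ ∈ (parts n).filter (fun μ => stat μ = N), coeff (ex μ) f • schur n K μ with hS
    have hSs : SymH n S := by
      apply SymH.sum
      intro i hi
      exact (symH_schur (mem_filter.1 hi).1).smul _
    have h1 : SymH n (f + (-1 : K) • S) := hf.add (hSs.smul _)
    obtain ⟨a, ha⟩ := ih (f + (-1 : K) • S) h1 (by
      intro ν hν hne
      by_contra hcon
      apply hne
      have hc : coeff (ex ν) S = ∑ μ ∈ (parts n).filter (fun μ => stat μ = N),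
          coeff (ex μ) f * coeff (ex ν) (schur n K μ) := by
        rw [hS, coeff_sum]
        apply sum_congr rfl
        intro μ _
        rw [coeff_smul, smul_eq_mul]
      rw [coeff_add, coeff_smul, smul_eq_mul, hc]
      have hz : ∀ μ ∈ (parts n).filter (fun μ => stat μ = N), μ ≠ ν →
          coeff (ex μ) f * coeff (ex ν) (schur n K μ) = 0 := by
        intro μ hμ hne2
        rw [mem_filter] at hμ
        by_cases h3 : coeff (ex ν) (schur n K μ) = 0
        · rw [h3, mul_zero]
        · exfalso
          have h4 := domLe_of_supp ((mem_parts μ).1 hμ.1).1 ν h3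
          have h5 := stat_lt h4 (Ne.symm hne2)
          omega
      by_cases h6 : stat ν = N
      · have hmem : ν ∈ (parts n).filter (fun μ => stat μ = N) := mem_filter.2 ⟨hν, h6⟩
        rw [sum_eq_single_of_mem ν hmem (fun μ hμ hne2 => hz μ hμ hne2),
          schur_diag ((mem_parts ν).1 hν).1]
        ring
      · have h7 : coeff (ex ν) f = 0 := by
          by_contra h8
          have := h ν hν h8
          omega
        rw [h7, sum_eq_zero (fun μ hμ => hz μ hμ (by
          intro h9
          rw [mem_filter] at hμ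
          rw [h9] at hμ
          exact h6 hμ.2))]
        ring)
    refine ⟨fun μ => a μ + if stat μ = N then coeff (ex μ) f else 0, ?_⟩
    have h2 : f = (f + (-1 : K) • S) + S := by
      rw [neg_smul, one_smul]
      ring
    have h5 : ∑ μ ∈ parts n, (a μ + if stat μ = N then coeff (ex μ) f else 0) • schur n K μ =
        ∑ μ ∈ parts n, a μ • schur n K μ + S := by
      rw [hS, sum_filter, ← sum_add_distrib]
      apply sum_congr rfl
      intro μ _
      rw [add_smul]
      congr 1
      by_cases h3 : stat μ = N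
      · rw [if_pos h3, if_pos h3]
      · rw [if_neg h3, if_neg h3, zero_smul]
    rw [h5, ← ha]
    exact h2

theorem sch_exists {f : MvPolynomial (Fin n) K} (hf : SymH n f) :
    ∃ a : (Fin n → ℕ) → K, f = ∑ μ ∈ parts n, a μ • schur n K μ := by
  apply sch_span (∑ ν ∈ parts n, stat ν + 1) f hf
  intro ν hν _
  have : stat ν ≤ ∑ ν ∈ parts n, stat ν := single_le_sum (fun _ _ => Nat.zero_le _) hν
  omega

end ring

section field

variable {n : ℕ} {K : Type} [Field K] [CharZero K]

/-- the lift of the complete homogeneous polynomials -/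
noncomputable def hl (n : ℕ) (K : Type) [Field K] (k : ℤ) : MvPolynomial (Fin n) K :=
  if 0 ≤ k then gh n (fun j => 1 + (0 : K) ^ j) k.toNat else 0

theorem gz_q0 (k : ℕ) : gz n (0 : K) (k : ℤ) = hz n K k := by
  unfold gz
  rw [sum_eq_single (k : ℤ)]
  · rw [sub_self, zpow_zero, one_smul, hz_zero, mul_one]
  · intro a ha hne
    rw [mem_Icc] at ha
    rw [zero_zpow _ (by omega), zero_smul]
  · intro h
    exfalso
    apply h
    rw [mem_Icc]
    omega

theorem Psi_hl (k : ℤ) (hk : k ≤ n) : Psi n K (hl n K k) = hz n K k := by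
  unfold hl
  by_cases h : 0 ≤ k
  · rw [if_pos h, Psi_gh (0 : K) (by intro j hj; simp [hj.ne']) k.toNat (by omega), gz_q0,
      Int.toNat_of_nonneg h]
  · rw [if_neg h, map_zero, hz_neg (by omega)]

/-- weight homogeneity with an integer weight -/
def WtZ (k : ℤ) (f : MvPolynomial (Fin n) K) : Prop :=
  ∀ d : Fin n →₀ ℕ, coeff d f ≠ 0 → (wtd d : ℤ) = k

theorem wtZ_prod (s : Finset (Fin n)) (l : Fin n → ℤ) :
    WtZ (∑ v ∈ s, l v) (∏ v ∈ s, hl n K (l v)) := by
  induction s using Finset.induction_on with
  | empty =>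
    intro d hd
    simp only [prod_empty, sum_empty] at hd ⊢
    rw [coeff_one] at hd
    by_cases h : 0 = d
    · rw [← h, wtd_zero]
      rfl
    · rw [if_neg h] at hd
      exact absurd rfl hd
  | insert a s ha ih =>
    rw [sum_insert ha, prod_insert ha]
    intro d hd
    rw [coeff_mul] at hd
    obtain ⟨x, hx, hne⟩ := exists_ne_zero_of_sum_ne_zero hd
    rw [Finset.HasAntidiagonal.mem_antidiagonal] at hx
    have h1 := ih _ (right_ne_zero_of_mul hne)
    have h2 := left_ne_zero_of_mul hne
    rw [← hx, wtd_add]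
    unfold hl at h2
    by_cases h3 : 0 ≤ l a
    · rw [if_pos h3, coeff_gh] at h2
      by_cases h4 : wtd x.1 = (l a).toNat
      · push_cast
        rw [h1, h4, Int.toNat_of_nonneg h3]
      · rw [if_neg h4] at h2
        exact absurd rfl h2
    · rw [if_neg h3, coeff_zero] at h2
      exact absurd rfl h2

/-- the lift of a Schur polynomial -/
theorem schur_lift {μ : Fin n → ℕ} (hμ : μ ∈ parts n) :
    ∃ g : MvPolynomial (Fin n) K, WtN n g ∧ Psi n K g = schur n K μ := by
  refine ⟨∑ τ : Equiv.Perm (Fin n), ((Equiv.Perm.sign τ : ℤ) : K) •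
    ∏ x, hl n K ((μ x : ℤ) + stair n x - stair n (τ x)), ?_, ?_⟩
  · apply WtN.sum
    intro τ _
    apply WtN.smul
    intro d hd
    have h1 := wtZ_prod univ (fun x => (μ x : ℤ) + stair n x - stair n (τ x)) d hd
    have h2 : ∑ x, ((μ x : ℤ) + stair n x - stair n (τ x)) = n := by
      rw [sum_sub_distrib, sum_add_distrib, Equiv.sum_comp τ (stair n)]
      have := ((mem_parts μ).1 hμ).2
      have h3 : ((∑ i, μ i : ℕ) : ℤ) = n := by rw [this]
      push_cast at h3
      linarith
    rw [h2] at h1
    exact_mod_cast h1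
  · rw [map_sum, schur_eq, Sd_expand]
    apply sum_congr rfl
    intro τ _
    rw [map_smul, map_prod, Int.cast_smul_eq_zsmul]
    congr 1
    have h2 : ∑ x, ((μ x : ℤ) + stair n x - stair n (τ x)) = n := by
      rw [sum_sub_distrib, sum_add_distrib, Equiv.sum_comp τ (stair n)]
      have := ((mem_parts μ).1 hμ).2
      have h3 : ((∑ i, μ i : ℕ) : ℤ) = n := by rw [this]
      push_cast at h3
      linarith
    by_cases h0 : ∀ x, 0 ≤ (μ x : ℤ) + stair n x - stair n (τ x)
    · apply prod_congr rfl
      intro x _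
      apply Psi_hl
      rw [← h2]
      exact single_le_sum (f := fun x => (μ x : ℤ) + stair n x - stair n (τ x))
        (fun i _ => h0 i) (mem_univ x)
    · push Not at h0
      obtain ⟨x, hx⟩ := h0
      rw [prod_eq_zero (mem_univ x), prod_eq_zero (mem_univ x)]
      · exact hz_neg hx
      · unfold hl
        rw [if_neg (by omega), map_zero]

/-- the lift of a symmetric polynomial -/
theorem lift_exists {f : MvPolynomial (Fin n) K} (hf : SymH n f) :
    ∃ g : MvPolynomial (Fin n) K, WtN n g ∧ Psi n K g = f := by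
  obtain ⟨a, ha⟩ := sch_exists hf
  have h1 : ∀ μ : Fin n → ℕ, ∃ g : MvPolynomial (Fin n) K, μ ∈ parts n →
      (WtN n g ∧ Psi n K g = schur n K μ) := by
    intro μ
    by_cases h : μ ∈ parts n
    · obtain ⟨g, hg⟩ := schur_lift (K := K) h
      exact ⟨g, fun _ => hg⟩
    · exact ⟨0, fun h' => absurd h' h⟩
  choose g hg using h1
  refine ⟨∑ μ ∈ parts n, a μ • g μ, ?_, ?_⟩
  · apply WtN.sum
    intro μ hμ
    exact ((hg μ hμ).1).smul _
  · rw [map_sum, ha]
    apply sum_congr rfl
    intro μ hμ
    rw [map_smul, (hg μ hμ).2]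

theorem Psi_map {K' : Type} [Field K'] (φ : K →+* K') (f : MvPolynomial (Fin n) K) :
    Psi n K' (map φ f) = map φ (Psi n K f) := by
  unfold Psi
  induction f using MvPolynomial.induction_on with
  | C a => simp
  | add f g hf hg => rw [map_add, map_add, hf, hg, map_add, map_add]
  | mul_X f i hf =>
    rw [map_mul, map_mul, hf, map_mul, map_mul, map_X, aeval_X, aeval_X, map_sum]
    simp

theorem msym_map {K' : Type*} [CommRing K'] {K : Type*} [CommRing K] (φ : K →+* K')
    (μ : Fin n → ℕ) : map φ (msym n K μ) = msym n K' μ := by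
  unfold msym
  rw [map_sum]
  simp

theorem hk_map {K' : Type*} [CommRing K'] {K : Type*} [CommRing K] (φ : K →+* K') (k : ℕ) :
    map φ (hk n K k) = hk n K' k := by
  unfold hk
  rw [map_sum]
  simp

theorem schur_map {K' : Type*} [CommRing K'] {K : Type*} [CommRing K] (φ : K →+* K')
    (μ : Fin n → ℕ) : map φ (schur n K μ) = schur n K' μ := by
  unfold schur
  rw [RingHom.map_det]
  congr 1
  apply Matrix.ext
  intro i j
  rw [RingHom.mapMatrix_apply, Matrix.map_apply, Matrix.of_apply, Matrix.of_apply]
  unfold hz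
  by_cases h : 0 ≤ (μ i : ℤ) - (i.val : ℤ) + (j.val : ℤ)
  · rw [if_pos h, if_pos h, hk_map]
  · rw [if_neg h, if_neg h, map_zero]

end field

end Pool.Agent.Helper32.HG
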