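import Mathlib
import Pool.Agent.Helper32.HG.Span

/-!
# Families of Macdonald polynomials
-/

namespace Pool.Agent.Helper32.HG

open Finset MvPolynomial
open scoped Classical

/-- the vectors of multiplicities of the partitions of `n` -/
noncomputable def cyc (n : ℕ) : Finset (Fin n → ℕ) :=
  (Fintype.piFinset (fun _ : Fin n => range (n + 1))).filter
    (fun d => ∑ i : Fin n, (i.val + 1) * d i = n)

/-- the products of power sums -/
noncomputable def pprod (n : ℕ) (K : Type*) [Field K] (d : Fin n → ℕ) : MvPolynomial (Fin n) K :=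
  ∏ i : Fin n, (∑ v : Fin n, X v ^ (i.val + 1)) ^ d i

/-- the square norm of a product of power sums for the scalar product with parameters `q`, `t` -/
noncomputable def zqt {n : ℕ} {K : Type*} [Field K] (q t : K) (d : Fin n → ℕ) : K :=
  ∏ i : Fin n, (((i.val + 1 : ℕ) : K) ^ d i * ((d i).factorial : K) *
    ((1 - q ^ (i.val + 1)) / (1 - t ^ (i.val + 1))) ^ d i)

/-- the family of Macdonald polynomials of degree `n` -/
structure IsMac (n : ℕ) {K : Type*} [Field K] (q t : K)
    (P : (Fin n → ℕ) → MvPolynomial (Fin n) K) : Prop where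
  tri : ∀ lam ∈ parts n, ∃ u : (Fin n → ℕ) → K,
    P lam = msym n K lam + ∑ ν ∈ below n lam, u ν • msym n K ν
  orth : ∀ lam ∈ parts n, ∀ mu ∈ parts n, lam ≠ mu → ∃ a b : (Fin n → ℕ) → K,
    P lam = ∑ d ∈ cyc n, a d • pprod n K d ∧ P mu = ∑ d ∈ cyc n, b d • pprod n K d ∧
      ∑ d ∈ cyc n, a d * b d * zqt q t d = 0

variable {n : ℕ} {K : Type} [Field K] [CharZero K]

/-- the ratios of the scalar product -/
noncomputable def om {K : Type*} [Field K] (q t : K) : ℕ → K := fun j => (1 - t ^ j) / (1 - q ^ j)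

omit [CharZero K] in
theorem zqt_eq (q t : K) (d : Fin n → ℕ) : zqt q t d = wgt (om q t) (ex d) := by
  unfold zqt wgt om
  apply prod_congr rfl
  intro i _
  rw [ex_apply, div_eq_mul_inv _ (((1 - t ^ (i.val + 1)) / (1 - q ^ (i.val + 1))) ^ d i),
    ← inv_pow, inv_div]

omit [CharZero K] in
theorem pprod_eq (d : Fin n → ℕ) : pprod n K d = Psi n K (monomial (ex d) 1) := by
  unfold pprod Psi
  rw [aeval_monomial, map_one, one_mul, Finsupp.prod_fintype]
  · apply prod_congr rfl
    intro i _
    rw [ex_apply]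
  · intro i
    rw [pow_zero]

theorem mem_cyc (d : Fin n → ℕ) : d ∈ cyc n ↔ wtd (ex d) = n := by
  unfold cyc
  rw [mem_filter, Fintype.mem_piFinset]
  constructor
  · intro h
    exact h.2
  · intro h
    refine ⟨?_, h⟩
    intro i
    rw [mem_range]
    have := le_wtd' (ex d) i
    rw [h, ex_apply] at this
    omega

/-- the lift attached to a vector of coefficients -/
noncomputable def lft (n : ℕ) (K : Type*) [Field K] (a : (Fin n → ℕ) → K) :
    MvPolynomial (Fin n) K := ∑ d ∈ cyc n, a d • monomial (ex d) (1 : K)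

omit [CharZero K] in
theorem coeff_lft (a : (Fin n → ℕ) → K) (d : Fin n → ℕ) :
    coeff (ex d) (lft n K a) = if d ∈ cyc n then a d else 0 := by
  unfold lft
  rw [coeff_sum]
  simp only [coeff_smul, coeff_monomial, smul_eq_mul]
  by_cases h : d ∈ cyc n
  · rw [if_pos h, sum_eq_single_of_mem d h]
    · rw [if_pos rfl, mul_one]
    · intro b _ hb
      rw [if_neg, mul_zero]
      intro h'
      exact hb (ex_inj h')
  · rw [if_neg h]
    apply sum_eq_zero
    intro b hb
    rw [if_neg, mul_zero]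
    intro h'
    apply h
    rw [← ex_inj h']
    exact hb

omit [CharZero K] in
theorem lft_wt (a : (Fin n → ℕ) → K) : WtN n (lft n K a) := by
  intro d hd
  have h1 := coeff_lft a (fun i => d i)
  rw [ex_coe] at h1
  rw [h1] at hd
  by_cases h : (fun i => d i) ∈ cyc n
  · have := (mem_cyc _).1 h
    rwa [ex_coe] at this
  · rw [if_neg h] at hd
    exact absurd rfl hd

omit [CharZero K] in
theorem Psi_lft (a : (Fin n → ℕ) → K) : Psi n K (lft n K a) = ∑ d ∈ cyc n, a d • pprod n K d := by
  unfold lft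
  rw [map_sum]
  apply sum_congr rfl
  intro d _
  rw [map_smul, pprod_eq]

theorem Bf_lft (ω : ℕ → K) (a b : (Fin n → ℕ) → K) :
    Bf ω (lft n K a) (lft n K b) = ∑ d ∈ cyc n, a d * b d * wgt ω (ex d) := by
  have hsub : (lft n K a).support ⊆ (cyc n).image ex := by
    intro d hd
    rw [mem_support_iff] at hd
    rw [mem_image]
    refine ⟨fun i => d i, ?_, ex_coe d⟩
    rw [mem_cyc, ex_coe]
    exact lft_wt a d hd
  rw [bf_eq_sum ω hsub, sum_image (fun d _ e _ h => ex_inj h)]
  apply sum_congr rfl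
  intro d hd
  rw [coeff_lft, coeff_lft, if_pos hd, if_pos hd]

/-- orthogonality for arbitrary lifts -/
theorem IsMac.bf {q t : K} {P : (Fin n → ℕ) → MvPolynomial (Fin n) K} (h : IsMac n q t P)
    {lam mu : Fin n → ℕ} (hl : lam ∈ parts n) (hm : mu ∈ parts n) (hne : lam ≠ mu)
    {f g : MvPolynomial (Fin n) K} (hf : WtN n f) (hg : WtN n g) (hf2 : Psi n K f = P lam)
    (hg2 : Psi n K g = P mu) : Bf (om q t) f g = 0 := by
  obtain ⟨a, b, h1, h2, h3⟩ := h.orth lam hl mu hm hne
  have e1 : f = lft n K a := by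
    have k1 : WtN n (f + (-1 : K) • lft n K a) := hf.add ((lft_wt a).smul _)
    have k2 : Psi n K (f + (-1 : K) • lft n K a) = 0 := by
      rw [map_add, map_smul, hf2, Psi_lft, ← h1]
      simp
    have k3 := Psi_inj k1 k2
    rw [neg_smul, one_smul, ← sub_eq_add_neg, sub_eq_zero] at k3
    exact k3
  have e2 : g = lft n K b := by
    have k1 : WtN n (g + (-1 : K) • lft n K b) := hg.add ((lft_wt b).smul _)
    have k2 : Psi n K (g + (-1 : K) • lft n K b) = 0 := by
      rw [map_add, map_smul, hg2, Psi_lft, ← h2]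
      simp
    have k3 := Psi_inj k1 k2
    rw [neg_smul, one_smul, ← sub_eq_add_neg, sub_eq_zero] at k3
    exact k3
  rw [e1, e2, Bf_lft, ← h3]
  apply sum_congr rfl
  intro d _
  rw [zqt_eq]

/-- orthogonality to the lower monomial symmetric polynomials -/
theorem IsMac.low {q t : K} {P : (Fin n → ℕ) → MvPolynomial (Fin n) K} (h : IsMac n q t P)
    {lam : Fin n → ℕ} (hl : lam ∈ parts n)
    (g : (Fin n → ℕ) → MvPolynomial (Fin n) K)
    (hg : ∀ ν ∈ parts n, WtN n (g ν) ∧ Psi n K (g ν) = msym n K ν)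
    {f : MvPolynomial (Fin n) K} (hf : WtN n f) (hf2 : Psi n K f = P lam) :
    ∀ N : ℕ, ∀ κ ∈ below n lam, stat κ < N → Bf (om q t) f (g κ) = 0 := by
  intro N
  induction N with
  | zero =>
    intro κ _ h0
    omega
  | succ N ih =>
    intro κ hκ hst
    rw [mem_below] at hκ
    obtain ⟨u, hu⟩ := h.tri κ hκ.1
    have h1 : WtN n (g κ + ∑ ν ∈ below n κ, u ν • g ν) := by
      apply ((hg κ hκ.1).1).add
      apply WtN.sum
      intro ν hν
      exact ((hg ν (mem_below.1 hν).1).1).smul _
    have h2 : Psi n K (g κ + ∑ ν ∈ below n κ, u ν • g ν) = P κ := by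
      rw [map_add, map_sum, hu, (hg κ hκ.1).2]
      congr 1
      apply sum_congr rfl
      intro ν hν
      rw [map_smul, (hg ν (mem_below.1 hν).1).2]
    have h3 := h.bf hl hκ.1 (Ne.symm hκ.2.2) hf h1 hf2 h2
    rw [bf_add_right, bf_sum_right] at h3
    have h4 : ∑ ν ∈ below n κ, Bf (om q t) f (u ν • g ν) = 0 := by
      apply sum_eq_zero
      intro ν hν
      rw [mem_below] at hν
      rw [bf_smul_right, ih ν, mul_zero]
      · rw [mem_below]
        refine ⟨hν.1, hν.2.1.trans hκ.2.1, ?_⟩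
        intro h5
        rw [h5] at hν
        exact hκ.2.2 (DomLe.antisymm hκ.2.1 hν.2.1)
      · have := stat_lt hν.2.1 hν.2.2
        omega
    rw [h4, add_zero] at h3
    exact h3

end Pool.Agent.Helper32.HG
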