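import Mathlib
import Pool.Agent.Helper32.HG.Clam
import Pool.Agent.Helper32.HG.Ident

/-!
# The folded sum is a multiple of the Macdonald polynomial at `t = q ^ 2`
-/

namespace Pool.Agent.Helper32.HG

open Finset MvPolynomial
open scoped Classical

variable {n r c m i0 : ℕ} {ε : ℤ}

/-- the place of the exceptional entry -/
def x0 (r : ℕ) (ε : ℤ) : ℕ := if ε = 1 then r + r - 1 else 0

/-- the modified staircase -/
def b0 (r m : ℕ) (ε : ℤ) : Fin (r + r) → ℤ := fun x =>
  stair (r + r) x - if x.val = x0 r ε then ε * m else 0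

/-- the indices of the modified complete functions of a term -/
def nt (r c m : ℕ) (ε : ℤ) (τ : Equiv.Perm (Fin (r + r))) (i : Fin r) : ℤ :=
  (c : ℤ) + 2 * r - 1 - b0 r m ε (τ (Fin.castAdd r i)) -
    b0 r m ε (τ (Fin.natAdd r (Fin.rev i)))

theorem x0_lt (hr : 1 ≤ r) : x0 r ε < r + r := by
  unfold x0
  by_cases h : ε = 1
  · rw [if_pos h]
    omega
  · rw [if_neg h]
    omega

theorem sum_stair : ∑ x, stair (r + r) x = r * (2 * (r : ℤ) - 1) := by
  rw [pair_sum]
  have h1 : ∀ i : Fin r, stair (r + r) (Fin.castAdd r i) +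
      stair (r + r) (Fin.natAdd r (Fin.rev i)) = 2 * (r : ℤ) - 1 := by
    intro i
    rw [stair_cast, stair_nat]
    ring
  rw [sum_congr rfl (fun i _ => h1 i), sum_const, card_univ, Fintype.card_fin, nsmul_eq_mul]

theorem sum_b0 (hr : 1 ≤ r) : ∑ x, b0 r m ε x = r * (2 * (r : ℤ) - 1) - ε * m := by
  unfold b0
  rw [sum_sub_distrib, sum_stair]
  congr 1
  rw [sum_eq_single (⟨x0 r ε, x0_lt hr⟩ : Fin (r + r))]
  · rw [if_pos rfl]
  · intro b _ hb
    rw [if_neg]
    intro h
    exact hb (Fin.ext h)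
  · intro h
    exact absurd (mem_univ _) h

theorem sum_nt (h : Dat n r c m i0 ε) (τ : Equiv.Perm (Fin (r + r))) :
    ∑ i, nt r c m ε τ i = n := by
  have h1 : ∑ x, b0 r m ε (τ x) = r * (2 * (r : ℤ) - 1) - ε * m := by
    rw [← sum_b0 h.r1]
    exact Equiv.sum_comp τ (b0 r m ε)
  rw [pair_sum] at h1
  unfold nt
  have h2 : ∀ i : Fin r, (c : ℤ) + 2 * r - 1 - b0 r m ε (τ (Fin.castAdd r i)) -
      b0 r m ε (τ (Fin.natAdd r (Fin.rev i))) = ((c : ℤ) + 2 * r - 1) -
      (b0 r m ε (τ (Fin.castAdd r i)) + b0 r m ε (τ (Fin.natAdd r (Fin.rev i)))) := by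
    intro i
    ring
  rw [sum_congr rfl (fun i _ => h2 i), sum_sub_distrib, h1, sum_const, card_univ,
    Fintype.card_fin, nsmul_eq_mul, h.hn]
  ring

theorem stair_nonneg {L : ℕ} (x : Fin L) : 0 ≤ stair L x := by
  unfold stair
  positivity

theorem stair_le_top (x : Fin (r + r)) : stair (r + r) x ≤ 2 * (r : ℤ) - 1 := by
  rw [stair_eq]
  push_cast
  omega

/-- the bound at the exceptional pair -/
theorem nt_star (h : Dat n r c m i0 ε) (τ : Equiv.Perm (Fin (r + r))) :
    ∃ i : Fin r, (ε = 1 ∧ (c : ℤ) + m ≤ nt r c m ε τ i) ∨ (ε = -1 ∧ nt r c m ε τ i ≤ (c : ℤ) - m) := by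
  have hr := h.r1
  set y := τ.symm ⟨x0 r ε, x0_lt hr⟩ with hy
  have hτy : τ y = ⟨x0 r ε, x0_lt hr⟩ := by simp [hy]
  have key : ∀ y' : Fin (r + r), y' ≠ y → b0 r m ε (τ y') = stair (r + r) (τ y') := by
    intro y' hy'
    unfold b0
    rw [if_neg, sub_zero]
    intro h'
    apply hy'
    rw [hy, Equiv.eq_symm_apply]
    exact Fin.ext h'
  have hb : b0 r m ε (τ y) = stair (r + r) ⟨x0 r ε, x0_lt hr⟩ - ε * m := by
    unfold b0
    rw [hτy, if_pos rfl]
  have main : ∀ i : Fin r, (Fin.castAdd r i = y ∨ Fin.natAdd r (Fin.rev i) = y) →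
      (ε = 1 ∧ (c : ℤ) + m ≤ nt r c m ε τ i) ∨ (ε = -1 ∧ nt r c m ε τ i ≤ (c : ℤ) - m) := by
    intro i hi
    have e1 : ∃ y' : Fin (r + r), y' ≠ y ∧ nt r c m ε τ i =
        (c : ℤ) + 2 * r - 1 - b0 r m ε (τ y) - b0 r m ε (τ y') := by
      rcases hi with hi | hi
      · refine ⟨Fin.natAdd r (Fin.rev i), ?_, ?_⟩
        · rw [← hi]
          exact (castAdd_ne_natAdd _ _).symm
        · unfold nt
          rw [hi]
      · refine ⟨Fin.castAdd r i, ?_, ?_⟩
        · rw [← hi]
          exact castAdd_ne_natAdd _ _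
        · unfold nt
          rw [hi]
          ring
    obtain ⟨y', hy', e2⟩ := e1
    rw [hb, key y' hy'] at e2
    have h3 := stair_nonneg (τ y')
    have h4 := stair_le_top (τ y')
    rcases h.cas with ⟨h1, _⟩ | ⟨h1, _⟩
    · left
      refine ⟨h1, ?_⟩
      have e3 : stair (r + r) ⟨x0 r ε, x0_lt hr⟩ = 0 := by
        rw [stair_eq]
        simp only [x0, if_pos h1]
        omega
      rw [e3, h1] at e2
      rw [h1]
      omega
    · right
      refine ⟨h1, ?_⟩
      have e3 : stair (r + r) ⟨x0 r ε, x0_lt hr⟩ = 2 * (r : ℤ) - 1 := by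
        rw [stair_eq]
        have h5 : ¬ ε = 1 := by omega
        simp only [x0, if_neg h5]
        push_cast
        ring
      rw [e3, h1] at e2
      rw [h1]
      omega
  have h6 : (∃ i : Fin r, Fin.castAdd r i = y) ∨ (∃ i : Fin r, Fin.natAdd r (Fin.rev i) = y) := by
    refine Fin.addCases (fun i => ?_) (fun i => ?_) y
    · exact Or.inl ⟨i, rfl⟩
    · exact Or.inr ⟨Fin.rev i, by rw [Fin.rev_rev]⟩
  rcases h6 with ⟨i, hi⟩ | ⟨i, hi⟩
  · exact ⟨i, main i (Or.inl hi)⟩
  · exact ⟨i, main i (Or.inr hi)⟩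

/-- the exponent sequence of a term -/
def es (r c m : ℕ) (ε : ℤ) (τ : Equiv.Perm (Fin (r + r))) : ℕ → ℕ := fun k =>
  if h : k < r then (nt r c m ε τ ⟨k, h⟩).toNat else 0

theorem es_lt {τ : Equiv.Perm (Fin (r + r))} (h0 : ∀ i, 0 ≤ nt r c m ε τ i) (i : Fin r) :
    ((es r c m ε τ i.val : ℕ) : ℤ) = nt r c m ε τ i := by
  unfold es
  rw [dif_pos i.isLt]
  exact Int.toNat_of_nonneg (h0 i)

theorem es_ge (τ : Equiv.Perm (Fin (r + r))) (k : ℕ) (hk : r ≤ k) : es r c m ε τ k = 0 := by
  unfold es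
  rw [dif_neg (by omega)]

theorem sum_es (h : Dat n r c m i0 ε) {τ : Equiv.Perm (Fin (r + r))}
    (h0 : ∀ i, 0 ≤ nt r c m ε τ i) : ∑ v, tr n (es r c m ε τ) v = n := by
  have h1 : ∑ v, tr n (es r c m ε τ) v = ∑ k ∈ range n, es r c m ε τ k :=
    Fin.sum_univ_eq_sum_range (es r c m ε τ) n
  have h2 : ∑ k ∈ range n, es r c m ε τ k = ∑ k ∈ range r, es r c m ε τ k := by
    symm
    apply sum_subset
    · intro k hk
      rw [mem_range] at hk ⊢
      have := h.rn
      omega
    · intro k _ hk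
      rw [mem_range] at hk
      exact es_ge τ k (by omega)
  have h3 : ∑ k ∈ range r, es r c m ε τ k = ∑ i : Fin r, es r c m ε τ i.val :=
    (Fin.sum_univ_eq_sum_range (es r c m ε τ) r).symm
  have h4 : ((∑ i : Fin r, es r c m ε τ i.val : ℕ) : ℤ) = n := by
    push_cast
    rw [sum_congr rfl (fun i _ => es_lt h0 i)]
    exact sum_nt h τ
  rw [h1, h2, h3]
  exact_mod_cast h4

/-- the exponents of the terms are not rearrangements of lower partitions -/
theorem es_good (h : Dat n r c m i0 ε) {τ : Equiv.Perm (Fin (r + r))}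
    (h0 : ∀ i, 0 ≤ nt r c m ε τ i) {K : Type*} [CommRing K] (ν : Fin n → ℕ)
    (hν : ν ∈ below n (tr n (sq r c m i0 ε))) :
    coeff (ex (tr n (es r c m ε τ))) (msym n K ν) = 0 := by
  rw [coeff_msym, if_neg]
  rintro ⟨π, hπ⟩
  rw [mem_below] at hν
  obtain ⟨hν1, hν2, hν3⟩ := hν
  apply hν3
  have hνa := ((mem_parts ν).1 hν1).1
  have hrn := h.rn
  have hr := h.r1
  have hi0 := h.i0r
  have hlam := lam_parts h
  have hT : ∀ T : Finset (Fin n), T.card ≤ r → ((∑ v ∈ T, tr n (es r c m ε τ) v : ℕ) : ℤ) ≤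
      T.card * c + if i0 < T.card then ε * m else 0 := by
    intro T hTr
    have h1 := top_sum hνa π T
    rw [← hπ] at h1
    have h2 := hν2 T.card
    have h3 : ∑ i : Fin n with i.val < T.card, tr n (sq r c m i0 ε) i =
        ∑ j ∈ range T.card, sq r c m i0 ε j := by
      apply sum_fin_lt
      omega
    rw [h3] at h2
    rw [← sum_sq h T.card hTr]
    exact_mod_cast le_trans h1 h2
  have hsum := sum_es h h0
  have hev : ∀ i : Fin r, ((tr n (es r c m ε τ) ⟨i.val, lt_of_lt_of_le i.isLt hrn⟩ : ℕ) : ℤ) =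
      nt r c m ε τ i := fun i => es_lt h0 i
  -- the values of the indices
  have hval : ∃ s : Fin r, ∀ i : Fin r, nt r c m ε τ i =
      (c : ℤ) + if i = s then ε * m else 0 := by
    obtain ⟨s, hs⟩ := nt_star h τ
    refine ⟨s, ?_⟩
    have hd : ∀ i : Fin r, 0 ≤ ε * (nt r c m ε τ i - c - if i = s then ε * m else 0) := by
      intro i
      rcases h.cas with ⟨h1, h2⟩ | ⟨h1, h2, h3, h4, h5⟩
      · rcases hs with ⟨_, hs⟩ | ⟨hs, _⟩
        · by_cases his : i = s
          · rw [if_pos his, his]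
            rw [h1] at hs ⊢
            linarith
          · rw [if_neg his]
            have hr2 : 2 ≤ r := by
              by_contra hcon
              apply his
              have := i.isLt
              have := s.isLt
              exact Fin.ext (by omega)
            have hci : (univ.filter (fun v : Fin n => v.val < r)).erase
                ⟨i.val, lt_of_lt_of_le i.isLt hrn⟩ ⊆ univ := subset_univ _
            have hmem : (⟨i.val, lt_of_lt_of_le i.isLt hrn⟩ : Fin n) ∈
                univ.filter (fun v : Fin n => v.val < r) := by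
              rw [mem_filter]
              exact ⟨mem_univ _, i.isLt⟩
            have hcard : ((univ.filter (fun v : Fin n => v.val < r)).erase
                ⟨i.val, lt_of_lt_of_le i.isLt hrn⟩).card = r - 1 := by
              rw [card_erase_of_mem hmem, card_lt r hrn]
            have h6 := hT _ (by rw [hcard]; omega)
            rw [hcard, if_pos (by omega)] at h6
            have h7 : ∑ v ∈ univ.filter (fun v : Fin n => v.val < r), tr n (es r c m ε τ) v =
                ∑ v, tr n (es r c m ε τ) v := by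
              apply sum_subset (subset_univ _)
              intro v _ hv
              rw [mem_filter] at hv
              exact es_ge τ v.val (by
                by_contra h8
                exact hv ⟨mem_univ _, by omega⟩)
            rw [hsum] at h7
            rw [← add_sum_erase _ _ hmem] at h7
            have h8 : ((tr n (es r c m ε τ) ⟨i.val, lt_of_lt_of_le i.isLt hrn⟩ : ℕ) : ℤ) +
                ((∑ v ∈ (univ.filter (fun v : Fin n => v.val < r)).erase
                ⟨i.val, lt_of_lt_of_le i.isLt hrn⟩, tr n (es r c m ε τ) v : ℕ) : ℤ) = n := by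
              exact_mod_cast h7
            rw [hev i, h.hn] at h8
            have h9 : ((r - 1 : ℕ) : ℤ) = (r : ℤ) - 1 := by omega
            rw [h9] at h6
            rw [h1] at h6 h8 ⊢
            linarith
        · omega
      · rcases hs with ⟨hs, _⟩ | ⟨_, hs⟩
        · omega
        · by_cases his : i = s
          · rw [if_pos his, his]
            rw [h1] at hs ⊢
            linarith
          · rw [if_neg his]
            have h6 := hT {⟨i.val, lt_of_lt_of_le i.isLt hrn⟩} (by rw [card_singleton]; omega)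
            rw [card_singleton, sum_singleton, hev i, if_neg (by omega)] at h6
            rw [h1] at h6 ⊢
            push_cast at h6
            linarith
    have hds : ∑ i : Fin r, ε * (nt r c m ε τ i - c - if i = s then ε * m else 0) = 0 := by
      rw [← mul_sum, sum_sub_distrib, sum_sub_distrib, sum_nt h τ, sum_const, card_univ,
        Fintype.card_fin, nsmul_eq_mul, sum_ite_eq' univ s, if_pos (mem_univ _), h.hn]
      ring
    rw [sum_eq_zero_iff_of_nonneg (fun i _ => hd i)] at hds
    intro i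
    have h1 := hds i (mem_univ _)
    have hε : ε ≠ 0 := by
      rcases h.cas with ⟨h1, _⟩ | ⟨h1, _⟩
      · omega
      · omega
    rcases mul_eq_zero.1 h1 with h2 | h2
    · exact absurd h2 hε
    · linarith
  obtain ⟨s, hs⟩ := hval
  have hsn : s.val < n := lt_of_lt_of_le s.isLt hrn
  have hi0n : i0 < n := lt_of_lt_of_le hi0 hrn
  have heq : tr n (es r c m ε τ) = tr n (sq r c m i0 ε) ∘
      (Equiv.swap (⟨i0, hi0n⟩ : Fin n) ⟨s.val, hsn⟩) := by
    funext v
    have hval2 : ∀ k : ℕ, k < r → ((sq r c m i0 ε k : ℕ) : ℤ) =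
        (c : ℤ) + if k = i0 then ε * m else 0 := fun k hk => sq_eq h k hk
    by_cases hv : v.val < r
    · have e1 : ((tr n (es r c m ε τ) v : ℕ) : ℤ) = (c : ℤ) + if (⟨v.val, hv⟩ : Fin r) = s
          then ε * m else 0 := by
        rw [← hs ⟨v.val, hv⟩]
        exact es_lt h0 ⟨v.val, hv⟩
      have e2 : ((tr n (sq r c m i0 ε) (Equiv.swap (⟨i0, hi0n⟩ : Fin n) ⟨s.val, hsn⟩ v) : ℕ) : ℤ) =
          (c : ℤ) + if (⟨v.val, hv⟩ : Fin r) = s then ε * m else 0 := by
        by_cases h1 : v = ⟨i0, hi0n⟩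
        · subst h1
          rw [Equiv.swap_apply_left]
          show ((sq r c m i0 ε s.val : ℕ) : ℤ) = _
          rw [hval2 s.val s.isLt]
          congr 1
          by_cases h2 : s.val = i0
          · rw [if_pos h2, if_pos (Fin.ext h2.symm)]
          · rw [if_neg h2, if_neg (fun h3 => h2 (by rw [← h3]))]
        · have h1' : v.val ≠ i0 := fun h3 => h1 (Fin.ext h3)
          by_cases h2 : v = ⟨s.val, hsn⟩
          · subst h2
            rw [Equiv.swap_apply_right]
            show ((sq r c m i0 ε i0 : ℕ) : ℤ) = _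
            rw [hval2 i0 hi0, if_pos rfl, if_pos rfl]
          · have h2' : v.val ≠ s.val := fun h3 => h2 (Fin.ext h3)
            rw [Equiv.swap_apply_of_ne_of_ne h1 h2]
            show ((sq r c m i0 ε v.val : ℕ) : ℤ) = _
            rw [hval2 v.val hv, if_neg h1', if_neg (fun h3 => h2' (by rw [← h3]))]
      have e3 : ((tr n (es r c m ε τ) v : ℕ) : ℤ) =
          ((tr n (sq r c m i0 ε) (Equiv.swap (⟨i0, hi0n⟩ : Fin n) ⟨s.val, hsn⟩ v) : ℕ) : ℤ) := by
        rw [e1, e2]
      exact_mod_cast e3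
    · have h1 : v ≠ ⟨i0, hi0n⟩ := by
        intro h2
        rw [h2] at hv
        exact hv hi0
      have h2 : v ≠ ⟨s.val, hsn⟩ := by
        intro h2
        rw [h2] at hv
        exact hv s.isLt
      simp only [Function.comp]
      rw [Equiv.swap_apply_of_ne_of_ne h1 h2]
      show es r c m ε τ v.val = sq r c m i0 ε v.val
      rw [es_ge τ v.val (by omega), sq_zero v.val (by omega)]
  rw [heq] at hπ
  symm
  apply sort_unique ((mem_parts _).1 hlam).1 hνa
    (σ := π * (Equiv.swap (⟨i0, hi0n⟩ : Fin n) ⟨s.val, hsn⟩).symm)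
  funext v
  have h1 := congrFun hπ ((Equiv.swap (⟨i0, hi0n⟩ : Fin n) ⟨s.val, hsn⟩).symm v)
  simp only [Function.comp, Equiv.apply_symm_apply] at h1
  exact h1

end Pool.Agent.Helper32.HG
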