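import Mathlib
import Pool.Agent.Helper32.HG.Fid

/-!
# The folded sum is a multiple of the Macdonald polynomial at `t = q ^ 2`
-/

namespace Pool.Agent.Helper32.HG

open Finset MvPolynomial
open scoped Classical

variable {n r c m i0 : ℕ} {ε : ℤ} {K : Type} [Field K] [CharZero K]

/-- homogeneity of weight `k` in the ring of power sums -/
def WtK (k : ℕ) (f : MvPolynomial (Fin n) K) : Prop := ∀ d : Fin n →₀ ℕ, coeff d f ≠ 0 → wtd d = k

omit [CharZero K] in
theorem WtK.mul {a b : ℕ} {f g : MvPolynomial (Fin n) K} (hf : WtK a f) (hg : WtK b g) :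
    WtK (a + b) (f * g) := by
  intro d hd
  rw [coeff_mul] at hd
  obtain ⟨x, hx, hne⟩ := exists_ne_zero_of_sum_ne_zero hd
  rw [Finset.HasAntidiagonal.mem_antidiagonal] at hx
  rw [← hx, wtd_add, hf _ (left_ne_zero_of_mul hne), hg _ (right_ne_zero_of_mul hne)]

omit [CharZero K] in
theorem wtK_one : WtK 0 (1 : MvPolynomial (Fin n) K) := by
  intro d hd
  rw [coeff_one] at hd
  by_cases h : 0 = d
  · rw [← h]
    exact wtd_zero
  · rw [if_neg h] at hd
    exact absurd rfl hd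

theorem wtK_gh (ω : ℕ → K) (k : ℕ) : WtK k (gh n ω k) := by
  intro d hd
  rw [coeff_gh] at hd
  by_contra h
  rw [if_neg h] at hd
  exact hd rfl

theorem wtK_prod (ω : ℕ → K) (s : Finset (Fin n)) (e : Fin n → ℕ) :
    WtK (∑ v ∈ s, e v) (∏ v ∈ s, gh n ω (e v)) := by
  induction s using Finset.induction_on with
  | empty => simpa using wtK_one
  | insert a s ha ih =>
    rw [sum_insert ha, prod_insert ha]
    exact (wtK_gh ω (e a)).mul ih

/-- the lift of a term -/
noncomputable def ft (n r c m : ℕ) (ε : ℤ) {K : Type} [Field K] (q : K)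
    (τ : Equiv.Perm (Fin (r + r))) : MvPolynomial (Fin n) K :=
  if ∀ i, 0 ≤ nt r c m ε τ i then
    (∏ i : Fin r, q ^ (b0 r m ε (τ (Fin.natAdd r (Fin.rev i))))) •
      ∏ v, gh n (fun j => 1 + q ^ j) (tr n (es r c m ε τ) v) else 0

theorem gz_zero (q : K) : gz n q 0 = 1 := by
  unfold gz
  rw [Finset.Icc_self, sum_singleton, sub_zero, zpow_zero, one_smul, hz_zero, mul_one]

theorem gz_neg (q : K) (k : ℤ) (hk : k < 0) : gz n q k = 0 := by
  unfold gz
  rw [Finset.Icc_eq_empty (by omega), sum_empty]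

theorem Psi_ft (h : Dat n r c m i0 ε) (q : K) (hq : ∀ j : ℕ, 0 < j → 1 + q ^ j ≠ 0)
    (τ : Equiv.Perm (Fin (r + r))) :
    Psi n K (ft n r c m ε q τ) = Phi n q ((c : ℤ) + 2 * r - 1) (b0 r m ε ∘ τ) := by
  unfold ft Phi
  by_cases h0 : ∀ i, 0 ≤ nt r c m ε τ i
  · rw [if_pos h0, map_smul, map_prod]
    have hsum := sum_es h h0
    have e1 : ∏ v, Psi n K (gh n (fun j => 1 + q ^ j) (tr n (es r c m ε τ) v)) =
        ∏ v, gz n q ((tr n (es r c m ε τ) v : ℕ) : ℤ) := by
      apply prod_congr rfl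
      intro v _
      apply Psi_gh q hq
      exact le_trans (single_le_sum (f := tr n (es r c m ε τ)) (fun _ _ => Nat.zero_le _)
        (mem_univ v)) hsum.le
    have e2 : ∏ v, gz n q ((tr n (es r c m ε τ) v : ℕ) : ℤ) =
        ∏ k ∈ range n, gz n q ((es r c m ε τ k : ℕ) : ℤ) :=
      Fin.prod_univ_eq_prod_range (fun k => gz n q ((es r c m ε τ k : ℕ) : ℤ)) n
    have e3 : ∏ k ∈ range n, gz n q ((es r c m ε τ k : ℕ) : ℤ) =
        ∏ k ∈ range r, gz n q ((es r c m ε τ k : ℕ) : ℤ) := by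
      symm
      apply prod_subset
      · intro k hk
        rw [mem_range] at hk ⊢
        have := h.rn
        omega
      · intro k _ hk
        rw [mem_range] at hk
        rw [es_ge τ k (by omega)]
        exact gz_zero q
    have e4 : ∏ k ∈ range r, gz n q ((es r c m ε τ k : ℕ) : ℤ) =
        ∏ i : Fin r, gz n q ((es r c m ε τ i.val : ℕ) : ℤ) :=
      (Fin.prod_univ_eq_prod_range (fun k => gz n q ((es r c m ε τ k : ℕ) : ℤ)) r).symm
    have e5 : ∏ i : Fin r, gz n q ((es r c m ε τ i.val : ℕ) : ℤ) =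
        ∏ i : Fin r, gz n q (nt r c m ε τ i) := by
      apply prod_congr rfl
      intro i _
      rw [es_lt h0 i]
    rw [e1, e2, e3, e4, e5]
    simp only [Algebra.smul_def]
    rw [map_prod, prod_mul_distrib]
    rfl
  · rw [if_neg h0, map_zero]
    push Not at h0
    obtain ⟨i, hi⟩ := h0
    symm
    apply prod_eq_zero (mem_univ i)
    have : gz n q ((c : ℤ) + 2 * r - 1 - (b0 r m ε ∘ τ) (Fin.castAdd r i) -
        (b0 r m ε ∘ τ) (Fin.natAdd r (Fin.rev i))) = 0 := gz_neg q _ hi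
    rw [this, smul_zero]

theorem ft_wt (h : Dat n r c m i0 ε) (q : K) (τ : Equiv.Perm (Fin (r + r))) :
    WtN n (ft n r c m ε q τ) := by
  unfold ft
  by_cases h0 : ∀ i, 0 ≤ nt r c m ε τ i
  · rw [if_pos h0]
    apply WtN.smul
    intro d hd
    have h1 := wtK_prod (n := n) (fun j => 1 + q ^ j) univ (tr n (es r c m ε τ)) d hd
    rw [sum_es h h0] at h1
    exact h1
  · rw [if_neg h0]
    exact WtN.zero

theorem ft_orth (h : Dat n r c m i0 ε) (q : K) (hq : ∀ j : ℕ, 0 < j → 1 + q ^ j ≠ 0)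
    (τ : Equiv.Perm (Fin (r + r))) (ν : Fin n → ℕ) (hν : ν ∈ below n (tr n (sq r c m i0 ε)))
    (g : MvPolynomial (Fin n) K) (hg : Psi n K g = msym n K ν) :
    Bf (fun j => 1 + q ^ j) g (ft n r c m ε q τ) = 0 := by
  unfold ft
  by_cases h0 : ∀ i, 0 ≤ nt r c m ε τ i
  · rw [if_pos h0, bf_smul_right, ← coeff_Psi (fun j => 1 + q ^ j) hq, hg, es_good h h0 ν hν,
      mul_zero]
  · rw [if_neg h0, bf_zero_right]

/-- the lift of the folded sum -/
noncomputable def f1 (n r c m : ℕ) (ε : ℤ) {K : Type} [Field K] (q : K) :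
    MvPolynomial (Fin n) K :=
  ∑ τ : Equiv.Perm (Fin (r + r)), ((Equiv.Perm.sign τ : ℤ) : K) • ft n r c m ε q τ

theorem Psi_f1 (h : Dat n r c m i0 ε) (q : K) (hq : ∀ j : ℕ, 0 < j → 1 + q ^ j ≠ 0) :
    Psi n K (f1 n r c m ε q) = Ag n q ((c : ℤ) + 2 * r - 1) (b0 r m ε) := by
  unfold f1 Ag
  rw [map_sum]
  apply sum_congr rfl
  intro τ _
  rw [map_smul, Psi_ft h q hq, Int.cast_smul_eq_zsmul]

theorem f1_wt (h : Dat n r c m i0 ε) (q : K) : WtN n (f1 n r c m ε q) := by
  apply WtN.sum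
  intro τ _
  exact (ft_wt h q τ).smul _

theorem f1_orth (h : Dat n r c m i0 ε) (q : K) (hq : ∀ j : ℕ, 0 < j → 1 + q ^ j ≠ 0)
    (ν : Fin n → ℕ) (hν : ν ∈ below n (tr n (sq r c m i0 ε)))
    (g : MvPolynomial (Fin n) K) (hg : Psi n K g = msym n K ν) :
    Bf (fun j => 1 + q ^ j) g (f1 n r c m ε q) = 0 := by
  unfold f1
  rw [bf_sum_right]
  apply sum_eq_zero
  intro τ _
  rw [bf_smul_right, ft_orth h q hq τ ν hν g hg, mul_zero]

theorem Ag_eq (h : Dat n r c m i0 ε) (q : K) (hq : q ≠ 0) :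
    Ag n q ((c : ℤ) + 2 * r - 1) (b0 r m ε) =
      (r.factorial : K) • ∑ μ ∈ parts n,
        Cc n r m ((c : ℤ) + 2 * r - 1) ε (fun k => q ^ k) μ • schur n K μ := by
  have hr := h.r1
  have hε : ε = 1 ∨ ε = -1 := by
    rcases h.cas with h1 | h1
    · exact Or.inl h1.1
    · exact Or.inr h1.1
  rw [← F0_eq h hε (fun k => q ^ k)]
  have h1 := bal_fold (alt_Tg (n := n) (K := K) (L := r + r) ε m) (fun k : ℤ => q ^ k)
    ((c : ℤ) + 2 * r - 1) (m : ℤ)
  have h2 : (Ag n q ((c : ℤ) + 2 * r - 1) (b0 r m ε)) =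
      ∑ u ∈ Fintype.piFinset (fun _ : Fin r => Finset.Icc (-(m : ℤ)) ((c : ℤ) + 2 * r - 1 + m)),
      (∏ i, q ^ ((c : ℤ) + 2 * r - 1 - u i)) • Tg n K ε m (bal ((c : ℤ) + 2 * r - 1) u) := by
    rcases hε with h3 | h3
    · subst h3
      rw [F_plus q hq ((c : ℤ) + 2 * r - 1) m (by omega)]
      congr 1
      funext x
      unfold b0
      congr 1
      by_cases h4 : x.val = x0 r 1
      · have h5 : x = ⟨r + r - 1, by omega⟩ := by
          apply Fin.ext
          rw [h4]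
          simp [x0]
        rw [if_pos h4, one_mul]
        rw [h5, Pi.single_eq_same]
      · have h5 : x ≠ ⟨r + r - 1, by omega⟩ := by
          intro h6
          apply h4
          rw [h6]
          simp [x0]
        rw [if_neg h4, Pi.single_eq_of_ne h5]
        rfl
    · subst h3
      rw [F_minus q hq ((c : ℤ) + 2 * r - 1) m (by omega)]
      congr 1
      funext x
      unfold b0
      rw [sub_eq_add_neg]
      congr 1
      by_cases h4 : x.val = x0 r (-1)
      · have h5 : x = ⟨0, by omega⟩ := by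
          apply Fin.ext
          rw [h4]
          simp [x0]
        rw [if_pos h4]
        rw [h5, Pi.single_eq_same]
        ring
      · have h5 : x ≠ ⟨0, by omega⟩ := by
          intro h6
          apply h4
          rw [h6]
          simp [x0]
        rw [if_neg h4, Pi.single_eq_of_ne h5]
        simp
  rw [h2]
  exact h1

/-- the folded sum is a multiple of the polynomial which is triangular and orthogonal -/
theorem main_id (h : Dat n r c m i0 ε) (q : K) (hq : q ≠ 0)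
    (hq2 : ∀ j : ℕ, 0 < j → 1 + q ^ j ≠ 0)
    (han : ∀ f : MvPolynomial (Fin n) K, Bf (fun j => 1 + q ^ j) f f = 0 → f = 0)
    (g : (Fin n → ℕ) → MvPolynomial (Fin n) K)
    (hg : ∀ ν ∈ below n (tr n (sq r c m i0 ε)), WtN n (g ν) ∧ Psi n K (g ν) = msym n K ν)
    (p : MvPolynomial (Fin n) K) (hp : WtN n p) (u : (Fin n → ℕ) → K)
    (hp2 : Psi n K p = msym n K (tr n (sq r c m i0 ε)) +
      ∑ ν ∈ below n (tr n (sq r c m i0 ε)), u ν • msym n K ν)
    (hp3 : ∀ ν ∈ below n (tr n (sq r c m i0 ε)), Bf (fun j => 1 + q ^ j) (g ν) p = 0) :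
    ∑ μ ∈ parts n, Cc n r m ((c : ℤ) + 2 * r - 1) ε (fun k => q ^ k) μ • schur n K μ =
      Cl r c m i0 ε q • Psi n K p := by
  have hfac : (r.factorial : K) ≠ 0 := by exact_mod_cast r.factorial_ne_zero
  set F := ∑ μ ∈ parts n, Cc n r m ((c : ℤ) + 2 * r - 1) ε (fun k => q ^ k) μ • schur n K μ
    with hF
  have h1 : Psi n K ((r.factorial : K)⁻¹ • f1 n r c m ε q) = F := by
    rw [map_smul, Psi_f1 h q hq2, Ag_eq h q hq, smul_smul, inv_mul_cancel₀ hfac, one_smul]
  have h2 := schur_comb (tr n (sq r c m i0 ε)) (lam_parts h)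
    (Cc n r m ((c : ℤ) + 2 * r - 1) ε (fun k => q ^ k)) (fun μ _ hμ => Cc_dom h _ μ hμ)
  rw [Cc_lam h q] at h2
  rw [← h1]
  exact ident (fun j => 1 + q ^ j) (fun f _ hf => han f hf) (tr n (sq r c m i0 ε)) g hg
    ((r.factorial : K)⁻¹ • f1 n r c m ε q) p ((f1_wt h q).smul _) hp (Cl r c m i0 ε q)
    (fun ν => coeff (ex ν) F) u (by rw [h1]; exact h2) hp2
    (fun ν hν => by rw [bf_smul_right, f1_orth h q hq2 ν hν (g ν) (hg ν hν).2, mul_zero]) hp3

end Pool.Agent.Helper32.HG
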