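import Mathlib

/-!
# Rational functions which are regular at a point
-/

namespace Pool.Agent.Helper32.HG

open Finset
open scoped Classical

/-- the rational function `a` is regular at `c` -/
def Reg {F : Type*} [Field F] (c : F) (a : RatFunc F) : Prop := (RatFunc.denom a).eval c ≠ 0

/-- the value of a rational function at `c` -/
noncomputable def evc {F : Type*} [Field F] (c : F) (a : RatFunc F) : F :=
  RatFunc.eval (RingHom.id F) c a

variable {F : Type*} [Field F] {c : F}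

theorem Reg.eval₂_ne {a : RatFunc F} (ha : Reg c a) :
    (RatFunc.denom a).eval₂ (RingHom.id F) c ≠ 0 := ha

theorem Reg.of_dvd {a : RatFunc F} {p : Polynomial F} (h : RatFunc.denom a ∣ p)
    (hp : p.eval c ≠ 0) : Reg c a := by
  intro h0
  exact hp (Polynomial.eval_eq_zero_of_dvd_of_eval_eq_zero h h0)

theorem Reg.add {a b : RatFunc F} (ha : Reg c a) (hb : Reg c b) :
    Reg c (a + b) ∧ evc c (a + b) = evc c a + evc c b := by
  refine ⟨Reg.of_dvd (RatFunc.denom_add_dvd a b) ?_, RatFunc.eval_add _ _ ha hb⟩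
  rw [Polynomial.eval_mul]
  exact mul_ne_zero ha hb

theorem Reg.mul {a b : RatFunc F} (ha : Reg c a) (hb : Reg c b) :
    Reg c (a * b) ∧ evc c (a * b) = evc c a * evc c b := by
  refine ⟨Reg.of_dvd (RatFunc.denom_mul_dvd a b) ?_, RatFunc.eval_mul _ _ ha hb⟩
  rw [Polynomial.eval_mul]
  exact mul_ne_zero ha hb

theorem Reg.const (x : F) : Reg c (RatFunc.C x) ∧ evc c (RatFunc.C x) = x := by
  constructor
  · unfold Reg
    rw [RatFunc.denom_C, Polynomial.eval_one]
    exact one_ne_zero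
  · unfold evc
    rw [RatFunc.eval_C]
    rfl

theorem Reg.var : Reg c (RatFunc.X : RatFunc F) ∧ evc c (RatFunc.X : RatFunc F) = c := by
  constructor
  · unfold Reg
    rw [RatFunc.denom_X, Polynomial.eval_one]
    exact one_ne_zero
  · unfold evc
    rw [RatFunc.eval_X]

theorem Reg.zero : Reg c (0 : RatFunc F) ∧ evc c (0 : RatFunc F) = 0 := by
  have h := Reg.const (c := c) (0 : F)
  rwa [map_zero] at h

theorem Reg.one : Reg c (1 : RatFunc F) ∧ evc c (1 : RatFunc F) = 1 := by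
  have h := Reg.const (c := c) (1 : F)
  rwa [map_one] at h

theorem Reg.neg {a : RatFunc F} (ha : Reg c a) : Reg c (-a) ∧ evc c (-a) = -evc c a := by
  have h1 := Reg.const (c := c) (-1 : F)
  have h2 := h1.1.mul ha
  rw [map_neg, map_one] at h1 h2
  rw [neg_one_mul] at h2
  refine ⟨h2.1, ?_⟩
  rw [h2.2, h1.2, neg_one_mul]

theorem Reg.sub {a b : RatFunc F} (ha : Reg c a) (hb : Reg c b) :
    Reg c (a - b) ∧ evc c (a - b) = evc c a - evc c b := by
  have h := ha.add hb.neg.1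
  rw [← sub_eq_add_neg] at h
  refine ⟨h.1, ?_⟩
  rw [h.2, hb.neg.2, sub_eq_add_neg]

theorem Reg.pow {a : RatFunc F} (ha : Reg c a) (k : ℕ) :
    Reg c (a ^ k) ∧ evc c (a ^ k) = evc c a ^ k := by
  induction k with
  | zero =>
    rw [pow_zero, pow_zero]
    exact Reg.one
  | succ k ih =>
    have h := ih.1.mul ha
    rw [pow_succ, pow_succ]
    exact ⟨h.1, by rw [h.2, ih.2]⟩

theorem evc_eq (a : RatFunc F) :
    evc c a = (RatFunc.num a).eval c / (RatFunc.denom a).eval c := rfl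

theorem Reg.inv {a : RatFunc F} (ha : Reg c a) (h : evc c a ≠ 0) :
    Reg c a⁻¹ ∧ evc c a⁻¹ = (evc c a)⁻¹ := by
  have ha0 : a ≠ 0 := by
    rintro rfl
    exact h Reg.zero.2
  have hn : (RatFunc.num a).eval c ≠ 0 := by
    intro h0
    apply h
    rw [evc_eq, h0, zero_div]
  have h1 : Reg c a⁻¹ := Reg.of_dvd (RatFunc.denom_inv_dvd ha0) hn
  refine ⟨h1, ?_⟩
  have h2 := (ha.mul h1).2
  rw [mul_inv_cancel₀ ha0, Reg.one.2] at h2
  rw [eq_comm, inv_eq_of_mul_eq_one_right h2.symm]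

theorem Reg.sum {ι : Type*} (s : Finset ι) (f : ι → RatFunc F) (h : ∀ i ∈ s, Reg c (f i)) :
    Reg c (∑ i ∈ s, f i) ∧ evc c (∑ i ∈ s, f i) = ∑ i ∈ s, evc c (f i) := by
  induction s using Finset.induction_on with
  | empty =>
    rw [sum_empty, sum_empty]
    exact Reg.zero
  | insert a s ha ih =>
    have h1 := ih fun i hi => h i (mem_insert_of_mem hi)
    have h2 := (h a (mem_insert_self a s)).add h1.1
    rw [sum_insert ha, sum_insert ha]
    exact ⟨h2.1, by rw [h2.2, h1.2]⟩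

theorem Reg.prod {ι : Type*} (s : Finset ι) (f : ι → RatFunc F) (h : ∀ i ∈ s, Reg c (f i)) :
    Reg c (∏ i ∈ s, f i) ∧ evc c (∏ i ∈ s, f i) = ∏ i ∈ s, evc c (f i) := by
  induction s using Finset.induction_on with
  | empty =>
    rw [prod_empty, prod_empty]
    exact Reg.one
  | insert a s ha ih =>
    have h1 := ih fun i hi => h i (mem_insert_of_mem hi)
    have h2 := (h a (mem_insert_self a s)).mul h1.1
    rw [prod_insert ha, prod_insert ha]
    exact ⟨h2.1, by rw [h2.2, h1.2]⟩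

/-- the ring of rational functions regular at `c` -/
def locRing (c : F) : Subring (RatFunc F) where
  carrier := {a | Reg c a}
  mul_mem' := fun ha hb => (Reg.mul ha hb).1
  one_mem' := Reg.one.1
  add_mem' := fun ha hb => (Reg.add ha hb).1
  zero_mem' := Reg.zero.1
  neg_mem' := fun ha => (Reg.neg ha).1

/-- evaluation as a ring homomorphism -/
noncomputable def locEv (c : F) : locRing c →+* F where
  toFun := fun a => evc c a.1
  map_one' := Reg.one.2
  map_mul' := fun a b => (Reg.mul a.2 b.2).2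
  map_zero' := Reg.zero.2
  map_add' := fun a b => (Reg.add a.2 b.2).2

theorem loc_solve {ι : Type*} (I : Finset ι) (G : ι → ι → RatFunc F) (g u : ι → RatFunc F)
    (hG : ∀ ν ∈ I, ∀ κ ∈ I, Reg c (G ν κ)) (hg : ∀ κ ∈ I, Reg c (g κ))
    (hu : ∀ κ ∈ I, ∑ ν ∈ I, u ν * G ν κ + g κ = 0)
    (hnd : ∀ x : ι → F, (∀ κ ∈ I, ∑ ν ∈ I, x ν * evc c (G ν κ) = 0) → ∀ ν ∈ I, x ν = 0) :
    (∀ ν ∈ I, Reg c (u ν)) ∧
      ∀ κ ∈ I, ∑ ν ∈ I, evc c (u ν) * evc c (G ν κ) + evc c (g κ) = 0 := by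
  let Gm : Matrix I I (locRing c) := fun ν κ => ⟨G ν κ, hG ν ν.2 κ κ.2⟩
  have hdet : locEv c Gm.det ≠ 0 := by
    rw [RingHom.map_det]
    intro h0
    obtain ⟨v, hv0, hv⟩ := Matrix.exists_vecMul_eq_zero_iff.2 h0
    apply hv0
    funext ν
    have h1 := hnd (fun x => if h : x ∈ I then v ⟨x, h⟩ else 0) (by
      intro κ hκ
      have h2 := congrFun hv ⟨κ, hκ⟩
      rw [Matrix.vecMul, dotProduct] at h2
      rw [← sum_coe_sort]
      refine Eq.trans (sum_congr rfl fun ν _ => ?_) h2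
      rw [dif_pos ν.2]
      rfl) ν ν.2
    rw [dif_pos ν.2] at h1
    exact h1
  have hdetR : Reg c (Gm.det).1 := (Gm.det).2
  have hinv := hdetR.inv hdet
  have hd0 : (Gm.det).1 ≠ 0 := by
    intro h0
    apply hdet
    show evc c (Gm.det).1 = 0
    rw [h0]
    exact Reg.zero.2
  -- the matrix over the field of rational functions
  let Gf : Matrix I I (RatFunc F) := fun ν κ => G ν κ
  have hGf : Gf = (locRing c).subtype.mapMatrix Gm := rfl
  have hdetf : Gf.det = (Gm.det).1 := by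
    rw [hGf, ← RingHom.map_det]
    rfl
  have hadj : ∀ κ ν, Reg c (Gf.adjugate κ ν) := by
    intro κ ν
    rw [hGf, ← RingHom.map_adjugate]
    exact (Gm.adjugate κ ν).2
  have hvec : Matrix.vecMul (fun ν : I => u ν) Gf = fun κ : I => -g κ := by
    funext κ
    have h1 := hu κ κ.2
    rw [← sum_coe_sort] at h1
    rw [Matrix.vecMul, dotProduct]
    exact eq_neg_of_add_eq_zero_left h1
  have hsol : ∀ ν : I, Gf.det * u ν = ∑ κ : I, -g κ * Gf.adjugate κ ν := by
    intro ν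
    have h1 : Matrix.vecMul (Matrix.vecMul (fun ν : I => u ν) Gf) Gf.adjugate ν =
        ∑ κ : I, -g κ * Gf.adjugate κ ν := by
      rw [hvec]
      rfl
    rw [← h1, Matrix.vecMul_vecMul, Matrix.mul_adjugate, Matrix.vecMul_smul, Matrix.vecMul_one]
    rfl
  have hreg : ∀ ν ∈ I, Reg c (u ν) := by
    intro ν hν
    have h1 := hsol ⟨ν, hν⟩
    have h2 : u ν = (Gm.det).1⁻¹ * ∑ κ : I, -g κ * Gf.adjugate κ ⟨ν, hν⟩ := by
      rw [← h1, hdetf, ← mul_assoc, inv_mul_cancel₀ hd0, one_mul]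
    rw [h2]
    refine (hinv.1.mul ?_).1
    exact (Reg.sum (univ : Finset I) (fun κ : I => -g κ * Gf.adjugate κ ⟨ν, hν⟩)
      fun κ _ => ((hg κ κ.2).neg.1.mul (hadj κ _)).1).1
  refine ⟨hreg, ?_⟩
  intro κ hκ
  have h1 := congrArg (evc c) (hu κ hκ)
  have h2 := Reg.sum I (fun ν => u ν * G ν κ) fun ν hν => ((hreg ν hν).mul (hG ν hν κ hκ)).1
  rw [(h2.1.add (hg κ hκ)).2, h2.2, Reg.zero.2] at h1
  rw [← h1]
  congr 1
  exact sum_congr rfl fun ν hν => ((hreg ν hν).mul (hG ν hν κ hκ)).2.symm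

end Pool.Agent.Helper32.HG
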