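import Mathlib
import Pool.Agent.Helper32.HG.Cmu

/-!
# Positivity of the coefficients of the folded sum
-/

namespace Pool.Agent.Helper32.HG

open Finset
open scoped Classical

variable {n r c m i0 : ℕ} {ε : ℤ} {K : Type} [Field K]

/-- the extracted exponent -/
def e0 (r m : ℕ) (ε : ℤ) : ℤ := (∑ i : Fin r, (i.val : ℤ)) - if ε = 1 then (m : ℤ) else 0

theorem factor_eq (q : K) (hq : q ≠ 0) (σ u : ℤ) (h : σ < 2 * u) :
    q ^ (σ - u) - q ^ u = q ^ (σ - u) * ((1 - q) *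
      Polynomial.aeval q (∑ k ∈ range (2 * u - σ).toNat, (Polynomial.X : Polynomial ℕ) ^ k)) := by
  rw [map_sum]
  simp only [map_pow, Polynomial.aeval_X]
  rw [mul_neg_geom_sum, mul_sub, mul_one, ← zpow_natCast, Int.toNat_of_nonneg (by omega),
    ← zpow_add₀ hq]
  congr 2
  ring

theorem term_pos (q : K) (hq : q ≠ 0) (h : Dat n r c m i0 ε)
    {p : (Fin r → ℤ) × (Fin (r + r) → ℕ)} (hp : p ∈ Dset r m ((c : ℤ) + 2 * r - 1) ε) :
    ∃ R : Polynomial ℕ, q ^ (-(e0 r m ε)) *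
      ∏ i, (q ^ ((c : ℤ) + 2 * r - 1 - p.1 i) - q ^ (p.1 i)) =
      (1 - q) ^ r * Polynomial.aeval q R := by
  set σ : ℤ := (c : ℤ) + 2 * r - 1 with hσ
  have hanti := lp_anti hp
  have h0 := (mem_Dset.1 hp).2.2
  have hm := (mem_Dset.1 hp).1.2
  have hu := (mem_Uset.1 (mem_Dset.1 hp).1.1).2.2
  have hS : e0 r m ε ≤ ∑ i, (σ - p.1 i) := by
    have h1 : ∀ i : Fin r, (i.val : ℤ) - ε * (p.2 (Fin.natAdd r (Fin.rev i)) : ℤ) ≤
        σ - p.1 i := by
      intro i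
      have h6 := stair_le hanti h0 (Fin.natAdd r (Fin.rev i))
      rw [stair_nat] at h6
      have h8 : lp σ ε p (Fin.natAdd r (Fin.rev i)) =
          σ - p.1 i + ε * (p.2 (Fin.natAdd r (Fin.rev i)) : ℤ) := by
        unfold lp
        rw [bal_nat_rev]
      rw [h8] at h6
      linarith
    refine le_trans ?_ (sum_le_sum (fun i _ => h1 i))
    rw [sum_sub_distrib, ← mul_sum]
    unfold e0
    have h2 : (0 : ℤ) ≤ ∑ i : Fin r, (p.2 (Fin.natAdd r (Fin.rev i)) : ℤ) := by positivity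
    have h3 : ∑ i : Fin r, (p.2 (Fin.natAdd r (Fin.rev i)) : ℤ) ≤ m := by
      have h4 : (∑ x, (p.2 x : ℤ)) = m := by exact_mod_cast hm
      rw [← h4, pair_sum]
      apply sum_le_sum
      intro i _
      have : (0 : ℤ) ≤ p.2 (Fin.castAdd r i) := by positivity
      linarith
    rcases h.cas with ⟨h5, _⟩ | ⟨h5, _⟩
    · rw [if_pos h5, h5]
      linarith
    · rw [if_neg (by omega), h5]
      linarith
  refine ⟨Polynomial.X ^ (∑ i, (σ - p.1 i) - e0 r m ε).toNat *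
    ∏ i : Fin r, ∑ k ∈ range (2 * p.1 i - σ).toNat, (Polynomial.X : Polynomial ℕ) ^ k, ?_⟩
  rw [prod_congr rfl (fun i _ => factor_eq q hq σ (p.1 i) (hu i)), prod_mul_distrib,
    prod_mul_distrib, prod_const, card_univ, Fintype.card_fin, map_mul, map_pow,
    Polynomial.aeval_X, map_prod, ← zpow_natCast, ← zpow_natCast, Int.toNat_of_nonneg (by omega)]
  have e1 : ∏ i, q ^ (σ - p.1 i) = q ^ (∑ i, (σ - p.1 i)) := by
    have : ∀ s : Finset (Fin r), ∏ i ∈ s, q ^ (σ - p.1 i) = q ^ (∑ i ∈ s, (σ - p.1 i)) := by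
      intro s
      induction s using Finset.induction_on with
      | empty => simp
      | insert a s ha ih => rw [prod_insert ha, sum_insert ha, zpow_add₀ hq, ih]
    exact this univ
  rw [e1]
  have e2 : q ^ (∑ i, (σ - p.1 i) - e0 r m ε) = q ^ (-(e0 r m ε)) * q ^ (∑ i, (σ - p.1 i)) := by
    rw [← zpow_add₀ hq]
    congr 1
    ring
  rw [e2]
  ring

/-- positivity of the coefficients of the folded sum -/
theorem Cc_pos (q : K) (hq : q ≠ 0) (h : Dat n r c m i0 ε) (μ : Fin n → ℕ) :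
    ∃ R : Polynomial ℕ, (1 - q) ^ (n - r) * q ^ (-(e0 r m ε)) *
      Cc n r m ((c : ℤ) + 2 * r - 1) ε (fun k => q ^ k) μ =
      (1 - q) ^ n * Polynomial.aeval q R := by
  have h1 : ∀ s : Finset ((Fin r → ℤ) × (Fin (r + r) → ℕ)),
      (∀ p ∈ s, p ∈ Dset r m ((c : ℤ) + 2 * r - 1) ε) →
      ∃ R : Polynomial ℕ, q ^ (-(e0 r m ε)) *
        ∑ p ∈ s, ∏ i, (q ^ ((c : ℤ) + 2 * r - 1 - p.1 i) - q ^ (p.1 i)) =
      (1 - q) ^ r * Polynomial.aeval q R := by
    intro s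
    induction s using Finset.induction_on with
    | empty =>
      intro _
      exact ⟨0, by simp⟩
    | insert a s ha ih =>
      intro hs
      obtain ⟨R1, hR1⟩ := term_pos q hq h (hs a (mem_insert_self _ _))
      obtain ⟨R2, hR2⟩ := ih (fun p hp => hs p (mem_insert_of_mem hp))
      refine ⟨R1 + R2, ?_⟩
      rw [sum_insert ha, mul_add, hR1, hR2, map_add, mul_add]
  obtain ⟨R, hR⟩ := h1 ((Dset r m ((c : ℤ) + 2 * r - 1) ε).filter
    (fun p => tr n (pt (lp ((c : ℤ) + 2 * r - 1) ε p)) = μ)) (fun p hp => (mem_filter.1 hp).1)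
  refine ⟨R, ?_⟩
  unfold Cc
  have e1 : (1 - q) ^ n = (1 - q) ^ (n - r) * (1 - q) ^ r := by
    rw [← pow_add, Nat.sub_add_cancel h.rn]
  rw [e1, mul_assoc, mul_assoc]
  congr 1

end Pool.Agent.Helper32.HG
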