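import Mathlib
import Pool.Agent.Helper32.HG.Cell
import Pool.Agent.Helper32.HG.Pos
import Pool.Agent.Helper32.HG.BalF
import Pool.Agent.Helper32.HG.Ident

/-!
# Near-rectangles: Schur expansion, leading coefficient, positivity
-/

namespace Pool.Agent.Helper32.HG

open Finset MvPolynomial
open scoped Classical

/-- the data of a partition with `r` parts, `j` of them `b + 1` and the others `b` -/
structure NDat (n r b j : ℕ) : Prop where
  r1 : 1 ≤ r
  b1 : 1 ≤ b
  jr : j ≤ r
  hn : n = r * b + j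

/-- the sequence of parts -/
def ns (r b j : ℕ) : ℕ → ℕ := fun i => if i < j then b + 1 else if i < r then b else 0

variable {n r b j : ℕ}

theorem NDat.rn (h : NDat n r b j) : r ≤ n := by
  rw [h.hn]
  have := h.b1
  nlinarith

theorem ns_eq (h : NDat n r b j) (i : ℕ) (hi : i < r) :
    ((ns r b j i : ℕ) : ℤ) = (b : ℤ) + if i < j then 1 else 0 := by
  unfold ns
  by_cases h1 : i < j
  · rw [if_pos h1, if_pos h1]
    push_cast
    ring
  · rw [if_neg h1, if_neg h1, if_pos hi]
    push_cast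
    ring

theorem ns_zero (h : NDat n r b j) (i : ℕ) (hi : r ≤ i) : ns r b j i = 0 := by
  unfold ns
  have := h.jr
  rw [if_neg (by omega), if_neg (by omega)]

theorem ns_pos (h : NDat n r b j) (i : ℕ) (hi : i < r) : 1 ≤ ns r b j i := by
  have h1 := ns_eq h i hi
  have := h.b1
  by_cases h2 : i < j
  · rw [if_pos h2] at h1
    omega
  · rw [if_neg h2] at h1
    omega

theorem ns_anti (h : NDat n r b j) : Antitone (ns r b j) := by
  apply antitone_nat_of_succ_le
  intro i
  unfold ns
  have := h.jr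
  by_cases h1 : i + 1 < j
  · rw [if_pos h1, if_pos (by omega)]
  · rw [if_neg h1]
    by_cases h2 : i < j
    · rw [if_pos h2]
      by_cases h3 : i + 1 < r
      · rw [if_pos h3]
        omega
      · rw [if_neg h3]
        omega
    · rw [if_neg h2]
      by_cases h3 : i + 1 < r
      · rw [if_pos h3, if_pos (by omega)]
      · rw [if_neg h3]
        exact Nat.zero_le _

theorem sum_ns (h : NDat n r b j) (k : ℕ) (hk : k ≤ r) :
    ∑ i ∈ range k, ns r b j i = k * b + min k j := by
  have h1 : ((∑ i ∈ range k, ns r b j i : ℕ) : ℤ) = ((k * b + min k j : ℕ) : ℤ) := by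
    push_cast
    rw [sum_congr rfl (fun i hi => ns_eq h i (lt_of_lt_of_le (mem_range.1 hi) hk)),
      sum_add_distrib, sum_const, card_range, nsmul_eq_mul, ← sum_filter]
    congr 1
    have h2 : (range k).filter (fun i => i < j) = range (min k j) := by
      ext i
      rw [mem_filter, mem_range, mem_range, lt_min_iff]
    rw [h2, sum_const, card_range]
    simp
  exact_mod_cast h1

theorem sum_ns_all (h : NDat n r b j) (k : ℕ) (hk : r ≤ k) :
    ∑ i ∈ range k, ns r b j i = n := by
  have h1 : ∑ i ∈ range k, ns r b j i = ∑ i ∈ range r, ns r b j i := by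
    symm
    apply sum_subset
    · intro i hi
      rw [mem_range] at hi ⊢
      omega
    · intro i _ hi
      rw [mem_range] at hi
      exact ns_zero h i (by omega)
  rw [h1, sum_ns h r le_rfl, h.hn, min_eq_right h.jr]

theorem ns_parts (h : NDat n r b j) : tr n (ns r b j) ∈ parts n := by
  rw [mem_parts]
  constructor
  · intro i k hik
    exact ns_anti h hik
  · have : ∑ i : Fin n, tr n (ns r b j) i = ∑ k ∈ range n, ns r b j k :=
      Fin.sum_univ_eq_sum_range (ns r b j) n
    rw [this, sum_ns_all h n h.rn]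

/-- the vector attached to an encoded pair -/
def lx {r : ℕ} (σ : ℤ) (x : Fin r → ℤ) : Fin (r + r) → ℤ :=
  balf (fun i => σ + x i % 2) (fun i => x i / 2)

theorem lx_cast (σ : ℤ) (x : Fin r → ℤ) (i : Fin r) : lx σ x (Fin.castAdd r i) = x i / 2 := by
  unfold lx
  rw [balf_castAdd]

theorem lx_nat (σ : ℤ) (x : Fin r → ℤ) (i : Fin r) :
    lx σ x (Fin.natAdd r i) = σ + x (Fin.rev i) % 2 - x (Fin.rev i) / 2 := by
  unfold lx
  rw [balf_natAdd]

theorem lx_nat_rev (σ : ℤ) (x : Fin r → ℤ) (i : Fin r) :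
    lx σ x (Fin.natAdd r (Fin.rev i)) = σ + x i % 2 - x i / 2 := by
  rw [lx_nat, Fin.rev_rev]

theorem mem_Xset {σ : ℤ} {x : Fin r → ℤ} : x ∈ Xset r j σ ↔
    (∀ i, (0 ≤ x i ∧ x i ≤ 2 * σ + 3) ∧ x i / 2 ≤ σ + x i % 2) ∧ StrictAnti x ∧
      ∑ i, x i % 2 = (j : ℤ) ∧ ∀ i, σ + x i % 2 < 2 * (x i / 2) := by
  unfold Xset
  rw [mem_filter, Fintype.mem_piFinset]
  simp only [mem_filter, mem_Icc]

theorem lx_nonneg {σ : ℤ} {x : Fin r → ℤ} (hx : x ∈ Xset r j σ) (y : Fin (r + r)) :
    0 ≤ lx σ x y := by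
  have h1 := (mem_Xset.1 hx).1
  refine Fin.addCases (fun i => ?_) (fun i => ?_) y
  · rw [lx_cast]
    have := (h1 i).1.1
    omega
  · rw [lx_nat]
    have := (h1 (Fin.rev i)).2
    omega

variable {K : Type} [Field K]

theorem lx_zero [CharZero K] {σ : ℤ} {x : Fin r → ℤ} (hx : x ∈ Xset r j σ)
    (hne : Sd n K (lx σ x) ≠ 0) : StrictAnti (lx σ x) := by
  have hinj : Function.Injective (lx σ x) := by
    intro y z hyz
    by_contra hcon
    exact hne ((alt_Sd (n := n) (K := K)).rep (lx σ x) y z hcon hyz)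
  obtain ⟨h1, h2, h3, h4⟩ := mem_Xset.1 hx
  have hU : ∀ i k : Fin r, i < k → x k / 2 < x i / 2 := by
    intro i k hik
    have h5 := h2 hik
    have h6 : x k / 2 ≠ x i / 2 := by
      intro h7
      rw [← lx_cast σ x k, ← lx_cast σ x i] at h7
      exact (ne_of_lt hik) (Fin.castAdd_injective r r (hinj h7)).symm
    omega
  intro y z
  refine Fin.addCases (fun i => ?_) (fun i => ?_) y
  · refine Fin.addCases (fun k => ?_) (fun k => ?_) z
    · intro hyz
      rw [lx_cast, lx_cast]
      apply hU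
      rw [Fin.lt_def] at hyz ⊢
      simpa using hyz
    · intro _
      have h5 : lx σ x (Fin.castAdd r i) ≠ lx σ x (Fin.natAdd r k) := by
        intro h6
        exact castAdd_ne_natAdd i k (hinj h6)
      rw [lx_cast, lx_nat] at h5 ⊢
      have h7 := h4 i
      have h8 := h4 (Fin.rev k)
      omega
  · refine Fin.addCases (fun k => ?_) (fun k => ?_) z
    · intro hyz
      exfalso
      rw [Fin.lt_def] at hyz
      simp at hyz
      have := k.isLt
      omega
    · intro hyz
      have h3' : i < k := by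
        rw [Fin.lt_def] at hyz ⊢
        simpa using hyz
      have h5 : lx σ x (Fin.natAdd r i) ≠ lx σ x (Fin.natAdd r k) := by
        intro h6
        exact (ne_of_lt h3') (Fin.natAdd_injective r r (hinj h6))
      rw [lx_nat, lx_nat] at h5 ⊢
      have h7 := hU _ _ (Fin.rev_lt_rev.2 h3')
      omega

theorem lx_sum (h : NDat n r b j) {x : Fin r → ℤ} (hx : ∑ i, x i % 2 = (j : ℤ)) :
    ∑ y, (lx ((b : ℤ) + 2 * r - 1) x y - stair (r + r) y) = (n : ℤ) := by
  rw [pair_sum]
  have h1 : ∀ i : Fin r, (lx ((b : ℤ) + 2 * r - 1) x (Fin.castAdd r i) -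
      stair (r + r) (Fin.castAdd r i)) + (lx ((b : ℤ) + 2 * r - 1) x
      (Fin.natAdd r (Fin.rev i)) - stair (r + r) (Fin.natAdd r (Fin.rev i))) =
      (b : ℤ) + x i % 2 := by
    intro i
    rw [lx_cast, lx_nat_rev, stair_cast, stair_nat]
    ring
  rw [sum_congr rfl (fun i _ => h1 i), sum_add_distrib, hx, sum_const, card_univ,
    Fintype.card_fin, nsmul_eq_mul, h.hn]
  push_cast
  ring

/-- the index set of the Schur expansion -/
noncomputable def Yset (r j : ℕ) (σ : ℤ) : Finset (Fin r → ℤ) :=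
  (Xset r j σ).filter (fun x => StrictAnti (lx σ x))

theorem mem_Yset {σ : ℤ} {x : Fin r → ℤ} : x ∈ Yset r j σ ↔
    x ∈ Xset r j σ ∧ StrictAnti (lx σ x) := by
  unfold Yset
  rw [mem_filter]

theorem lx_schur (h : NDat n r b j) {x : Fin r → ℤ}
    (hx : x ∈ Yset r j ((b : ℤ) + 2 * r - 1)) :
    Sd n K (lx ((b : ℤ) + 2 * r - 1) x) =
      schur n K (tr n (pt (lx ((b : ℤ) + 2 * r - 1) x))) ∧
    tr n (pt (lx ((b : ℤ) + 2 * r - 1) x)) ∈ parts n := by
  have h0 := mem_Yset.1 hx
  have h1 := Sd_eq_schur (n := n) (K := K) h0.2 (lx_nonneg h0.1)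
    (lx_sum h (mem_Xset.1 h0.1).2.2.1)
  refine ⟨h1.1, ?_⟩
  rw [mem_parts]
  exact h1.2

/-- the coefficients of the folded sum -/
noncomputable def Nc2 (n : ℕ) {K : Type*} [Field K] (r j : ℕ) (σ : ℤ) (w : ℤ → K)
    (μ : Fin n → ℕ) : K :=
  ∑ x ∈ (Yset r j σ).filter (fun x => tr n (pt (lx σ x)) = μ),
    ∏ i, (w (σ + x i % 2 - x i / 2) - w (x i / 2))

theorem NF_eq [CharZero K] (h : NDat n r b j) (w : ℤ → K) :
    ∑ x ∈ Xset r j ((b : ℤ) + 2 * r - 1),
      (∏ i, (w ((b : ℤ) + 2 * r - 1 + x i % 2 - x i / 2) - w (x i / 2))) •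
        Sd n K (lx ((b : ℤ) + 2 * r - 1) x) =
    ∑ μ ∈ parts n, Nc2 n r j ((b : ℤ) + 2 * r - 1) w μ • schur n K μ := by
  have h1 : ∑ x ∈ Xset r j ((b : ℤ) + 2 * r - 1),
      (∏ i, (w ((b : ℤ) + 2 * r - 1 + x i % 2 - x i / 2) - w (x i / 2))) •
        Sd n K (lx ((b : ℤ) + 2 * r - 1) x) =
      ∑ x ∈ Yset r j ((b : ℤ) + 2 * r - 1),
      (∏ i, (w ((b : ℤ) + 2 * r - 1 + x i % 2 - x i / 2) - w (x i / 2))) •
        schur n K (tr n (pt (lx ((b : ℤ) + 2 * r - 1) x))) := by
    rw [← sum_filter_add_sum_filter_not (Xset r j ((b : ℤ) + 2 * r - 1))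
      (fun x => StrictAnti (lx ((b : ℤ) + 2 * r - 1) x))]
    have h2 : ∑ x ∈ (Xset r j ((b : ℤ) + 2 * r - 1)).filter
        (fun x => ¬ StrictAnti (lx ((b : ℤ) + 2 * r - 1) x)),
        (∏ i, (w ((b : ℤ) + 2 * r - 1 + x i % 2 - x i / 2) - w (x i / 2))) •
        Sd n K (lx ((b : ℤ) + 2 * r - 1) x) = 0 := by
      apply sum_eq_zero
      intro x hx
      rw [mem_filter] at hx
      have h3 : Sd n K (lx ((b : ℤ) + 2 * r - 1) x) = 0 := by
        by_contra h4
        exact hx.2 (lx_zero hx.1 h4)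
      rw [h3, smul_zero]
    rw [h2, add_zero]
    apply sum_congr rfl
    intro x hx
    rw [(lx_schur h hx).1]
  rw [h1, ← sum_fiberwise_of_maps_to
    (g := fun x => tr n (pt (lx ((b : ℤ) + 2 * r - 1) x))) (t := parts n)
    (fun x hx => (lx_schur (K := K) h hx).2)]
  apply sum_congr rfl
  intro μ _
  unfold Nc2
  rw [sum_smul]
  apply sum_congr rfl
  intro p hp
  rw [(mem_filter.1 hp).2]

/-- dominance for the terms of the Schur expansion -/
theorem lx_dom (h : NDat n r b j) {x : Fin r → ℤ}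
    (hx : x ∈ Yset r j ((b : ℤ) + 2 * r - 1)) :
    DomLe (tr n (pt (lx ((b : ℤ) + 2 * r - 1) x))) (tr n (ns r b j)) := by
  set σ : ℤ := (b : ℤ) + 2 * r - 1 with hσ
  have hanti := (mem_Yset.1 hx).2
  have h0 := lx_nonneg (mem_Yset.1 hx).1
  have hxj := (mem_Xset.1 (mem_Yset.1 hx).1).2.2.1
  have hpar := (mem_parts _).1 (lx_schur (K := ℚ) h hx).2
  have hrn := h.rn
  intro k
  by_cases hk : r ≤ k
  · have h1 : ∑ i : Fin n with i.val < k, tr n (pt (lx σ x)) i ≤ n := by
      have h2 := sum_le_sum_of_subset (f := tr n (pt (lx σ x)))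
        (filter_subset (fun i : Fin n => i.val < k) univ)
      rw [hpar.2] at h2
      exact h2
    have h2 : ∑ i : Fin n with i.val < k, tr n (ns r b j) i = n := by
      by_cases hkn : k ≤ n
      · have := sum_fin_lt n (ns r b j) k hkn
        rw [sum_ns_all h k hk] at this
        exact this
      · rw [filter_true_of_mem]
        · exact ((mem_parts _).1 (ns_parts h)).2
        · intro i _
          have := i.isLt
          omega
    rw [h2]
    exact h1
  · have hkr : k < r := by omega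
    have e1 : ∑ i : Fin n with i.val < k, tr n (pt (lx σ x)) i =
        ∑ j ∈ range k, pt (lx σ x) j := sum_fin_lt n (pt (lx σ x)) k (by omega)
    have e2 : ∑ i : Fin n with i.val < k, tr n (ns r b j) i =
        ∑ i ∈ range k, ns r b j i := sum_fin_lt n (ns r b j) k (by omega)
    rw [e1, e2, sum_ns h k hkr.le, ← sum_fin_lt r (pt (lx σ x)) k hkr.le]
    have h4 : ∀ i : Fin r, ((pt (lx σ x) i.val : ℕ) : ℤ) ≤ (b : ℤ) + x i % 2 := by
      intro i
      have h5 := pt_eq hanti h0 (Fin.castAdd r i)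
      rw [Fin.val_castAdd, stair_cast, lx_cast] at h5
      have h6 := stair_le hanti h0 (Fin.natAdd r (Fin.rev i))
      rw [stair_nat, lx_nat_rev] at h6
      omega
    have h7 : ((∑ i : Fin r with i.val < k, pt (lx σ x) i.val : ℕ) : ℤ) ≤
        k * b + ∑ i : Fin r with i.val < k, x i % 2 := by
      push_cast
      refine le_trans (sum_le_sum (fun i _ => h4 i)) ?_
      rw [sum_add_distrib, sum_const, card_lt k hkr.le, nsmul_eq_mul]
    have h8 : ∑ i : Fin r with i.val < k, x i % 2 ≤ j := by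
      rw [← hxj]
      apply sum_le_sum_of_subset_of_nonneg (filter_subset _ _)
      intro i _ _
      omega
    have h9 : ∑ i : Fin r with i.val < k, x i % 2 ≤ k := by
      have h10 : ∑ i : Fin r with i.val < k, x i % 2 ≤ ∑ i : Fin r with i.val < k, (1 : ℤ) := by
        apply sum_le_sum
        intro i _
        omega
      rw [sum_const, card_lt k hkr.le] at h10
      simpa using h10
    have h11 : ((∑ i : Fin r with i.val < k, pt (lx σ x) i.val : ℕ) : ℤ) ≤
        ((k * b + min k j : ℕ) : ℤ) := by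
      push_cast at h7 ⊢
      rcases min_cases (k : ℤ) (j : ℤ) with ⟨h12, _⟩ | ⟨h12, _⟩
      · rw [h12]
        linarith
      · rw [h12]
        linarith
    exact_mod_cast h11

theorem Nc2_dom (h : NDat n r b j) (w : ℤ → K) (μ : Fin n → ℕ)
    (hμ : Nc2 n r j ((b : ℤ) + 2 * r - 1) w μ ≠ 0) : DomLe μ (tr n (ns r b j)) := by
  unfold Nc2 at hμ
  obtain ⟨p, hp, _⟩ := exists_ne_zero_of_sum_ne_zero hμ
  rw [mem_filter] at hp
  rw [← hp.2]
  exact lx_dom h hp.1

/-- the leading vector -/
def xlead (r b j : ℕ) : Fin r → ℤ := fun i =>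
  2 * ((ns r b j i.val : ℤ) + 2 * r - 1 - i.val) + ((ns r b j i.val : ℤ) - b)

theorem xlead_div (h : NDat n r b j) (i : Fin r) : xlead r b j i / 2 =
    (ns r b j i.val : ℤ) + 2 * r - 1 - i.val := by
  unfold xlead
  have := ns_eq h i.val i.isLt
  by_cases h1 : i.val < j
  · rw [if_pos h1] at this
    omega
  · rw [if_neg h1] at this
    omega

theorem xlead_mod (h : NDat n r b j) (i : Fin r) : xlead r b j i % 2 =
    (ns r b j i.val : ℤ) - b := by
  unfold xlead
  have := ns_eq h i.val i.isLt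
  by_cases h1 : i.val < j
  · rw [if_pos h1] at this
    omega
  · rw [if_neg h1] at this
    omega

theorem lx_lead (h : NDat n r b j) : lx ((b : ℤ) + 2 * r - 1) (xlead r b j) =
    fun y => (ns r b j y.val : ℤ) + stair (r + r) y := by
  have key : ∀ i : Fin r, lx ((b : ℤ) + 2 * r - 1) (xlead r b j) (Fin.castAdd r i) =
      (ns r b j (Fin.castAdd r i).val : ℤ) + stair (r + r) (Fin.castAdd r i) := by
    intro i
    rw [lx_cast, stair_cast, Fin.val_castAdd, xlead_div h]
    ring
  have key2 : ∀ i : Fin r, lx ((b : ℤ) + 2 * r - 1) (xlead r b j) (Fin.natAdd r (Fin.rev i)) =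
      (ns r b j (Fin.natAdd r (Fin.rev i)).val : ℤ) + stair (r + r) (Fin.natAdd r (Fin.rev i)) := by
    intro i
    have hz := ns_zero h (Fin.natAdd r (Fin.rev i)).val (by rw [Fin.val_natAdd]; omega)
    rw [lx_nat_rev, stair_nat, xlead_div h, xlead_mod h, hz]
    push_cast
    ring
  funext y
  refine Fin.addCases (fun i => ?_) (fun i => ?_) y
  · exact key i
  · have := key2 (Fin.rev i)
    rw [Fin.rev_rev] at this
    exact this

theorem ns_stair_anti (h : NDat n r b j) :
    StrictAnti (fun y : Fin (r + r) => (ns r b j y.val : ℤ) + stair (r + r) y) := by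
  intro x y hxy
  have h1 := ns_anti h (show x.val ≤ y.val from hxy.le)
  have h2 : stair (r + r) y < stair (r + r) x := stair_strictAnti hxy
  show (ns r b j y.val : ℤ) + stair (r + r) y < (ns r b j x.val : ℤ) + stair (r + r) x
  omega

theorem pt_ns (h : NDat n r b j) :
    pt (fun y : Fin (r + r) => (ns r b j y.val : ℤ) + stair (r + r) y) = ns r b j := by
  funext k
  unfold pt
  by_cases hk : k < r + r
  · rw [dif_pos hk]
    simp
  · rw [dif_neg hk, ns_zero h k (by omega)]

theorem sum_ns_b (h : NDat n r b j) : ∑ i : Fin r, ((ns r b j i.val : ℤ) - b) = (j : ℤ) := by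
  rw [sum_sub_distrib, sum_const, card_univ, Fintype.card_fin, nsmul_eq_mul]
  have h1 : ∑ i : Fin r, ns r b j i.val = ∑ k ∈ range r, ns r b j k :=
    Fin.sum_univ_eq_sum_range (ns r b j) r
  rw [sum_ns h r le_rfl, min_eq_right h.jr] at h1
  have h2 : (∑ i : Fin r, (ns r b j i.val : ℤ)) = ((r * b + j : ℕ) : ℤ) := by
    rw [← h1]
    push_cast
    rfl
  rw [h2]
  push_cast
  ring

theorem xlead_mem (h : NDat n r b j) : xlead r b j ∈ Yset r j ((b : ℤ) + 2 * r - 1) := by
  rw [mem_Yset]
  refine ⟨?_, ?_⟩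
  · rw [mem_Xset]
    have hb := h.b1
    refine ⟨?_, ?_, ?_, ?_⟩
    · intro i
      have hi := i.isLt
      have h1 := ns_eq h i.val hi
      have h2 := xlead_div h i
      have h3 := xlead_mod h i
      have h4 : (ns r b j i.val : ℤ) = b ∨ (ns r b j i.val : ℤ) = b + 1 := by
        by_cases h5 : i.val < j
        · rw [if_pos h5] at h1
          exact Or.inr h1
        · rw [if_neg h5] at h1
          left
          rw [h1]
          ring
      rw [h2, h3]
      unfold xlead
      rcases h4 with h4 | h4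
      · rw [h4]
        refine ⟨⟨?_, ?_⟩, ?_⟩ <;> omega
      · rw [h4]
        refine ⟨⟨?_, ?_⟩, ?_⟩ <;> omega
    · intro i k hik
      have h1 := ns_anti h (show i.val ≤ k.val from hik.le)
      rw [Fin.lt_def] at hik
      show xlead r b j k < xlead r b j i
      unfold xlead
      omega
    · rw [sum_congr rfl (fun i _ => xlead_mod h i)]
      exact sum_ns_b h
    · intro i
      have hi := i.isLt
      have h1 := ns_eq h i.val hi
      rw [xlead_div h, xlead_mod h]
      by_cases h5 : i.val < j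
      · rw [if_pos h5] at h1
        omega
      · rw [if_neg h5] at h1
        omega
  · rw [lx_lead h]
    exact ns_stair_anti h

theorem xlead_unique (h : NDat n r b j) {x : Fin r → ℤ}
    (hx : x ∈ Yset r j ((b : ℤ) + 2 * r - 1))
    (ht : tr n (pt (lx ((b : ℤ) + 2 * r - 1) x)) = tr n (ns r b j)) : x = xlead r b j := by
  set σ : ℤ := (b : ℤ) + 2 * r - 1 with hσ
  have hanti := (mem_Yset.1 hx).2
  have h0 := lx_nonneg (mem_Yset.1 hx).1
  have hxj := (mem_Xset.1 (mem_Yset.1 hx).1).2.2.1
  have hsum : ∑ k ∈ range (r + r), pt (lx σ x) k = n := by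
    have h1 := sum_pt hanti h0
    rw [lx_sum h hxj] at h1
    exact_mod_cast h1
  have hz := anti_zero (pt_antitone hanti h0) hsum (fun k hk => pt_zero (lx σ x) hk)
  have hpt : pt (lx σ x) = ns r b j := by
    funext k
    by_cases hk : k < n
    · exact congrFun ht ⟨k, hk⟩
    · rw [hz k (by omega), ns_zero h k (by have := h.rn; omega)]
  have hlx : ∀ y, lx σ x y = (ns r b j y.val : ℤ) + stair (r + r) y := by
    intro y
    have h1 := pt_eq hanti h0 y
    rw [hpt] at h1
    linarith
  funext i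
  have h1 := hlx (Fin.castAdd r i)
  have h2 := hlx (Fin.natAdd r (Fin.rev i))
  rw [lx_cast, stair_cast, Fin.val_castAdd] at h1
  rw [lx_nat_rev, stair_nat, ns_zero h _ (by rw [Fin.val_natAdd]; omega)] at h2
  unfold xlead
  push_cast at h2
  omega

/-- the leading coefficient -/
theorem Nc2_lead (h : NDat n r b j) (w : ℤ → K) :
    Nc2 n r j ((b : ℤ) + 2 * r - 1) w (tr n (ns r b j)) =
      ∏ i : Fin r, (w (i.val : ℤ) - w ((ns r b j i.val : ℤ) + 2 * r - 1 - i.val)) := by
  unfold Nc2
  have h1 : (Yset r j ((b : ℤ) + 2 * r - 1)).filter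
      (fun x => tr n (pt (lx ((b : ℤ) + 2 * r - 1) x)) = tr n (ns r b j)) = {xlead r b j} := by
    ext x
    rw [mem_filter, mem_singleton]
    constructor
    · rintro ⟨h2, h3⟩
      exact xlead_unique h h2 h3
    · intro h2
      rw [h2]
      refine ⟨xlead_mem h, ?_⟩
      rw [lx_lead h, pt_ns h]
  rw [h1, sum_singleton]
  apply prod_congr rfl
  intro i _
  rw [xlead_div h, xlead_mod h]
  congr 2
  ring

/-- the leading coefficient as a product -/
theorem Nlead_prod (h : NDat n r b j) (q : K) (hq : q ≠ 0) :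
    ∏ i : Fin r, (q ^ (i.val : ℤ) - q ^ ((ns r b j i.val : ℤ) + 2 * r - 1 - i.val)) =
      q ^ (∑ i : Fin r, (i.val : ℤ)) *
        ∏ i : Fin r, (1 - q ^ (ns r b j i.val - 1 + 2 * (r - i.val))) := by
  rw [← prod_zpow q hq, ← prod_mul_distrib]
  apply prod_congr rfl
  intro i _
  have h4 := ns_pos h i.val i.isLt
  have h6 := i.isLt
  rw [mul_sub, mul_one, ← zpow_natCast q (ns r b j i.val - 1 + 2 * (r - i.val)),
    ← zpow_add₀ hq]
  congr 2
  omega

theorem Nleg_zero (h : NDat n r b j) (i : Fin n) (hi : i.val < r) :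
    leg (tr n (ns r b j)) i 0 = r - 1 - i.val := by
  unfold leg
  have h1 : (univ.filter (fun i' : Fin n => i < i' ∧ 0 < tr n (ns r b j) i')) =
      univ.filter (fun x : Fin n => i.val + 1 ≤ x.val ∧ x.val < r) := by
    apply filter_congr
    intro x _
    rw [Fin.lt_def]
    constructor
    · rintro ⟨h2, h3⟩
      refine ⟨by omega, ?_⟩
      by_contra h4
      have : ns r b j x.val = 0 := ns_zero h x.val (by omega)
      have h5 : 0 < ns r b j x.val := h3
      omega
    · rintro ⟨h2, h3⟩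
      exact ⟨by omega, ns_pos h x.val h3⟩
  rw [h1, card_between (i.val + 1) r (by omega) h.rn]
  omega

theorem NNc_zero (h : NDat n r b j) (i : Fin n) (hi : i.val < r) :
    Nc (tr n (ns r b j)) ⟨i, 0⟩ = ns r b j i.val - 1 + 2 * (r - i.val) := by
  unfold Nc
  rw [Nleg_zero h i hi]
  show ns r b j i.val - 0 - 1 + 2 * (r - 1 - i.val + 1) = _
  omega

theorem Ncell (h : NDat n r b j) (q : K) (hq : q ≠ 0) : ∃ R : Polynomial ℕ,
    cpr q (q ^ 2) (tr n (ns r b j)) =
      (1 - q) ^ (n - r) * q ^ (-(∑ i : Fin r, (i.val : ℤ))) *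
        Polynomial.aeval q R *
        ∏ i : Fin r, (q ^ (i.val : ℤ) - q ^ ((ns r b j i.val : ℤ) + 2 * r - 1 - i.val)) := by
  have hrn := h.rn
  set lam := tr n (ns r b j) with hlam
  have hcard := card_cells ((mem_parts _).1 (ns_parts h)).2
  rw [← hlam] at hcard
  set emb : Fin r → Σ _ : Fin n, ℕ := fun i => ⟨⟨i.val, lt_of_lt_of_le i.isLt hrn⟩, 0⟩ with hemb
  have hinj : Function.Injective emb := by
    intro i k hik
    have h1 := congrArg (fun x : Σ _ : Fin n, ℕ => x.1.val) hik
    exact Fin.ext h1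
  set S0 : Finset (Σ _ : Fin n, ℕ) := univ.image emb with hS0
  have hS0card : S0.card = r := by
    rw [hS0, card_image_of_injective _ hinj, card_univ, Fintype.card_fin]
  have hS0prod : ∏ x ∈ S0, (1 - q ^ Nc lam x) =
      ∏ i : Fin r, (1 - q ^ (ns r b j i.val - 1 + 2 * (r - i.val))) := by
    rw [hS0, prod_image (fun i _ k _ hik => hinj hik)]
    apply prod_congr rfl
    intro i _
    rw [hlam]
    show 1 - q ^ Nc (tr n (ns r b j)) ⟨⟨i.val, lt_of_lt_of_le i.isLt hrn⟩, 0⟩ = _
    rw [NNc_zero h _ i.isLt]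
  have hS0sub : S0 ⊆ cells lam := by
    intro x hx
    rw [hS0, mem_image] at hx
    obtain ⟨i, _, rfl⟩ := hx
    rw [mem_cells]
    exact ns_pos h i.val i.isLt
  obtain ⟨R, hR⟩ := prod_split q (cells lam) S0 hS0sub (Nc lam)
  refine ⟨R, ?_⟩
  rw [cpr_eq, hR, hS0prod, hcard, hS0card, Nlead_prod h q hq]
  have hqE : q ^ (-(∑ i : Fin r, (i.val : ℤ))) * q ^ (∑ i : Fin r, (i.val : ℤ)) = 1 := by
    rw [← zpow_add₀ hq, neg_add_cancel, zpow_zero]
  linear_combination (-((∏ i : Fin r, (1 - q ^ (ns r b j i.val - 1 + 2 * (r - i.val)))) *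
    (1 - q) ^ (n - r) * Polynomial.aeval q R)) * hqE

theorem Nterm_pos (q : K) (hq : q ≠ 0) {x : Fin r → ℤ}
    (hx : x ∈ Yset r j ((b : ℤ) + 2 * r - 1)) :
    ∃ R : Polynomial ℕ, q ^ (-(∑ i : Fin r, (i.val : ℤ))) *
      ∏ i, (q ^ ((b : ℤ) + 2 * r - 1 + x i % 2 - x i / 2) - q ^ (x i / 2)) =
      (1 - q) ^ r * Polynomial.aeval q R := by
  set σ : ℤ := (b : ℤ) + 2 * r - 1 with hσ
  have hanti := (mem_Yset.1 hx).2
  have h0 := lx_nonneg (mem_Yset.1 hx).1
  have hu := (mem_Xset.1 (mem_Yset.1 hx).1).2.2.2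
  have hS : ∑ i : Fin r, (i.val : ℤ) ≤ ∑ i, (σ + x i % 2 - x i / 2) := by
    apply sum_le_sum
    intro i _
    have h6 := stair_le hanti h0 (Fin.natAdd r (Fin.rev i))
    rw [stair_nat, lx_nat_rev] at h6
    exact h6
  refine ⟨Polynomial.X ^ (∑ i, (σ + x i % 2 - x i / 2) - ∑ i : Fin r, (i.val : ℤ)).toNat *
    ∏ i : Fin r, ∑ k ∈ range (2 * (x i / 2) - (σ + x i % 2)).toNat,
      (Polynomial.X : Polynomial ℕ) ^ k, ?_⟩
  rw [prod_congr rfl (fun i _ => factor_eq q hq (σ + x i % 2) (x i / 2) (hu i)),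
    prod_mul_distrib,
    prod_mul_distrib, prod_const, card_univ, Fintype.card_fin, map_mul, map_pow,
    Polynomial.aeval_X, map_prod, ← zpow_natCast, ← zpow_natCast, Int.toNat_of_nonneg (by omega),
    prod_zpow q hq]
  have e2 : q ^ (∑ i, (σ + x i % 2 - x i / 2) - ∑ i : Fin r, (i.val : ℤ)) =
      q ^ (-(∑ i : Fin r, (i.val : ℤ))) * q ^ (∑ i, (σ + x i % 2 - x i / 2)) := by
    rw [← zpow_add₀ hq]
    congr 1
    ring
  rw [e2]
  ring

/-- positivity of the coefficients of the folded sum -/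
theorem Nc2_pos (q : K) (hq : q ≠ 0) (h : NDat n r b j) (μ : Fin n → ℕ) :
    ∃ R : Polynomial ℕ, (1 - q) ^ (n - r) * q ^ (-(∑ i : Fin r, (i.val : ℤ))) *
      Nc2 n r j ((b : ℤ) + 2 * r - 1) (fun k => q ^ k) μ =
      (1 - q) ^ n * Polynomial.aeval q R := by
  have h1 : ∀ s : Finset (Fin r → ℤ),
      (∀ p ∈ s, p ∈ Yset r j ((b : ℤ) + 2 * r - 1)) →
      ∃ R : Polynomial ℕ, q ^ (-(∑ i : Fin r, (i.val : ℤ))) *
        ∑ x ∈ s, ∏ i, (q ^ ((b : ℤ) + 2 * r - 1 + x i % 2 - x i / 2) - q ^ (x i / 2)) =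
      (1 - q) ^ r * Polynomial.aeval q R := by
    intro s
    induction s using Finset.induction_on with
    | empty =>
      intro _
      exact ⟨0, by simp⟩
    | insert a s ha ih =>
      intro hs
      obtain ⟨R1, hR1⟩ := Nterm_pos q hq (hs a (mem_insert_self _ _))
      obtain ⟨R2, hR2⟩ := ih (fun p hp => hs p (mem_insert_of_mem hp))
      refine ⟨R1 + R2, ?_⟩
      rw [sum_insert ha, mul_add, hR1, hR2, map_add, mul_add]
  obtain ⟨R, hR⟩ := h1 ((Yset r j ((b : ℤ) + 2 * r - 1)).filter
    (fun x => tr n (pt (lx ((b : ℤ) + 2 * r - 1) x)) = μ)) (fun p hp => (mem_filter.1 hp).1)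
  refine ⟨R, ?_⟩
  unfold Nc2
  have e1 : (1 - q) ^ n = (1 - q) ^ (n - r) * (1 - q) ^ r := by
    rw [← pow_add, Nat.sub_add_cancel h.rn]
  rw [e1, mul_assoc, mul_assoc]
  congr 1

/-- a partition strictly below a near-rectangle has more parts -/
theorem more_parts (h : NDat n r b j) {ν : Fin n → ℕ} (hν : ν ∈ below n (tr n (ns r b j))) :
    r < (univ.filter (fun i : Fin n => ν i ≠ 0)).card := by
  rw [mem_below] at hν
  obtain ⟨hν1, hν2, hν3⟩ := hν
  obtain ⟨hanti, hsum⟩ := (mem_parts ν).1 hν1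
  by_contra hcon
  apply hν3
  have hrn := h.rn
  have hz : ∀ i : Fin n, r ≤ i.val → ν i = 0 := by
    intro i hi
    by_contra h1
    apply hcon
    have h2 : (univ.filter (fun k : Fin n => k.val < i.val + 1)) ⊆
        univ.filter (fun i : Fin n => ν i ≠ 0) := by
      intro k hk
      rw [mem_filter] at hk ⊢
      refine ⟨mem_univ _, ?_⟩
      have := hanti (show k ≤ i by rw [Fin.le_def]; omega)
      omega
    have h3 := card_le_card h2
    rw [card_lt (i.val + 1) (by have := i.isLt; omega)] at h3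
    omega
  apply hν2.antisymm
  -- the near-rectangle is below every partition with at most `r` parts
  intro k
  by_cases hk : r ≤ k
  · have h1 : ∑ i : Fin n with i.val < k, ν i = n := by
      have h1' : ∑ i : Fin n with i.val < k, ν i = ∑ i, ν i := by
        apply sum_subset (filter_subset _ _)
        intro i _ hi
        rw [mem_filter] at hi
        apply hz
        by_contra h2
        exact hi ⟨mem_univ _, by omega⟩
      rw [h1', hsum]
    rw [h1]
    have h2 := sum_le_sum_of_subset (f := tr n (ns r b j))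
        (filter_subset (fun i : Fin n => i.val < k) univ)
    rw [((mem_parts _).1 (ns_parts h)).2] at h2
    exact h2
  · have hkr : k < r := by omega
    have e2 : ∑ i : Fin n with i.val < k, tr n (ns r b j) i =
        ∑ i ∈ range k, ns r b j i := sum_fin_lt n (ns r b j) k (by omega)
    rw [e2, sum_ns h k hkr.le]
    by_contra hlt
    have hlt2 : ∑ i : Fin n with i.val < k, ν i < k * b + min k j := by omega
    have hsplit : ∑ i : Fin n with i.val < k, ν i +
        ∑ i ∈ univ.filter (fun i : Fin n => k ≤ i.val ∧ i.val < r), ν i = n := by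
      have h3 : (univ.filter (fun i : Fin n => i.val < r)) =
          (univ.filter (fun i : Fin n => i.val < k)) ∪
            univ.filter (fun i : Fin n => k ≤ i.val ∧ i.val < r) := by
        ext i
        rw [mem_union, mem_filter, mem_filter, mem_filter]
        constructor
        · rintro ⟨_, h4⟩
          by_cases h5 : i.val < k
          · exact Or.inl ⟨mem_univ _, h5⟩
          · exact Or.inr ⟨mem_univ _, by omega, h4⟩
        · rintro (⟨_, h4⟩ | ⟨_, h4⟩)
          · exact ⟨mem_univ _, by omega⟩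
          · exact ⟨mem_univ _, h4.2⟩
      have h4 : Disjoint (univ.filter (fun i : Fin n => i.val < k))
          (univ.filter (fun i : Fin n => k ≤ i.val ∧ i.val < r)) := by
        rw [Finset.disjoint_left]
        intro i hi hi'
        rw [mem_filter] at hi hi'
        omega
      rw [← sum_union h4, ← h3]
      have h5 : ∑ i ∈ univ.filter (fun i : Fin n => i.val < r), ν i = ∑ i, ν i := by
        apply sum_subset (filter_subset _ _)
        intro i _ hi
        rw [mem_filter] at hi
        apply hz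
        by_contra h2
        exact hi ⟨mem_univ _, by omega⟩
      rw [h5, hsum]
    have hcardA : (univ.filter (fun i : Fin n => i.val < k)).card = k := card_lt k (by omega)
    have hcardB : (univ.filter (fun i : Fin n => k ≤ i.val ∧ i.val < r)).card = r - k :=
      card_between k r hkr.le hrn
    set p : Fin n := ⟨k, by omega⟩ with hp
    have hA : k * ν p ≤ ∑ i : Fin n with i.val < k, ν i := by
      have h3 := card_nsmul_le_sum (univ.filter (fun i : Fin n => i.val < k)) (fun i => ν i)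
        (ν p) (by
          intro i hi
          rw [mem_filter] at hi
          apply hanti
          rw [Fin.le_def]
          exact hi.2.le)
      rw [hcardA, smul_eq_mul] at h3
      exact h3
    have hB : ∑ i ∈ univ.filter (fun i : Fin n => k ≤ i.val ∧ i.val < r), ν i ≤
        (r - k) * ν p := by
      have h3 := sum_le_card_nsmul (univ.filter (fun i : Fin n => k ≤ i.val ∧ i.val < r))
        (fun i => ν i) (ν p) (by
          intro i hi
          rw [mem_filter] at hi
          apply hanti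
          rw [Fin.le_def]
          exact hi.2.1)
      rw [hcardB, smul_eq_mul] at h3
      exact h3
    have hn := h.hn
    obtain ⟨d, hd⟩ : ∃ d, r = k + d := ⟨r - k, by omega⟩
    have hd1 : 1 ≤ d := by omega
    have hdk : r - k = d := by omega
    rw [hdk] at hB
    have hnn : n = k * b + d * b + j := by
      rw [hn, hd]
      ring
    by_cases hkj : k ≤ j
    · rw [min_eq_left hkj] at hlt2
      -- then `ν p ≤ b`
      have h5 : ν p ≤ b := by
        by_contra h6
        have h7 : k * (b + 1) ≤ k * ν p := Nat.mul_le_mul_left k (by omega)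
        have h8 : k * (b + 1) = k * b + k := by ring
        omega
      have h9 : d * ν p ≤ d * b := Nat.mul_le_mul_left d h5
      omega
    · rw [min_eq_right (by omega)] at hlt2
      have h5 : b + 1 ≤ ν p := by
        by_contra h6
        have h9 : d * ν p ≤ d * b := Nat.mul_le_mul_left d (by omega)
        omega
      have h7 : k * (b + 1) ≤ k * ν p := Nat.mul_le_mul_left k h5
      have h8 : k * (b + 1) = k * b + k := by ring
      omega

end Pool.Agent.Helper32.HG
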