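import Mathlib
import Pool.Agent.Helper32.HG.BalF
import Pool.Agent.Helper32.HG.Ident
import Pool.Agent.Helper32.HG.Gex
import Pool.Agent.Helper32.HG.Fmain

/-!
# The lift of the balanced sums with variable sums
-/

namespace Pool.Agent.Helper32.HG

open Finset MvPolynomial
open scoped Classical

variable {n r : ℕ}

/-- the indices of the modified complete functions of a term -/
def nn (s : Fin r → ℤ) (τ : Equiv.Perm (Fin (r + r))) (i : Fin r) : ℤ :=
  s i - stair (r + r) (τ (Fin.castAdd r i)) - stair (r + r) (τ (Fin.natAdd r (Fin.rev i)))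

/-- the extension by zero of an integer vector -/
def ee {r : ℕ} (N : Fin r → ℤ) : ℕ → ℕ := fun k => if h : k < r then (N ⟨k, h⟩).toNat else 0

theorem ee_lt {N : Fin r → ℤ} (h0 : ∀ i, 0 ≤ N i) (i : Fin r) :
    ((ee N i.val : ℕ) : ℤ) = N i := by
  unfold ee
  rw [dif_pos i.isLt]
  exact Int.toNat_of_nonneg (h0 i)

theorem ee_ge (N : Fin r → ℤ) (k : ℕ) (hk : r ≤ k) : ee N k = 0 := by
  unfold ee
  rw [dif_neg (by omega)]

theorem sum_ee (hrn : r ≤ n) {N : Fin r → ℤ} (h0 : ∀ i, 0 ≤ N i) (hs : ∑ i, N i = n) :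
    ∑ v, tr n (ee N) v = n := by
  have h1 : ∑ v, tr n (ee N) v = ∑ k ∈ range n, ee N k := Fin.sum_univ_eq_sum_range (ee N) n
  have h2 : ∑ k ∈ range n, ee N k = ∑ k ∈ range r, ee N k := by
    symm
    apply sum_subset
    · intro k hk
      rw [mem_range] at hk ⊢
      omega
    · intro k _ hk
      rw [mem_range] at hk
      exact ee_ge N k (by omega)
  have h3 : ∑ k ∈ range r, ee N k = ∑ i : Fin r, ee N i.val :=
    (Fin.sum_univ_eq_sum_range (ee N) r).symm
  have h4 : ((∑ i : Fin r, ee N i.val : ℕ) : ℤ) = n := by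
    push_cast
    rw [sum_congr rfl (fun i _ => ee_lt h0 i)]
    exact hs
  rw [h1, h2, h3]
  exact_mod_cast h4

theorem sum_nn (s : Fin r → ℤ) (τ : Equiv.Perm (Fin (r + r))) :
    ∑ i, nn s τ i = ∑ i, s i - r * (2 * (r : ℤ) - 1) := by
  have h1 : ∑ x, stair (r + r) (τ x) = r * (2 * (r : ℤ) - 1) := by
    rw [Equiv.sum_comp τ (fun x => stair (r + r) x), sum_stair]
  rw [pair_sum] at h1
  rw [← h1, ← sum_sub_distrib]
  apply sum_congr rfl
  intro i _
  unfold nn
  ring

section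

variable {K : Type*} [Field K]

/-- the expansion of the sum for fixed sums -/
theorem Fs_expand (q : K) (hq : q ≠ 0) (s : Fin r → ℤ) :
    ∑ u ∈ Fintype.piFinset (fun i : Fin r => Finset.Icc (0 : ℤ) (s i)),
      (∏ i, q ^ (s i - u i)) • Sd n K (balf s u) =
    ∑ τ : Equiv.Perm (Fin (r + r)), ((Equiv.Perm.sign τ : ℤ)) •
      ∏ i : Fin r, (q ^ (stair (r + r) (τ (Fin.natAdd r (Fin.rev i))))) • gz n q (nn s τ i) := by
  have h1 : ∀ u : Fin r → ℤ, (∏ i, q ^ (s i - u i)) • Sd n K (balf s u) =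
      ∑ τ : Equiv.Perm (Fin (r + r)), ((Equiv.Perm.sign τ : ℤ)) •
        ∏ i, (q ^ (s i - u i)) •
        (hz n K (u i - stair (r + r) (τ (Fin.castAdd r i))) *
        hz n K (s i - u i - stair (r + r) (τ (Fin.natAdd r (Fin.rev i))))) := by
    intro u
    rw [Sd_expand, smul_sum]
    apply sum_congr rfl
    intro τ _
    rw [smul_comm]
    congr 1
    rw [Fin.prod_univ_add]
    have e1 : ∏ i : Fin r, hz n K (balf s u (Fin.natAdd r i) -
        stair (r + r) (τ (Fin.natAdd r i))) =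
        ∏ i : Fin r, hz n K (s i - u i - stair (r + r) (τ (Fin.natAdd r (Fin.rev i)))) := by
      rw [← Equiv.prod_comp Fin.revPerm]
      apply prod_congr rfl
      intro i _
      rw [Fin.revPerm_apply, balf_natAdd, Fin.rev_rev]
    rw [e1]
    simp only [Algebra.smul_def]
    rw [map_prod, prod_mul_distrib, prod_mul_distrib]
    congr 2
    apply prod_congr rfl
    intro i _
    rw [balf_castAdd]
  rw [sum_congr rfl (fun u _ => h1 u), sum_comm]
  apply sum_congr rfl
  intro τ _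
  rw [← smul_sum]
  congr 1
  rw [← prod_univ_sum (fun i : Fin r => Finset.Icc (0 : ℤ) (s i)) (fun i (v : ℤ) =>
    (q ^ (s i - v)) •
        (hz n K (v - stair (r + r) (τ (Fin.castAdd r i))) *
        hz n K (s i - v - stair (r + r) (τ (Fin.natAdd r (Fin.rev i))))))]
  apply prod_congr rfl
  intro i _
  have h2 := gz_sum (n := n) q hq (s i) 0 (stair (r + r) (τ (Fin.castAdd r i)))
    (stair (r + r) (τ (Fin.natAdd r (Fin.rev i)))) (by
      have := stair_nonneg (τ (Fin.castAdd r i))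
      omega) (by
      have := stair_nonneg (τ (Fin.natAdd r (Fin.rev i)))
      omega)
  rw [neg_zero, add_zero] at h2
  exact h2

end

section

variable {K : Type} [Field K] [CharZero K]

/-- the lift of a term -/
noncomputable def lt1 (n : ℕ) {r : ℕ} {K : Type} [Field K] (q : K) (s : Fin r → ℤ)
    (τ : Equiv.Perm (Fin (r + r))) : MvPolynomial (Fin n) K :=
  if ∀ i, 0 ≤ nn s τ i then
    (∏ i : Fin r, q ^ (stair (r + r) (τ (Fin.natAdd r (Fin.rev i))))) •
      ∏ v, gh n (fun j => 1 + q ^ j) (tr n (ee (nn s τ)) v) else 0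

theorem Psi_lt1 (hrn : r ≤ n) (q : K) (hq : ∀ j : ℕ, 0 < j → 1 + q ^ j ≠ 0) (s : Fin r → ℤ)
    (hs : ∑ i, s i - r * (2 * (r : ℤ) - 1) = n) (τ : Equiv.Perm (Fin (r + r))) :
    Psi n K (lt1 n q s τ) =
      ∏ i : Fin r, (q ^ (stair (r + r) (τ (Fin.natAdd r (Fin.rev i))))) • gz n q (nn s τ i) := by
  unfold lt1
  by_cases h0 : ∀ i, 0 ≤ nn s τ i
  · rw [if_pos h0, map_smul, map_prod]
    have hsum := sum_ee hrn h0 ((sum_nn s τ).trans hs)
    have e1 : ∏ v, Psi n K (gh n (fun j => 1 + q ^ j) (tr n (ee (nn s τ)) v)) =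
        ∏ v, gz n q ((tr n (ee (nn s τ)) v : ℕ) : ℤ) := by
      apply prod_congr rfl
      intro v _
      apply Psi_gh q hq
      exact le_trans (single_le_sum (f := tr n (ee (nn s τ))) (fun _ _ => Nat.zero_le _)
        (mem_univ v)) hsum.le
    have e2 : ∏ v, gz n q ((tr n (ee (nn s τ)) v : ℕ) : ℤ) =
        ∏ k ∈ range n, gz n q ((ee (nn s τ) k : ℕ) : ℤ) :=
      Fin.prod_univ_eq_prod_range (fun k => gz n q ((ee (nn s τ) k : ℕ) : ℤ)) n
    have e3 : ∏ k ∈ range n, gz n q ((ee (nn s τ) k : ℕ) : ℤ) =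
        ∏ k ∈ range r, gz n q ((ee (nn s τ) k : ℕ) : ℤ) := by
      symm
      apply prod_subset
      · intro k hk
        rw [mem_range] at hk ⊢
        omega
      · intro k _ hk
        rw [mem_range] at hk
        rw [ee_ge _ k (by omega)]
        exact gz_zero q
    have e4 : ∏ k ∈ range r, gz n q ((ee (nn s τ) k : ℕ) : ℤ) =
        ∏ i : Fin r, gz n q ((ee (nn s τ) i.val : ℕ) : ℤ) :=
      (Fin.prod_univ_eq_prod_range (fun k => gz n q ((ee (nn s τ) k : ℕ) : ℤ)) r).symm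
    have e5 : ∏ i : Fin r, gz n q ((ee (nn s τ) i.val : ℕ) : ℤ) =
        ∏ i : Fin r, gz n q (nn s τ i) := by
      apply prod_congr rfl
      intro i _
      rw [ee_lt h0 i]
    rw [e1, e2, e3, e4, e5]
    simp only [Algebra.smul_def]
    rw [map_prod, prod_mul_distrib]
  · rw [if_neg h0, map_zero]
    push Not at h0
    obtain ⟨i, hi⟩ := h0
    symm
    apply prod_eq_zero (mem_univ i)
    rw [gz_neg q _ hi, smul_zero]

theorem lt1_wt (hrn : r ≤ n) (q : K) (s : Fin r → ℤ)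
    (hs : ∑ i, s i - r * (2 * (r : ℤ) - 1) = n) (τ : Equiv.Perm (Fin (r + r))) :
    WtN n (lt1 n q s τ) := by
  unfold lt1
  by_cases h0 : ∀ i, 0 ≤ nn s τ i
  · rw [if_pos h0]
    apply WtN.smul
    intro d hd
    have h1 := wtK_prod (n := n) (fun j => 1 + q ^ j) univ (tr n (ee (nn s τ))) d hd
    rw [sum_ee hrn h0 ((sum_nn s τ).trans hs)] at h1
    exact h1
  · rw [if_neg h0]
    exact WtN.zero

theorem lt1_orth (hrn : r ≤ n) (q : K) (hq : ∀ j : ℕ, 0 < j → 1 + q ^ j ≠ 0) (s : Fin r → ℤ)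
    (τ : Equiv.Perm (Fin (r + r))) (ν : Fin n → ℕ)
    (hν : r < (univ.filter (fun i : Fin n => ν i ≠ 0)).card)
    (g : MvPolynomial (Fin n) K) (hg : Psi n K g = msym n K ν) :
    Bf (fun j => 1 + q ^ j) g (lt1 n q s τ) = 0 := by
  unfold lt1
  by_cases h0 : ∀ i, 0 ≤ nn s τ i
  · rw [if_pos h0, bf_smul_right, ← coeff_Psi (fun j => 1 + q ^ j) hq, hg, coeff_msym, if_neg,
      mul_zero]
    rintro ⟨π, hπ⟩
    have h1 : (univ.filter (fun i : Fin n => ν i ≠ 0)).card =
        (univ.filter (fun v : Fin n => tr n (ee (nn s τ)) v ≠ 0)).card := by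
      rw [hπ]
      apply card_bij' (fun x _ => π.symm x) (fun x _ => π x)
      · intro a ha
        rw [mem_filter] at ha ⊢
        refine ⟨mem_univ _, ?_⟩
        show ν (π (π.symm a)) ≠ 0
        rw [Equiv.apply_symm_apply]
        exact ha.2
      · intro a ha
        rw [mem_filter] at ha ⊢
        exact ⟨mem_univ _, ha.2⟩
      · intro a _
        exact Equiv.apply_symm_apply π a
      · intro a _
        exact Equiv.symm_apply_apply π a
    have h2 : (univ.filter (fun v : Fin n => tr n (ee (nn s τ)) v ≠ 0)) ⊆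
        (univ.filter (fun v : Fin n => v.val < r)) := by
      intro v hv
      rw [mem_filter] at hv ⊢
      refine ⟨mem_univ _, ?_⟩
      by_contra h3
      exact hv.2 (ee_ge _ v.val (by omega))
    have h3 := card_le_card h2
    rw [card_lt r hrn] at h3
    omega
  · rw [if_neg h0, bf_zero_right]

/-- the lift of the balanced sums -/
theorem nr_lift {n r b j : ℕ} (hr : 1 ≤ r) (hb : 1 ≤ b) (hj : j ≤ r) (hn : n = r * b + j)
    {K : Type} [Field K] [CharZero K] (q : K) (hq : q ≠ 0)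
    (hq2 : ∀ j : ℕ, 0 < j → 1 + q ^ j ≠ 0) :
    ∃ f : MvPolynomial (Fin n) K, WtN n f ∧
      Psi n K f = ∑ δ ∈ (Fintype.piFinset (fun _ : Fin r => Finset.Icc (0 : ℤ) 1)).filter
          (fun δ => ∑ i, δ i = (j : ℤ)),
        ∑ u ∈ Fintype.piFinset (fun i : Fin r => Finset.Icc (0 : ℤ) ((b : ℤ) + 2 * r - 1 + δ i)),
          (∏ i, q ^ ((b : ℤ) + 2 * r - 1 + δ i - u i)) •
            Sd n K (balf (fun i => (b : ℤ) + 2 * r - 1 + δ i) u) ∧
      ∀ (ν : Fin n → ℕ) (g : MvPolynomial (Fin n) K),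
        r < (univ.filter (fun i : Fin n => ν i ≠ 0)).card → Psi n K g = msym n K ν →
          Bf (fun j => 1 + q ^ j) g f = 0 := by
  have hrn : r ≤ n := by
    rw [hn]
    have := Nat.mul_le_mul_left r hb
    omega
  have hs : ∀ δ ∈ (Fintype.piFinset (fun _ : Fin r => Finset.Icc (0 : ℤ) 1)).filter
      (fun δ => ∑ i, δ i = (j : ℤ)),
      ∑ i, ((b : ℤ) + 2 * r - 1 + δ i) - r * (2 * (r : ℤ) - 1) = n := by
    intro δ hδ
    rw [mem_filter] at hδ
    rw [sum_add_distrib, hδ.2, sum_const, card_univ, Fintype.card_fin, nsmul_eq_mul, hn]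
    push_cast
    ring
  refine ⟨∑ δ ∈ (Fintype.piFinset (fun _ : Fin r => Finset.Icc (0 : ℤ) 1)).filter
      (fun δ => ∑ i, δ i = (j : ℤ)), ∑ τ : Equiv.Perm (Fin (r + r)),
      ((Equiv.Perm.sign τ : ℤ) : K) • lt1 n q (fun i => (b : ℤ) + 2 * r - 1 + δ i) τ,
      ?_, ?_, ?_⟩
  · apply WtN.sum
    intro δ hδ
    apply WtN.sum
    intro τ _
    exact (lt1_wt hrn q _ (hs δ hδ) τ).smul _
  · rw [map_sum]
    apply sum_congr rfl
    intro δ hδ
    rw [Fs_expand q hq (fun i => (b : ℤ) + 2 * r - 1 + δ i), map_sum]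
    apply sum_congr rfl
    intro τ _
    rw [map_smul, Psi_lt1 hrn q hq2 _ (hs δ hδ), Int.cast_smul_eq_zsmul]
  · intro ν g hν hg
    rw [bf_sum_right]
    apply sum_eq_zero
    intro δ _
    rw [bf_sum_right]
    apply sum_eq_zero
    intro τ _
    rw [bf_smul_right, lt1_orth hrn q hq2 _ τ ν hν g hg, mul_zero]

end

end Pool.Agent.Helper32.HG
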