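import Mathlib
import Pool.Agent.Helper32.HG.Cmu

/-!
# Partitions with at most one exceptional part
-/

namespace Pool.Agent.Helper32.HG

open Finset
open scoped Classical

variable {n : ℕ}

theorem mkDat {r c m i0 : ℕ} {ε : ℤ} (lam : Fin n → ℕ) (hs : ∑ i, lam i = n) (hr : 1 ≤ r)
    (hrn : r ≤ n) (hc : 1 ≤ c) (hi0 : i0 < r)
    (cas : (ε = 1 ∧ i0 = 0) ∨ (ε = -1 ∧ i0 + 1 = r ∧ m < c ∧ 1 ≤ m ∧ 2 ≤ r))
    (hl : ∀ i : Fin n, (lam i : ℤ) =
      (if i.val < r then (c : ℤ) else 0) + if i.val = i0 then ε * m else 0) :
    Dat n r c m i0 ε ∧ lam = tr n (sq r c m i0 ε) := by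
  have h1 : (n : ℤ) = r * c + ε * m := by
    have h2 : ((∑ i, lam i : ℕ) : ℤ) = n := by rw [hs]
    rw [← h2]
    push_cast
    rw [sum_congr rfl (fun i _ => hl i), sum_add_distrib, ← sum_filter, sum_const,
      card_lt r hrn, nsmul_eq_mul]
    congr 1
    rw [sum_eq_single (⟨i0, by omega⟩ : Fin n)]
    · rw [if_pos rfl]
    · intro b _ hb
      rw [if_neg]
      intro h
      exact hb (Fin.ext h)
    · intro h
      exact absurd (mem_univ _) h
  have hd : Dat n r c m i0 ε := ⟨hr, hc, h1, cas⟩
  refine ⟨hd, ?_⟩
  funext i
  have h2 := hl i
  have h3 : (lam i : ℤ) = ((sq r c m i0 ε i.val : ℕ) : ℤ) := by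
    by_cases h4 : i.val < r
    · rw [h2, if_pos h4, sq_eq hd i.val h4]
    · rw [h2, if_neg h4, if_neg (by omega), sq_zero i.val (by omega)]
      simp
  exact_mod_cast h3

theorem lower_set {lam : Fin n → ℕ} (ha : Antitone lam) (i : Fin n) :
    lam i ≠ 0 ↔ i.val < (univ.filter (fun i : Fin n => lam i ≠ 0)).card := by
  constructor
  · intro h
    have h1 : (univ.filter (fun j : Fin n => j.val < i.val + 1)) ⊆
        univ.filter (fun i : Fin n => lam i ≠ 0) := by
      intro j hj
      rw [mem_filter] at hj ⊢
      refine ⟨mem_univ _, ?_⟩
      have := ha (show j ≤ i by rw [Fin.le_def]; omega)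
      omega
    have h2 := card_le_card h1
    rw [card_lt (i.val + 1) (by have := i.isLt; omega)] at h2
    omega
  · intro h h0
    have h1 : univ.filter (fun i : Fin n => lam i ≠ 0) ⊆
        univ.filter (fun j : Fin n => j.val < i.val) := by
      intro j hj
      rw [mem_filter] at hj ⊢
      refine ⟨mem_univ _, ?_⟩
      by_contra hcon
      have := ha (show i ≤ j by rw [Fin.le_def]; omega)
      have := hj.2
      omega
    have h2 := card_le_card h1
    rw [card_lt i.val (by have := i.isLt; omega)] at h2
    omega

theorem exists_dat {lam : Fin n → ℕ} (hlam : lam ∈ parts n) (hn : 0 < n) (b : ℕ)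
    (hb : (univ.filter (fun i : Fin n => lam i ≠ 0 ∧ lam i ≠ b)).card ≤ 1) :
    ∃ (r c m i0 : ℕ) (ε : ℤ), Dat n r c m i0 ε ∧ lam = tr n (sq r c m i0 ε) := by
  obtain ⟨ha, hs⟩ := (mem_parts lam).1 hlam
  set r := (univ.filter (fun i : Fin n => lam i ≠ 0)).card with hr
  have hlow : ∀ i : Fin n, lam i ≠ 0 ↔ i.val < r := fun i => lower_set ha i
  have hrn : r ≤ n := by
    have := card_filter_le (univ : Finset (Fin n)) (fun i : Fin n => lam i ≠ 0)
    rw [card_univ, Fintype.card_fin] at this
    exact this
  have hr1 : 1 ≤ r := by
    by_contra hcon
    have h0 : ∑ i, lam i = 0 := by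
      apply sum_eq_zero
      intro i _
      by_contra h
      have := (hlow i).1 h
      omega
    omega
  have hz : ∀ i : Fin n, ¬ i.val < r → lam i = 0 := by
    intro i hi
    by_contra h
    exact hi ((hlow i).1 h)
  by_cases hA : ∀ i : Fin n, lam i ≠ 0 → lam i = b
  · have hb1 : 1 ≤ b := by
      have h1 := (hlow ⟨0, hn⟩).2 (by show 0 < r; omega)
      have := hA _ h1
      omega
    refine ⟨r, b, 0, 0, 1, mkDat lam hs hr1 hrn hb1 (by omega) (Or.inl ⟨rfl, rfl⟩) ?_⟩
    intro i
    by_cases hi : i.val < r
    · rw [if_pos hi, hA i ((hlow i).2 hi)]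
      simp
    · rw [if_neg hi, hz i hi]
      simp
  · push Not at hA
    obtain ⟨s, hs0, hsb⟩ := hA
    have hsr : s.val < r := (hlow s).1 hs0
    have hoth : ∀ i : Fin n, i ≠ s → i.val < r → lam i = b := by
      intro i his hir
      by_contra hib
      have h1 : ({i, s} : Finset (Fin n)) ⊆
          univ.filter (fun i : Fin n => lam i ≠ 0 ∧ lam i ≠ b) := by
        intro j hj
        rw [mem_insert, mem_singleton] at hj
        rw [mem_filter]
        rcases hj with rfl | rfl
        · exact ⟨mem_univ _, (hlow j).2 hir, hib⟩
        · exact ⟨mem_univ _, hs0, hsb⟩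
      have h2 := card_le_card h1
      rw [card_pair his] at h2
      omega
    by_cases hr2 : r = 1
    · have hs00 : s = ⟨0, hn⟩ := Fin.ext (by show s.val = 0; omega)
      have hval : lam s = n := by
        have h3 : ∑ i, lam i = lam s := by
          apply sum_eq_single s
          · intro i _ his
            apply hz
            intro h4
            apply his
            apply Fin.ext
            omega
          · intro h4
            exact absurd (mem_univ _) h4
        rw [← h3, hs]
      refine ⟨1, n, 0, 0, 1, mkDat lam hs le_rfl (by omega) (by omega) (by omega)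
        (Or.inl ⟨rfl, rfl⟩) ?_⟩
      intro i
      by_cases hi : i.val < 1
      · have h5 : i = s := by
          apply Fin.ext
          omega
        rw [if_pos hi, h5, hval]
        simp
      · rw [if_neg hi, hz i (by omega)]
        simp
    · have hr22 : 2 ≤ r := by omega
      rcases lt_or_gt_of_ne hsb with hlt | hgt
      · -- the exceptional part is smaller
        have hs1 : s.val + 1 = r := by
          by_contra hcon
          have h1 : lam ⟨r - 1, by omega⟩ = b := by
            apply hoth
            · intro h2
              have := congrArg Fin.val h2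
              simp only at this
              omega
            · show r - 1 < r
              omega
          have h2 := ha (show s ≤ ⟨r - 1, by omega⟩ by
            rw [Fin.le_def]
            show s.val ≤ r - 1
            omega)
          omega
        refine ⟨r, b, b - lam s, s.val, -1, mkDat lam hs hr1 hrn (by omega) hsr
          (Or.inr ⟨rfl, hs1, by omega, by omega, hr22⟩) ?_⟩
        intro i
        by_cases hi : i.val < r
        · rw [if_pos hi]
          by_cases his : i = s
          · rw [his, if_pos rfl]
            push_cast [hlt.le]
            ring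
          · rw [if_neg (fun h => his (Fin.ext h)), hoth i his hi]
            ring
        · rw [if_neg hi, hz i hi, if_neg (by omega)]
          simp
      · -- the exceptional part is larger
        have hs1 : s.val = 0 := by
          by_contra hcon
          have h1 : lam ⟨0, hn⟩ = b := by
            apply hoth
            · intro h2
              have := congrArg Fin.val h2
              simp only at this
              omega
            · show 0 < r
              omega
          have h2 := ha (show (⟨0, hn⟩ : Fin n) ≤ s by
            rw [Fin.le_def]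
            exact Nat.zero_le _)
          omega
        have hb1 : 1 ≤ b := by
          have h1 : lam ⟨1, by omega⟩ = b := by
            apply hoth
            · intro h2
              have := congrArg Fin.val h2
              simp only at this
              omega
            · show 1 < r
              omega
          have h2 := (hlow ⟨1, by omega⟩).2 (show 1 < r by omega)
          omega
        refine ⟨r, b, lam s - b, 0, 1, mkDat lam hs hr1 hrn hb1 (by omega)
          (Or.inl ⟨rfl, rfl⟩) ?_⟩
        intro i
        by_cases hi : i.val < r
        · rw [if_pos hi]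
          by_cases his : i = s
          · rw [his, if_pos hs1]
            push_cast [hgt.le]
            ring
          · rw [if_neg (fun h => his (Fin.ext (by rw [h, hs1]))), hoth i his hi]
            ring
        · rw [if_neg hi, hz i hi, if_neg (by omega)]
          simp

end Pool.Agent.Helper32.HG
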