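import Mathlib
import Pool.Agent.Helper32.HG.Fam
import Pool.Agent.Helper32.HG.Loc
import Pool.Agent.Helper32.HG.Aniso
import Pool.Agent.Helper32.HG.Fmain
import Pool.Agent.Helper32.HG.Pos

/-!
# Two parameters: specialisation at `t = q ^ 2`
-/

namespace Pool.Agent.Helper32.HG

open Finset MvPolynomial
open scoped Classical

/-- the parameter `q` over the rational numbers -/
noncomputable def q1 : RatFunc ℚ := RatFunc.X

/-- the parameter `q` in the field with two parameters -/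
noncomputable def q2 : RatFunc (RatFunc ℚ) := RatFunc.C RatFunc.X

/-- the parameter `t` in the field with two parameters -/
noncomputable def t2 : RatFunc (RatFunc ℚ) := RatFunc.X

theorem q1_ne : q1 ≠ 0 := RatFunc.X_ne_zero

theorem one_sub_ne (j : ℕ) (hj : 0 < j) : 1 - q1 ^ j ≠ 0 := by
  intro h
  have h1 : q1 ^ j = 1 := (sub_eq_zero.1 h).symm
  unfold q1 at h1
  rw [← RatFunc.algebraMap_X, ← map_pow, ← map_one (algebraMap (Polynomial ℚ) (RatFunc ℚ))] at h1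
  have h2 := RatFunc.algebraMap_injective ℚ h1
  have h3 := congrArg Polynomial.natDegree h2
  rw [Polynomial.natDegree_X_pow, Polynomial.natDegree_one] at h3
  omega

theorem one_add_ne (j : ℕ) : 1 + q1 ^ j ≠ 0 := by
  intro h
  obtain ⟨φ, hφ⟩ := exists_embedding
  have h1 := congrArg φ h
  unfold q1 at h1
  rw [map_add, map_one, map_pow, map_zero] at h1
  have : 0 < φ RatFunc.X ^ j := by positivity
  linarith

theorem om_reg (j : ℕ) (hj : 0 < j) :
    Reg (q1 ^ 2) (om q2 t2 j) ∧ evc (q1 ^ 2) (om q2 t2 j) = 1 + q1 ^ j := by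
  have e1 : om q2 t2 j = (RatFunc.C 1 + -(t2 ^ j)) * RatFunc.C ((1 - q1 ^ j)⁻¹) := by
    unfold om q2 t2 q1
    rw [map_one, map_inv₀, map_sub, map_one, map_pow, div_eq_mul_inv, sub_eq_add_neg]
  rw [e1]
  have h1 := Reg.pow (Reg.var (c := q1 ^ 2)).1 j
  have h2 := Reg.neg h1.1
  have h3 := Reg.add (Reg.const (c := q1 ^ 2) 1).1 h2.1
  have h4 := Reg.mul h3.1 (Reg.const (c := q1 ^ 2) ((1 - q1 ^ j)⁻¹)).1
  refine ⟨h4.1, ?_⟩
  unfold t2
  rw [h4.2, h3.2, (Reg.const _).2, h2.2, h1.2, Reg.var.2, (Reg.const _).2]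
  have := one_sub_ne j hj
  field_simp
  ring

theorem wgt_reg {n : ℕ} (d : Fin n →₀ ℕ) :
    Reg (q1 ^ 2) (wgt (om q2 t2) d) ∧
      evc (q1 ^ 2) (wgt (om q2 t2) d) = wgt (fun j => 1 + q1 ^ j) d := by
  unfold wgt
  have h1 : ∀ i : Fin n, Reg (q1 ^ 2) ((((i.val + 1 : ℕ) : RatFunc (RatFunc ℚ))) ^ (d i) *
      ((d i).factorial : RatFunc (RatFunc ℚ)) / (om q2 t2 (i.val + 1)) ^ (d i)) ∧
      evc (q1 ^ 2) ((((i.val + 1 : ℕ) : RatFunc (RatFunc ℚ))) ^ (d i) *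
      ((d i).factorial : RatFunc (RatFunc ℚ)) / (om q2 t2 (i.val + 1)) ^ (d i)) =
      (((i.val + 1 : ℕ) : RatFunc ℚ)) ^ (d i) *
      ((d i).factorial : RatFunc ℚ) / (1 + q1 ^ (i.val + 1)) ^ (d i) := by
    intro i
    have e1 : (((i.val + 1 : ℕ) : RatFunc (RatFunc ℚ))) ^ (d i) *
      ((d i).factorial : RatFunc (RatFunc ℚ)) / (om q2 t2 (i.val + 1)) ^ (d i) =
      RatFunc.C ((((i.val + 1 : ℕ) : RatFunc ℚ)) ^ (d i) * ((d i).factorial : RatFunc ℚ)) *
        ((om q2 t2 (i.val + 1)) ^ (d i))⁻¹ := by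
      rw [map_mul, map_pow, map_natCast, map_natCast, div_eq_mul_inv]
    rw [e1]
    obtain ⟨h2, h3⟩ := om_reg (i.val + 1) (Nat.succ_pos _)
    have h4 := Reg.pow h2 (d i)
    have h5 : evc (q1 ^ 2) ((om q2 t2 (i.val + 1)) ^ (d i)) ≠ 0 := by
      rw [h4.2, h3]
      exact pow_ne_zero _ (one_add_ne _)
    have h6 := Reg.inv h4.1 h5
    have h7 := Reg.mul (Reg.const (c := q1 ^ 2)
      ((((i.val + 1 : ℕ) : RatFunc ℚ)) ^ (d i) * ((d i).factorial : RatFunc ℚ))).1 h6.1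
    refine ⟨h7.1, ?_⟩
    rw [h7.2, (Reg.const _).2, h6.2, h4.2, h3, div_eq_mul_inv]
  obtain ⟨h2, h3⟩ := Reg.prod (c := q1 ^ 2) univ _ (fun i _ => (h1 i).1)
  refine ⟨h2, ?_⟩
  rw [h3]
  apply prod_congr rfl
  intro i _
  exact (h1 i).2

/-- the two embeddings of the rational numbers -/
noncomputable def ph1 : ℚ →+* RatFunc ℚ := RatFunc.C

/-- the two embeddings of the rational numbers -/
noncomputable def ph2 : ℚ →+* RatFunc (RatFunc ℚ) := RatFunc.C.comp ph1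

theorem ph_reg (x : ℚ) : Reg (q1 ^ 2) (ph2 x) ∧ evc (q1 ^ 2) (ph2 x) = ph1 x :=
  Reg.const (ph1 x)

variable {n : ℕ}

theorem Bf_reg (a b : MvPolynomial (Fin n) ℚ) :
    Reg (q1 ^ 2) (Bf (om q2 t2) (map ph2 a) (map ph2 b)) ∧
      evc (q1 ^ 2) (Bf (om q2 t2) (map ph2 a) (map ph2 b)) =
        Bf (fun j => 1 + q1 ^ j) (map ph1 a) (map ph1 b) := by
  rw [bf_eq_sum (om q2 t2) (support_map_subset ph2 a),
    bf_eq_sum (fun j => 1 + q1 ^ j) (support_map_subset ph1 a)]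
  have h1 : ∀ d : Fin n →₀ ℕ, Reg (q1 ^ 2) (coeff d (map ph2 a) * coeff d (map ph2 b) *
      wgt (om q2 t2) d) ∧ evc (q1 ^ 2) (coeff d (map ph2 a) * coeff d (map ph2 b) *
      wgt (om q2 t2) d) = coeff d (map ph1 a) * coeff d (map ph1 b) *
      wgt (fun j => 1 + q1 ^ j) d := by
    intro d
    rw [coeff_map, coeff_map, coeff_map, coeff_map]
    have h2 := Reg.mul (ph_reg (coeff d a)).1 (ph_reg (coeff d b)).1
    have h3 := Reg.mul h2.1 (wgt_reg d).1
    refine ⟨h3.1, ?_⟩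
    rw [h3.2, h2.2, (ph_reg _).2, (ph_reg _).2, (wgt_reg d).2]
  obtain ⟨h2, h3⟩ := Reg.sum (c := q1 ^ 2) a.support _ (fun d _ => (h1 d).1)
  refine ⟨h2, ?_⟩
  rw [h3]
  apply sum_congr rfl
  intro d _
  exact (h1 d).2

theorem wtN_map {K K' : Type} [Field K] [Field K'] (φ : K →+* K') {g : MvPolynomial (Fin n) K}
    (hg : WtN n g) : WtN n (map φ g) := by
  intro d hd
  apply hg d
  intro h
  rw [coeff_map, h, map_zero] at hd
  exact hd rfl

theorem coeff_msym_parts {K : Type*} [CommRing K] {ν κ : Fin n → ℕ} (hν : ν ∈ parts n)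
    (hκ : κ ∈ parts n) : coeff (ex ν) (msym n K κ) = if ν = κ then 1 else 0 := by
  rw [coeff_msym]
  by_cases h : ν = κ
  · rw [if_pos h, if_pos ⟨1, by rw [h]; rfl⟩]
  · rw [if_neg h, if_neg]
    rintro ⟨σ, hσ⟩
    exact h (sort_unique ((mem_parts ν).1 hν).1 ((mem_parts κ).1 hκ).1 hσ)

theorem cpr_reg (lam : Fin n → ℕ) : Reg (q1 ^ 2) (cpr q2 t2 lam) ∧
    evc (q1 ^ 2) (cpr q2 t2 lam) = cpr q1 (q1 ^ 2) lam := by
  unfold cpr
  have h1 : ∀ (a b : ℕ), Reg (q1 ^ 2) (1 - q2 ^ a * t2 ^ b) ∧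
      evc (q1 ^ 2) (1 - q2 ^ a * t2 ^ b) = 1 - q1 ^ a * (q1 ^ 2) ^ b := by
    intro a b
    have e1 : (1 : RatFunc (RatFunc ℚ)) - q2 ^ a * t2 ^ b =
        RatFunc.C 1 + -(RatFunc.C (q1 ^ a) * t2 ^ b) := by
      unfold q2 q1
      rw [map_one, map_pow, sub_eq_add_neg]
    rw [e1]
    have h2 := Reg.pow (Reg.var (c := q1 ^ 2)).1 b
    have h3 := Reg.mul (Reg.const (c := q1 ^ 2) (q1 ^ a)).1 h2.1
    have h4 := Reg.neg h3.1
    have h5 := Reg.add (Reg.const (c := q1 ^ 2) 1).1 h4.1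
    refine ⟨h5.1, ?_⟩
    unfold t2
    rw [h5.2, (Reg.const _).2, h4.2, h3.2, (Reg.const _).2, h2.2, Reg.var.2]
    ring
  have h6 : ∀ i : Fin n, Reg (q1 ^ 2) (∏ j ∈ range (lam i),
      (1 - q2 ^ (lam i - j - 1) * t2 ^ (leg lam i j + 1))) ∧
      evc (q1 ^ 2) (∏ j ∈ range (lam i), (1 - q2 ^ (lam i - j - 1) * t2 ^ (leg lam i j + 1))) =
      ∏ j ∈ range (lam i), (1 - q1 ^ (lam i - j - 1) * (q1 ^ 2) ^ (leg lam i j + 1)) := by
    intro i
    obtain ⟨h7, h8⟩ := Reg.prod (c := q1 ^ 2) (range (lam i)) _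
      (fun j _ => (h1 (lam i - j - 1) (leg lam i j + 1)).1)
    refine ⟨h7, ?_⟩
    rw [h8]
    apply prod_congr rfl
    intro j _
    exact (h1 _ _).2
  obtain ⟨h7, h8⟩ := Reg.prod (c := q1 ^ 2) univ _ (fun i _ => (h6 i).1)
  refine ⟨h7, ?_⟩
  rw [h8]
  apply prod_congr rfl
  intro i _
  exact (h6 i).2

/-- the coefficients of a Macdonald polynomial specialise -/
theorem spec {P : (Fin n → ℕ) → MvPolynomial (Fin n) (RatFunc (RatFunc ℚ))}
    (hP : IsMac n q2 t2 P) {lam : Fin n → ℕ} (hlam : lam ∈ parts n)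
    (gQ : (Fin n → ℕ) → MvPolynomial (Fin n) ℚ)
    (hgQ : ∀ ν ∈ parts n, WtN n (gQ ν) ∧ Psi n ℚ (gQ ν) = msym n ℚ ν)
    (u : (Fin n → ℕ) → RatFunc (RatFunc ℚ))
    (hu : P lam = msym n _ lam + ∑ ν ∈ below n lam, u ν • msym n _ ν) :
    (∀ ν ∈ below n lam, Reg (q1 ^ 2) (u ν)) ∧
      ∀ κ ∈ below n lam, Bf (fun j => 1 + q1 ^ j) (map ph1 (gQ κ))
        (map ph1 (gQ lam) + ∑ ν ∈ below n lam, evc (q1 ^ 2) (u ν) • map ph1 (gQ ν)) = 0 := by
  have hg2 : ∀ ν ∈ parts n, WtN n (map ph2 (gQ ν)) ∧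
      Psi n _ (map ph2 (gQ ν)) = msym n _ ν := by
    intro ν hν
    refine ⟨wtN_map ph2 (hgQ ν hν).1, ?_⟩
    rw [Psi_map, (hgQ ν hν).2, msym_map]
  have hg1 : ∀ ν ∈ parts n, WtN n (map ph1 (gQ ν)) ∧
      Psi n _ (map ph1 (gQ ν)) = msym n _ ν := by
    intro ν hν
    refine ⟨wtN_map ph1 (hgQ ν hν).1, ?_⟩
    rw [Psi_map, (hgQ ν hν).2, msym_map]
  set p2 := map ph2 (gQ lam) + ∑ ν ∈ below n lam, u ν • map ph2 (gQ ν) with hp2
  have hp2w : WtN n p2 := by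
    apply ((hg2 lam hlam).1).add
    apply WtN.sum
    intro ν hν
    exact ((hg2 ν (mem_below.1 hν).1).1).smul _
  have hp2P : Psi n _ p2 = P lam := by
    rw [hp2, map_add, map_sum, hu, (hg2 lam hlam).2]
    congr 1
    apply sum_congr rfl
    intro ν hν
    rw [map_smul, (hg2 ν (mem_below.1 hν).1).2]
  have hlow : ∀ κ ∈ below n lam, ∑ ν ∈ below n lam,
      u ν * Bf (om q2 t2) (map ph2 (gQ ν)) (map ph2 (gQ κ)) +
        Bf (om q2 t2) (map ph2 (gQ lam)) (map ph2 (gQ κ)) = 0 := by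
    intro κ hκ
    have h1 := hP.low hlam (fun ν => map ph2 (gQ ν)) hg2 hp2w hp2P (stat κ + 1) κ hκ
      (Nat.lt_succ_self _)
    rw [hp2, bf_add_left, bf_sum_left] at h1
    rw [add_comm]
    rw [← h1]
    congr 1
    apply sum_congr rfl
    intro ν _
    rw [bf_smul_left]
  obtain ⟨h3, h4⟩ := loc_solve (c := q1 ^ 2) (below n lam)
    (fun ν κ => Bf (om q2 t2) (map ph2 (gQ ν)) (map ph2 (gQ κ)))
    (fun κ => Bf (om q2 t2) (map ph2 (gQ lam)) (map ph2 (gQ κ))) u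
    (fun ν _ κ _ => (Bf_reg (gQ ν) (gQ κ)).1) (fun κ _ => (Bf_reg (gQ lam) (gQ κ)).1) hlow (by
      intro x hx
      set f := ∑ ν ∈ below n lam, x ν • map ph1 (gQ ν) with hf
      have hff : Bf (fun j => 1 + (RatFunc.X : RatFunc ℚ) ^ j) f f = 0 := by
        have e1 : Bf (fun j => 1 + q1 ^ j) f f = 0 := by
          conv_lhs => arg 3; rw [hf]
          rw [bf_sum_right]
          apply sum_eq_zero
          intro κ hκ
          rw [bf_smul_right, hf, bf_sum_left]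
          have h5 := hx κ hκ
          have h6 : ∑ ν ∈ below n lam, Bf (fun j => 1 + q1 ^ j) (x ν • map ph1 (gQ ν))
              (map ph1 (gQ κ)) = 0 := by
            rw [← h5]
            apply sum_congr rfl
            intro ν _
            rw [bf_smul_left, (Bf_reg (gQ ν) (gQ κ)).2]
          rw [h6, mul_zero]
        exact e1
      have hf0 := aniso f hff
      have hpsi : ∑ ν ∈ below n lam, x ν • msym n (RatFunc ℚ) ν = 0 := by
        have h5 : Psi n (RatFunc ℚ) f = 0 := by rw [hf0, map_zero]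
        rw [hf, map_sum] at h5
        rw [← h5]
        apply sum_congr rfl
        intro ν hν
        rw [map_smul, (hg1 ν (mem_below.1 hν).1).2]
      intro ν hν
      have h5 := congrArg (coeff (ex ν)) hpsi
      rw [coeff_sum, coeff_zero, sum_eq_single_of_mem ν hν] at h5
      · rw [coeff_smul, coeff_msym_parts (mem_below.1 hν).1 (mem_below.1 hν).1, if_pos rfl,
          smul_eq_mul, mul_one] at h5
        exact h5
      · intro κ hκ hne
        rw [coeff_smul, coeff_msym_parts (mem_below.1 hν).1 (mem_below.1 hκ).1,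
          if_neg (Ne.symm hne), smul_zero])
  refine ⟨h3, ?_⟩
  intro κ hκ
  have h5 := h4 κ hκ
  rw [bf_add_right, bf_sum_right, add_comm]
  rw [← h5]
  congr 1
  · apply sum_congr rfl
    intro ν _
    rw [bf_smul_right, bf_symm, (Bf_reg (gQ ν) (gQ κ)).2]
  · rw [bf_symm, (Bf_reg (gQ lam) (gQ κ)).2]

/-- the value of a polynomial with natural coefficients -/
noncomputable def aev {K : Type*} [Field K] (q : K) (R : Polynomial ℕ) : K :=
  Polynomial.eval₂ (Nat.castRingHom K) q R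

theorem aev_eq {K : Type*} [Field K] (q : K) (R : Polynomial ℕ) :
    Polynomial.aeval q R = aev q R := rfl

theorem aev_mul {K : Type*} [Field K] (q : K) (R R' : Polynomial ℕ) :
    aev q (R * R') = aev q R * aev q R' := Polynomial.eval₂_mul _ _

/-- the data from which the positivity of the coefficients of a given partition follows -/
def Core (n : ℕ) (lam : Fin n → ℕ) : Prop :=
  ∃ (C : (Fin n → ℕ) → RatFunc ℚ) (f : MvPolynomial (Fin n) (RatFunc ℚ)), WtN n f ∧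
    Psi n _ f = ∑ μ ∈ parts n, C μ • schur n _ μ ∧
    (∀ μ ∈ parts n, C μ ≠ 0 → DomLe μ lam) ∧
    (∀ ν ∈ below n lam, ∀ g : MvPolynomial (Fin n) (RatFunc ℚ), Psi n _ g = msym n _ ν →
      Bf (fun j => 1 + q1 ^ j) g f = 0) ∧ C lam ≠ 0 ∧
    ∀ μ ∈ parts n, ∃ R : Polynomial ℕ,
      cpr q1 (q1 ^ 2) lam * C μ = C lam * ((1 - q1) ^ n * aev q1 R)

/-- the two-parameter theorem -/
theorem core_main {lam : Fin n → ℕ} (hlam : lam ∈ parts n) (hcore : Core n lam)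
    {P : (Fin n → ℕ) → MvPolynomial (Fin n) (RatFunc (RatFunc ℚ))} (hP : IsMac n q2 t2 P) :
    ∃ a : (Fin n → ℕ) → RatFunc (RatFunc ℚ),
      cpr q2 t2 lam • P lam = ∑ μ ∈ parts n, a μ • schur n _ μ ∧
      ∀ μ ∈ parts n, Reg (q1 ^ 2) (a μ) ∧ ∃ R : Polynomial ℕ,
        evc (q1 ^ 2) (a μ) = (1 - q1) ^ n * aev q1 R := by
  obtain ⟨C, f0, hf0w, hf0P, hCdom, hf0orth, hC0, hCpos⟩ := hcore
  have hex : ∀ ν : Fin n → ℕ, ∃ g : MvPolynomial (Fin n) ℚ, ν ∈ parts n →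
      (WtN n g ∧ Psi n ℚ g = msym n ℚ ν) := by
    intro ν
    by_cases hν : ν ∈ parts n
    · obtain ⟨g, hg⟩ := lift_exists (symH_msym (K := ℚ) hν)
      exact ⟨g, fun _ => hg⟩
    · exact ⟨0, fun h' => absurd h' hν⟩
  choose gQ hgQ using hex
  obtain ⟨u, hu⟩ := hP.tri lam hlam
  obtain ⟨hreg, horth⟩ := spec hP hlam gQ hgQ u hu
  have hg1 : ∀ ν ∈ parts n, WtN n (map ph1 (gQ ν)) ∧
      Psi n _ (map ph1 (gQ ν)) = msym n _ ν := by
    intro ν hν
    refine ⟨wtN_map ph1 (hgQ ν hν).1, ?_⟩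
    rw [Psi_map, (hgQ ν hν).2, msym_map]
  set p1 := map ph1 (gQ lam) + ∑ ν ∈ below n lam, evc (q1 ^ 2) (u ν) • map ph1 (gQ ν) with hp1
  have hp1w : WtN n p1 := by
    apply ((hg1 lam hlam).1).add
    apply WtN.sum
    intro ν hν
    exact ((hg1 ν (mem_below.1 hν).1).1).smul _
  have hp1P : Psi n _ p1 = msym n _ lam + ∑ ν ∈ below n lam, evc (q1 ^ 2) (u ν) • msym n _ ν := by
    rw [hp1, map_add, map_sum, (hg1 lam hlam).2]
    congr 1
    apply sum_congr rfl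
    intro ν hν
    rw [map_smul, (hg1 ν (mem_below.1 hν).1).2]
  have hmain : Psi n _ f0 = C lam • Psi n _ p1 := by
    have h2 := schur_comb lam hlam C hCdom
    rw [← hf0P] at h2
    exact ident (fun j => 1 + q1 ^ j) (fun f _ hf => aniso f hf) lam
      (fun ν => map ph1 (gQ ν)) (fun ν hν => hg1 ν (mem_below.1 hν).1) f0 p1 hf0w hp1w (C lam)
      (fun ν => coeff (ex ν) (Psi n _ f0)) (fun ν => evc (q1 ^ 2) (u ν)) h2 hp1P
      (fun ν hν => hf0orth ν hν _ (hg1 ν (mem_below.1 hν).1).2) horth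
  have hpos : ∀ μ : Fin n → ℕ, ∃ R : Polynomial ℕ, μ ∈ parts n →
      cpr q1 (q1 ^ 2) lam * C μ = C lam * ((1 - q1) ^ n * aev q1 R) := by
    intro μ
    by_cases hμ : μ ∈ parts n
    · obtain ⟨R, hR⟩ := hCpos μ hμ
      exact ⟨R, fun _ => hR⟩
    · exact ⟨0, fun h' => absurd h' hμ⟩
  choose R1 hR1 using hpos
  -- the specialised integral form
  have hJ1 : cpr q1 (q1 ^ 2) lam • Psi n _ p1 =
      ∑ μ ∈ parts n, ((1 - q1) ^ n * aev q1 (R1 μ)) • schur n _ μ := by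
    have e1 : Psi n _ p1 = (C lam)⁻¹ • Psi n _ f0 := by
      rw [hmain, smul_smul, inv_mul_cancel₀ hC0, one_smul]
    rw [e1, hf0P, smul_smul, smul_sum]
    apply sum_congr rfl
    intro μ hμ
    rw [smul_smul]
    congr 1
    have h3 := hR1 μ hμ
    field_simp
    linear_combination h3
  -- the integral form with two parameters
  have hJs : SymH n (cpr q2 t2 lam • P lam) := by
    rw [hu]
    apply SymH.smul
    apply (symH_msym hlam).add
    apply SymH.sum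
    intro ν hν
    exact (symH_msym (mem_below.1 hν).1).smul _
  obtain ⟨a, ha⟩ := sch_exists hJs
  have hcoefJ : ∀ ν ∈ parts n, Reg (q1 ^ 2) (coeff (ex ν) (cpr q2 t2 lam • P lam)) ∧
      evc (q1 ^ 2) (coeff (ex ν) (cpr q2 t2 lam • P lam)) =
        coeff (ex ν) (cpr q1 (q1 ^ 2) lam • Psi n _ p1) := by
    intro ν hν
    rw [hp1P, hu, coeff_smul, coeff_smul, coeff_add, coeff_add, coeff_sum, coeff_sum,
      smul_eq_mul, smul_eq_mul]
    have hm : ∀ κ ∈ parts n, Reg (q1 ^ 2) (coeff (ex ν) (msym n (RatFunc (RatFunc ℚ)) κ)) ∧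
        evc (q1 ^ 2) (coeff (ex ν) (msym n (RatFunc (RatFunc ℚ)) κ)) =
          coeff (ex ν) (msym n (RatFunc ℚ) κ) := by
      intro κ _
      rw [← msym_map ph2, ← msym_map ph1, coeff_map, coeff_map]
      exact ph_reg _
    have h1 : ∀ κ ∈ below n lam, Reg (q1 ^ 2)
        (coeff (ex ν) (u κ • msym n (RatFunc (RatFunc ℚ)) κ)) ∧
        evc (q1 ^ 2) (coeff (ex ν) (u κ • msym n (RatFunc (RatFunc ℚ)) κ)) =
        coeff (ex ν) (evc (q1 ^ 2) (u κ) • msym n (RatFunc ℚ) κ) := by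
      intro κ hκ
      rw [coeff_smul, coeff_smul, smul_eq_mul, smul_eq_mul]
      have h2 := Reg.mul (hreg κ hκ) (hm κ (mem_below.1 hκ).1).1
      refine ⟨h2.1, ?_⟩
      rw [h2.2, (hm κ (mem_below.1 hκ).1).2]
    have h3 := Reg.sum (c := q1 ^ 2) (below n lam) _ (fun κ hκ => (h1 κ hκ).1)
    have h4 := Reg.add (hm lam hlam).1 h3.1
    have h5 := Reg.mul (cpr_reg lam).1 h4.1
    refine ⟨h5.1, ?_⟩
    rw [h5.2, h4.2, h3.2, (cpr_reg lam).2, (hm lam hlam).2]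
    congr 2
    apply sum_congr rfl
    intro κ hκ
    exact (h1 κ hκ).2
  have hK : ∀ (μ ν : Fin n → ℕ), Reg (q1 ^ 2) (coeff (ex ν) (schur n (RatFunc (RatFunc ℚ)) μ)) ∧
      evc (q1 ^ 2) (coeff (ex ν) (schur n (RatFunc (RatFunc ℚ)) μ)) =
        coeff (ex ν) (schur n (RatFunc ℚ) μ) := by
    intro μ ν
    rw [← schur_map ph2, ← schur_map ph1, coeff_map, coeff_map]
    exact ph_reg _
  have hcoefa : ∀ ν : Fin n → ℕ, coeff (ex ν) (cpr q2 t2 lam • P lam) =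
      ∑ μ ∈ parts n, a μ * coeff (ex ν) (schur n (RatFunc (RatFunc ℚ)) μ) := by
    intro ν
    rw [ha, coeff_sum]
    apply sum_congr rfl
    intro μ _
    rw [coeff_smul, smul_eq_mul]
  -- regularity of the Schur coefficients
  have hregA : ∀ N : ℕ, ∀ ν ∈ parts n, (∑ κ ∈ parts n, stat κ) < stat ν + N →
      Reg (q1 ^ 2) (a ν) := by
    intro N
    induction N with
    | zero =>
      intro ν hν hlt
      exfalso
      have : stat ν ≤ ∑ κ ∈ parts n, stat κ := single_le_sum (fun _ _ => Nat.zero_le _) hν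
      omega
    | succ N ih =>
      intro ν hν hlt
      have h1 := hcoefa ν
      rw [← add_sum_erase _ _ hν, schur_diag ((mem_parts ν).1 hν).1, mul_one] at h1
      have h2 : ∀ μ ∈ (parts n).erase ν, Reg (q1 ^ 2)
          (a μ * coeff (ex ν) (schur n (RatFunc (RatFunc ℚ)) μ)) := by
        intro μ hμ
        rw [mem_erase] at hμ
        by_cases h3 : coeff (ex ν) (schur n (RatFunc (RatFunc ℚ)) μ) = 0
        · rw [h3, mul_zero]
          have := (ph_reg 0).1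
          rwa [map_zero] at this
        · have h4 := domLe_of_supp ((mem_parts μ).1 hμ.2).1 ν h3
          have h5 := stat_lt h4 (Ne.symm hμ.1)
          exact (Reg.mul (ih μ hμ.2 (by omega)) (hK μ ν).1).1
      have h6 := Reg.sum (c := q1 ^ 2) _ _ h2
      have h7 : a ν = coeff (ex ν) (cpr q2 t2 lam • P lam) +
          -(∑ μ ∈ (parts n).erase ν, a μ * coeff (ex ν) (schur n (RatFunc (RatFunc ℚ)) μ)) := by
        rw [h1]
        ring
      rw [h7]
      exact (Reg.add (hcoefJ ν hν).1 (Reg.neg h6.1).1).1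
  have hregB : ∀ ν ∈ parts n, Reg (q1 ^ 2) (a ν) := fun ν hν =>
    hregA ((∑ κ ∈ parts n, stat κ) + 1) ν hν (by omega)
  have hJ2 : cpr q1 (q1 ^ 2) lam • Psi n _ p1 =
      ∑ μ ∈ parts n, evc (q1 ^ 2) (a μ) • schur n (RatFunc ℚ) μ := by
    apply SymH.ext
    · rw [hp1P]
      apply SymH.smul
      apply (symH_msym hlam).add
      apply SymH.sum
      intro ν hν
      exact (symH_msym (mem_below.1 hν).1).smul _
    · apply SymH.sum
      intro ν hν
      exact (symH_schur hν).smul _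
    · intro ν hν
      rw [← (hcoefJ ν hν).2, hcoefa ν, coeff_sum]
      have h1 := Reg.sum (c := q1 ^ 2) (parts n)
        (fun μ => a μ * coeff (ex ν) (schur n (RatFunc (RatFunc ℚ)) μ))
        (fun μ hμ => (Reg.mul (hregB μ hμ) (hK μ ν).1).1)
      rw [h1.2]
      apply sum_congr rfl
      intro μ hμ
      rw [(Reg.mul (hregB μ hμ) (hK μ ν).1).2, (hK μ ν).2, coeff_smul, smul_eq_mul]
  have hdiff : ∑ μ ∈ parts n, (evc (q1 ^ 2) (a μ) -
      (1 - q1) ^ n * aev q1 (R1 μ)) • schur n (RatFunc ℚ) μ = 0 := by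
    simp only [sub_smul]
    rw [sum_sub_distrib, ← hJ2, ← hJ1, sub_self]
  have hind := schur_indep _ hdiff
  refine ⟨a, ha, ?_⟩
  intro μ hμ
  refine ⟨hregB μ hμ, R1 μ, ?_⟩
  have := hind μ hμ
  linear_combination this

variable {r c m i0 : ℕ} {ε : ℤ}

/-- partitions with one exceptional part -/
theorem core_dat (h : Dat n r c m i0 ε) : Core n (tr n (sq r c m i0 ε)) := by
  have hfac : (r.factorial : RatFunc ℚ) ≠ 0 := by exact_mod_cast r.factorial_ne_zero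
  have hq2 : ∀ j : ℕ, 0 < j → 1 + q1 ^ j ≠ 0 := fun j _ => one_add_ne j
  refine ⟨Cc n r m ((c : ℤ) + 2 * r - 1) ε (fun k => q1 ^ k),
    (r.factorial : RatFunc ℚ)⁻¹ • f1 n r c m ε q1, (f1_wt h q1).smul _, ?_, ?_, ?_, ?_, ?_⟩
  · rw [map_smul, Psi_f1 h q1 hq2, Ag_eq h q1 q1_ne, smul_smul, inv_mul_cancel₀ hfac, one_smul]
  · intro μ _ hμ
    exact Cc_dom h _ μ hμ
  · intro ν hν g hg
    rw [bf_smul_right, f1_orth h q1 hq2 ν hν g hg, mul_zero]
  · rw [Cc_lam h q1]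
    exact Cl_ne h q1 q1_ne one_sub_ne
  · intro μ _
    obtain ⟨R0, hR0⟩ := cell h q1 q1_ne one_sub_ne
    rw [aev_eq] at hR0
    obtain ⟨R1, hR1⟩ := Cc_pos q1 q1_ne h μ
    rw [aev_eq] at hR1
    unfold e0 at hR1
    refine ⟨R0 * R1, ?_⟩
    rw [hR0, Cc_lam h q1, aev_mul]
    linear_combination (aev q1 R0 * Cl r c m i0 ε q1) * hR1

end Pool.Agent.Helper32.HG
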