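import Mathlib
import Pool.Agent.Helper32.HG.Ncmu
import Pool.Agent.Helper32.HG.Nlift
import Pool.Agent.Helper32.HG.Two
import Pool.Agent.Helper32.HG.Shape

/-!
# Near-rectangles: the core data and the shape
-/

namespace Pool.Agent.Helper32.HG

open Finset MvPolynomial
open scoped Classical

variable {n r b j : ℕ}

/-- near-rectangles -/
theorem core_ndat (h : NDat n r b j) : Core n (tr n (ns r b j)) := by
  have hfac : (r.factorial : RatFunc ℚ) ≠ 0 := by exact_mod_cast r.factorial_ne_zero
  have hq2 : ∀ j : ℕ, 0 < j → 1 + q1 ^ j ≠ 0 := fun j _ => one_add_ne j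
  obtain ⟨f, hfw, hfP, hforth⟩ := nr_lift h.r1 h.b1 h.jr h.hn q1 q1_ne hq2
  have hP : Psi n (RatFunc ℚ) f = (r.factorial : RatFunc ℚ) •
      ∑ μ ∈ parts n, Nc2 n r j ((b : ℤ) + 2 * r - 1) (fun k => q1 ^ k) μ • schur n _ μ := by
    rw [hfP, ← NF_eq h (fun k => q1 ^ k)]
    exact balf_fold (alt_Sd (n := n) (K := RatFunc ℚ) (L := r + r)) (fun k : ℤ => q1 ^ k)
      ((b : ℤ) + 2 * r - 1) j
  refine ⟨Nc2 n r j ((b : ℤ) + 2 * r - 1) (fun k => q1 ^ k),
    (r.factorial : RatFunc ℚ)⁻¹ • f, hfw.smul _, ?_, ?_, ?_, ?_, ?_⟩
  · rw [map_smul, hP, smul_smul, inv_mul_cancel₀ hfac, one_smul]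
  · intro μ _ hμ
    exact Nc2_dom h _ μ hμ
  · intro ν hν g hg
    rw [bf_smul_right, hforth ν g (more_parts h hν) hg, mul_zero]
  · rw [Nc2_lead h, Nlead_prod h q1 q1_ne]
    apply mul_ne_zero
    · exact zpow_ne_zero _ q1_ne
    · rw [prod_ne_zero_iff]
      intro i _
      apply one_sub_ne
      have := i.isLt
      omega
  · intro μ _
    obtain ⟨R0, hR0⟩ := Ncell h q1 q1_ne
    rw [aev_eq] at hR0
    obtain ⟨R1, hR1⟩ := Nc2_pos q1 q1_ne h μ
    rw [aev_eq] at hR1
    refine ⟨R0 * R1, ?_⟩
    rw [Nc2_lead h, hR0, aev_mul]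
    linear_combination (aev q1 R0 * ∏ i : Fin r, (q1 ^ (i.val : ℤ) -
      q1 ^ ((ns r b j i.val : ℤ) + 2 * r - 1 - i.val))) * hR1

/-- partitions whose nonzero parts differ by at most one -/
theorem exists_ndat {lam : Fin n → ℕ} (hlam : lam ∈ parts n) (hn : 0 < n)
    (hd : ∀ i k : Fin n, lam k ≠ 0 → lam i ≤ lam k + 1) :
    ∃ r b j : ℕ, NDat n r b j ∧ lam = tr n (ns r b j) := by
  obtain ⟨ha, hs⟩ := (mem_parts lam).1 hlam
  set r := (univ.filter (fun i : Fin n => lam i ≠ 0)).card with hr
  have hlow : ∀ i : Fin n, lam i ≠ 0 ↔ i.val < r := fun i => lower_set ha i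
  have hrn : r ≤ n := by
    have := card_filter_le (univ : Finset (Fin n)) (fun i : Fin n => lam i ≠ 0)
    rw [card_univ, Fintype.card_fin] at this
    exact this
  have hr1 : 1 ≤ r := by
    by_contra hcon
    have h0 : ∑ i, lam i = 0 := by
      apply sum_eq_zero
      intro i _
      by_contra h
      have := (hlow i).1 h
      omega
    omega
  set p : Fin n := ⟨r - 1, by omega⟩ with hp
  set b := lam p with hb
  have hb0 : b ≠ 0 := (hlow p).2 (by show r - 1 < r; omega)
  have hge : ∀ i : Fin n, i.val < r → b ≤ lam i := by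
    intro i hi
    apply ha
    rw [Fin.le_def]
    show i.val ≤ r - 1
    omega
  have hle : ∀ i : Fin n, lam i ≤ b + 1 := fun i => hd i p hb0
  set j := (univ.filter (fun i : Fin n => lam i = b + 1)).card with hj
  have hjl : ∀ i : Fin n, lam i = b + 1 ↔ i.val < j := by
    intro i
    constructor
    · intro h
      have h1 : (univ.filter (fun k : Fin n => k.val < i.val + 1)) ⊆
          univ.filter (fun i : Fin n => lam i = b + 1) := by
        intro k hk
        rw [mem_filter] at hk ⊢
        refine ⟨mem_univ _, ?_⟩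
        have h2 := ha (show k ≤ i by rw [Fin.le_def]; omega)
        have h3 := hle k
        omega
      have h2 := card_le_card h1
      rw [card_lt (i.val + 1) (by have := i.isLt; omega)] at h2
      omega
    · intro h
      by_contra h0
      have h1 : univ.filter (fun i : Fin n => lam i = b + 1) ⊆
          univ.filter (fun k : Fin n => k.val < i.val) := by
        intro k hk
        rw [mem_filter] at hk ⊢
        refine ⟨mem_univ _, ?_⟩
        by_contra hcon
        have h2 := ha (show i ≤ k by rw [Fin.le_def]; omega)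
        have h3 := hle i
        have h4 := hk.2
        omega
      have h2 := card_le_card h1
      rw [card_lt i.val (by have := i.isLt; omega)] at h2
      omega
  have hjr : j ≤ r := by
    have h1 : univ.filter (fun i : Fin n => lam i = b + 1) ⊆
        univ.filter (fun i : Fin n => lam i ≠ 0) := by
      intro k hk
      rw [mem_filter] at hk ⊢
      exact ⟨mem_univ _, by omega⟩
    exact card_le_card h1
  have hval : ∀ i : Fin n, lam i = ns r b j i.val := by
    intro i
    unfold ns
    by_cases h1 : i.val < j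
    · rw [if_pos h1]
      exact (hjl i).2 h1
    · rw [if_neg h1]
      have h2 : lam i ≠ b + 1 := fun h3 => h1 ((hjl i).1 h3)
      by_cases h3 : i.val < r
      · rw [if_pos h3]
        have h4 := hge i h3
        have h5 := hle i
        omega
      · rw [if_neg h3]
        by_contra h4
        exact h3 ((hlow i).1 h4)
  have hnn : n = r * b + j := by
    have h1 : ∑ i : Fin n, lam i = ∑ k ∈ range n, ns r b j k := by
      rw [sum_congr rfl (fun i _ => hval i)]
      exact Fin.sum_univ_eq_sum_range (ns r b j) n
    have h2 : ∑ k ∈ range n, ns r b j k = ∑ k ∈ range r, ns r b j k := by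
      symm
      apply sum_subset
      · intro k hk
        rw [mem_range] at hk ⊢
        omega
      · intro k _ hk
        rw [mem_range] at hk
        unfold ns
        rw [if_neg (by omega), if_neg (by omega)]
    have h3 : ∑ k ∈ range r, ns r b j k = r * b + j := by
      have h4 : ∀ k ∈ range r, ns r b j k = b + if k < j then 1 else 0 := by
        intro k hk
        rw [mem_range] at hk
        unfold ns
        by_cases h5 : k < j
        · simp [h5]
        · simp [h5, hk]
      rw [sum_congr rfl h4, sum_add_distrib, sum_const, card_range, smul_eq_mul, ← sum_filter]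
      congr 1
      have h6 : (range r).filter (fun i => i < j) = range j := by
        ext i
        rw [mem_filter, mem_range, mem_range]
        omega
      rw [h6, sum_const, card_range]
      simp
    rw [hs, h2, h3] at h1
    exact h1
  exact ⟨r, b, j, ⟨hr1, by omega, hjr, hnn⟩, funext hval⟩

end Pool.Agent.Helper32.HG
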